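import Pool.Agent.SQ.BO.AsmH

/-!
# SQ/U: Theorem H from the independence of all pairs

`K` is a subgroup of a Poincare duality group of dimension `n`, locally indicable, with a skew field over the field with two
elements in which all pairs are independent, and with the comparison of the vanishing statements.  Then `b_i(K) = 0` for `2 * i > n`.
-/

set_option autoImplicit false

open scoped TensorProduct

noncomputable section

namespace SQ.BO

open Singer Singer.Ord SQ.T3 SQ.HH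

section op
variable {K : Type} [Group K] {E : Type} [DivisionRing E] {ρ : K →* Eˣ}

/-- the opposite of an element of the division closure -/
theorem unop_mem_cl {N : Subgroup K} {x : Eᵐᵒᵖ} (hx : x ∈ cl (opr ρ) N) : x.unop ∈ cl ρ N := by
  refine Subfield.closure_induction (p := fun y _ => y.unop ∈ cl ρ N) ?_ ?_ ?_ ?_ ?_ ?_ hx
  · rintro _ ⟨g, hg, rfl⟩
    show (MulOpposite.op ((ρ g⁻¹ : Eˣ) : E)).unop ∈ cl ρ N
    rw [MulOpposite.unop_op]
    exact T3.mem_cl ρ (N.inv_mem hg)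
  · rw [MulOpposite.unop_one]
    exact one_mem _
  · intro a b _ _ ha hb
    rw [MulOpposite.unop_add]
    exact add_mem ha hb
  · intro a _ ha
    rw [MulOpposite.unop_neg]
    exact neg_mem ha
  · intro a _ ha
    rw [MulOpposite.unop_inv]
    exact inv_mem ha
  · intro a b _ _ ha hb
    rw [MulOpposite.unop_mul]
    exact mul_mem hb ha

/-- conjugation by an element which normalizes -/
theorem conj_mem_cl {N : Subgroup K} {g : K} (hg : ∀ h ∈ N, g * h * g⁻¹ ∈ N) {x : E} (hx : x ∈ cl ρ N) :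
    ((ρ g : Eˣ) : E) * x * ((ρ g⁻¹ : Eˣ) : E) ∈ cl ρ N := by
  have hinv : ((ρ g⁻¹ : Eˣ) : E) * ((ρ g : Eˣ) : E) = 1 := by
    rw [← Units.val_mul, ← map_mul, inv_mul_cancel, map_one, Units.val_one]
  have hinv' : ((ρ g : Eˣ) : E) * ((ρ g⁻¹ : Eˣ) : E) = 1 := by
    rw [← Units.val_mul, ← map_mul, mul_inv_cancel, map_one, Units.val_one]
  refine Subfield.closure_induction (p := fun x _ => ((ρ g : Eˣ) : E) * x * ((ρ g⁻¹ : Eˣ) : E) ∈ cl ρ N) ?_ ?_ ?_ ?_ ?_ ?_ hx
  · rintro _ ⟨h, hh, rfl⟩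
    show ((ρ g : Eˣ) : E) * ((ρ h : Eˣ) : E) * ((ρ g⁻¹ : Eˣ) : E) ∈ cl ρ N
    rw [← Units.val_mul, ← Units.val_mul, ← map_mul, ← map_mul]
    exact T3.mem_cl ρ (hg h hh)
  · rw [mul_one, hinv']
    exact one_mem _
  · intro a b _ _ ha hb
    rw [mul_add, add_mul]
    exact add_mem ha hb
  · intro a _ ha
    rw [mul_neg, neg_mul]
    exact neg_mem ha
  · intro a _ ha
    have h1 : ((ρ g : Eˣ) : E) * a⁻¹ * ((ρ g⁻¹ : Eˣ) : E) = (((ρ g : Eˣ) : E) * a * ((ρ g⁻¹ : Eˣ) : E))⁻¹ := by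
      rw [mul_inv_rev, mul_inv_rev]
      have h2 : (((ρ g⁻¹ : Eˣ) : E))⁻¹ = ((ρ g : Eˣ) : E) := inv_eq_of_mul_eq_one_right hinv
      have h3 : (((ρ g : Eˣ) : E))⁻¹ = ((ρ g⁻¹ : Eˣ) : E) := inv_eq_of_mul_eq_one_right hinv'
      rw [h2, h3, mul_assoc]
    rw [h1]
    exact inv_mem ha
  · intro a b _ _ ha hb
    have h1 : ((ρ g : Eˣ) : E) * (a * b) * ((ρ g⁻¹ : Eˣ) : E) =
        (((ρ g : Eˣ) : E) * a * ((ρ g⁻¹ : Eˣ) : E)) * (((ρ g : Eˣ) : E) * b * ((ρ g⁻¹ : Eˣ) : E)) := by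
      calc ((ρ g : Eˣ) : E) * (a * b) * ((ρ g⁻¹ : Eˣ) : E)
          = ((ρ g : Eˣ) : E) * a * (((ρ g⁻¹ : Eˣ) : E) * ((ρ g : Eˣ) : E)) * b * ((ρ g⁻¹ : Eˣ) : E) := by
            rw [hinv, mul_one, mul_assoc ((ρ g : Eˣ) : E) a b]
        _ = _ := by simp only [mul_assoc]
    rw [h1]
    exact mul_mem ha hb

/-- all pairs are independent in the opposite skew field -/
theorem AllInd.op (hI : AllInd ρ) : AllInd (opr ρ) := by
  classical
  intro H N t hz c hc h0
  -- the transported coefficients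
  let e : ℤ → E := fun v => ((ρ (t ^ v) : Eˣ) : E) * (c (-v)).unop * ((ρ (t ^ v)⁻¹ : Eˣ) : E)
  have he : ∀ v, e v ∈ cl ρ N := fun v => conj_mem_cl (fun h hh => hz.conj _ (H.zpow_mem hz.mem v) h hh)
    (unop_mem_cl (hc (-v)))
  have he0 : ∀ v, e v = 0 → c (-v) = 0 := by
    intro v hv
    have h1 : (c (-v)).unop = 0 := by
      have h2 : ((ρ (t ^ v) : Eˣ) : E) * (c (-v)).unop = 0 := by
        rcases mul_eq_zero.1 hv with h3 | h3
        · exact h3
        · exact absurd h3 (Units.ne_zero _)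
      rcases mul_eq_zero.1 h2 with h3 | h3
      · exact absurd h3 (Units.ne_zero _)
      · exact h3
    exact MulOpposite.unop_injective h1
  let c' : ℤ →₀ E := Finsupp.onFinset (c.support.map (Equiv.neg ℤ).toEmbedding) e (by
    intro v hv
    rw [Finset.mem_map]
    refine ⟨-v, Finsupp.mem_support_iff.2 fun h => hv ?_, by simp⟩
    show ((ρ (t ^ v) : Eˣ) : E) * (c (-v)).unop * ((ρ (t ^ v)⁻¹ : Eˣ) : E) = 0
    rw [h, MulOpposite.unop_zero, mul_zero, zero_mul])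
  have hc' : ∀ v, c' v = e v := fun v => rfl
  have hsum : (c'.sum fun u x => x * ((ρ t ^ u : Eˣ) : E)) = 0 := by
    have h1 : (c'.sum fun u x => x * ((ρ t ^ u : Eˣ) : E)) =
        ∑ v ∈ c.support.map (Equiv.neg ℤ).toEmbedding, c' v * ((ρ t ^ v : Eˣ) : E) :=
      Finsupp.sum_of_support_subset _ (Finsupp.support_onFinset_subset) _ (fun v _ => zero_mul _)
    rw [h1, Finset.sum_map]
    have h2 := congrArg MulOpposite.unop h0
    have h2' : (c.sum fun u x => x * ((opr ρ t ^ u : (Eᵐᵒᵖ)ˣ) : Eᵐᵒᵖ)).unop =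
        ∑ u ∈ c.support, (c u * ((opr ρ t ^ u : (Eᵐᵒᵖ)ˣ) : Eᵐᵒᵖ)).unop :=
      map_sum (MulOpposite.opAddEquiv (α := E)).symm _ _
    rw [h2', MulOpposite.unop_zero] at h2
    rw [← h2]
    refine Finset.sum_congr rfl fun u _ => ?_
    show e (-u) * ((ρ t ^ (-u) : Eˣ) : E) = (c u * ((opr ρ t ^ u : (Eᵐᵒᵖ)ˣ) : Eᵐᵒᵖ)).unop
    rw [MulOpposite.unop_mul]
    have h3 : (((opr ρ t ^ u : (Eᵐᵒᵖ)ˣ) : Eᵐᵒᵖ)).unop = ((ρ (t ^ u)⁻¹ : Eˣ) : E) := by
      rw [← map_zpow]
      rfl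
    rw [h3]
    show ((ρ (t ^ (-u)) : Eˣ) : E) * (c (- -u)).unop * ((ρ (t ^ (-u))⁻¹ : Eˣ) : E) * ((ρ t ^ (-u) : Eˣ) : E) = _
    rw [← map_zpow, mul_assoc, ← Units.val_mul, ← map_mul, inv_mul_cancel, map_one, Units.val_one, mul_one, neg_neg, zpow_neg]
  have h1 := hI H N t hz c' (fun v => by rw [hc']; exact he v) hsum
  ext u
  have h2 : e (-u) = 0 := by rw [← hc', h1]; rfl
  have h3 := he0 (-u) h2
  rw [neg_neg] at h3
  rw [h3]
  rfl

end op

section ind
variable {K : Type} [Group K] {E : Type} [DivisionRing E] {ρ : K →* Eˣ}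

/-- the powers of `t` are in different cosets -/
theorem AllCos.allInd (hC : AllCos ρ) : AllInd ρ := by
  classical
  intro H N t hz c hc h0
  -- the powers of `t` as a finite set
  have hinj : ∀ u v : ℤ, t ^ u = t ^ v → u = v := by
    intro u v h
    have h1 : t ^ (u - v) ∈ N := by rw [zpow_sub, h, mul_inv_cancel]; exact N.one_mem
    have := hz.inf _ h1
    omega
  let F : K → E := fun k => if h : ∃ u : ℤ, t ^ u = k then c h.choose else 0
  have hF : ∀ u, F (t ^ u) = c u := by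
    intro u
    have h : ∃ v : ℤ, t ^ v = t ^ u := ⟨u, rfl⟩
    show (if h : ∃ v : ℤ, t ^ v = t ^ u then c h.choose else 0) = c u
    rw [dif_pos h, hinj _ _ h.choose_spec]
  have h1 := hC N H hz.le (c.support.image fun u : ℤ => t ^ u) F (fun g hg => by
      obtain ⟨u, _, rfl⟩ := Finset.mem_image.1 hg
      exact H.zpow_mem hz.mem u) (fun g hg g' hg' h => by
      obtain ⟨u, _, rfl⟩ := Finset.mem_image.1 hg
      obtain ⟨v, _, rfl⟩ := Finset.mem_image.1 hg'
      rw [← zpow_neg, ← zpow_add] at h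
      have := hz.inf _ h
      rw [show u = v by omega]) (fun g hg => by
      obtain ⟨u, _, rfl⟩ := Finset.mem_image.1 hg
      rw [hF]
      exact hc u) (by
      rw [Finset.sum_image fun u _ v _ h => hinj u v h, ← h0, Finsupp.sum]
      refine Finset.sum_congr rfl fun u _ => ?_
      rw [hF, map_zpow])
  ext u
  by_cases hu : u ∈ c.support
  · have h2 := h1 _ (Finset.mem_image.2 ⟨u, hu, rfl⟩)
    rw [hF] at h2
    rw [h2]
    rfl
  · rw [Finsupp.notMem_support_iff.1 hu]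
    rfl

end ind

/-- pairs of the image of a subgroup -/
theorem zp_comap {K L : Type} [Group K] [Group L] (a : L →* K) (ha : Function.Injective a) {S : Subgroup L}
    {N : Subgroup K} {t : K} (h : ZP (S.map a) N t) : ∃ s : L, ZP S (N.comap a) s := by
  obtain ⟨s, hs, rfl⟩ := h.mem
  refine ⟨s, ?_, hs, fun g hg x hx => ?_, fun g hg => ?_, fun n hn => ?_⟩
  · intro x hx
    obtain ⟨y, hy, hyx⟩ := h.le hx
    rwa [← ha hyx]
  · show a (g * x * g⁻¹) ∈ N
    rw [map_mul, map_mul, map_inv]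
    exact h.conj _ ⟨g, hg, rfl⟩ _ hx
  · obtain ⟨n, hn⟩ := h.gen _ ⟨g, hg, rfl⟩
    refine ⟨n, ?_⟩
    show a (g * s ^ (-n)) ∈ N
    rw [map_mul, map_zpow]
    exact hn
  · refine h.inf n ?_
    rw [← map_zpow]
    exact hn

/-- subgroups of groups with pairs -/
theorem zp_of_injective {K L : Type} [Group K] [Group L] (a : L →* K) (ha : Function.Injective a)
    (hLI : ∀ S : Subgroup K, S.FG → S ≠ ⊥ → ∃ (N : Subgroup K) (t : K), ZP S N t) :
    ∀ S : Subgroup L, S.FG → S ≠ ⊥ → ∃ (N : Subgroup L) (t : L), ZP S N t := by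
  intro S hS hne
  have hfg : (S.map a).FG := by
    classical
    obtain ⟨s, hs⟩ := hS
    exact ⟨s.image a, by rw [Finset.coe_image, ← MonoidHom.map_closure, hs]⟩
  obtain ⟨N, t, h⟩ := hLI (S.map a) hfg (fun h0 => hne ((Subgroup.map_eq_bot_iff_of_injective S ha).1 h0))
  obtain ⟨s, hs⟩ := zp_comap a ha h
  exact ⟨_, s, hs⟩

/-- **two embeddings in a locally indicable group with independent pairs**: the tensor product of the two modules has no
homology -/
theorem pair_of_ind {K : Type} [Group K] (hLI : ∀ S : Subgroup K, S.FG → S ≠ ⊥ → ∃ (N : Subgroup K) (t : K), ZP S N t)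
    {D : Type} [DivisionRing D] [Algebra (ZMod 2) D] (σ : K →* Dˣ) (hI : AllInd σ) {L : Type} [Group L] (a b : L →* K)
    (ha : Function.Injective a) (hb : Function.Injective b) {Γ : Type} [Group Γ] (l : L →* Γ) (hl : Function.Injective l)
    (R : FinRes Γ) (j : ℕ) : HV l ((lmul (σ.comp a)).tprod (lmul (σ.comp b))) R j := by
  have h1 : AllInd (opr (sρ (σ.comp a))) := ((emb_val σ a).allInd ha hI).op
  have h2 : AllInd (sρ (σ.comp b)) := (emb_val σ b).allInd hb hI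
  have hloc : T5.Loc (opr (sρ (σ.comp a))) (sρ (σ.comp b)) := loc_of_allInd (zp_of_injective a ha hLI) h1 h2
  refine HV_SF l (σ.comp a) (σ.comp b) R j (HV_ten l _ _ R j ?_)
  exact torF Γ L l hl _ _ (opr (sρ (σ.comp a))) (sρ (σ.comp b)) (cl_opr_top (cl_top _)) (cl_top _) (allFam_of_loc hloc)
    (allCos_of_loc hloc) R j

/-- **Theorem H**, abstract form -/
theorem vanE_sub_of_ind {Γ : Type} [Group Γ] {n : ℕ} (hn : IsPD n Γ) (K : Subgroup Γ)
    (hLI : ∀ S : Subgroup K, S.FG → S ≠ ⊥ → ∃ (N : Subgroup K) (t : K), ZP S N t)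
    {D : Type} [DivisionRing D] [Algebra (ZMod 2) D] (ρ : K →* Dˣ) (hI : AllInd ρ) (R : FinRes K) (i : ℕ)
    (hcmp : Ex (lmul ρ) R i → R.VanE i) (hi : n < 2 * i) : R.VanE i := by
  obtain ⟨S⟩ := exists_finRes_of_isPD hn
  have h1 : ∀ j, HV (MonoidHom.id Γ) ((indr (lmul (opr ρ))).tprod (indr (lmul (opr ρ)))) S j := by
    intro j
    refine mackey Γ K _ _ S j fun L a b ha hb => ?_
    exact pair_of_ind hLI (opr ρ) hI.op a b ha hb L.subtype L.subtype_injective S j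
  have h2 : ∀ j, j < n → Ex ((indr (lmul (opr ρ))).tprod (indr (lmul (opr ρ)))) S j := by
    intro j hj
    refine (pd _ n hn S).1 j hj.le ?_
    obtain ⟨k, hk⟩ : ∃ k, n - j = k + 1 := ⟨n - j - 1, by omega⟩
    rw [hk]
    exact (hv_iff_exH Γ _ _ S k).1 (h1 k)
  have h3 : ∀ m, 2 * m < n → Ex (indr (lmul (opr ρ))) S m := fun m hm =>
    lem Γ (noInv Γ n hn) S _ _ m fun j hj => h2 j (by omega)
  have h4 : ExH (indr (lmul (opr ρ))) S i := by
    by_cases hin : i ≤ n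
    · have h5 := ((pd_iff (indr (lmul (opr ρ))) n hn S).1 (n - i) (by omega)).1 (h3 (n - i) (by omega))
      rwa [show n - (n - i) = i by omega] at h5
    · exact (pd_iff (indr (lmul (opr ρ))) n hn S).2.2 i (by omega)
  refine hcmp ((dua_op ρ R i).1.1 ?_)
  obtain ⟨k, hk⟩ : ∃ k, i = k + 1 := ⟨i - 1, by omega⟩
  rw [hk] at h4 ⊢
  refine (hv_iff_exH K _ _ R k).1 (SQ.HH.cmp Γ K K.subtype K.subtype_injective _ _ S R k (shapiro Γ K _ _ S k ?_))
  exact (hv_iff_exH Γ _ _ S k).2 h4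

end SQ.BO
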