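import Pool.Agent.SQ.U.Coef

/-!
# Coefficient rings without the action of the automorphisms

`CoefW K`: a ring `R` which contains the group `K`, in which the elements which are not divisible by 2 are exactly the units, with
subrings `sub N` for the subgroups, closed under the inverses of units and under halving, such that the cosets of `N` are
independent over `sub N` modulo 2.
-/

set_option autoImplicit false

noncomputable section

namespace SQ.U

/-- the coefficient ring, without the action of the automorphisms -/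
structure CoefW (K : Type) [Group K] where
  R : Type
  [ring : Ring R]
  /-- the group in the ring -/
  l : K →* Rˣ
  half : ∀ x : R, IsUnit x ∨ ∃ y, x = 2 * y
  tf : ∀ x : R, 2 * x = 0 → x = 0
  one : ∀ y : R, (1 : R) ≠ 2 * y
  sep : ∀ x : R, (∀ k : ℕ, ∃ y, x = 2 ^ k * y) → x = 0
  /-- the elements over the subgroups -/
  sub : Subgroup K → Subring R
  mem_sub : ∀ (N : Subgroup K), ∀ a ∈ N, ((l a : Rˣ) : R) ∈ sub N
  sub_inv : ∀ (N : Subgroup K) (u : Rˣ), (u : R) ∈ sub N → ((u⁻¹ : Rˣ) : R) ∈ sub N
  sub_half : ∀ (N : Subgroup K) (y : R), 2 * y ∈ sub N → y ∈ sub N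
  sub_mono : ∀ N N' : Subgroup K, N ≤ N' → sub N ≤ sub N'
  cosets : ∀ (N : Subgroup K) {ι : Type} (T : Finset ι) (g : ι → K) (x : ι → R),
    (∀ i ∈ T, ∀ j ∈ T, i ≠ j → g i * (g j)⁻¹ ∉ N) → (∀ i ∈ T, x i ∈ sub N) →
    (∃ y, ∑ i ∈ T, x i * ((l (g i) : Rˣ) : R) = 2 * y) → ∀ i ∈ T, ∃ y, x i = 2 * y

attribute [instance] CoefW.ring

/-- a coefficient ring, without the action -/
def Coef.toW {K : Type} [Group K] (C : Coef K) : CoefW K where
  R := C.R
  l := C.l
  half := C.half
  tf := C.tf
  one := C.one
  sep := C.sep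
  sub := C.sub
  mem_sub := C.mem_sub
  sub_inv := C.sub_inv
  sub_half := C.sub_half
  sub_mono := C.sub_mono
  cosets := C.cosets

end SQ.U
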