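import Pool.Agent.SQ.BO.Defs
import Pool.Agent.SQ.T5.Li

/-!
# SQ/U, row U4: extensions of bi-orderable groups by amenable locally indicable groups

* `AL A`: `A` is amenable and locally indicable;
* `InC Q`: `Q` has a homomorphism onto a bi-orderable group with kernel in `AL`; closed under finite products;
* `ResC K`: every nontrivial element of `K` has a nontrivial image in some group in the class;
* `sec`, `alp`, `th`: section, cocycle, and the action of the quotient (up to inner automorphisms) on the kernel.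
-/

set_option autoImplicit false

noncomputable section

namespace SQ.BO

/-! ### bi-orderable groups -/

theorem BiOrd.of_injective {K K' : Type} [Group K] [Group K'] (h : BiOrd K) (f : K' →* K) (hf : Function.Injective f) :
    BiOrd K' := by
  obtain ⟨lo, h1, h2⟩ := h
  refine ⟨LinearOrder.lift' f hf, fun a b d hab => ?_, fun a b d hab => ?_⟩
  · show f (d * a) ≤ f (d * b)
    rw [map_mul, map_mul]
    exact h1 _ _ _ hab
  · show f (a * d) ≤ f (b * d)
    rw [map_mul, map_mul]
    exact h2 _ _ _ hab

theorem BiOrd.unit : BiOrd Unit := ⟨inferInstance, fun _ _ _ _ => le_rfl, fun _ _ _ _ => le_rfl⟩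

theorem BiOrd.prod {K K' : Type} [Group K] [Group K'] (h : BiOrd K) (h' : BiOrd K') : BiOrd (K × K') := by
  obtain ⟨lo, h1, h2⟩ := h
  obtain ⟨lo', h1', h2'⟩ := h'
  let e : K × K' → K ×ₗ K' := toLex
  have he : Function.Injective e := toLex.injective
  refine ⟨LinearOrder.lift' e he, fun a b d hab => ?_, fun a b d hab => ?_⟩
  · have hab' : e a ≤ e b := hab
    show e (d * a) ≤ e (d * b)
    rw [Prod.Lex.toLex_le_toLex] at hab' ⊢
    rcases hab' with h3 | ⟨h3, h4⟩
    · left
      refine lt_of_le_of_ne (h1 _ _ _ h3.le) fun h5 => h3.ne (mul_left_cancel h5)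
    · right
      exact ⟨congrArg (d.1 * ·) h3, h1' _ _ _ h4⟩
  · have hab' : e a ≤ e b := hab
    show e (a * d) ≤ e (b * d)
    rw [Prod.Lex.toLex_le_toLex] at hab' ⊢
    rcases hab' with h3 | ⟨h3, h4⟩
    · left
      refine lt_of_le_of_ne (h2 _ _ _ h3.le) fun h5 => h3.ne (mul_right_cancel h5)
    · right
      exact ⟨congrArg (· * d.1) h3, h2' _ _ _ h4⟩

theorem BiOrd.pi {n : ℕ} {K : Fin n → Type} [∀ i, Group (K i)] (h : ∀ i, BiOrd (K i)) : BiOrd (∀ i, K i) := by
  induction n with
  | zero => exact BiOrd.unit.of_injective 1 fun x y _ => funext fun i => i.elim0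
  | succ n ih =>
    refine ((h 0).prod (ih fun i => h i.succ)).of_injective
      { toFun := fun f => (f 0, fun i => f i.succ)
        map_one' := rfl
        map_mul' := fun f g => rfl } ?_
    intro f g hfg
    have h2 : ∀ i : Fin n, f i.succ = g i.succ := fun i => congrFun (congrArg Prod.snd hfg) i
    funext i
    refine Fin.cases (congrArg Prod.fst hfg) h2 i

end SQ.BO

namespace SQ.U

open SQ.T3 SQ.T5 SQ.BO

/-- amenable and locally indicable groups -/
structure AL (A : Type) [Group A] : Prop where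
  foe : Foe A
  li : LI A

theorem AL.congr {A A' : Type} [Group A] [Group A'] (h : AL A) (e : A ≃* A') : AL A' :=
  ⟨h.foe.congr e, h.li.of_injective e.symm.toMonoidHom e.symm.injective⟩

theorem AL.pi {n : ℕ} {A : Fin n → Type} [∀ i, Group (A i)] (h : ∀ i, AL (A i)) : AL (∀ i, A i) :=
  ⟨foe_pi fun i => (h i).foe, LI.pi fun i => (h i).li⟩

theorem AL.subgroup {A : Type} [Group A] (h : AL A) (S : Subgroup A) : AL S :=
  ⟨foe_subgroup h.foe S, h.li.of_injective S.subtype S.subtype_injective⟩

/-- extensions of bi-orderable groups by groups in `AL` -/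
def InC (Q : Type) [Group Q] : Prop :=
  ∃ (B : Type) (_ : Group B) (p : Q →* B), BiOrd B ∧ Function.Surjective p ∧ AL p.ker

theorem InC.of_hom {Q B : Type} [Group Q] [Group B] (p : Q →* B) (hB : BiOrd B) (hp : AL p.ker) : InC Q :=
  ⟨p.range, inferInstance, p.rangeRestrict, hB.of_injective p.range.subtype p.range.subtype_injective,
    p.rangeRestrict_surjective, hp.congr (MulEquiv.subgroupCongr p.ker_rangeRestrict.symm)⟩

theorem InC.of_biOrd {Q : Type} [Group Q] (hQ : BiOrd Q) : InC Q :=
  InC.of_hom (MonoidHom.id Q) hQ ⟨foe_triv fun q => Subtype.ext q.2, fun S _ hS => absurd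
    ((Subgroup.eq_bot_iff_forall S).2 fun x _ => Subtype.ext x.2) hS⟩

theorem InC.of_al {Q : Type} [Group Q] (hQ : AL Q) : InC Q :=
  InC.of_hom (1 : Q →* Unit) BiOrd.unit (hQ.subgroup _)

theorem InC.pi {n : ℕ} {Q : Fin n → Type} [∀ i, Group (Q i)] (h : ∀ i, InC (Q i)) : InC (∀ i, Q i) := by
  choose B iB p hB _ hA using h
  let P : (∀ i, Q i) →* ∀ i, B i := MonoidHom.pi fun i => (p i).comp (Pi.evalMonoidHom Q i)
  refine InC.of_hom P (BiOrd.pi hB) ((AL.pi hA).congr ?_)
  have hmem : ∀ x : ∀ i, Q i, x ∈ P.ker ↔ ∀ i, x i ∈ (p i).ker := by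
    intro x
    rw [MonoidHom.mem_ker]
    constructor
    · intro hx i
      exact congrFun hx i
    · intro hx
      funext i
      exact hx i
  exact
    { toFun := fun x => ⟨fun i => (x i : Q i), (hmem _).2 fun i => (x i).2⟩
      invFun := fun x i => ⟨(x : ∀ i, Q i) i, (hmem _).1 x.2 i⟩
      left_inv := fun x => rfl
      right_inv := fun x => rfl
      map_mul' := fun x y => rfl }

/-- residually in the class -/
def ResC (K : Type) [Group K] : Prop :=
  ∀ g : K, g ≠ 1 → ∃ (Q : Type) (_ : Group Q) (π : K →* Q), InC Q ∧ π g ≠ 1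

/-! ### section, cocycle, action -/

section ext
variable {Q B : Type} [Group Q] [Group B] (p : Q →* B) (hp : Function.Surjective p)

open Classical in
/-- a section with `sec 1 = 1` -/
def sec (b : B) : Q := if b = 1 then 1 else Function.surjInv hp b

@[simp] theorem p_sec (b : B) : p (sec p hp b) = b := by
  unfold sec
  split
  · next h => rw [map_one, h]
  · exact Function.surjInv_eq hp b

@[simp] theorem sec_one : sec p hp 1 = 1 := if_pos rfl

/-- the cocycle -/
def alp (a b : B) : p.ker := ⟨sec p hp a * sec p hp b * (sec p hp (a * b))⁻¹, by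
  rw [MonoidHom.mem_ker, map_mul, map_mul, map_inv, p_sec, p_sec, p_sec, mul_inv_cancel]⟩

theorem alp_val (a b : B) : (alp p hp a b : Q) = sec p hp a * sec p hp b * (sec p hp (a * b))⁻¹ := rfl

theorem alp_mul (a b : B) : (alp p hp a b : Q) * sec p hp (a * b) = sec p hp a * sec p hp b := by
  rw [alp_val, inv_mul_cancel_right]

@[simp] theorem alp_one_left (b : B) : alp p hp 1 b = 1 := Subtype.ext (by
  rw [alp_val, sec_one, one_mul, one_mul, mul_inv_cancel]
  rfl)

@[simp] theorem alp_one_right (b : B) : alp p hp b 1 = 1 := Subtype.ext (by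
  rw [alp_val, sec_one, mul_one, mul_one, mul_inv_cancel]
  rfl)

/-- the conjugation with an element of `Q`, as an automorphism of the kernel -/
def cj (q : Q) : MulAut p.ker := MulAut.conjNormal q

theorem cj_val (q : Q) (x : p.ker) : (cj p q x : Q) = q * x * q⁻¹ := MulAut.conjNormal_apply q x

theorem cj_mul (q q' : Q) : cj p (q * q') = cj p q * cj p q' := map_mul _ _ _

@[simp] theorem cj_one : cj p 1 = 1 := map_one _

theorem cj_ker (a : p.ker) : cj p (a : Q) = MulAut.conj a := by
  ext x
  rw [cj_val]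
  rfl

/-- the conjugation with `sec b` -/
def th (b : B) : MulAut p.ker := cj p (sec p hp b)

@[simp] theorem th_one : th p hp 1 = 1 := by
  unfold th
  rw [sec_one, cj_one]

theorem th_mul (a b : B) : th p hp a * th p hp b = MulAut.conj (alp p hp a b) * th p hp (a * b) := by
  unfold th
  rw [← cj_ker, ← cj_mul, ← cj_mul, alp_mul]

theorem alp_cocycle (a b c : B) :
    th p hp a (alp p hp b c) * alp p hp a (b * c) = alp p hp a b * alp p hp (a * b) c := by
  refine Subtype.ext ?_
  show ((th p hp a (alp p hp b c) : p.ker) : Q) * (alp p hp a (b * c) : Q) = (alp p hp a b : Q) * (alp p hp (a * b) c : Q)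
  have h1 : ((th p hp a (alp p hp b c) : p.ker) : Q) = sec p hp a * (alp p hp b c : Q) * (sec p hp a)⁻¹ := cj_val _ _ _
  rw [h1]
  simp only [alp_val, mul_assoc, inv_mul_cancel_left]

/-- the part of `q` in the kernel: `q = fib q * sec (p q)` -/
def fib (q : Q) : p.ker := ⟨q * (sec p hp (p q))⁻¹, by
  rw [MonoidHom.mem_ker, map_mul, map_inv, p_sec, mul_inv_cancel]⟩

theorem fib_val (q : Q) : (fib p hp q : Q) = q * (sec p hp (p q))⁻¹ := rfl

theorem fib_mul_sec (q : Q) : (fib p hp q : Q) * sec p hp (p q) = q := inv_mul_cancel_right _ _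

theorem fib_ker (a : p.ker) : fib p hp (a : Q) = a := Subtype.ext (by
  have h1 : p (a : Q) = 1 := a.2
  rw [fib_val, h1, sec_one, inv_one, mul_one])

@[simp] theorem fib_sec (b : B) : fib p hp (sec p hp b) = 1 := Subtype.ext (by
  rw [fib_val, p_sec, mul_inv_cancel]
  rfl)

@[simp] theorem fib_one : fib p hp 1 = 1 := Subtype.ext (by
  rw [fib_val, map_one, sec_one, inv_one, mul_one]
  rfl)

theorem fib_mul (q q' : Q) : fib p hp (q * q') = fib p hp q * th p hp (p q) (fib p hp q') * alp p hp (p q) (p q') := by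
  refine Subtype.ext ?_
  show (fib p hp (q * q') : Q) = (fib p hp q : Q) * ((th p hp (p q) (fib p hp q') : p.ker) : Q) * (alp p hp (p q) (p q') : Q)
  have h1 : ((th p hp (p q) (fib p hp q') : p.ker) : Q) = sec p hp (p q) * (fib p hp q' : Q) * (sec p hp (p q))⁻¹ :=
    cj_val _ _ _
  rw [h1]
  simp only [alp_val, fib_val, map_mul, mul_assoc, inv_mul_cancel_left]

theorem fib_mul_left (a : p.ker) (q : Q) : fib p hp ((a : Q) * q) = a * fib p hp q := by
  have h1 : p (a : Q) = 1 := a.2
  rw [fib_mul, fib_ker, h1, th_one, alp_one_left, mul_one]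
  rfl

/-! ### coefficient rings with an action of the automorphisms -/

variable {R : Type} [Ring R] (l : p.ker →* Rˣ) (act : MulAut p.ker →* RingAut R)
  (act_l : ∀ (θ : MulAut p.ker) (a : p.ker), act θ ((l a : Rˣ) : R) = ((l (θ a) : Rˣ) : R))
  (act_conj : ∀ (a : p.ker) (x : R), act (MulAut.conj a) x = ((l a : Rˣ) : R) * x * ((l a⁻¹ : Rˣ) : R))

include act_conj in
/-- the first crossed product identity -/
theorem act_act (a b : B) (x : R) : act (th p hp a) (act (th p hp b) x) * ((l (alp p hp a b) : Rˣ) : R) =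
    ((l (alp p hp a b) : Rˣ) : R) * act (th p hp (a * b)) x := by
  have h1 : act (th p hp a) (act (th p hp b) x) = act (th p hp a * th p hp b) x := by
    rw [map_mul]
    rfl
  have h2 : act (MulAut.conj (alp p hp a b) * th p hp (a * b)) x =
      act (MulAut.conj (alp p hp a b)) (act (th p hp (a * b)) x) := by
    rw [map_mul]
    rfl
  rw [h1, th_mul, h2, act_conj, mul_assoc, ← Units.val_mul, ← map_mul, inv_mul_cancel, map_one, Units.val_one, mul_one]

include act_l in
/-- the second crossed product identity -/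
theorem act_alp (a b c : B) : act (th p hp a) ((l (alp p hp b c) : Rˣ) : R) * ((l (alp p hp a (b * c)) : Rˣ) : R) =
    ((l (alp p hp a b) : Rˣ) : R) * ((l (alp p hp (a * b) c) : Rˣ) : R) := by
  rw [act_l, ← Units.val_mul, ← Units.val_mul, ← map_mul, ← map_mul, alp_cocycle]

end ext

end SQ.U
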