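import Pool.Agent.SQ.U.Lam
import Pool.Agent.SQ.U.CoefW
import Pool.Agent.SQ.U.Grp

/-!
# The coefficient ring of an extension of a bi-orderable group

`q : Q → B` surjective, `B` bi-orderable, `C : Coef q.ker`.  `Lam (crs q hq C)` is a coefficient ring for `Q`.
-/

set_option autoImplicit false
set_option linter.unusedSectionVars false

noncomputable section

namespace SQ.U

open SQ.BO

section ext
variable {Q B : Type} [Group Q] [Group B] (q : Q →* B) (hq : Function.Surjective q) (C : Coef q.ker)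

/-- the properties of the ring -/
theorem Coef.dv {A : Type} [Group A] (C : Coef A) : DV C.R := ⟨C.half, C.tf, C.one, C.sep⟩

/-- the crossed system of the extension -/
def crs : Crs B C.R where
  σ b := (C.act (th q hq b) : C.R ≃+* C.R)
  α a b := C.l (alp q hq a b)
  σ_one r := by
    rw [th_one, map_one]
    rfl
  α_one_left g := by rw [alp_one_left, map_one]
  α_one_right g := by rw [alp_one_right, map_one]
  h1 a b r := act_act q hq C.l C.act C.act_conj a b r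
  h2 a b c := act_alp q hq C.l C.act C.act_l a b c

theorem crs_σ (b : B) (x : C.R) : (crs q hq C).σ b x = C.act (th q hq b) x := rfl

theorem crs_α (a b : B) : (crs q hq C).α a b = C.l (alp q hq a b) := rfl

/-- the action of the group elements -/
theorem act_cj (h : Q) (x : C.R) : C.act (cj q h) x =
    ((C.l (fib q hq h) : C.Rˣ) : C.R) * C.act (th q hq (q h)) x * ((C.l (fib q hq h)⁻¹ : C.Rˣ) : C.R) := by
  have h1 : cj q h = MulAut.conj (fib q hq h) * th q hq (q h) := by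
    conv_lhs => rw [← fib_mul_sec q hq h]
    rw [cj_mul, cj_ker]
    rfl
  rw [h1, map_mul]
  exact C.act_conj _ _

/-- the part of a subgroup in the kernel -/
abbrev Nk (N : Subgroup Q) : Subgroup q.ker := N.subgroupOf q.ker

theorem act_sub (N : Subgroup Q) {h : Q} (hh : h ∈ N) {x : C.R} (hx : x ∈ C.sub (Nk q N)) : C.act (cj q h) x ∈ C.sub (Nk q N) := by
  refine C.sub_mono _ _ ?_ (C.sub_act (cj q h) (Nk q N) x hx)
  rintro _ ⟨y, hy, rfl⟩
  rw [Subgroup.mem_subgroupOf]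
  have h1 : ((cj q h y : q.ker) : Q) = h * (y : Q) * h⁻¹ := cj_val q h y
  show ((cj q h y : q.ker) : Q) ∈ N
  rw [h1]
  exact N.mul_mem (N.mul_mem hh (Subgroup.mem_subgroupOf.1 hy)) (N.inv_mem hh)

/-- the coefficients of the elements over `N` -/
def gA (N : Subgroup Q) (b : B) : AddSubgroup C.R where
  carrier := {r | (∀ h ∈ N, q h = b → r * ((C.l (fib q hq h)⁻¹ : C.Rˣ) : C.R) ∈ C.sub (Nk q N)) ∧ ((∀ h ∈ N, q h ≠ b) → r = 0)}
  zero_mem' := ⟨fun h _ _ => by rw [zero_mul]; exact zero_mem _, fun _ => rfl⟩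
  add_mem' {x y} hx hy := ⟨fun h hh hb => by rw [add_mul]; exact add_mem (hx.1 h hh hb) (hy.1 h hh hb),
    fun h => by rw [hx.2 h, hy.2 h, add_zero]⟩
  neg_mem' {x} hx := ⟨fun h hh hb => by rw [neg_mul]; exact neg_mem (hx.1 h hh hb), fun h => by rw [hx.2 h, neg_zero]⟩

theorem mem_gA {N : Subgroup Q} {b : B} {r : C.R} : r ∈ gA q hq C N b ↔
    (∀ h ∈ N, q h = b → r * ((C.l (fib q hq h)⁻¹ : C.Rˣ) : C.R) ∈ C.sub (Nk q N)) ∧ ((∀ h ∈ N, q h ≠ b) → r = 0) := Iff.rfl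

theorem gA_ex {N : Subgroup Q} {b : B} {r : C.R} (h : r ∈ gA q hq C N b) (h0 : r ≠ 0) : ∃ h ∈ N, q h = b := by
  by_contra hcon
  push Not at hcon
  exact h0 (h.2 hcon)

theorem gA_mul {N : Subgroup Q} {b c : B} {r s : C.R} (hr : r ∈ gA q hq C N b) (hs : s ∈ gA q hq C N c) :
    r * (crs q hq C).σ b s * ((crs q hq C).α b c : C.R) ∈ gA q hq C N (b * c) := by
  by_cases h0 : r = 0
  · rw [h0, zero_mul, zero_mul]
    exact zero_mem _
  obtain ⟨h, hh, hb⟩ := gA_ex q hq C hr h0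
  refine ⟨fun g hg hgb => ?_, fun h1 => ?_⟩
  · have hc : q (h⁻¹ * g) = c := by
      rw [map_mul, map_inv, hb, hgb, inv_mul_cancel_left]
    have h2 := hs.1 (h⁻¹ * g) (N.mul_mem (N.inv_mem hh) hg) hc
    have h3 := mul_mem (hr.1 h hh hb) (act_sub q C N hh h2)
    have h4 : r * (crs q hq C).σ b s * ((crs q hq C).α b c : C.R) * ((C.l (fib q hq g)⁻¹ : C.Rˣ) : C.R) =
        r * ((C.l (fib q hq h)⁻¹ : C.Rˣ) : C.R) * C.act (cj q h) (s * ((C.l (fib q hq (h⁻¹ * g))⁻¹ : C.Rˣ) : C.R)) := by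
      have h5 : fib q hq g = fib q hq h * th q hq b (fib q hq (h⁻¹ * g)) * alp q hq b c := by
        have h6 := fib_mul q hq h (h⁻¹ * g)
        rwa [mul_inv_cancel_left, hb, hc] at h6
      have h7 : alp q hq b c * (fib q hq g)⁻¹ = th q hq b (fib q hq (h⁻¹ * g))⁻¹ * (fib q hq h)⁻¹ := by
        rw [h5, map_inv]
        group
      have h8 : ((C.l (alp q hq b c) : C.Rˣ) : C.R) * ((C.l (fib q hq g)⁻¹ : C.Rˣ) : C.R) =
          C.act (th q hq b) ((C.l (fib q hq (h⁻¹ * g))⁻¹ : C.Rˣ) : C.R) * ((C.l (fib q hq h)⁻¹ : C.Rˣ) : C.R) := by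
        rw [C.act_l, ← Units.val_mul, ← Units.val_mul, ← map_mul, ← map_mul, h7]
      rw [crs_σ, crs_α, act_cj q hq C, hb, map_mul]
      rw [mul_assoc, h8]
      simp only [mul_assoc]
      rw [← mul_assoc ((C.l (fib q hq h)⁻¹ : C.Rˣ) : C.R) ((C.l (fib q hq h) : C.Rˣ) : C.R), ← Units.val_mul, ← map_mul,
        inv_mul_cancel, map_one, Units.val_one, one_mul]
    rw [h4]
    exact h3
  · by_cases h2 : s = 0
    · rw [h2, map_zero, mul_zero, zero_mul]
    · obtain ⟨h', hh', hc⟩ := gA_ex q hq C hs h2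
      exact absurd (by rw [map_mul, hb, hc]) (h1 (h * h') (N.mul_mem hh hh'))

theorem gA_inv {N : Subgroup Q} {b : B} (r : C.Rˣ) (hr : (r : C.R) ∈ gA q hq C N b) :
    (((Units.map ((crs q hq C).σ b⁻¹ : C.R →* C.R) r * (crs q hq C).α b⁻¹ b)⁻¹ : C.Rˣ) : C.R) ∈ gA q hq C N b⁻¹ := by
  refine ⟨fun g hg hgb => ?_, fun h1 => ?_⟩
  · have hb : q g⁻¹ = b := by rw [map_inv, hgb, inv_inv]
    have h2 := act_sub q C N hg (hr.1 g⁻¹ (N.inv_mem hg) hb)
    have h5 : (1 : q.ker) = fib q hq g * th q hq b⁻¹ (fib q hq g⁻¹) * alp q hq b⁻¹ b := by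
      have h6 := fib_mul q hq g g⁻¹
      rwa [mul_inv_cancel, fib_one, hb, hgb] at h6
    have h7 : alp q hq b⁻¹ b = th q hq b⁻¹ (fib q hq g⁻¹)⁻¹ * (fib q hq g)⁻¹ := by
      rw [map_inv, ← mul_inv_rev]
      exact (inv_eq_of_mul_eq_one_right h5.symm).symm
    have h8 : C.act (cj q g) ((r : C.R) * ((C.l (fib q hq g⁻¹)⁻¹ : C.Rˣ) : C.R)) =
        ((C.l (fib q hq g) * (Units.map ((crs q hq C).σ b⁻¹ : C.R →* C.R) r * (crs q hq C).α b⁻¹ b) : C.Rˣ) : C.R) := by
      rw [act_cj q hq C, hgb, map_mul, C.act_l, Units.val_mul, Units.val_mul, crs_α, h7, map_mul, Units.val_mul]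
      simp only [mul_assoc]
      rfl
    rw [h8] at h2
    have h9 := C.sub_inv _ _ h2
    rw [mul_inv_rev, Units.val_mul] at h9
    rw [map_inv]
    exact h9
  · exfalso
    obtain ⟨h, hh, hb⟩ := gA_ex q hq C hr (fun h0 => C.one 0 (by
      rw [mul_zero]
      have h2 := r.mul_inv
      rwa [h0, zero_mul, eq_comm] at h2))
    exact h1 h⁻¹ (N.inv_mem hh) (by rw [map_inv, hb])

theorem gA_one (N : Subgroup Q) : (1 : C.R) ∈ gA q hq C N 1 := by
  refine ⟨fun h hh hb => ?_, fun h => absurd (map_one q) (h 1 N.one_mem)⟩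
  rw [one_mul]
  apply C.mem_sub
  rw [Subgroup.mem_subgroupOf]
  refine N.inv_mem ?_
  rw [fib_val, hb, sec_one, inv_one, mul_one]
  exact hh

/-- the graded family of a subgroup -/
def grd (N : Subgroup Q) : Grd (crs q hq C) where
  A := gA q hq C N
  one := gA_one q hq C N
  mul _ _ _ _ hr hs := gA_mul q hq C hr hs
  inv _ r hr := gA_inv q hq C r hr

theorem gA_half {N : Subgroup Q} {b : B} {r : C.R} (h : 2 * r ∈ gA q hq C N b) : r ∈ gA q hq C N b :=
  ⟨fun g hg hgb => C.sub_half _ _ (by rw [← mul_assoc]; exact h.1 g hg hgb), fun h1 => C.tf _ (h.2 h1)⟩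

theorem fib_mul_inv {g h : Q} (hgh : q g = q h) : ((fib q hq g * (fib q hq h)⁻¹ : q.ker) : Q) = g * h⁻¹ := by
  show (fib q hq g : Q) * (fib q hq h : Q)⁻¹ = g * h⁻¹
  rw [fib_val, fib_val, hgh]
  group

theorem gA_mono {N N' : Subgroup Q} (hN : N ≤ N') (b : B) : gA q hq C N b ≤ gA q hq C N' b := by
  intro r hr
  by_cases h0 : r = 0
  · rw [h0]
    exact zero_mem _
  obtain ⟨h, hh, hb⟩ := gA_ex q hq C hr h0
  refine ⟨fun g hg hgb => ?_, fun h1 => absurd hb (h1 h (hN hh))⟩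
  have h1 : r * ((C.l (fib q hq g)⁻¹ : C.Rˣ) : C.R) =
      r * ((C.l (fib q hq h)⁻¹ : C.Rˣ) : C.R) * ((C.l (fib q hq h * (fib q hq g)⁻¹) : C.Rˣ) : C.R) := by
    rw [mul_assoc, ← Units.val_mul, ← map_mul, inv_mul_cancel_left]
  rw [h1]
  refine mul_mem (C.sub_mono _ _ (Subgroup.comap_mono hN) (hr.1 h hh hb)) (C.mem_sub _ _ ?_)
  rw [Subgroup.mem_subgroupOf, fib_mul_inv q hq (by rw [hb, hgb])]
  exact N'.mul_mem (hN hh) (N'.inv_mem hg)

theorem fib_mem_gA {N : Subgroup Q} {g : Q} (hg : g ∈ N) : ((C.l (fib q hq g) : C.Rˣ) : C.R) ∈ gA q hq C N (q g) := by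
  refine ⟨fun h hh hb => ?_, fun h => absurd rfl (h g hg)⟩
  rw [← Units.val_mul, ← map_mul]
  apply C.mem_sub
  rw [Subgroup.mem_subgroupOf, fib_mul_inv q hq hb.symm]
  exact N.mul_mem hg (N.inv_mem hh)

/-! ### the group in the ring -/

section ord
variable [LinearOrder B] [MulLeftMono B] [MulRightMono B]

/-- the group elements -/
def lq (g : Q) : Lam (crs q hq C) :=
  ⟨fun k => CM.sg (q g) (qm k ((C.l (fib q hq g) : C.Rˣ) : C.R)), fun k => by rw [CM.map_sg, rd_qm]⟩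

theorem lq_co (g : Q) (k : ℕ) : Lam.co (lq q hq C g) k = CM.sg (q g) (qm k ((C.l (fib q hq g) : C.Rˣ) : C.R)) := rfl

/-- the group in the units -/
def lH : Q →* (Lam (crs q hq C))ˣ :=
  MonoidHom.toHomUnits
    { toFun := lq q hq C
      map_one' := Lam.ext' fun k => by
        rw [lq_co, map_one, fib_one, map_one, Units.val_one, map_one]
        rfl
      map_mul' := fun g h => Lam.ext' fun k => by
        rw [Lam.mul_co, lq_co, lq_co, lq_co, CM.sg_mul_sg, Crs.q_σ, Crs.q_α, map_mul q, fib_mul, crs_σ, crs_α, C.act_l]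
        simp only [map_mul, Units.val_mul] }

theorem lH_val (g : Q) : ((lH q hq C g : (Lam (crs q hq C))ˣ) : Lam (crs q hq C)) = lq q hq C g := rfl

theorem lq_mem {N : Subgroup Q} {g : Q} (hg : g ∈ N) : lq q hq C g ∈ Lam.Gr C.dv (grd q hq C N) := by
  intro k b
  rw [lq_co, CM.sg_c]
  split_ifs with h
  · exact ⟨_, by rw [h]; exact fib_mem_gA q hq C hg, rfl⟩
  · exact zero_mem _

open Classical in
/-- **the independence of the cosets** -/
theorem cosets_ext (N : Subgroup Q) {ι : Type} (T : Finset ι) (g : ι → Q) (x : ι → Lam (crs q hq C))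
    (hg : ∀ i ∈ T, ∀ j ∈ T, i ≠ j → g i * (g j)⁻¹ ∉ N) (hx : ∀ i ∈ T, x i ∈ Lam.Gr C.dv (grd q hq C N))
    (hsum : ∃ y, ∑ i ∈ T, x i * lq q hq C (g i) = 2 * y) (i₀ : ι) (hi₀ : i₀ ∈ T) : ∃ y, x i₀ = 2 * y := by
  refine Lam.exists_half C.dv (CM.ext (funext fun b => ?_))
  rw [CM.zero_c]
  set c : B := b * q (g i₀) with hc
  set β : ι → B := fun i => c * (q (g i))⁻¹ with hβ
  have hβ0 : β i₀ = b := mul_inv_cancel_right _ _
  -- the choices
  have key : ∀ i, ∃ (h : Q) (z : C.R), i ∈ T → (∃ h ∈ N, q h = β i) → h ∈ N ∧ q h = β i ∧ z ∈ C.sub (Nk q N) ∧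
      qm 0 (z * ((C.l (fib q hq h) : C.Rˣ) : C.R)) = (Lam.co (x i) 0).c (β i) := by
    intro i
    by_cases h1 : i ∈ T ∧ ∃ h ∈ N, q h = β i
    · obtain ⟨hi, h, hh, hb⟩ := h1
      obtain ⟨r, hr, hr'⟩ := hx i hi 0 (β i)
      refine ⟨h, r * ((C.l (fib q hq h)⁻¹ : C.Rˣ) : C.R), fun _ _ => ⟨hh, hb, hr.1 h hh hb, ?_⟩⟩
      rw [mul_assoc, ← Units.val_mul, ← map_mul, inv_mul_cancel, map_one, Units.val_one, mul_one]
      exact hr'
    · exact ⟨1, 0, fun h2 h3 => absurd ⟨h2, h3⟩ h1⟩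
  choose h z hhz using key
  have hzero : ∀ i ∈ T, ¬ (∃ h ∈ N, q h = β i) → (Lam.co (x i) 0).c (β i) = 0 := by
    intro i hi hne
    obtain ⟨r, hr, hr'⟩ := hx i hi 0 (β i)
    push Not at hne
    have h1 : qm 0 r = (Lam.co (x i) 0).c (β i) := hr'
    rw [← h1, hr.2 hne, map_zero]
  -- the coefficient at `c`
  have hcoef : ∑ i ∈ T, (Lam.co (x i) 0).c (β i) * (((crs q hq C).q 0).σ (β i) (qm 0 ((C.l (fib q hq (g i)) : C.Rˣ) : C.R))) *
      ((((crs q hq C).q 0).α (β i) (q (g i)) : (Rk C.R 0)ˣ) : Rk C.R 0) = 0 := by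
    obtain ⟨y, hy⟩ := hsum
    have h1 := congrArg (fun w => (Lam.coH 0 w).c c) hy
    simp only [map_sum, CM.sum_c] at h1
    have h2 : (Lam.coH 0 (2 * y)).c c = 0 := by
      rw [Lam.coH_apply, Lam.two_co]
      obtain ⟨r, hr⟩ := qm_surj 0 ((Lam.co y 0).c c)
      rw [← hr, ← map_ofNat (qm 0) 2, ← map_mul]
      exact qm_eq_zero.2 ⟨r, by rw [zero_add, pow_one]⟩
    rw [h2] at h1
    rw [← h1]
    refine Finset.sum_congr rfl fun i _ => ?_
    rw [map_mul, Lam.coH_apply, Lam.coH_apply, lq_co, CM.mul_sg_c]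
  -- the sum in the kernel
  set T' := T.filter fun i => ∃ h ∈ N, q h = β i with hT'
  have hT'm : ∀ i ∈ T', i ∈ T ∧ ∃ h ∈ N, q h = β i := fun i hi => Finset.mem_filter.1 hi
  have hsum' : ∃ y, ∑ i ∈ T', z i * ((C.l (fib q hq (h i * g i)) : C.Rˣ) : C.R) = 2 * y := by
    have h1 : qm 0 (∑ i ∈ T', z i * ((C.l (fib q hq (h i * g i)) : C.Rˣ) : C.R)) = 0 := by
      rw [map_sum, ← hcoef, hT', Finset.sum_filter]
      refine Finset.sum_congr rfl fun i hi => ?_
      split_ifs with hex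
      · obtain ⟨h2, h3, -, h4⟩ := hhz i hi hex
        rw [← h4, Crs.q_σ, Crs.q_α, crs_σ, crs_α, C.act_l, fib_mul, h3]
        simp only [map_mul, Units.val_mul, mul_assoc]
      · rw [hzero i hi hex, zero_mul, zero_mul]
    obtain ⟨y, hy⟩ := qm_eq_zero.1 h1
    exact ⟨y, by rw [hy, zero_add, pow_one]⟩
  by_cases hex : ∃ h ∈ N, q h = β i₀
  · obtain ⟨y, hy⟩ := C.cosets (Nk q N) T' (fun i => fib q hq (h i * g i)) z (by
      intro i hi j hj hij hmem
      obtain ⟨hiT, hi'⟩ := hT'm i hi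
      obtain ⟨hjT, hj'⟩ := hT'm j hj
      obtain ⟨hhi, hbi, -, -⟩ := hhz i hiT hi'
      obtain ⟨hhj, hbj, -, -⟩ := hhz j hjT hj'
      rw [Subgroup.mem_subgroupOf, fib_mul_inv q hq (by
        rw [map_mul, map_mul, hbi, hbj, inv_mul_cancel_right, inv_mul_cancel_right])] at hmem
      refine hg i hiT j hjT hij ?_
      have h1 := N.mul_mem (N.mul_mem (N.inv_mem hhi) hmem) hhj
      have e : (h i)⁻¹ * (h i * g i * (h j * g j)⁻¹) * h j = g i * (g j)⁻¹ := by group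
      rwa [e] at h1)
      (fun i hi => (hhz i (hT'm i hi).1 (hT'm i hi).2).2.2.1) hsum' i₀ (Finset.mem_filter.2 ⟨hi₀, hex⟩)
    have h1 := (hhz i₀ hi₀ hex).2.2.2
    rw [hβ0] at h1
    rw [← h1, hy, mul_assoc]
    exact qm_eq_zero.2 ⟨_, by rw [zero_add, pow_one]⟩
  · have h1 := hzero i₀ hi₀ hex
    rwa [hβ0] at h1

end ord

end ext

/-- **the coefficient ring of an extension of a bi-orderable group** -/
theorem exists_coefW_ext {Q B : Type} [Group Q] [Group B] (q : Q →* B) (hq : Function.Surjective q) (hB : BiOrd B)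
    (C : Coef q.ker) : Nonempty (CoefW Q) := by
  obtain ⟨lo, hl, hr⟩ := hB
  have : MulLeftMono B := ⟨fun d a b h => hl a b d h⟩
  have : MulRightMono B := ⟨fun d a b h => hr a b d h⟩
  have d : DV (Lam (crs q hq C)) := Lam.dv C.dv
  exact ⟨
    { R := Lam (crs q hq C)
      l := lH q hq C
      half := d.half
      tf := d.tf
      one := d.one
      sep := d.sep
      sub := fun N => Lam.Gr C.dv (grd q hq C N)
      mem_sub := fun N a ha => lq_mem q hq C ha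
      sub_inv := fun N u hu => Lam.inv_mem_Gr C.dv u hu
      sub_half := fun N y hy => Lam.half_mem_Gr C.dv (fun b r hr => gA_half q hq C hr) hy
      sub_mono := fun N N' hN x hx k b => by
        obtain ⟨r, hr, hr'⟩ := hx k b
        exact ⟨r, gA_mono q hq C hN b hr, hr'⟩
      cosets := fun N _ T g x hg hx hsum i hi => cosets_ext q hq C N T g x hg hx hsum i hi }⟩

end SQ.U
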