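import Pool.Agent.SQ.U.Final
import Pool.Agent.SQ.U.Ext

/-!
# SQ/U: the vanishing theorem for the groups which are residually ((amenable and locally indicable)-by-(bi-orderable))
-/

set_option autoImplicit false

noncomputable section

namespace SQ.U

open Singer SQ.BO

/-- the row U3 -/
theorem stmtExt : StmtExt := fun _ _ _ _ q hq hB C => exists_coefW_ext q hq hB C

/-- **the union theorem** -/
theorem vanE_virtual_resC {Γ : Type} [Group Γ] (H : Subgroup Γ) [H.FiniteIndex] (hH : ResC H) {n : ℕ}
    (hPD : IsPD n Γ ∨ IsPD n H) (R : FinRes Γ) (i : ℕ) (hi : 2 * i ≠ n) : R.VanE i :=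
  vanE_virtual_resC_of stmtExt H hH hPD R i hi

end SQ.U
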