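import Pool.Agent.SQ.U.CoefW
import Pool.Agent.SQ.BO.Defs

/-!
# SQ/U, stage 7: W-data

`WD K`: a 2-local ring `R` with residue skew field `D`, which contains the group `K`, such that the cosets of all subgroups are
independent over the division closures in `D`.
-/

set_option autoImplicit false

noncomputable section

namespace SQ.U

/-- a 2-local ring with residue skew field `D`; the cosets of all subgroups of `K` are independent in `D` -/
structure WD (K : Type) [Group K] where
  R : Type
  [ring : Ring R]
  /-- the group in the ring -/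
  l : K →* Rˣ
  D : Type
  [dD : DivisionRing D]
  [aD : Algebra (ZMod 2) D]
  /-- the reduction modulo 2 -/
  red : R →+* D
  surj : Function.Surjective red
  unit : ∀ x, red x ≠ 0 → IsUnit x
  ker : ∀ x, red x = 0 ↔ ∃ y, x = 2 * y
  tf : ∀ x : R, 2 * x = 0 → x = 0
  sep : ∀ x : R, (∀ k : ℕ, ∃ y, x = 2 ^ k * y) → x = 0
  cos : BO.AllCos ((Units.map (red : R →* D)).comp l)

attribute [instance] WD.ring WD.dD WD.aD

namespace WD

variable {K : Type} [Group K] (W : WD K)

/-- the group in the residue skew field -/
def rho : K →* W.Dˣ := (Units.map (W.red : W.R →* W.D)).comp W.l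

theorem rho_val (g : K) : ((W.rho g : W.Dˣ) : W.D) = W.red ((W.l g : W.Rˣ) : W.R) := rfl

theorem half (x : W.R) : IsUnit x ∨ ∃ y, x = 2 * y := by
  by_cases h : W.red x = 0
  · exact Or.inr ((W.ker x).1 h)
  · exact Or.inl (W.unit x h)

theorem one (y : W.R) : (1 : W.R) ≠ 2 * y := by
  intro h
  have h1 := (W.ker 1).2 ⟨y, h⟩
  rw [map_one] at h1
  exact one_ne_zero h1

end WD

end SQ.U
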