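import Pool.Agent.SQ.U.Hughes
import Pool.Agent.SQ.U.WDef
import Pool.Agent.SQ.T5.Li

/-!
# SQ/U, stage 7: generated W-data, coefficient rings from W-data

* `WD.comap`: restriction along an injective homomorphism;
* `WD.core`: the generated part;
* `WD.coefW`, `WD.coef`: coefficient rings (with the action of the automorphisms), from `NZ` and `TF`.
-/

set_option autoImplicit false

noncomputable section

namespace SQ.U

section more
variable {K L : Type} [Group K] [Group L] {R : Type} [Ring R]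

theorem gen_comp (l : K →* Rˣ) (j : L →* K) (H : Subgroup L) : gen (l.comp j) H = gen l (H.map j) := by
  apply le_antisymm
  · exact gen_le _ (fun g hg => mem_gen l (Subgroup.mem_map_of_mem j hg)) (gen_closed _ _)
  · refine gen_le _ ?_ (gen_closed _ _)
    rintro _ ⟨g, hg, rfl⟩
    exact mem_gen (l.comp j) hg

/-- two ring homomorphisms which agree on the group agree on the generated ring -/
theorem gen_ext (l : K →* Rˣ) {R' : Type} [Ring R'] (tf : ∀ x : R', 2 * x = 0 → x = 0) (f f' : R →+* R') {N : Subgroup K}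
    (h : ∀ g ∈ N, f ((l g : Rˣ) : R) = f' ((l g : Rˣ) : R)) {x : R} (hx : x ∈ gen l N) : f x = f' x := by
  have h1 : gen l N ≤ RingHom.eqLocus f f' := by
    refine gen_le l h ⟨?_, ?_⟩
    · intro u hu
      have h2 : Units.map (f : R →* R') u = Units.map (f' : R →* R') u := Units.ext hu
      have h3 := congrArg (fun v : R'ˣ => ((v⁻¹ : R'ˣ) : R')) h2
      exact h3
    · intro y hy
      have h2 : f (2 * y) = f' (2 * y) := hy
      rw [map_mul, map_mul, map_ofNat, map_ofNat] at h2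
      have h3 := tf (f y - f' y) (by rw [mul_sub, h2, sub_self])
      exact sub_eq_zero.1 h3
  exact h1 hx

/-- the image of a generated ring under an isomorphism -/
theorem map_mem_gen (l : K →* Rˣ) {R' : Type} [Ring R'] (l' : K →* R'ˣ) (f : R ≃+* R') {N N' : Subgroup K}
    (h : ∀ g ∈ N, f ((l g : Rˣ) : R) ∈ gen l' N') {x : R} (hx : x ∈ gen l N) : f x ∈ gen l' N' := by
  have h1 : gen l N ≤ (gen l' N').comap (f : R →+* R') := by
    refine gen_le l h ⟨?_, ?_⟩
    · intro u hu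
      exact (gen_closed l' N').inv (Units.map ((f : R →+* R') : R →* R') u) hu
    · intro y hy
      have h2 : f (2 * y) ∈ gen l' N' := hy
      rw [map_mul, map_ofNat] at h2
      exact (gen_closed l' N').hlf _ h2
  exact h1 hx

end more

section cls
variable {K L : Type} [Group K] [Group L] {D : Type} [DivisionRing D]

theorem cl_comp (ρ : K →* Dˣ) (j : L →* K) (H : Subgroup L) : T3.cl (ρ.comp j) H = T3.cl ρ (H.map j) := by
  unfold T3.cl
  congr 1
  ext x
  constructor
  · rintro ⟨g, hg, rfl⟩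
    exact ⟨j g, Subgroup.mem_map_of_mem j hg, rfl⟩
  · rintro ⟨_, ⟨g, hg, rfl⟩, rfl⟩
    exact ⟨g, hg, rfl⟩

theorem allCos_comp {ρ : K →* Dˣ} (h : BO.AllCos ρ) (j : L →* K) (hj : Function.Injective j) : BO.AllCos (ρ.comp j) := by
  classical
  intro H' H le s a hs hd ha hsum g hg
  let e : L ↪ K := ⟨j, hj⟩
  let a' : K → D := fun k => if hk : ∃ g, j g = k then a hk.choose else 0
  have ha' : ∀ g : L, a' (j g) = a g := by
    intro g
    have hk : ∃ g', j g' = j g := ⟨g, rfl⟩
    have h1 : hk.choose = g := hj hk.choose_spec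
    show (if hk : ∃ g', j g' = j g then a hk.choose else 0) = a g
    rw [dif_pos hk, h1]
  have h1 := h (H'.map j) (H.map j) (Subgroup.map_mono le) (s.map e) a' ?_ ?_ ?_ ?_ (j g)
    (Finset.mem_map.2 ⟨g, hg, rfl⟩)
  · rwa [ha'] at h1
  · intro k hk
    obtain ⟨g, hg, rfl⟩ := Finset.mem_map.1 hk
    exact Subgroup.mem_map_of_mem j (hs g hg)
  · intro k hk k' hk' hkk
    obtain ⟨g, hg, rfl⟩ := Finset.mem_map.1 hk
    obtain ⟨g', hg', rfl⟩ := Finset.mem_map.1 hk'
    have h2 : j (g * g'⁻¹) ∈ H'.map j := by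
      rw [map_mul, map_inv]
      exact hkk
    have h3 : g * g'⁻¹ ∈ H' := (Subgroup.mem_map_iff_mem hj).1 h2
    rw [hd g hg g' hg' h3]
  · intro k hk
    obtain ⟨g, hg, rfl⟩ := Finset.mem_map.1 hk
    show a' (j g) ∈ _
    rw [ha', ← cl_comp]
    exact ha g hg
  · rw [Finset.sum_map]
    rw [← hsum]
    refine Finset.sum_congr rfl fun g _ => ?_
    show a' (j g) * _ = _
    rw [ha']
    rfl

/-- the cosets in a skew subfield -/
theorem allCos_sub {ρ : K →* Dˣ} (h : BO.AllCos ρ) (F : Subfield D) (ρ' : K →* (F : Type)ˣ)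
    (hρ : ∀ g, (((ρ' g : (F : Type)ˣ) : F) : D) = ((ρ g : Dˣ) : D)) : BO.AllCos ρ' := by
  have hcl : ∀ (H : Subgroup K) (x : F), x ∈ T3.cl ρ' H → (x : D) ∈ T3.cl ρ H := by
    intro H x hx
    refine Subfield.closure_induction (p := fun x _ => ((x : F) : D) ∈ T3.cl ρ H) ?_ ?_ ?_ ?_ ?_ ?_ hx
    · rintro _ ⟨g, hg, rfl⟩
      show (((ρ' g : (F : Type)ˣ) : F) : D) ∈ _
      rw [hρ]
      exact T3.mem_cl ρ hg
    · exact one_mem _
    · intro x y _ _ hx hy
      exact add_mem hx hy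
    · intro x _ hx
      exact neg_mem hx
    · intro x _ hx
      exact inv_mem hx
    · intro x y _ _ hx hy
      exact mul_mem hx hy
  intro H' H le s a hs hd ha hsum g hg
  have h1 := h H' H le s (fun g => (a g : D)) hs hd (fun g hg => hcl _ _ (ha g hg)) (by
    have h2 := congrArg (fun x : F => (x : D)) hsum
    simp only [Subfield.coe_zero] at h2
    rw [← h2]
    rw [← Subfield.coe_subtype, map_sum]
    refine Finset.sum_congr rfl fun g _ => ?_
    rw [map_mul]
    congr 1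
    exact (hρ g).symm) g hg
  exact Subtype.ext h1

end cls

namespace WD
variable {K L : Type} [Group K] [Group L]

/-- restriction along an injective homomorphism -/
def comap (W : WD K) (j : L →* K) (hj : Function.Injective j) : WD L where
  R := W.R
  l := W.l.comp j
  D := W.D
  red := W.red
  surj := W.surj
  unit := W.unit
  ker := W.ker
  tf := W.tf
  sep := W.sep
  cos := allCos_comp W.cos j hj

variable (W : WD K)

/-- the residue field of the generated part -/
def resF : Subfield W.D :=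
  { (gen W.l ⊤).map W.red with
    inv_mem' := by
      rintro x ⟨y, hy, rfl⟩
      by_cases h : W.red y = 0
      · rw [h, inv_zero]
        exact ⟨0, (gen W.l ⊤).zero_mem, map_zero _⟩
      · obtain ⟨u, rfl⟩ := W.unit y h
        refine ⟨_, (gen_closed W.l ⊤).inv u hy, ?_⟩
        have h1 : W.red (u : W.R) * W.red ((u⁻¹ : W.Rˣ) : W.R) = 1 := by
          rw [← map_mul, Units.mul_inv, map_one]
        exact eq_inv_of_mul_eq_one_right h1 }

theorem mem_resF {x : W.D} : x ∈ W.resF ↔ ∃ y ∈ gen W.l ⊤, W.red y = x := Iff.rfl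

theorem charTwo (W : WD K) : (2 : W.D) = 0 := by
  have h : (algebraMap (ZMod 2) W.D) 2 = 2 := map_ofNat _ 2
  rw [← h]
  have h2 : (2 : ZMod 2) = 0 := rfl
  rw [h2, map_zero]

instance (W : WD K) : CharP (W.resF : Type) 2 := by
  have h2 : (2 : W.resF) = 0 := Subtype.ext (by
    show ((2 : W.resF) : W.D) = 0
    have : ((2 : W.resF) : W.D) = 2 := rfl
    rw [this, charTwo])
  exact CharTwo.of_one_ne_zero_of_two_eq_zero one_ne_zero h2

/-- the generated part -/
def core : WD K where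
  R := gen W.l ⊤
  l :=
    { toFun := fun g => ⟨⟨_, mem_gen W.l (N := ⊤) (g := g) trivial⟩, ⟨_, mem_gen W.l (N := ⊤) (g := g⁻¹) trivial⟩,
        Subtype.ext (by
          show ((W.l g : W.Rˣ) : W.R) * ((W.l g⁻¹ : W.Rˣ) : W.R) = 1
          rw [← Units.val_mul, ← map_mul, mul_inv_cancel, map_one, Units.val_one]),
        Subtype.ext (by
          show ((W.l g⁻¹ : W.Rˣ) : W.R) * ((W.l g : W.Rˣ) : W.R) = 1
          rw [← Units.val_mul, ← map_mul, inv_mul_cancel, map_one, Units.val_one])⟩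
      map_one' := Units.ext (Subtype.ext (by
        show ((W.l 1 : W.Rˣ) : W.R) = 1
        rw [map_one, Units.val_one]))
      map_mul' := fun a b => Units.ext (Subtype.ext (by
        show ((W.l (a * b) : W.Rˣ) : W.R) = ((W.l a : W.Rˣ) : W.R) * ((W.l b : W.Rˣ) : W.R)
        rw [map_mul, Units.val_mul])) }
  D := W.resF
  aD := ZMod.algebra _ 2
  red := (W.red.comp (gen W.l ⊤).subtype).codRestrict W.resF.toSubring fun x => ⟨_, x.2, rfl⟩
  surj := by
    rintro ⟨x, y, hy, rfl⟩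
    exact ⟨⟨y, hy⟩, rfl⟩
  unit := by
    rintro ⟨x, hx⟩ h
    have h1 : W.red x ≠ 0 := fun h0 => h (Subtype.ext h0)
    obtain ⟨u, rfl⟩ := W.unit x h1
    exact ⟨⟨⟨_, hx⟩, ⟨_, (gen_closed W.l ⊤).inv u hx⟩, Subtype.ext (Units.mul_inv u), Subtype.ext (Units.inv_mul u)⟩, rfl⟩
  ker := by
    rintro ⟨x, hx⟩
    constructor
    · intro h
      have h1 : W.red x = 0 := congrArg Subtype.val h
      obtain ⟨y, rfl⟩ := (W.ker x).1 h1
      exact ⟨⟨y, (gen_closed W.l ⊤).hlf y hx⟩, rfl⟩
    · rintro ⟨⟨y, hy⟩, h⟩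
      have h1 : x = 2 * y := congrArg Subtype.val h
      exact Subtype.ext ((W.ker x).2 ⟨y, h1⟩)
  tf := by
    rintro ⟨x, hx⟩ h
    exact Subtype.ext (W.tf x (congrArg Subtype.val h))
  sep := by
    rintro ⟨x, hx⟩ h
    refine Subtype.ext (W.sep x fun k => ?_)
    obtain ⟨y, hy⟩ := h k
    exact ⟨y, congrArg Subtype.val hy⟩
  cos := allCos_sub W.cos W.resF _ fun g => rfl

/-- the inclusion of the generated part -/
def coreR : W.core.R →+* W.R := (gen W.l ⊤).subtype

/-- the inclusion of the residue field of the generated part -/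
def coreD : W.core.D →+* W.D := W.resF.subtype

theorem coreR_l (g : K) : W.coreR ((W.core.l g : W.core.Rˣ) : W.core.R) = ((W.l g : W.Rˣ) : W.R) := rfl

/-- the generated part is generated -/
theorem core_gen : gen W.core.l ⊤ = ⊤ := by
  have h : gen W.l ⊤ ≤ (gen W.core.l ⊤).map (gen W.l ⊤).subtype := by
    refine gen_le _ (fun g hg => ⟨_, mem_gen W.core.l hg, rfl⟩) ⟨?_, ?_⟩
    · rintro u ⟨⟨y, hy⟩, h1, h2⟩
      have h3 : y = u := h2
      subst h3
      have h4 := (gen_closed W.core.l ⊤).inv ⟨⟨_, hy⟩, ⟨_, (gen_closed W.l ⊤).inv u hy⟩, Subtype.ext (Units.mul_inv u),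
        Subtype.ext (Units.inv_mul u)⟩ h1
      exact ⟨_, h4, rfl⟩
    · rintro y ⟨⟨z, hz⟩, h1, h2⟩
      have h3 : z = 2 * y := h2
      subst h3
      exact ⟨⟨y, (gen_closed W.l ⊤).hlf y hz⟩, (gen_closed W.core.l ⊤).hlf _ h1, rfl⟩
  rw [eq_top_iff]
  rintro ⟨x, hx⟩ _
  obtain ⟨y, hy, h1⟩ := h hx
  have h2 : y = ⟨x, hx⟩ := Subtype.ext h1
  rwa [← h2]

/-- the residue field of the generated part over a subgroup is its division closure -/
theorem red_mem_cl (hT : ∀ (N : Subgroup K) (W' : WD N), TF W'.l W'.l) (N : Subgroup K) {x : W.R} (hx : x ∈ gen W.l N) :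
    W.red x ∈ T3.cl W.rho N := by
  set W' : WD N := (W.comap N.subtype N.subtype_injective).core with hW'
  have hx' : x ∈ gen (W.comap N.subtype N.subtype_injective).l ⊤ := by
    have h := gen_comp W.l N.subtype ⊤
    have e : ((⊤ : Subgroup N).map N.subtype) = N := by
      rw [← MonoidHom.range_eq_map, Subgroup.range_subtype]
    rw [e] at h
    exact h ▸ hx
  have h1 := res_mem_cl W'.red (hT N W') (W.comap N.subtype N.subtype_injective).core_gen (⟨x, hx'⟩ : W'.R)
  -- transport to `W.D`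
  refine Subfield.closure_induction (K := W'.D)
    (s := (fun g : N => (((((Units.map (W'.red : W'.R →* W'.D)).comp W'.l) g : W'.Dˣ)) : W'.D)) '' ((⊤ : Subgroup N) : Set N))
    (p := fun y _ => (W.comap N.subtype N.subtype_injective).coreD y ∈ T3.cl W.rho N) ?_ ?_ ?_ ?_ ?_ ?_ h1
  · rintro _ ⟨g, _, rfl⟩
    exact T3.mem_cl W.rho g.2
  · rw [map_one]
    exact one_mem _
  · intro x y _ _ hx hy
    rw [map_add]
    exact add_mem hx hy
  · intro x _ hx
    rw [map_neg]
    exact neg_mem hx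
  · intro x _ hx
    rw [map_inv₀]
    exact inv_mem hx
  · intro x y _ _ hx hy
    rw [map_mul]
    exact mul_mem hx hy

/-- independence of cosets, for families -/
theorem cos_family {D : Type} [DivisionRing D] {ρ : K →* Dˣ} (h : BO.AllCos ρ) (N : Subgroup K) {ι : Type} (T : Finset ι)
    (g : ι → K) (a : ι → D) (hd : ∀ i ∈ T, ∀ j ∈ T, i ≠ j → g i * (g j)⁻¹ ∉ N) (ha : ∀ i ∈ T, a i ∈ T3.cl ρ N)
    (hsum : ∑ i ∈ T, a i * ((ρ (g i) : Dˣ) : D) = 0) : ∀ i ∈ T, a i = 0 := by
  classical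
  have hinj : Set.InjOn g T := by
    intro i hi j hj hij
    by_contra hne
    apply hd i hi j hj hne
    rw [hij, mul_inv_cancel]
    exact N.one_mem
  let a' : K → D := fun k => if hk : ∃ i ∈ T, g i = k then a hk.choose else 0
  have ha' : ∀ i ∈ T, a' (g i) = a i := by
    intro i hi
    have hk : ∃ i' ∈ T, g i' = g i := ⟨i, hi, rfl⟩
    have h1 : hk.choose = i := hinj hk.choose_spec.1 hi hk.choose_spec.2
    show (if hk : ∃ i' ∈ T, g i' = g i then a hk.choose else 0) = a i
    rw [dif_pos hk, h1]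
  intro i hi
  have h1 := h N ⊤ le_top (T.image g) a' (fun _ _ => trivial) ?_ ?_ ?_ (g i) (Finset.mem_image_of_mem g hi)
  · rwa [ha' i hi] at h1
  · intro k hk k' hk' hkk
    obtain ⟨i, hi, rfl⟩ := Finset.mem_image.1 hk
    obtain ⟨j, hj, rfl⟩ := Finset.mem_image.1 hk'
    by_contra hne
    exact hd i hi j hj (fun e => hne (by rw [e])) hkk
  · intro k hk
    obtain ⟨i, hi, rfl⟩ := Finset.mem_image.1 hk
    rw [ha' i hi]
    exact ha i hi
  · rw [Finset.sum_image hinj, ← hsum]
    exact Finset.sum_congr rfl fun i hi => by rw [ha' i hi]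

theorem gen_cosets (hT : ∀ (N : Subgroup K) (W' : WD N), TF W'.l W'.l) (N : Subgroup K) {ι : Type} (T : Finset ι) (g : ι → K)
    (x : ι → W.R) (hd : ∀ i ∈ T, ∀ j ∈ T, i ≠ j → g i * (g j)⁻¹ ∉ N) (hx : ∀ i ∈ T, x i ∈ gen W.l N)
    (h2 : ∃ y, ∑ i ∈ T, x i * ((W.l (g i) : W.Rˣ) : W.R) = 2 * y) : ∀ i ∈ T, ∃ y, x i = 2 * y := by
  intro i hi
  apply (W.ker _).1
  refine cos_family (ρ := W.rho) W.cos N T g (fun i => W.red (x i)) hd (fun i hi => W.red_mem_cl hT N (hx i hi)) ?_ i hi
  have h3 := (W.ker _).2 h2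
  rw [map_sum] at h3
  rw [← h3]
  exact Finset.sum_congr rfl fun i _ => by rw [map_mul]; rfl

/-- coefficient rings from W-data -/
def coefW (hT : ∀ (N : Subgroup K) (W' : WD N), TF W'.l W'.l) : CoefW K where
  R := W.R
  l := W.l
  half := W.half
  tf := W.tf
  one := W.one
  sep := W.sep
  sub := gen W.l
  mem_sub _ _ ha := mem_gen W.l ha
  sub_inv N := (gen_closed W.l N).inv
  sub_half N := (gen_closed W.l N).hlf
  sub_mono _ _ h := gen_mono W.l h
  cosets := W.gen_cosets hT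

/-- conjugation by a unit -/
def conjU {R : Type} [Ring R] (u : Rˣ) : R →+* R where
  toFun x := (u : R) * x * ((u⁻¹ : Rˣ) : R)
  map_one' := by rw [mul_one, Units.mul_inv]
  map_mul' x y := by
    show (u : R) * (x * y) * ((u⁻¹ : Rˣ) : R) = (u : R) * x * ((u⁻¹ : Rˣ) : R) * ((u : R) * y * ((u⁻¹ : Rˣ) : R))
    have e : (u : R) * x * ((u⁻¹ : Rˣ) : R) * ((u : R) * y * ((u⁻¹ : Rˣ) : R)) =
        (u : R) * x * (((u⁻¹ : Rˣ) : R) * (u : R)) * y * ((u⁻¹ : Rˣ) : R) := by simp only [mul_assoc]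
    rw [e, Units.inv_mul, mul_one, mul_assoc (u : R) x y]
  map_zero' := by rw [mul_zero, zero_mul]
  map_add' x y := by rw [mul_add, add_mul]

section act
variable (hg : gen W.l ⊤ = ⊤) (hNT : ∀ W₁ W₂ : WD K, NZ W₁.l W₂.l ∧ TF W₁.l W₂.l)

include hg hNT

theorem exists_act (θ : MulAut K) : ∃ f : W.R ≃+* W.R, ∀ g : K, f ((W.l g : W.Rˣ) : W.R) = ((W.l (θ g) : W.Rˣ) : W.R) := by
  have hg' : gen (W.comap θ.toMonoidHom θ.injective).l ⊤ = ⊤ := by
    have h := gen_comp W.l θ.toMonoidHom ⊤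
    have e : ((⊤ : Subgroup K).map θ.toMonoidHom) = ⊤ := by
      rw [← MonoidHom.range_eq_map]
      exact MonoidHom.range_eq_top.2 θ.surjective
    rw [e, hg] at h
    exact h
  obtain ⟨nz, tf⟩ := hNT W (W.comap θ.toMonoidHom θ.injective)
  obtain ⟨f, -, hf⟩ := theoremU W.half W.sep (W.comap θ.toMonoidHom θ.injective).half (W.comap θ.toMonoidHom θ.injective).sep
    nz tf hg hg'
  exact ⟨f, hf⟩

/-- the action of an automorphism -/
def actE (θ : MulAut K) : W.R ≃+* W.R := (W.exists_act hg hNT θ).choose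

theorem actE_l (θ : MulAut K) (g : K) : W.actE hg hNT θ ((W.l g : W.Rˣ) : W.R) = ((W.l (θ g) : W.Rˣ) : W.R) :=
  (W.exists_act hg hNT θ).choose_spec g

omit hNT in
theorem hom_ext' (f f' : W.R →+* W.R) (h : ∀ g : K, f ((W.l g : W.Rˣ) : W.R) = f' ((W.l g : W.Rˣ) : W.R)) (x : W.R) :
    f x = f' x :=
  gen_ext W.l W.tf f f' (N := ⊤) (fun g _ => h g) (hg ▸ Subring.mem_top x)

/-- the action of the automorphisms -/
def actHom : MulAut K →* RingAut W.R where
  toFun := W.actE hg hNT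
  map_one' := by
    ext x
    exact W.hom_ext' hg (W.actE hg hNT 1 : W.R →+* W.R) (RingHom.id _) (fun g => W.actE_l hg hNT 1 g) x
  map_mul' θ θ' := by
    ext x
    refine W.hom_ext' hg (W.actE hg hNT (θ * θ') : W.R →+* W.R)
      ((W.actE hg hNT θ : W.R →+* W.R).comp (W.actE hg hNT θ' : W.R →+* W.R)) (fun g => ?_) x
    show W.actE hg hNT (θ * θ') _ = W.actE hg hNT θ (W.actE hg hNT θ' _)
    rw [actE_l, actE_l, actE_l]
    rfl

/-- coefficient rings with the action of the automorphisms, from generated W-data -/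
def coef (hT : ∀ (N : Subgroup K) (W' : WD N), TF W'.l W'.l) : Coef K where
  R := W.R
  l := W.l
  half := W.half
  tf := W.tf
  one := W.one
  sep := W.sep
  act := W.actHom hg hNT
  act_l := W.actE_l hg hNT
  act_conj a x := by
    refine W.hom_ext' hg (W.actE hg hNT (MulAut.conj a) : W.R →+* W.R) (conjU (W.l a)) (fun g => ?_) x |>.trans ?_
    · show W.actE hg hNT _ _ = ((W.l a : W.Rˣ) : W.R) * ((W.l g : W.Rˣ) : W.R) * (((W.l a)⁻¹ : W.Rˣ) : W.R)
      rw [actE_l, MulAut.conj_apply, map_mul, map_mul, map_inv, Units.val_mul, Units.val_mul]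
    · show ((W.l a : W.Rˣ) : W.R) * x * (((W.l a)⁻¹ : W.Rˣ) : W.R) = _
      rw [map_inv]
  sub := gen W.l
  mem_sub _ _ ha := mem_gen W.l ha
  sub_inv N := (gen_closed W.l N).inv
  sub_half N := (gen_closed W.l N).hlf
  sub_mono _ _ h := gen_mono W.l h
  sub_top := hg
  sub_act θ N x hx := by
    refine map_mem_gen W.l W.l (W.actE hg hNT θ) (N := N) (fun g hg' => ?_) hx
    rw [actE_l]
    exact mem_gen W.l (Subgroup.mem_map_of_mem θ.toMonoidHom hg')
  cosets := W.gen_cosets hT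

end act

end WD

/-- rows (3), (4) of the page MP_984acc_HUGHES_h76.md -/
def StmtNT : Prop := ∀ (K : Type) [Group K], T5.LI K → ∀ W₁ W₂ : WD K, NZ W₁.l W₂.l ∧ TF W₁.l W₂.l

/-- **W-data give coefficient rings with the action of the automorphisms** -/
theorem WD.exists_coef (h : StmtNT) {K : Type} [Group K] (hK : T5.LI K) (W : WD K) : Nonempty (Coef K) :=
  ⟨W.core.coef W.core_gen (h K hK) fun N W' => (h N (hK.of_injective N.subtype N.subtype_injective) W' W').2⟩

theorem WD.exists_coefW (h : StmtNT) {K : Type} [Group K] (hK : T5.LI K) (W : WD K) : Nonempty (CoefW K) :=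
  ⟨W.coefW fun N W' => (h N (hK.of_injective N.subtype N.subtype_injective) W' W').2⟩

end SQ.U
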