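import Pool.Agent.SQ.U.HH
import Pool.Agent.SQ.U.Union
import Pool.Agent.SQ.U.PairLoc
import Pool.Agent.SQ.U.WGen

/-!
# SQ/U, stage 7: the vanishing theorems for the class `HH`, from the rows H1 and H3
-/

set_option autoImplicit false

noncomputable section

namespace SQ.U

open Singer SQ.T3 SQ.BO Pool.Agent.Helper18.SQ

/-- **H1** (Theorem U of the page HUGHES): the groups with the property have coefficient rings with the action of the
automorphisms -/
def StmtCoef : Prop := ∀ (K : Type) [Group K], P K → Nonempty (Coef K)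

theorem stmtCoef_of (h : StmtNT) : StmtCoef := fun _ _ hK => hK.wd.elim fun W => W.exists_coef h hK.lz.li

/-- coefficient rings are W-data -/
theorem CoefW.wd {K : Type} [Group K] (C : CoefW K) : Nonempty (WD K) := by
  classical
  obtain ⟨D, iD, iA, π, hπs, hπ⟩ := C.exists_D
  refine ⟨
    { R := C.R
      l := C.l
      D := D
      red := π
      surj := hπs
      unit := fun x hx => (C.half x).resolve_right fun h => hx ((hπ x).2 h)
      ker := hπ
      tf := C.tf
      sep := C.sep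
      cos := ?_ }⟩
  intro H' H _ s a _ hd ha h0 g hg
  have hex : ∀ g : K, ∃ x : C.R, g ∈ s → x ∈ C.sub H' ∧ π x = a g := by
    intro g
    by_cases hg : g ∈ s
    · obtain ⟨x, hx, hxa⟩ := C.mem_cl_D hπ H' (ha g hg)
      exact ⟨x, fun _ => ⟨hx, hxa⟩⟩
    · exact ⟨0, fun h => absurd h hg⟩
  choose x hx using hex
  have h1 := C.cosets H' s id x (fun g hg g' hg' hne h => hne (hd g hg g' hg' h)) (fun g hg => (hx g hg).1)
    ((hπ _).1 (by
      rw [map_sum, ← h0]
      refine Finset.sum_congr rfl fun g hg => ?_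
      rw [map_mul, (hx g hg).2]
      rfl))
  rw [← (hx g hg).2]
  exact (hπ _).2 (h1 g hg)

/-- the lifts of the groups with the property -/
theorem P.exists_lift (hC : StmtCoef) {K : Type} [Group K] (hK : P K) :
    ∃ (L D F : Type) (_ : Ring L) (_ : DivisionRing D) (_ : DivisionRing F) (_ : Algebra (ZMod 2) D) (_ : CharZero F)
      (red : L →+* D) (inc : L →+* F) (lam : K →* Lˣ) (σ : K →* Dˣ) (ρ : K →* Fˣ), Function.Surjective red ∧
      (∀ x, red x ≠ 0 → IsUnit x) ∧ (∀ g, red (lam g : Lˣ) = ((σ g : Dˣ) : D)) ∧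
      (∀ g, inc (lam g : Lˣ) = ((ρ g : Fˣ) : F)) ∧ T5.Loc σ ρ := by
  obtain ⟨C⟩ := hC K hK
  obtain ⟨D, F, iD, iF, iA, iC, π, j, hs, hu, -, hI⟩ := C.toW.exists_frac
  refine ⟨C.toW.R, D, F, inferInstance, iD, iF, iA, iC, π, j, C.toW.l, C.toW.up π, C.toW.up j, hs, hu, fun _ => rfl,
    fun _ => rfl, fun S hS hne => ?_⟩
  obtain ⟨N, t, hz⟩ := hK.lz S hS hne
  obtain ⟨h1, h2⟩ := hI N t hz.inf
  exact ⟨N, t, hz, h1, h2⟩

/-- **the vanishing theorem** for the Poincare duality groups with the property -/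
theorem P.vanE (hC : StmtCoef) {K : Type} [Group K] (hK : P K) {n : ℕ} (hn : IsPD n K) (R : FinRes K) (i : ℕ)
    (hi : 2 * i ≠ n) : R.VanE i := by
  obtain ⟨L, D, F, iL, iD, iF, iA, iC, red, inc, lam, σ, ρ, hs, hu, hσ, hρ, hloc⟩ := hK.exists_lift hC
  exact vanE_of_lift red hs hu inc lam σ ρ hσ hρ hloc hn R i hi

/-- **Theorem H** for the subgroups with the property -/
theorem P.vanE_sub (hC : StmtCoef) {Γ : Type} [Group Γ] {n : ℕ} (hn : IsPD n Γ) (K : Subgroup Γ) (hK : P K)
    (R : FinRes K) (i : ℕ) (hi : n < 2 * i) : R.VanE i := by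
  obtain ⟨L, D, F, iL, iD, iF, iA, iC, red, inc, lam, σ, ρ, hs, hu, hσ, hρ, hloc⟩ := hK.exists_lift hC
  have h1 : T5.Loc ρ ρ := loc_right hloc
  refine vanE_sub_of_ind hn K hK.lz σ (allCos_of_loc (loc_left hloc)).allInd R i (fun h => ?_) hi
  refine vanE_of_fam R i red hu hs inc lam σ ρ ρ hσ hρ (allCos_of_loc h1 ⊥ ⊤ bot_le) (fun X hX hX' => ?_) h
  exact fam_of_loc h1 hX hX'

/-- the extensions by bi-orderable groups, from H1 -/
theorem stmtOrd_of (hC : StmtCoef) : StmtOrd := by
  intro K _ N _ hN hB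
  have h1 : P (QuotientGroup.mk' N).ker := hN.of_injective
    (MulEquiv.subgroupCongr (QuotientGroup.ker_mk' N)).toMonoidHom (MulEquiv.subgroupCongr _).injective
  obtain ⟨C⟩ := hC _ h1
  obtain ⟨C'⟩ := exists_coefW_ext (QuotientGroup.mk' N) (QuotientGroup.mk'_surjective N) hB C
  exact C'.wd

/-- the trivial group has the property -/
theorem p_unit : P Unit := by
  refine ⟨fun S _ hne => absurd ((Subgroup.eq_bot_iff_forall S).2 fun x _ => rfl) hne, ?_⟩
  obtain ⟨C⟩ := exists_coef' (A := Unit) (T5.foe_triv fun q => rfl)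
    (fun S _ hS => absurd ((Subgroup.eq_bot_iff_forall S).2 fun x _ => rfl) hS)
  exact C.toW.wd

/-- all groups of the class have the property, from the rows H1 and H3 -/
theorem HH.p_of (hC : StmtCoef) (hA : StmtAmen) {K : Type} [Group K] (hK : HH K) : P K :=
  hK.p (stmtOrd_of hC) hA p_unit

/-- **the vanishing theorem** for the Poincare duality groups with a subgroup of finite index in the class, from the rows -/
theorem vanE_virtual_HH_of (hC : StmtCoef) (hA : StmtAmen) {Γ : Type} [Group Γ] (H : Subgroup Γ) [H.FiniteIndex] (hH : HH H)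
    {n : ℕ} (hPD : IsPD n Γ ∨ IsPD n H) (R : FinRes Γ) (i : ℕ) (hi : 2 * i ≠ n) : R.VanE i :=
  FinRes.vanE_of_index H (fun R' => (hH.p_of hC hA).vanE hC (hPD.elim (fun h => h.of_finiteIndex H) id) R' i hi) R

/-- **Theorem H** for the subgroups in the class, from the rows -/
theorem vanE_sub_HH_of (hC : StmtCoef) (hA : StmtAmen) {Γ : Type} [Group Γ] {n : ℕ} (hn : IsPD n Γ) (K : Subgroup Γ)
    (hK : HH K) (R : FinRes K) (i : ℕ) (hi : n < 2 * i) : R.VanE i :=
  (hK.p_of hC hA).vanE_sub hC hn K R i hi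

end SQ.U
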