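import Pool.Agent.SQ.U.LocC
import Pool.Agent.SQ.U.HHFinal

/-!
# SQ/U, stage 7, row H3: extensions by amenable locally indicable groups
-/

set_option autoImplicit false

noncomputable section

namespace SQ.U

open Singer SQ.BO

/-- **H3** -/
theorem stmtAmen_of (hC : StmtCoef) : StmtAmen := by
  intro K _ N _ hN hB
  have h1 : P (QuotientGroup.mk' N).ker := hN.of_injective
    (MulEquiv.subgroupCongr (QuotientGroup.ker_mk' N)).toMonoidHom (MulEquiv.subgroupCongr _).injective
  obtain ⟨C⟩ := hC _ h1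
  exact exists_wd_al (QuotientGroup.mk' N) (QuotientGroup.mk'_surjective N) hB h1.lz C

/-- **the vanishing theorem** for the Poincare duality groups with a subgroup of finite index in the class, from the row H1 -/
theorem vanE_virtual_HH_of' (hC : StmtCoef) {Γ : Type} [Group Γ] (H : Subgroup Γ) [H.FiniteIndex] (hH : HH H)
    {n : ℕ} (hPD : IsPD n Γ ∨ IsPD n H) (R : FinRes Γ) (i : ℕ) (hi : 2 * i ≠ n) : R.VanE i :=
  vanE_virtual_HH_of hC (stmtAmen_of hC) H hH hPD R i hi

/-- **Theorem H** for the subgroups in the class, from the row H1 -/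
theorem vanE_sub_HH_of' (hC : StmtCoef) {Γ : Type} [Group Γ] {n : ℕ} (hn : IsPD n Γ) (K : Subgroup Γ)
    (hK : HH K) (R : FinRes K) (i : ℕ) (hi : n < 2 * i) : R.VanE i :=
  vanE_sub_HH_of hC (stmtAmen_of hC) hn K hK R i hi

end SQ.U
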