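import Pool.Agent.SQ.U.Local
import Pool.Agent.SQ.U.Amen

/-!
# SQ/U: the class of groups which is closed under extensions, residually and under directed unions
-/

set_option autoImplicit false

noncomputable section

namespace SQ.U

open Filter SQ.T3 SQ.T5 SQ.BO Singer

/-- The smallest class of groups which contains the trivial groups and is closed under extensions with bi-orderable or amenable
locally indicable quotients, residually, and under directed unions. -/
inductive Cls : ∀ (K : Type) [Group K], Prop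
  | triv (K : Type) [Group K] : (∀ g : K, g = 1) → Cls K
  | ord {K : Type} [Group K] (N : Subgroup K) [N.Normal] : Cls N → BiOrd (K ⧸ N) → Cls K
  | amen {K : Type} [Group K] (N : Subgroup K) [N.Normal] : Cls N → AL (K ⧸ N) → Cls K
  | res {K : Type} [Group K] (Q : K → Type) [∀ g, Group (Q g)] (π : ∀ g, K →* Q g) :
      (∀ g, Cls (Q g)) → (∀ g, g ≠ 1 → π g g ≠ 1) → Cls K
  | loc {K : Type} [Group K] : (∀ S : Subgroup K, S.FG → Cls S) → Cls K

/-- the product of a group with the property with a group of the class has the property -/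
theorem Cls.prod (hO : StmtOrd) (hA : StmtAmen) {Q : Type} [Group Q] (hQ : Cls Q) :
    ∀ (G : Type) [Group G], P G → P (G × Q) := by
  induction hQ with
  | triv Q h1 =>
    intro G _ hG
    refine hG.of_injective (MonoidHom.fst G Q) fun x y hxy => ?_
    exact Prod.ext hxy ((h1 _).trans (h1 _).symm)
  | @ord Q _ N _ _ hB ih =>
    intro G _ hG
    obtain ⟨e, he⟩ := prod_quot (G := G) N
    have hM : P ((⊤ : Subgroup G).prod N) := (ih G hG).of_injective
      (prodF G N) (prodF_inj G N)
    exact ⟨LZ.of_ext _ hM.lz (LZ.of_biOrd (hB.of_injective e he.1)), hO _ _ hM (hB.of_injective e he.1)⟩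
  | @amen Q _ N _ _ hB ih =>
    intro G _ hG
    obtain ⟨e, he⟩ := prod_quot (G := G) N
    have hB' : AL ((G × Q) ⧸ ((⊤ : Subgroup G).prod N)) := hB.congr (MulEquiv.ofBijective e he).symm
    have hM : P ((⊤ : Subgroup G).prod N) := (ih G hG).of_injective
      (prodF G N) (prodF_inj G N)
    exact ⟨LZ.of_ext _ hM.lz (LZ.of_li hB'.li), hA _ _ hM hB'⟩
  | @res Q _ T _ π _ hπ ih =>
    intro G _ hG
    classical
    have hex : ∀ F : Finset Q, ∃ (S : Type) (_ : Group S) (p : G × Q →* S), P S ∧
        ∀ x, p x = 1 ↔ x.1 = 1 ∧ ∀ g ∈ F, π g x.2 = 1 := by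
      intro F
      induction F using Finset.induction_on with
      | empty =>
        refine ⟨G, inferInstance, MonoidHom.fst G Q, hG, fun x => ⟨fun h => ⟨h, fun g hg => ?_⟩, fun h => h.1⟩⟩
        exact absurd hg (Finset.notMem_empty g)
      | insert g F _ ihF =>
        obtain ⟨S, iS, p, hS, hp⟩ := ihF
        refine ⟨S × T g, inferInstance, p.prod ((π g).comp (MonoidHom.snd G Q)), ih g S hS, fun x => ?_⟩
        have h1 : (p.prod ((π g).comp (MonoidHom.snd G Q))) x = 1 ↔ p x = 1 ∧ π g x.2 = 1 :=
          ⟨fun h => ⟨congrArg Prod.fst h, congrArg Prod.snd h⟩, fun h => Prod.ext h.1 h.2⟩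
        rw [h1, hp, Finset.forall_mem_insert]
        tauto
    choose S iS p hS hp using hex
    refine P.of_filtered hS p (fun c c' hc x hx => ?_) fun g hg => ?_
    · rw [MonoidHom.mem_ker, hp] at hx ⊢
      exact ⟨hx.1, fun g hg => hx.2 g (hc hg)⟩
    · by_contra hcon
      push Not at hcon
      apply hg
      have h1 := (hp {g.2} g).1 (hcon {g.2})
      refine Prod.ext h1.1 ?_
      by_contra h2
      exact hπ g.2 h2 (h1.2 g.2 (Finset.mem_singleton_self _))
  | @loc Q _ _ ih =>
    intro G _ hG
    refine P.of_local fun S hS => ?_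
    let S' : Subgroup Q := S.map (MonoidHom.snd G Q)
    have hS' : S'.FG := fg_map hS _
    let F : S →* G × S' :=
      { toFun := fun x => ((x : G × Q).1, ⟨(x : G × Q).2, (x : G × Q), x.2, rfl⟩)
        map_one' := rfl
        map_mul' := fun _ _ => rfl }
    refine (ih S' hS' G hG).of_injective F fun x y hxy => ?_
    have h1 : (F x).1 = (F y).1 := by rw [hxy]
    have h2 : ((F x).2 : Q) = ((F y).2 : Q) := by rw [hxy]
    exact Subtype.ext (Prod.ext h1 h2)

/-- **all groups of the class have the property** -/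
theorem Cls.p (hC : StmtCoef) {K : Type} [Group K] (hK : Cls K) : P K :=
  (hK.prod (stmtOrd_of hC) (stmtAmen_of hC) Unit p_unit).of_injective (MonoidHom.inr Unit K)
    fun _ _ h => congrArg Prod.snd h

/-- **the vanishing theorem**, from the row H1 -/
theorem vanE_virtual_cls_of (hC : StmtCoef) {Γ : Type} [Group Γ] (H : Subgroup Γ) [H.FiniteIndex] (hH : Cls H)
    {n : ℕ} (hPD : IsPD n Γ ∨ IsPD n H) (R : FinRes Γ) (i : ℕ) (hi : 2 * i ≠ n) : R.VanE i :=
  FinRes.vanE_of_index H (fun R' => (hH.p hC).vanE hC (hPD.elim (fun h => h.of_finiteIndex H) id) R' i hi) R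

/-- **Theorem H**, from the row H1 -/
theorem vanE_sub_cls_of (hC : StmtCoef) {Γ : Type} [Group Γ] {n : ℕ} (hn : IsPD n Γ) (K : Subgroup Γ)
    (hK : Cls K) (R : FinRes K) (i : ℕ) (hi : n < 2 * i) : R.VanE i :=
  (hK.p hC).vanE_sub hC hn K R i hi

end SQ.U
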