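import Pool.Agent.SQ.U.NZ

/-!
# SQ/U: `1 ⊗ 1` is not zero in the tensor product over the group ring, the step and the conclusion for families
-/

set_option autoImplicit false
set_option linter.unusedSectionVars false

open scoped TensorProduct

noncomputable section

namespace SQ.U

open SQ.T3 SQ.T3.Tor SQ.BO SQ.HH.Two

section nqs
variable {K : Type} [Group K] {E₁ E₂ : Type} [DivisionRing E₁] [DivisionRing E₂] [Algebra (ZMod 2) E₁]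
  [Algebra (ZMod 2) E₂] (ρ₁ : K →* E₁ˣ) (ρ₂ : K →* E₂ˣ)
  {F₁ L₁ : Subfield E₁} {F₂ L₂ : Subfield E₂} (t : K) (st₁ : Step F₁ L₁ (ρ₁ t)) (st₂ : Step F₂ L₂ (ρ₂ t))

/-- the coefficient of weight zero, summed up -/
def th0 : E₁ ⊗[ZMod 2] E₂ →ₗ[ZMod 2] E₁ ⊗[ZMod 2] E₂ :=
  Finsupp.lsum (ZMod 2) (fun _ : ℤ => (LinearMap.id : E₁ ⊗[ZMod 2] E₂ →ₗ[ZMod 2] E₁ ⊗[ZMod 2] E₂)) ∘ₗ
    cw ρ₁ ρ₂ t st₁ st₂ 0

theorem th0_tmul (x : E₁) (y : E₂) :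
    th0 ρ₁ ρ₂ t st₁ st₂ (x ⊗ₜ[ZMod 2] y) = ∑ᶠ u, ct ρ₁ ρ₂ t st₁ st₂ 0 u x y := by
  rw [th0, LinearMap.comp_apply, HH.Two.cw_tmul, Finsupp.lsum_apply]
  have h1 : Function.support (fun u => ct ρ₁ ρ₂ t st₁ st₂ 0 u x y) ⊆ ((cf ρ₁ ρ₂ t st₁ st₂ 0 x y).support : Set ℤ) := by
    intro u hu
    rw [Finset.mem_coe, Finsupp.mem_support_iff]
    exact hu
  rw [finsum_eq_sum_of_support_subset _ h1]
  rfl

variable (htL : ((ρ₁ t : E₁ˣ) : E₁) ∈ L₁) (htL' : ((ρ₂ t : E₂ˣ) : E₂) ∈ L₂)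

theorem th0_t {x : E₁} (hx : x ∈ L₁) {y : E₂} (hy : y ∈ L₂) :
    th0 ρ₁ ρ₂ t st₁ st₂ ((x * ((ρ₁ t : E₁ˣ) : E₁)) ⊗ₜ[ZMod 2] y) =
      th0 ρ₁ ρ₂ t st₁ st₂ (x ⊗ₜ[ZMod 2] (((ρ₂ t : E₂ˣ) : E₂) * y)) := by
  rw [th0_tmul, th0_tmul, ← sum_shift (fun u => ct ρ₁ ρ₂ t st₁ st₂ 0 u (x * ((ρ₁ t : E₁ˣ) : E₁)) y) 1]
  refine finsum_congr fun u => ?_
  rw [HH.Two.ct, HH.Two.ct, st₁.right_t x hx, kap_left ρ₂ t st₂ hy, cj_cj, ← map_mul, ← zpow_add_one, add_sub_cancel_right,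
    show (0 : ℤ) - u - 1 = 0 - (u + 1) by ring]

include htL htL' in
theorem th0_pow (k : ℤ) : ∀ {x : E₁}, x ∈ L₁ → ∀ {y : E₂}, y ∈ L₂ →
    th0 ρ₁ ρ₂ t st₁ st₂ ((x * ((ρ₁ (t ^ k) : E₁ˣ) : E₁)) ⊗ₜ[ZMod 2] y) =
      th0 ρ₁ ρ₂ t st₁ st₂ (x ⊗ₜ[ZMod 2] (((ρ₂ (t ^ k) : E₂ˣ) : E₂) * y)) := by
  have hz1 : ∀ k : ℤ, ((ρ₁ (t ^ k) : E₁ˣ) : E₁) ∈ L₁ := fun k => by
    rw [map_zpow, Units.val_zpow_eq_zpow_val]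
    exact zpow_mem htL k
  have hz2 : ∀ k : ℤ, ((ρ₂ (t ^ k) : E₂ˣ) : E₂) ∈ L₂ := fun k => by
    rw [map_zpow, Units.val_zpow_eq_zpow_val]
    exact zpow_mem htL' k
  induction k using Int.induction_on with
  | zero =>
    intro x _ y _
    rw [zpow_zero, map_one, map_one, Units.val_one, Units.val_one, mul_one, one_mul]
  | succ n ih =>
    intro x hx y hy
    rw [zpow_add_one, map_mul, map_mul, Units.val_mul, Units.val_mul, ← mul_assoc x, mul_assoc _ _ y,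
      th0_t ρ₁ ρ₂ t st₁ st₂ (L₁.mul_mem hx (hz1 _)) hy, ih hx (L₂.mul_mem htL' hy)]
  | pred n ih =>
    intro x hx y hy
    have e1 : y = ((ρ₂ t : E₂ˣ) : E₂) * (((ρ₂ t⁻¹ : E₂ˣ) : E₂) * y) := by
      rw [← mul_assoc, ← Units.val_mul, ← map_mul, mul_inv_cancel, map_one, Units.val_one, one_mul]
    have hy' : ((ρ₂ t⁻¹ : E₂ˣ) : E₂) * y ∈ L₂ := by
      have := hz2 (-1)
      rw [zpow_neg_one] at this
      exact L₂.mul_mem this hy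
    have e2 : ((ρ₂ (t ^ (-(n : ℤ))) : E₂ˣ) : E₂) * (((ρ₂ t⁻¹ : E₂ˣ) : E₂) * y) =
        ((ρ₂ (t ^ (-(n : ℤ) - 1)) : E₂ˣ) : E₂) * y := by
      rw [← mul_assoc, ← Units.val_mul, ← map_mul, zpow_sub_one]
    have e3 : x * ((ρ₁ (t ^ (-(n : ℤ) - 1)) : E₁ˣ) : E₁) * ((ρ₁ t : E₁ˣ) : E₁) = x * ((ρ₁ (t ^ (-(n : ℤ))) : E₁ˣ) : E₁) := by
      rw [mul_assoc, ← Units.val_mul, ← map_mul, zpow_sub_one, inv_mul_cancel_right]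
    have h1 := th0_t ρ₁ ρ₂ t st₁ st₂ (L₁.mul_mem hx (hz1 (-(n : ℤ) - 1))) hy'
    rw [e3, ← e1, ih hx hy', e2] at h1
    exact h1.symm

theorem th0_one (h1 : (1 : E₁) ∈ F₁) (h2 : (1 : E₂) ∈ F₂) :
    th0 ρ₁ ρ₂ t st₁ st₂ ((1 : E₁) ⊗ₜ[ZMod 2] (1 : E₂)) = (1 : E₁) ⊗ₜ[ZMod 2] (1 : E₂) := by
  have e1 : ∀ u, st₁.κ (1 : E₁) u = if u = 0 then 1 else 0 := by
    intro u
    have h := st₁.mon 1 h1 0 u
    rwa [zpow_zero, Units.val_one, mul_one] at h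
  have e2 : ∀ u, st₂.κ (1 : E₂) u = if u = 0 then 1 else 0 := by
    intro u
    have h := st₂.mon 1 h2 0 u
    rwa [zpow_zero, Units.val_one, mul_one] at h
  rw [th0_tmul, finsum_eq_single _ 0]
  · rw [HH.Two.ct, e1, if_pos rfl, zero_sub, neg_zero, e2, if_pos rfl, zpow_zero, map_one ρ₂, Tor.cj_one]
  · intro u hu
    rw [HH.Two.ct, e1, if_neg hu, TensorProduct.zero_tmul]

end nqs

section nq
variable {K : Type} [Group K] {E₁ E₂ : Type} [DivisionRing E₁] [DivisionRing E₂] [Algebra (ZMod 2) E₁]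
  [Algebra (ZMod 2) E₂] {ρ₁ : K →* E₁ˣ} {ρ₂ : K →* E₂ˣ}

theorem nq_step {N H : Subgroup K} {t : K} (zp : ZP H N t) (S1 : Step (cl ρ₁ N) (cl ρ₁ H) (ρ₁ t))
    (S2 : Step (cl ρ₂ N) (cl ρ₂ H) (ρ₂ t)) {X : Set E₁} (mem : ∀ x ∈ X, x ∈ cl ρ₁ H)
    (h : (1 : E₁) ⊗ₜ[ZMod 2] (1 : E₂) ∈ Dv ρ₁ ρ₂ H X Set.univ) :
    ∃ Y : Set E₁, Y.Finite ∧ (∀ y ∈ Y, ∃ x ∈ X, ∃ u : ℤ, y = S1.κ x u) ∧
      (1 : E₁) ⊗ₜ[ZMod 2] (1 : E₂) ∈ Dv ρ₁ ρ₂ N Y Set.univ := by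
  have h0 := Dv.ret h
  have hconj : ∀ u : ℤ, ∀ g ∈ N, t ^ u * g * (t ^ u)⁻¹ ∈ N := fun u g hg => zp.conj _ (H.zpow_mem zp.mem u) g hg
  have h1 := Dv.map (th0 ρ₁ ρ₂ t S1 S2) (Dv ρ₁ ρ₂ N {y | ∃ x ∈ X, ∃ u : ℤ, y = S1.κ x u} Set.univ)
    (fun a ha g hg b hb => by
      obtain ⟨k, hk⟩ := zp.gen g hg
      have hga : a * ((ρ₁ g : E₁ˣ) : E₁) = a * ((ρ₁ (g * t ^ (-k)) : E₁ˣ) : E₁) * ((ρ₁ (t ^ k) : E₁ˣ) : E₁) := by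
        rw [mul_assoc, ← Units.val_mul, ← map_mul, mul_assoc g, ← zpow_add, neg_add_cancel, zpow_zero, mul_one]
      have hgb : ((ρ₂ g : E₂ˣ) : E₂) * b = ((ρ₂ (g * t ^ (-k)) : E₂ˣ) : E₂) * (((ρ₂ (t ^ k) : E₂ˣ) : E₂) * b) := by
        rw [← mul_assoc, ← Units.val_mul, ← map_mul, mul_assoc g, ← zpow_add, neg_add_cancel, zpow_zero, mul_one]
      have haH : a * ((ρ₁ (g * t ^ (-k)) : E₁ˣ) : E₁) ∈ cl ρ₁ H :=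
        (cl ρ₁ H).mul_mem (mem a ha) (T3.mem_cl ρ₁ (zp.le hk))
      have hbH : ((ρ₂ (t ^ k) : E₂ˣ) : E₂) * b ∈ cl ρ₂ H :=
        (cl ρ₂ H).mul_mem (T3.mem_cl ρ₂ (H.zpow_mem zp.mem k)) hb
      rw [hga, hgb, th0_pow ρ₁ ρ₂ t S1 S2 (T3.mem_cl ρ₁ zp.mem) (T3.mem_cl ρ₂ zp.mem) k haH hb, th0_tmul, th0_tmul,
        ← finsum_sub_distrib (ct_fin ρ₁ ρ₂ t S1 S2 0 _ _) (ct_fin ρ₁ ρ₂ t S1 S2 0 _ _)]
      refine finsum_induction _ (zero_mem _) (fun _ _ => add_mem) fun u => ?_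
      rw [HH.Two.ct, HH.Two.ct, kap_right ρ₁ t S1 (T3.mem_cl ρ₁ hk) (mem a ha), S2.left_F _ (T3.mem_cl ρ₂ hk) _ hbH, Tor.cj_mul,
        Tor.cj_rho, Tor.cj_rho]
      exact Dv.mk (X := {y | ∃ x ∈ X, ∃ u : ℤ, y = S1.κ x u}) ⟨a, ha, u, rfl⟩ (hconj u _ hk) (Set.mem_univ _)) h0
  rw [th0_one ρ₁ ρ₂ t S1 S2 (one_mem _) (one_mem _)] at h1
  obtain ⟨Y, hY, hYX, h2⟩ := Dv.fin h1
  exact ⟨Y, hY, fun y hy => hYX hy, h2⟩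

/-- **`1 ⊗ 1` is not in the span of the differences with first components in a good family** -/
theorem nz_fam (hli : LinearIndependent (ZMod 2) fun g : K => ((ρ₁ g : E₁ˣ) : E₁)) {H : Subgroup K} {X : Set E₁}
    (hX : BO.Fam ρ₁ ρ₂ H X) : (1 : E₁) ⊗ₜ[ZMod 2] (1 : E₂) ∉ Dv ρ₁ ρ₂ H X Set.univ := by
  induction hX with
  | base H X h =>
    refine nq_base hli H fun x hx => ?_
    obtain ⟨n, hn, h1⟩ := h x hx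
    have h2 : (n : E₁) = 1 := by
      have e : (n : E₁) = algebraMap (ZMod 2) E₁ (n : ZMod 2) := (map_natCast _ n).symm
      rw [e] at hn ⊢
      have h3 : (n : ZMod 2) ≠ 0 := fun h4 => hn (by rw [h4, map_zero])
      have h4 : ∀ z : ZMod 2, z ≠ 0 → z = 1 := by decide
      rw [h4 _ h3, map_one]
    rwa [h2, one_mul] at h1
  | up H' H X' X le ci mem fam h ih =>
    exact fun h1 => ih (nq_up le ci mem h h1)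
  | step N H t X zp S1 S2 mem fam ih =>
    intro h1
    obtain ⟨Y, hY, hYX, h2⟩ := nq_step zp S1 S2 mem h1
    exact ih Y hY hYX h2

end nq

end SQ.U
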