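import Pool.Agent.SQ.U.TF
import Pool.Agent.SQ.U.NZ2
import Pool.Agent.SQ.U.HHFinal
import Pool.Agent.SQ.U.Amen

/-!
# SQ/U, stage 7: row H1 (`StmtNT`) and the vanishing theorems for the class `HH`, without hypotheses
-/

set_option autoImplicit false

open scoped TensorProduct

noncomputable section

namespace SQ.U

open SQ.BO Singer

section nz
variable {K : Type} [Group K] {R₁ R₂ D₁ D₂ : Type} [Ring R₁] [Ring R₂] [DivisionRing D₁] [DivisionRing D₂]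
  [Algebra (ZMod 2) D₁] [Algebra (ZMod 2) D₂] {r₁ : R₁ →+* D₁} {r₂ : R₂ →+* D₂} {l₁ : K →* R₁ˣ} {l₂ : K →* R₂ˣ}

/-- the reduction of a difference -/
theorem kap_mem {z : R₁ ⊗[ℤ] R₂} (hz : z ∈ Iv l₁ l₂) :
    Bar.kap r₁ r₂ z ∈ Dv ((Units.map (r₁ : R₁ →* D₁)).comp l₁) ((Units.map (r₂ : R₂ →* D₂)).comp l₂) ⊤ Set.univ Set.univ := by
  induction hz using AddSubgroup.closure_induction with
  | mem z h =>
    obtain ⟨x, g, y, rfl⟩ := h
    rw [map_sub, Bar.kap_tmul, Bar.kap_tmul, map_mul, map_mul]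
    exact Dv.mk (ρ₁ := (Units.map (r₁ : R₁ →* D₁)).comp l₁) (ρ₂ := (Units.map (r₂ : R₂ →* D₂)).comp l₂)
      (Set.mem_univ (r₁ x)) (Subgroup.mem_top g) (Set.mem_univ (r₂ y))
  | zero => rw [map_zero]; exact zero_mem _
  | add a b _ _ ha hb => rw [map_add]; exact add_mem ha hb
  | neg a _ ha => rw [map_neg]; exact neg_mem ha

/-- `1 ⊗ 1` is not zero modulo the differences and 2 -/
theorem nz_of (hL : T5.Loc ((Units.map (r₁ : R₁ →* D₁)).comp l₁) ((Units.map (r₂ : R₂ →* D₂)).comp l₂)) : NZ l₁ l₂ := by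
  intro w hw
  set ρ₁ := (Units.map (r₁ : R₁ →* D₁)).comp l₁ with hρ₁
  set ρ₂ := (Units.map (r₂ : R₂ →* D₂)).comp l₂ with hρ₂
  have h1 := kap_mem (r₁ := r₁) (r₂ := r₂) hw
  rw [map_sub, map_nsmul, two_nsmul, ZModModule.add_self, sub_zero, Bar.kap_tmul, map_one, map_one] at h1
  obtain ⟨r, hr1, hr2, hr3⟩ := exists_ret_right (T3.cl ρ₁ (⊤ : Subgroup K))
  have h2 : (1 : D₁) ⊗ₜ[ZMod 2] (1 : D₂) ∈ Dv ρ₁ ρ₂ ⊤ (T3.cl ρ₁ (⊤ : Subgroup K) : Set D₁) Set.univ := by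
    have h3 := Dv.map (LinearMap.rTensor D₂ r) (Dv ρ₁ ρ₂ ⊤ (T3.cl ρ₁ (⊤ : Subgroup K) : Set D₁) Set.univ)
      (fun a _ g hg b hb => by
        rw [LinearMap.rTensor_tmul, LinearMap.rTensor_tmul, hr2 _ (T3.mem_cl ρ₁ hg)]
        exact Dv.mk (hr1 a) hg hb) h1
    rwa [LinearMap.rTensor_tmul, hr3 1 (one_mem _)] at h3
  obtain ⟨Y, hY, hYX, h3⟩ := Dv.fin h2
  exact nz_fam (allCos_of_loc hL).li (fam_of_loc hL hY fun x hx => hYX hx) h3

end nz

/-- **row H1, first half** -/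
theorem nz_wd {K : Type} [Group K] (hLI : ∀ S : Subgroup K, S.FG → S ≠ ⊥ → ∃ (N : Subgroup K) (t : K), ZP S N t)
    (W₁ W₂ : WD K) : NZ W₁.l W₂.l :=
  nz_of (r₁ := W₁.red) (r₂ := W₂.red) (loc_of_allInd hLI W₁.cos.allInd W₂.cos.allInd)

/-- **row H1** -/
theorem stmtNT : StmtNT := fun _ _ hK W₁ W₂ => ⟨nz_wd (LZ.of_li hK) W₁ W₂, tf_wd (LZ.of_li hK) W₁ W₂⟩

/-- the groups with the property have coefficient rings with the action of the automorphisms -/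
theorem stmtCoef : StmtCoef := stmtCoef_of stmtNT

/-- **the vanishing theorem** for the Poincare duality groups with a subgroup of finite index in the class -/
theorem vanE_virtual_HH {Γ : Type} [Group Γ] (H : Subgroup Γ) [H.FiniteIndex] (hH : HH H) {n : ℕ}
    (hPD : IsPD n Γ ∨ IsPD n H) (R : FinRes Γ) (i : ℕ) (hi : 2 * i ≠ n) : R.VanE i :=
  vanE_virtual_HH_of' stmtCoef H hH hPD R i hi

/-- **Theorem H** for the subgroups in the class -/
theorem vanE_sub_HH {Γ : Type} [Group Γ] {n : ℕ} (hn : IsPD n Γ) (K : Subgroup Γ) (hK : HH K) (R : FinRes K) (i : ℕ)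
    (hi : n < 2 * i) : R.VanE i :=
  vanE_sub_HH_of' stmtCoef hn K hK R i hi

end SQ.U
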