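import Pool.Agent.SQ.U.Grp
import Pool.Agent.SQ.T5.Apx
import Pool.Agent.SQ.BO.Asm

/-!
# SQ/U: the approximation of a group which is residually in the class

`exists_seq`: homomorphisms `P c : K → G c`, `q c : G c → B c` onto bi-orderable groups with kernels in `AL`, such that the
kernels of `P c` are a decreasing sequence with trivial intersection, and every nontrivial finitely generated subgroup `S` has
a pair `N`, `t` with one of the two kinds of independence in `G c` for all large `c`.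
-/

set_option autoImplicit false

noncomputable section

namespace SQ.U

open Filter SQ.T3 SQ.T5 SQ.BO Singer

/-- the powers of `t` are independent modulo `N` -/
def PInd {Q : Type} [Group Q] (N : Subgroup Q) (t : Q) : Prop := ∀ n : ℤ, t ^ n ∈ N → n = 0

theorem PInd.of_map {Q Q' : Type} [Group Q] [Group Q'] (f : Q →* Q') {N : Subgroup Q} {t : Q} (h : PInd (N.map f) (f t)) :
    PInd N t := fun n hn => h n ⟨t ^ n, hn, map_zpow f t n⟩

/-- pairs from the pairs in the image -/
theorem exists_zp_of_map {K Q : Type} [Group K] [Group Q] (S : Subgroup K) (f : K →* Q) {N' : Subgroup Q} {t' : Q}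
    (h : ZP (S.map f) N' t') : ∃ (N : Subgroup K) (t : K), ZP S N t ∧ N.map f ≤ N' ∧ f t = t' := by
  obtain ⟨t, ht, rfl⟩ := h.mem
  refine ⟨S ⊓ N'.comap f, t, ⟨inf_le_left, ht, ?_, ?_, ?_⟩, ?_, rfl⟩
  · rintro g hg x ⟨hx1, hx2⟩
    refine ⟨S.mul_mem (S.mul_mem hg hx1) (S.inv_mem hg), ?_⟩
    show f (g * x * g⁻¹) ∈ N'
    rw [map_mul, map_mul, map_inv]
    exact h.conj _ ⟨g, hg, rfl⟩ _ hx2
  · intro g hg
    obtain ⟨n, hn⟩ := h.gen (f g) ⟨g, hg, rfl⟩
    refine ⟨n, S.mul_mem hg (S.zpow_mem ht _), ?_⟩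
    show f (g * t ^ (-n)) ∈ N'
    rw [map_mul, map_zpow]
    exact hn
  · rintro n ⟨-, hn⟩
    refine h.inf n ?_
    have h1 : f (t ^ n) ∈ N' := hn
    rwa [map_zpow] at h1
  · rintro _ ⟨x, ⟨-, hx⟩, rfl⟩
    exact hx

/-- independence in the image implies independence in the finer images -/
theorem pind_trans {K Q Q' : Type} [Group K] [Group Q] [Group Q'] {f : K →* Q} {f' : K →* Q'} (hf : f'.ker ≤ f.ker)
    {N : Subgroup K} {t : K} (h : PInd (N.map f) (f t)) : PInd (N.map f') (f' t) := by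
  rintro n ⟨y, hy, hyt⟩
  refine h n ⟨y, hy, ?_⟩
  have h1 : y⁻¹ * t ^ n ∈ f'.ker := by
    rw [MonoidHom.mem_ker, map_mul, map_inv, hyt, map_zpow, inv_mul_cancel]
  have h2 := hf h1
  rw [MonoidHom.mem_ker, map_mul, map_inv, inv_mul_eq_one, map_zpow] at h2
  exact h2

theorem cl_comp_map {K Q : Type} [Group K] [Group Q] {E : Type} [DivisionRing E] (σ : Q →* Eˣ) (f : K →* Q) (N : Subgroup K) :
    cl (σ.comp f) N = cl σ (N.map f) := by
  unfold cl
  congr 1
  ext x
  constructor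
  · rintro ⟨g, hg, rfl⟩
    exact ⟨f g, ⟨g, hg, rfl⟩, rfl⟩
  · rintro ⟨_, ⟨g, hg, rfl⟩, rfl⟩
    exact ⟨g, hg, rfl⟩

/-- independence for the composition with a homomorphism -/
theorem ind_comp {K Q : Type} [Group K] [Group Q] {E : Type} [DivisionRing E] {σ : Q →* Eˣ} {f : K →* Q} {N : Subgroup K}
    {t : K} (h : BO.Ind σ (N.map f) (f t)) : BO.Ind (σ.comp f) N t := by
  intro c hc h0
  refine h c (fun u => ?_) h0
  rw [← cl_comp_map]
  exact hc u

/-- an approximation of `K` by groups in the class -/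
structure Seq (K : Type) [Group K] where
  G : ℕ → Type
  [grp : ∀ c, Group (G c)]
  B : ℕ → Type
  [grpB : ∀ c, Group (B c)]
  q : ∀ c, G c →* B c
  surj : ∀ c, Function.Surjective (q c)
  ord : ∀ c, BiOrd (B c)
  al : ∀ c, AL (q c).ker
  P : ∀ c, K →* G c
  anti : ∀ c c', c ≤ c' → (P c').ker ≤ (P c).ker
  antiB : ∀ c c', c ≤ c' → ((q c').comp (P c')).ker ≤ ((q c).comp (P c)).ker
  inf : ∀ g, g ≠ 1 → ∃ c, P c g ≠ 1

attribute [instance] Seq.grp Seq.grpB

theorem exists_seq {K : Type} [Group K] [Countable K] (hK : ResC K) : Nonempty (Seq K) := by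
  classical
  obtain ⟨f, hf⟩ := exists_surjective_nat K
  have hex : ∀ n, ∃ (Q : Type) (_ : Group Q) (π : K →* Q), InC Q ∧ (f n ≠ 1 → π (f n) ≠ 1) := by
    intro n
    by_cases h : f n = 1
    · exact ⟨Unit, inferInstance, 1, InC.of_biOrd BiOrd.unit, fun h' => absurd h h'⟩
    · obtain ⟨Q, i, π, h1, h3⟩ := hK (f n) h
      exact ⟨Q, i, π, h1, fun _ => h3⟩
  choose Q iQ π hQ hπ using hex
  choose B iB p hB hp hA using hQ
  have hker : ∀ c (x : ∀ i : Fin c, Q i), (MonoidHom.pi fun i : Fin c => (p i).comp (Pi.evalMonoidHom (fun i : Fin c => Q i) i)) x = 1 ↔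
      ∀ i : Fin c, p i (x i) = 1 := by
    intro c x
    constructor
    · intro hx i
      exact congrFun hx i
    · intro hx
      funext i
      exact hx i
  refine ⟨{ G := fun c => ∀ i : Fin c, Q i
            grp := fun c => inferInstanceAs (Group (∀ i : Fin c, Q i))
            B := fun c => ∀ i : Fin c, B i
            grpB := fun c => inferInstanceAs (Group (∀ i : Fin c, B i))
            q := fun c => MonoidHom.pi fun i : Fin c => (p i).comp (Pi.evalMonoidHom (fun i : Fin c => Q i) i)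
            surj := ?_
            ord := fun c => BiOrd.pi fun i => hB i
            al := ?_
            P := fun c => MonoidHom.pi fun i : Fin c => π i
            anti := ?_
            antiB := ?_
            inf := ?_ }⟩
  · intro c y
    choose x hx using fun i : Fin c => hp i (y i)
    exact ⟨x, funext hx⟩
  · intro c
    refine (AL.pi fun i : Fin c => hA i).congr ?_
    exact
      { toFun := fun x => ⟨fun i => (x i : Q i), (hker c _).2 fun i => (x i).2⟩
        invFun := fun x i => ⟨(x : ∀ i : Fin c, Q i) i, (hker c _).1 x.2 i⟩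
        left_inv := fun x => rfl
        right_inv := fun x => rfl
        map_mul' := fun x y => rfl }
  · intro c c' hcc x hx
    rw [MonoidHom.mem_ker] at hx ⊢
    funext i
    exact congrFun hx (Fin.castLE hcc i)
  · intro c c' hcc x hx
    rw [MonoidHom.mem_ker] at hx ⊢
    funext i
    exact congrFun hx (Fin.castLE hcc i)
  · intro g hg
    obtain ⟨n, rfl⟩ := hf g
    exact ⟨n + 1, fun h => hπ n hg (congrFun h ⟨n, Nat.lt_succ_self n⟩)⟩

/-- **local independence**, the two cases -/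
theorem Seq.loc {K : Type} [Group K] (A : Seq K) (S : Subgroup K) (hS : S.FG) (hne : S ≠ ⊥) :
    ∃ (N : Subgroup K) (t : K), ZP S N t ∧
      ((∀ᶠ c in atTop, PInd ((N.map (A.P c)).map (A.q c)) (A.q c (A.P c t))) ∨
        ∀ᶠ c in atTop, S.map (A.P c) ≤ (A.q c).ker ∧ PInd (N.map (A.P c)) (A.P c t)) := by
  classical
  by_cases hcase : ∃ c, (S.map (A.P c)).map (A.q c) ≠ ⊥
  · obtain ⟨c, hc⟩ := hcase
    obtain ⟨N', t', h'⟩ := stmtLI (A.B c) (A.ord c) (S.map ((A.q c).comp (A.P c))) (fg_map hS _) (by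
      rw [← Subgroup.map_map]
      exact hc)
    obtain ⟨N, t, h, hN, rfl⟩ := exists_zp_of_map S ((A.q c).comp (A.P c)) h'
    refine ⟨N, t, h, Or.inl ?_⟩
    filter_upwards [eventually_ge_atTop c] with d hd
    have h1 : PInd (N.map ((A.q c).comp (A.P c))) (((A.q c).comp (A.P c)) t) := fun n hn => h'.inf n (hN hn)
    have h2 := pind_trans (f' := (A.q d).comp (A.P d)) (A.antiB c d hd) h1
    rw [← Subgroup.map_map] at h2
    exact h2
  · push Not at hcase
    obtain ⟨g, hg, hg1⟩ : ∃ g ∈ S, g ≠ 1 := by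
      by_contra hcon
      push Not at hcon
      exact hne ((Subgroup.eq_bot_iff_forall S).2 hcon)
    obtain ⟨m, hm⟩ := A.inf g hg1
    have hle : ∀ c, S.map (A.P c) ≤ (A.q c).ker := by
      intro c x hx
      rw [MonoidHom.mem_ker]
      have h1 : A.q c x ∈ (S.map (A.P c)).map (A.q c) := Subgroup.mem_map_of_mem _ hx
      rw [hcase c, Subgroup.mem_bot] at h1
      exact h1
    let r : S →* (A.q m).ker := ((A.P m).comp S.subtype).codRestrict (A.q m).ker fun h =>
      hle m (Subgroup.mem_map_of_mem _ h.2)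
    have hSr : (⊤ : Subgroup S).FG := by
      rw [← Group.fg_def, Group.fg_iff_subgroup_fg]
      exact hS
    obtain ⟨χ, s, hs⟩ := (A.al m).li ((⊤ : Subgroup S).map r) (fg_map hSr r) (by
      intro h0
      have h1 : r ⟨g, hg⟩ ∈ (⊤ : Subgroup S).map r := Subgroup.mem_map_of_mem _ (Subgroup.mem_top _)
      rw [h0, Subgroup.mem_bot] at h1
      exact hm (congrArg Subtype.val h1))
    let r' : S →* (⊤ : Subgroup S).map r := r.codRestrict _ fun h => Subgroup.mem_map_of_mem _ (Subgroup.mem_top h)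
    obtain ⟨y, -, hys⟩ := s.2
    obtain ⟨t, ht⟩ := zp_of_chi S (χ.comp r') ⟨y, by
      have h2 : r' y = s := Subtype.ext hys
      show χ (r' y) ≠ 1
      rw [h2]
      exact hs⟩
    refine ⟨_, t, ht, Or.inr ?_⟩
    filter_upwards [eventually_ge_atTop m] with c hc
    refine ⟨hle c, ?_⟩
    refine pind_trans (f := A.P m) (A.anti m c hc) ?_
    rintro n ⟨y, hy, hyt⟩
    obtain ⟨z, hz, rfl⟩ := hy
    refine ht.inf n ?_
    refine ⟨⟨t, ht.mem⟩ ^ n, ?_, rfl⟩
    have h3 : r (⟨t, ht.mem⟩ ^ n) = r z := by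
      refine Subtype.ext ?_
      show A.P m (((⟨t, ht.mem⟩ : S) ^ n : S) : K) = A.P m (z : K)
      rw [Subgroup.coe_zpow, map_zpow, ← hyt]
      rfl
    have h4 : r' (⟨t, ht.mem⟩ ^ n) = r' z := Subtype.ext h3
    show χ (r' (⟨t, ht.mem⟩ ^ n)) = 1
    rw [h4]
    exact hz

/-- local independence in sequences of skew fields with the two independence properties -/
theorem Seq.loc_ind {K : Type} [Group K] (A : Seq K) {D F : ℕ → Type} [∀ c, DivisionRing (D c)] [∀ c, DivisionRing (F c)]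
    (σ : ∀ c, A.G c →* (D c)ˣ) (τ : ∀ c, A.G c →* (F c)ˣ)
    (h1 : ∀ (c : ℕ) (N : Subgroup (A.G c)) (t : A.G c), PInd (N.map (A.q c)) (A.q c t) → BO.Ind (σ c) N t ∧ BO.Ind (τ c) N t)
    (h2 : ∀ (c : ℕ) (N : Subgroup (A.G c)) (t : A.G c), N ≤ (A.q c).ker → t ∈ (A.q c).ker → PInd N t →
      BO.Ind (σ c) N t ∧ BO.Ind (τ c) N t)
    (S : Subgroup K) (hS : S.FG) (hne : S ≠ ⊥) :
    ∃ (N : Subgroup K) (t : K), ZP S N t ∧
      ∀ᶠ c in atTop, BO.Ind ((σ c).comp (A.P c)) N t ∧ BO.Ind ((τ c).comp (A.P c)) N t := by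
  obtain ⟨N, t, h, hc | hc⟩ := A.loc S hS hne
  · refine ⟨N, t, h, ?_⟩
    filter_upwards [hc] with c hc
    obtain ⟨h3, h4⟩ := h1 c _ _ hc
    exact ⟨ind_comp h3, ind_comp h4⟩
  · refine ⟨N, t, h, ?_⟩
    filter_upwards [hc] with c hc
    obtain ⟨h3, h4⟩ := h2 c (N.map (A.P c)) (A.P c t) (le_trans (Subgroup.map_mono h.le) hc.1)
      (hc.1 (Subgroup.mem_map_of_mem _ h.mem)) hc.2
    exact ⟨ind_comp h3, ind_comp h4⟩

end SQ.U
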