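import Pool.Agent.SQ.U.OreZ

/-!
# The 2-local ring of fractions of `ℤ[A]`

`A` amenable (Foelner) and locally indicable.  `Coef A`: a ring `R` which contains `ℤ[A]`, in which the elements which are not
divisible by 2 are exactly the units, with the action of the automorphisms of `A`, the subrings of the fractions over the subgroups
and the independence of cosets modulo 2.
-/

set_option autoImplicit false
set_option linter.unusedSectionVars false

noncomputable section

namespace SQ.U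

open MonoidAlgebra SQ.T3 SQ.Ore

/-- the coefficient ring -/
structure Coef (A : Type) [Group A] where
  R : Type
  [ring : Ring R]
  /-- the group in the ring -/
  l : A →* Rˣ
  half : ∀ x : R, IsUnit x ∨ ∃ y, x = 2 * y
  tf : ∀ x : R, 2 * x = 0 → x = 0
  one : ∀ y : R, (1 : R) ≠ 2 * y
  sep : ∀ x : R, (∀ k : ℕ, ∃ y, x = 2 ^ k * y) → x = 0
  /-- functoriality -/
  act : MulAut A →* RingAut R
  act_l : ∀ (θ : MulAut A) (a : A), act θ ((l a : Rˣ) : R) = ((l (θ a) : Rˣ) : R)
  act_conj : ∀ (a : A) (x : R), act (MulAut.conj a) x = ((l a : Rˣ) : R) * x * ((l a⁻¹ : Rˣ) : R)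
  /-- the fractions over the subgroups -/
  sub : Subgroup A → Subring R
  mem_sub : ∀ (N : Subgroup A), ∀ a ∈ N, ((l a : Rˣ) : R) ∈ sub N
  sub_inv : ∀ (N : Subgroup A) (u : Rˣ), (u : R) ∈ sub N → ((u⁻¹ : Rˣ) : R) ∈ sub N
  sub_half : ∀ (N : Subgroup A) (y : R), 2 * y ∈ sub N → y ∈ sub N
  sub_mono : ∀ N N' : Subgroup A, N ≤ N' → sub N ≤ sub N'
  sub_top : sub ⊤ = ⊤
  sub_act : ∀ (θ : MulAut A) (N : Subgroup A) (x : R), x ∈ sub N → act θ x ∈ sub (N.map θ.toMonoidHom)
  cosets : ∀ (N : Subgroup A) {ι : Type} (T : Finset ι) (g : ι → A) (x : ι → R),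
    (∀ i ∈ T, ∀ j ∈ T, i ≠ j → g i * (g j)⁻¹ ∉ N) → (∀ i ∈ T, x i ∈ sub N) →
    (∃ y, ∑ i ∈ T, x i * ((l (g i) : Rˣ) : R) = 2 * y) → ∀ i ∈ T, ∃ y, x i = 2 * y

attribute [instance] Coef.ring

/-! ### local fractions -/

section frac
variable {A : Type} [Group A] {R : Type} [Ring R]

/-- `R` is the ring of left fractions with odd denominators -/
structure IsLoc (i : MonoidAlgebra ℤ A →+* R) : Prop where
  inj : Function.Injective i
  unit : ∀ s, red2 s ≠ 0 → IsUnit (i s)
  gen : ∀ x : R, ∃ s a : MonoidAlgebra ℤ A, red2 s ≠ 0 ∧ i s * x = i a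

variable {i : MonoidAlgebra ℤ A →+* R}

theorem two_comm (x y : R) : x * (2 * y) = 2 * (x * y) := by
  rw [two_mul, two_mul, mul_add]

theorem pow_two_comm (k : ℕ) (x y : R) : x * (2 ^ k * y) = 2 ^ k * (x * y) := by
  have h : Commute x ((2 : R) ^ k) := by
    have h1 := (Nat.cast_commute (2 ^ k) x).symm
    push_cast at h1
    exact h1
  rw [← mul_assoc, h.eq, mul_assoc]

/-- two homomorphisms which agree on the group ring -/
theorem IsLoc.hom_ext (h : IsLoc i) {T : Type} [Ring T] (f g : R →+* T) (hfg : ∀ m, f (i m) = g (i m)) : f = g := by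
  ext x
  obtain ⟨s, a, hs, hx⟩ := h.gen x
  have h1 : f (i s) * f x = f (i s) * g x := by
    rw [← map_mul, hx, hfg a, ← hx, map_mul, hfg s]
  exact ((h.unit s hs).map f).mul_left_cancel h1

theorem IsLoc.half (h : IsLoc i) (x : R) : IsUnit x ∨ ∃ y, x = 2 * y := by
  obtain ⟨s, a, hs, hx⟩ := h.gen x
  obtain ⟨u, hu⟩ := h.unit s hs
  by_cases ha : red2 a = 0
  · right
    refine ⟨((u⁻¹ : Rˣ) : R) * i (hlf a), ?_⟩
    rw [← two_comm, ← map_ofNat i 2, ← map_mul, two_hlf ha, ← hx, ← hu, Units.inv_mul_cancel_left]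
  · left
    obtain ⟨v, hv⟩ := h.unit a ha
    refine ⟨u⁻¹ * v, ?_⟩
    rw [Units.val_mul, hv, ← hx, ← hu, Units.inv_mul_cancel_left]

theorem IsLoc.tf (h : IsLoc i) (x : R) (h0 : 2 * x = 0) : x = 0 := by
  obtain ⟨s, a, hs, hx⟩ := h.gen x
  have h1 : i (2 * a) = 0 := by
    rw [map_mul, map_ofNat, ← hx, ← two_comm, h0, mul_zero]
  have h2 : a = 0 := two_tf (h.inj (by rw [h1, map_zero]))
  rw [h2, map_zero] at hx
  exact ((h.unit s hs).mul_right_eq_zero).1 hx

theorem IsLoc.one (h : IsLoc i) (y : R) : (1 : R) ≠ 2 * y := by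
  intro h1
  obtain ⟨s, a, hs, hx⟩ := h.gen y
  apply hs
  have h2 : s = 2 * a := h.inj (by
    rw [map_mul, map_ofNat, ← hx, ← two_comm, ← h1, mul_one])
  rw [h2, red2_two]

theorem IsLoc.not_unit (h : IsLoc i) {x y : R} (hx : x = 2 * y) : ¬ IsUnit x := by
  rintro ⟨u, hu⟩
  apply h.one (((u⁻¹ : Rˣ) : R) * y)
  rw [← two_comm, ← hx, ← hu, Units.inv_mul]

theorem IsLoc.even (h : IsLoc i) {a : MonoidAlgebra ℤ A} {y : R} (hx : i a = 2 * y) : red2 a = 0 := by
  by_contra hne
  exact h.not_unit hx (h.unit a hne)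

theorem IsLoc.pow (h : IsLoc i) (k : ℕ) : ∀ (a : MonoidAlgebra ℤ A) (y : R), i a = 2 ^ k * y → ∃ b, a = 2 ^ k * b := by
  induction k with
  | zero => exact fun a y _ => ⟨a, by rw [pow_zero, one_mul]⟩
  | succ k ih =>
    intro a y hy
    rw [pow_succ', mul_assoc] at hy
    have h1 := two_hlf (h.even hy)
    have h2 : i (hlf a) = 2 ^ k * y := by
      rw [← sub_eq_zero]
      apply h.tf
      rw [mul_sub, ← hy, ← map_ofNat i 2, ← map_mul, h1, sub_self]
    obtain ⟨b, hb⟩ := ih _ _ h2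
    exact ⟨b, by rw [← h1, hb, pow_succ', mul_assoc]⟩

theorem pow_coeff (k : ℕ) (x : MonoidAlgebra ℤ A) (g : A) : (2 ^ k * x).coeff g = 2 ^ k * x.coeff g := by
  induction k generalizing x with
  | zero => rw [pow_zero, one_mul, pow_zero, one_mul]
  | succ k ih => rw [pow_succ, mul_assoc, ih, two_coeff, pow_succ, mul_assoc]

theorem IsLoc.sep (h : IsLoc i) (x : R) (hk : ∀ k : ℕ, ∃ y, x = 2 ^ k * y) : x = 0 := by
  obtain ⟨s, a, hs, hx⟩ := h.gen x
  have h2 : a = 0 := by
    ext g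
    rw [coeff_zero, Finsupp.zero_apply]
    by_contra hne
    obtain ⟨y, hy⟩ := hk (a.coeff g).natAbs
    obtain ⟨b, hb⟩ := h.pow (a.coeff g).natAbs a (i s * y) (by rw [← hx, ← pow_two_comm, ← hy])
    have h3 : a.coeff g = 2 ^ (a.coeff g).natAbs * b.coeff g := by
      conv_lhs => rw [hb, pow_coeff]
    have h4 : ((2 : ℤ) ^ (a.coeff g).natAbs) ∣ a.coeff g := ⟨_, h3⟩
    have h5 := Int.natAbs_dvd_natAbs.2 h4
    rw [Int.natAbs_pow] at h5
    have h6 := Nat.le_of_dvd (Int.natAbs_pos.2 hne) h5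
    have h7 : (a.coeff g).natAbs < 2 ^ (a.coeff g).natAbs := Nat.lt_two_pow_self
    have h8 : (2 : ℤ).natAbs = 2 := rfl
    rw [h8] at h6
    omega
  rw [h2, map_zero] at hx
  exact ((h.unit s hs).mul_right_eq_zero).1 hx

end frac

/-! ### the fractions over the subgroups -/

section sub
variable {A : Type} [Group A] {R : Type} [Ring R] {i : MonoidAlgebra ℤ A →+* R}

/-- the Ore condition of `oreZ` -/
def OreZ (A : Type) [Group A] : Prop :=
  ∀ (H : Subgroup A) (a : MonoidAlgebra ℤ A), a ∈ subRing ℤ H → ∀ s : MonoidAlgebra ℤ A, s ∈ subRing ℤ H → red2 s ≠ 0 →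
    ∃ q ∈ subRing ℤ H, ∃ r ∈ subRing ℤ H, red2 r ≠ 0 ∧ r * a = q * s

variable [NoZeroDivisors (MonoidAlgebra (ZMod 2) A)]

theorem red2_one : red2 (1 : MonoidAlgebra ℤ A) ≠ 0 := by
  rw [map_one]
  exact one_ne_zero

theorem red2_mul {x y : MonoidAlgebra ℤ A} (hx : red2 x ≠ 0) (hy : red2 y ≠ 0) : red2 (x * y) ≠ 0 := by
  rw [map_mul]
  exact mul_ne_zero hx hy

/-- the fractions over a subgroup -/
def fsub (i : MonoidAlgebra ℤ A →+* R) (ore : OreZ A) (N : Subgroup A) : Subring R where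
  carrier := {x | ∃ s ∈ subRing ℤ N, ∃ a ∈ subRing ℤ N, red2 s ≠ 0 ∧ i s * x = i a}
  one_mem' := ⟨1, Subring.one_mem _, 1, Subring.one_mem _, red2_one, mul_one _⟩
  zero_mem' := ⟨1, Subring.one_mem _, 0, Subring.zero_mem _, red2_one, by rw [mul_zero, map_zero]⟩
  mul_mem' := by
    rintro x y ⟨s, hsN, a, haN, hs, hx⟩ ⟨t, htN, b, hbN, ht, hy⟩
    obtain ⟨a', ha', t', ht', ht0, he⟩ := ore N a haN t htN ht
    refine ⟨t' * s, (subRing ℤ N).mul_mem ht' hsN, a' * b, (subRing ℤ N).mul_mem ha' hbN, red2_mul ht0 hs, ?_⟩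
    rw [map_mul, map_mul, ← hy, mul_assoc, ← mul_assoc (i s), hx, ← mul_assoc, ← mul_assoc, ← map_mul, ← map_mul, he]
  add_mem' := by
    rintro x y ⟨s, hsN, a, haN, hs, hx⟩ ⟨t, htN, b, hbN, ht, hy⟩
    obtain ⟨q, hq, r, hr, hr0, he⟩ := ore N s hsN t htN ht
    refine ⟨r * s, (subRing ℤ N).mul_mem hr hsN, r * a + q * b,
      (subRing ℤ N).add_mem ((subRing ℤ N).mul_mem hr haN) ((subRing ℤ N).mul_mem hq hbN), red2_mul hr0 hs, ?_⟩
    rw [mul_add, map_add]
    congr 1
    · rw [map_mul, mul_assoc, hx, map_mul]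
    · rw [he, map_mul, mul_assoc, hy, map_mul]
  neg_mem' := by
    rintro x ⟨s, hsN, a, haN, hs, hx⟩
    exact ⟨s, hsN, -a, (subRing ℤ N).neg_mem haN, hs, by rw [mul_neg, hx, map_neg]⟩

theorem mem_fsub {ore : OreZ A} {N : Subgroup A} {x : R} :
    x ∈ fsub i ore N ↔ ∃ s ∈ subRing ℤ N, ∃ a ∈ subRing ℤ N, red2 s ≠ 0 ∧ i s * x = i a := Iff.rfl

theorem fsub_inv (h : IsLoc i) (ore : OreZ A) (N : Subgroup A) (u : Rˣ) (hu : (u : R) ∈ fsub i ore N) :
    ((u⁻¹ : Rˣ) : R) ∈ fsub i ore N := by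
  obtain ⟨s, hsN, a, haN, hs, hx⟩ := hu
  refine ⟨a, haN, s, hsN, ?_, ?_⟩
  · intro ha
    have h1 : i a = 2 * i (hlf a) := by
      conv_lhs => rw [← two_hlf ha, map_mul, map_ofNat]
    apply h.not_unit h1
    rw [← hx]
    exact (h.unit s hs).mul u.isUnit
  · rw [← hx, Units.mul_inv_cancel_right]

theorem fsub_half (h : IsLoc i) (ore : OreZ A) (N : Subgroup A) (y : R) (hy : 2 * y ∈ fsub i ore N) : y ∈ fsub i ore N := by
  obtain ⟨s, hsN, a, haN, hs, hx⟩ := hy
  have h1 : i a = 2 * (i s * y) := by rw [← hx, two_comm]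
  have ha := h.even h1
  refine ⟨s, hsN, hlf a, hlf_mem N haN, hs, ?_⟩
  rw [← sub_eq_zero]
  apply h.tf
  rw [mul_sub, ← h1, ← map_ofNat i 2, ← map_mul, two_hlf ha, sub_self]

theorem fsub_mono (ore : OreZ A) (N N' : Subgroup A) (hN : N ≤ N') : fsub i ore N ≤ fsub i ore N' := by
  rintro x ⟨s, hsN, a, haN, hs, hx⟩
  exact ⟨s, fun g hg => hN (hsN g hg), a, fun g hg => hN (haN g hg), hs, hx⟩

theorem fsub_top (h : IsLoc i) (ore : OreZ A) : fsub i ore ⊤ = ⊤ := by
  refine eq_top_iff.2 fun x _ => ?_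
  obtain ⟨s, a, hs, hx⟩ := h.gen x
  exact ⟨s, fun _ _ => Subgroup.mem_top _, a, fun _ _ => Subgroup.mem_top _, hs, hx⟩

/-- common denominators -/
theorem exists_common (ore : OreZ A) (N : Subgroup A) {ι : Type} (T : Finset ι) (x : ι → R)
    (hx : ∀ j ∈ T, x j ∈ fsub i ore N) :
    ∃ (s : MonoidAlgebra ℤ A) (a : ι → MonoidAlgebra ℤ A), s ∈ subRing ℤ N ∧ red2 s ≠ 0 ∧
      ∀ j ∈ T, a j ∈ subRing ℤ N ∧ i s * x j = i (a j) := by
  classical
  induction T using Finset.induction_on with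
  | empty => exact ⟨1, fun _ => 0, Subring.one_mem _, red2_one, fun j hj => absurd hj (Finset.notMem_empty j)⟩
  | insert k T hk ih =>
    obtain ⟨s, a, hsN, hs, ha⟩ := ih fun j hj => hx j (Finset.mem_insert_of_mem hj)
    obtain ⟨t, htN, b, hbN, ht, hxk⟩ := hx k (Finset.mem_insert_self k T)
    obtain ⟨q, hq, r, hr, hr0, he⟩ := ore N s hsN t htN ht
    refine ⟨r * s, fun j => if j = k then q * b else r * a j, (subRing ℤ N).mul_mem hr hsN, red2_mul hr0 hs, fun j hj => ?_⟩
    by_cases hjk : j = k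
    · subst hjk
      simp only [if_true]
      refine ⟨(subRing ℤ N).mul_mem hq hbN, ?_⟩
      rw [he, map_mul, mul_assoc, hxk, map_mul]
    · simp only [if_neg hjk]
      have hjT : j ∈ T := (Finset.mem_insert.1 hj).resolve_left hjk
      refine ⟨(subRing ℤ N).mul_mem hr (ha j hjT).1, ?_⟩
      rw [map_mul, map_mul, mul_assoc, (ha j hjT).2]

/-- **independence of cosets modulo 2** -/
theorem fsub_cosets (h : IsLoc i) (ore : OreZ A) (N : Subgroup A) {ι : Type} (T : Finset ι) (g : ι → A) (x : ι → R)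
    (hg : ∀ j ∈ T, ∀ k ∈ T, j ≠ k → g j * (g k)⁻¹ ∉ N) (hx : ∀ j ∈ T, x j ∈ fsub i ore N)
    (h0 : ∃ y, ∑ j ∈ T, x j * i (of ℤ A (g j)) = 2 * y) : ∀ j ∈ T, ∃ y, x j = 2 * y := by
  classical
  obtain ⟨s, a, hsN, hs, ha⟩ := exists_common ore N T x hx
  obtain ⟨y, hy⟩ := h0
  have h1 : i (∑ j ∈ T, a j * of ℤ A (g j)) = 2 * (i s * y) := by
    rw [map_sum, ← two_comm, ← hy, Finset.mul_sum]
    refine Finset.sum_congr rfl fun j hj => ?_
    rw [map_mul, ← (ha j hj).2, mul_assoc]
  have h2 := h.even h1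
  intro j hj
  have h3 : red2 (a j) = 0 := by
    ext b
    by_cases hb : b ∈ N
    · have h4 := congrArg (fun z => z.coeff (b * g j)) h2
      simp only [red2_coeff, MonoidAlgebra.coeff_sum, Finsupp.finsetSum_apply, MonoidAlgebra.coeff_zero,
        Finsupp.zero_apply] at h4
      have h5 : ∀ k, (a k * of ℤ A (g k)).coeff (b * g j) = (a k).coeff (b * g j * (g k)⁻¹) := by
        intro k
        rw [of_apply, coeff_mul_single_eq_coeff_mul (b * g j * (g k)⁻¹) fun m _ => eq_mul_inv_iff_mul_eq.symm, mul_one]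
      rw [Finset.sum_eq_single j] at h4
      · rw [h5, mul_inv_cancel_right] at h4
        rw [red2_coeff, h4]
        rfl
      · intro k hk hkj
        rw [h5]
        by_contra hne
        have h6 := (ha k hk).1 _ (Finsupp.mem_support_iff.2 hne)
        rw [mul_assoc] at h6
        exact hg j hj k hk (Ne.symm hkj) ((Subgroup.mul_mem_cancel_left N hb).1 h6)
      · intro h'
        exact absurd hj h'
    · have h5 : (a j).coeff b = 0 := by
        by_contra hne
        exact hb ((ha j hj).1 _ (Finsupp.mem_support_iff.2 hne))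
      rw [red2_coeff, h5]
      rfl
  obtain ⟨u, hu⟩ := h.unit s hs
  refine ⟨((u⁻¹ : Rˣ) : R) * i (hlf (a j)), ?_⟩
  rw [← two_comm, ← map_ofNat i 2, ← map_mul, two_hlf h3, ← (ha j hj).2, ← hu, Units.inv_mul_cancel_left]

end sub

/-! ### existence -/

section loc
variable {A : Type} [Group A] [NoZeroDivisors (MonoidAlgebra (ZMod 2) A)]

theorem reg_aux {x s : MonoidAlgebra ℤ A} (hs : red2 s ≠ 0) (hx : x ≠ 0) : x * s ≠ 0 ∧ s * x ≠ 0 := by
  obtain ⟨k, y, _, hy, rfl⟩ := exists_odd ⊤ hx fun _ _ => Subgroup.mem_top _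
  have key : ∀ (k : ℕ) (z : MonoidAlgebra ℤ A), 2 ^ k * z = 0 → z = 0 := by
    intro k
    induction k with
    | zero =>
      intro z hz
      rwa [pow_zero, one_mul] at hz
    | succ k ih =>
      intro z hz
      rw [pow_succ', mul_assoc] at hz
      exact ih z (two_tf hz)
  constructor
  · intro h
    rw [mul_assoc] at h
    apply red2_mul hy hs
    rw [key k _ h, map_zero]
  · intro h
    rw [pow_two_comm] at h
    apply red2_mul hs hy
    rw [key k _ h, map_zero]

variable (A) in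
/-- the denominators -/
def Sod : Submonoid (MonoidAlgebra ℤ A) where
  carrier := {s | red2 s ≠ 0}
  one_mem' := red2_one
  mul_mem' := red2_mul

open OreLocalization in
theorem nonempty_oreSet (ore : OreZ A) : Nonempty (OreSet (Sod A)) := by
  refine nonempty_oreSet_iff.2 ⟨?_, ?_⟩
  · intro r₁ r₂ s h
    refine ⟨s, ?_⟩
    have h1 : r₁ = r₂ := by
      by_contra hne
      apply (reg_aux s.2 (sub_ne_zero.2 hne)).1
      rw [sub_mul, h, sub_self]
    rw [h1]
  · intro r s
    obtain ⟨q, _, t, _, ht, he⟩ := ore ⊤ r (fun _ _ => Subgroup.mem_top _) s (fun _ _ => Subgroup.mem_top _) s.2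
    exact ⟨q, ⟨t, ht⟩, he⟩

open OreLocalization in
theorem exists_loc (ore : OreZ A) : ∃ (R : Type) (_ : Ring R) (i : MonoidAlgebra ℤ A →+* R), IsLoc i ∧
    ∀ (T : Type) [Ring T] (f : MonoidAlgebra ℤ A →+* T), (∀ s, red2 s ≠ 0 → IsUnit (f s)) →
      ∃ F : R →+* T, ∀ m, F (i m) = f m := by
  obtain ⟨inst⟩ := nonempty_oreSet ore
  refine ⟨OreLocalization (Sod A) (MonoidAlgebra ℤ A), inferInstance, numeratorRingHom, ⟨?_, ?_, ?_⟩, ?_⟩
  · refine numeratorHom_inj fun s hs x hx => ?_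
    by_contra hne
    exact (reg_aux hs hne).2 hx
  · intro s hs
    exact (numeratorUnit (⟨s, hs⟩ : Sod A)).isUnit
  · intro x
    induction x using OreLocalization.ind with | _ r s
    refine ⟨s, r, s.2, ?_⟩
    show (numeratorHom (s : MonoidAlgebra ℤ A) : OreLocalization (Sod A) (MonoidAlgebra ℤ A)) * (r /ₒ s) = numeratorHom r
    rw [numeratorHom_apply, numeratorHom_apply]
    exact OreLocalization.mul_cancel
  · intro T _ f hf
    let fS : Sod A →* Tˣ :=
      { toFun := fun s => (hf s s.2).unit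
        map_one' := Units.ext (by
          rw [IsUnit.unit_spec, OneMemClass.coe_one, map_one, Units.val_one])
        map_mul' := fun s t => Units.ext (by
          rw [IsUnit.unit_spec, Units.val_mul, IsUnit.unit_spec, IsUnit.unit_spec, Submonoid.coe_mul, map_mul]) }
    exact ⟨universalHom f fS fun s => (IsUnit.unit_spec _).symm, fun m => universalHom_commutes f fS _⟩

/-- the automorphism of the group ring -/
def aut (θ : A ≃* A) : MonoidAlgebra ℤ A →+* MonoidAlgebra ℤ A := mapDomainRingHom ℤ θ.toMonoidHom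

theorem aut_of (θ : A ≃* A) (a : A) : aut θ (of ℤ A a) = of ℤ A (θ a) := by
  show mapDomain _ (of ℤ A a) = _
  rw [of_apply, mapDomain_single, of_apply]
  rfl

theorem aut_coeff (θ : A ≃* A) (x : MonoidAlgebra ℤ A) (a : A) : (aut θ x).coeff (θ a) = x.coeff a := by
  show (mapDomain θ x).coeff (θ a) = _
  rw [mapDomain, coeff_ofCoeff]
  exact Finsupp.mapDomain_apply θ.injective _ _

theorem aut_red (θ : A ≃* A) {x : MonoidAlgebra ℤ A} (hx : red2 x ≠ 0) : red2 (aut θ x) ≠ 0 := by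
  intro h
  apply hx
  ext a
  have h1 := congrArg (fun z => z.coeff (θ a)) h
  simp only [red2_coeff, aut_coeff, coeff_zero, Finsupp.zero_apply] at h1
  rw [red2_coeff, h1]
  rfl

theorem aut_mem (θ : A ≃* A) (N : Subgroup A) {x : MonoidAlgebra ℤ A} (hx : x ∈ subRing ℤ N) :
    aut θ x ∈ subRing ℤ (N.map θ.toMonoidHom) := by
  intro g hg
  obtain ⟨a, rfl⟩ := θ.surjective g
  rw [Finsupp.mem_support_iff, aut_coeff] at hg
  exact Subgroup.mem_map.2 ⟨a, hx a (Finsupp.mem_support_iff.2 hg), rfl⟩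

end loc

/-- **U1** -/
theorem exists_coef {A : Type} [Group A] (hF : ∀ H : Subgroup A, Foe H) (hdom : NoZeroDivisors (MonoidAlgebra (ZMod 2) A)) :
    Nonempty (Coef A) := by
  have ore : OreZ A := fun H a ha s hs hs0 => oreZ hF hdom H a ha s hs hs0
  obtain ⟨R, _, i, h, huniv⟩ := exists_loc ore
  have hex : ∀ θ : A ≃* A, ∃ F : R →+* R, ∀ m, F (i m) = i (aut θ m) := fun θ =>
    huniv R (i.comp (aut θ)) fun s hs => h.unit _ (aut_red θ hs)
  choose F hF' using hex
  let l : A →* Rˣ := (i.toMonoidHom.comp (of ℤ A)).toHomUnits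
  have hl : ∀ a, ((l a : Rˣ) : R) = i (of ℤ A a) := fun a => rfl
  have hcomp : ∀ θ θ' : A ≃* A, (F θ).comp (F θ') = F (θ'.trans θ) := by
    intro θ θ'
    refine h.hom_ext _ _ fun m => ?_
    rw [RingHom.comp_apply, hF', hF', hF']
    congr 1
    have h1 : (aut θ).comp (aut θ') = aut (θ'.trans θ) := by
      refine ringHom_ext (fun r => ?_) fun m => ?_
      · show mapDomain _ (mapDomain _ (single 1 r)) = mapDomain _ (single 1 r)
        rw [mapDomain_single, mapDomain_single, mapDomain_single]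
        simp
      · show aut θ (aut θ' (of ℤ A m)) = aut (θ'.trans θ) (of ℤ A m)
        rw [aut_of, aut_of, aut_of]
        rfl
    exact congrArg (fun f : MonoidAlgebra ℤ A →+* MonoidAlgebra ℤ A => f m) h1
  have hone : F (MulEquiv.refl A) = RingHom.id R := by
    refine h.hom_ext _ _ fun m => ?_
    rw [hF', RingHom.id_apply]
    congr 1
    have h1 : aut (MulEquiv.refl A) = RingHom.id (MonoidAlgebra ℤ A) := by
      refine ringHom_ext (fun r => ?_) fun m => ?_
      · show mapDomain _ (single 1 r) = single 1 r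
        rw [mapDomain_single]
        rfl
      · show aut (MulEquiv.refl A) (of ℤ A m) = of ℤ A m
        rw [aut_of]
        rfl
    exact congrArg (fun f : MonoidAlgebra ℤ A →+* MonoidAlgebra ℤ A => f m) h1
  let act : MulAut A →* RingAut R :=
    { toFun := fun θ => RingEquiv.ofRingHom (F θ) (F θ.symm) (by
          rw [hcomp, MulEquiv.symm_trans_self, hone]) (by
          rw [hcomp, MulEquiv.self_trans_symm, hone])
      map_one' := RingEquiv.ext fun x => by
        show F (MulEquiv.refl A) x = x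
        rw [hone, RingHom.id_apply]
      map_mul' := fun θ θ' => RingEquiv.ext fun x => by
        show F (θ'.trans θ) x = F θ (F θ' x)
        rw [← hcomp, RingHom.comp_apply] }
  have hact : ∀ θ x, act θ x = F θ x := fun θ x => rfl
  refine ⟨{
    R := R
    l := l
    half := h.half
    tf := h.tf
    one := h.one
    sep := h.sep
    act := act
    act_l := fun θ a => by rw [hact, hl, hl, hF', aut_of]
    act_conj := ?_
    sub := fsub i ore
    mem_sub := fun N a ha => ⟨1, Subring.one_mem _, of ℤ A a, of_mem_subRing N ha, red2_one, by rw [map_one, one_mul, hl]⟩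
    sub_inv := fsub_inv h ore
    sub_half := fsub_half h ore
    sub_mono := fsub_mono ore
    sub_top := fsub_top h ore
    sub_act := ?_
    cosets := fun N {ι} T g x hg hx h0 => fsub_cosets h ore N T g x hg hx h0 }⟩
  · intro a x
    let C : R →+* R :=
      { toFun := fun x => ((l a : Rˣ) : R) * x * ((l a⁻¹ : Rˣ) : R)
        map_one' := by rw [mul_one, ← Units.val_mul, ← map_mul, mul_inv_cancel, map_one, Units.val_one]
        map_mul' := fun x y => by
          have h1 : ((l a⁻¹ : Rˣ) : R) * ((l a : Rˣ) : R) = 1 := by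
            rw [← Units.val_mul, ← map_mul, inv_mul_cancel, map_one, Units.val_one]
          calc ((l a : Rˣ) : R) * (x * y) * ((l a⁻¹ : Rˣ) : R)
              = ((l a : Rˣ) : R) * x * 1 * y * ((l a⁻¹ : Rˣ) : R) := by rw [mul_one, ← mul_assoc]
            _ = ((l a : Rˣ) : R) * x * ((l a⁻¹ : Rˣ) : R) * (((l a : Rˣ) : R) * y * ((l a⁻¹ : Rˣ) : R)) := by
              rw [← h1]
              simp only [mul_assoc]
        map_zero' := by rw [mul_zero, zero_mul]
        map_add' := fun x y => by rw [mul_add, add_mul] }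
    have h1 : F (MulAut.conj a) = C := by
      refine h.hom_ext _ _ fun m => ?_
      rw [hF']
      have h2 : i.comp (aut (MulAut.conj a)) = C.comp i := by
        refine ringHom_ext (fun r => ?_) fun b => ?_
        · show i (mapDomain _ (single 1 r)) = ((l a : Rˣ) : R) * i (single 1 r) * ((l a⁻¹ : Rˣ) : R)
          rw [hl, hl, ← map_mul, ← map_mul, of_apply, of_apply, mapDomain_single, single_mul_single, single_mul_single]
          simp
        · show i (aut (MulAut.conj a) (of ℤ A b)) = ((l a : Rˣ) : R) * i (of ℤ A b) * ((l a⁻¹ : Rˣ) : R)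
          rw [aut_of, hl, hl, ← map_mul, ← map_mul, ← map_mul, ← map_mul]
          rfl
      exact congrArg (fun f : MonoidAlgebra ℤ A →+* R => f m) h2
    rw [hact, h1]
    rfl
  · rintro θ N x ⟨s, hsN, a, haN, hs, hx⟩
    refine ⟨aut θ s, aut_mem θ N hsN, aut θ a, aut_mem θ N haN, aut_red θ hs, ?_⟩
    rw [hact, ← hF', ← hF', ← map_mul, hx]

/-- **U1**, for an amenable locally indicable group -/
theorem exists_coef' {A : Type} [Group A] (hF : Foe A) (hL : T5.LI A) : Nonempty (Coef A) :=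
  exists_coef (fun H => T5.foe_subgroup hF H) hL.noZeroDivisors

end SQ.U
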