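import Pool.Agent.SQ.U.CoefW
import Pool.Agent.SQ.U.Coef
import Pool.Agent.SQ.U.Apx
import Pool.Agent.SQ.BO.MNRow

/-!
# SQ/U: the skew fields of a 2-local coefficient ring

`CoefW.exists_frac`: the residue skew field `D = R / 2 R` and the skew field of fractions `F = R[1/2]`, with the independence of
the powers of `t` over the closures of `N` in both, for all `N`, `t` with `PInd N t`.
-/

set_option autoImplicit false
set_option linter.unusedSectionVars false

noncomputable section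

namespace SQ.U

open SQ.T3 SQ.Ore SQ.BO OreLocalization nonZeroDivisors

namespace CoefW

variable {Q : Type} [Group Q] (C : CoefW Q)

theorem pow_tf (m : ℕ) (x : C.R) (h : 2 ^ m * x = 0) : x = 0 := by
  induction m with
  | zero => rwa [pow_zero, one_mul] at h
  | succ m ih =>
    rw [pow_succ', mul_assoc] at h
    exact ih (C.tf _ h)

theorem one_ne : (1 : C.R) ≠ 0 := fun h => C.one 0 (by rw [h, mul_zero])

theorem pow_ne (m : ℕ) : (2 : C.R) ^ m ≠ 0 := fun h => C.one_ne (C.pow_tf m 1 (by rw [mul_one, h]))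

theorem unit_odd {u : C.R} (hu : IsUnit u) (y : C.R) : u ≠ 2 * y := by
  rintro h
  obtain ⟨v, rfl⟩ := hu
  apply C.one (((v⁻¹ : C.Rˣ) : C.R) * y)
  rw [← two_comm, ← h, Units.inv_mul]

theorem exists_pow {x : C.R} (hx : x ≠ 0) : ∃ (m : ℕ) (u : C.R), IsUnit u ∧ x = 2 ^ m * u := by
  classical
  have hex : ∃ k : ℕ, ¬ ∃ y, x = 2 ^ k * y := by
    by_contra hcon
    push Not at hcon
    exact hx (C.sep x hcon)
  obtain ⟨m, hm⟩ : ∃ m, Nat.find hex = m + 1 := by
    refine Nat.exists_eq_succ_of_ne_zero fun h0 => ?_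
    have h1 := Nat.find_spec hex
    rw [h0] at h1
    exact h1 ⟨x, by rw [pow_zero, one_mul]⟩
  have h1 := Nat.find_spec hex
  rw [hm] at h1
  have h2 : ∃ y, x = 2 ^ m * y := by
    by_contra hcon
    have := Nat.find_min' hex hcon
    omega
  obtain ⟨y, hy⟩ := h2
  rcases C.half y with h | ⟨z, hz⟩
  · exact ⟨m, y, h, hy⟩
  · exact absurd ⟨z, by rw [hy, hz, pow_succ, mul_assoc]⟩ h1

theorem commute_pow (m : ℕ) (x : C.R) : 2 ^ m * x = x * 2 ^ m := by
  have h := Nat.cast_commute (2 ^ m) x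
  push_cast at h
  exact h.eq

instance : Nontrivial C.R := ⟨0, 1, C.one_ne.symm⟩

instance : NoZeroDivisors C.R where
  eq_zero_or_eq_zero_of_mul_eq_zero := by
    intro x y hxy
    by_contra hcon
    push Not at hcon
    obtain ⟨m, u, ⟨u', hu⟩, rfl⟩ := C.exists_pow hcon.1
    obtain ⟨n, v, ⟨v', hv⟩, rfl⟩ := C.exists_pow hcon.2
    have h1 : (2 : C.R) ^ (m + n) = 0 := by
      have h2 : (2 : C.R) ^ m * u * (2 ^ n * v) = 2 ^ (m + n) * (u * v) := by
        rw [pow_add, mul_assoc, ← mul_assoc u, ← C.commute_pow n u]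
        simp only [mul_assoc]
      rw [h2, ← hu, ← hv, ← Units.val_mul] at hxy
      exact (Units.mul_left_eq_zero _).1 hxy
    exact C.pow_ne _ h1

theorem ore (a s : C.R) (hs : s ≠ 0) : ∃ a' s' : C.R, s' ≠ 0 ∧ s' * a = a' * s := by
  obtain ⟨m, u, ⟨v, rfl⟩, rfl⟩ := C.exists_pow hs
  refine ⟨a * ((v⁻¹ : C.Rˣ) : C.R), 2 ^ m, C.pow_ne m, ?_⟩
  rw [C.commute_pow, C.commute_pow m (v : C.R), mul_assoc, ← mul_assoc ((v⁻¹ : C.Rˣ) : C.R), Units.inv_mul, one_mul]

theorem nat_ne {n : ℕ} (hn : n ≠ 0) : (n : C.R) ≠ 0 := by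
  intro h
  obtain ⟨k, m, ⟨c, rfl⟩, rfl⟩ := Nat.exists_eq_two_pow_mul_odd hn
  push_cast at h
  have h1 := C.pow_tf k _ h
  apply C.one (-(c : C.R))
  rw [mul_neg, eq_neg_iff_add_eq_zero, add_comm]
  exact h1

/-- the skew field of fractions -/
theorem exists_F : ∃ (F : Type) (_ : DivisionRing F) (_ : CharZero F) (j : C.R →+* F), Function.Injective j ∧
    ∀ x : F, ∃ (m : ℕ) (y : C.R), 2 ^ m * x = j y := by
  let _ : OreSet (nonZeroDivisors C.R) := oreSet _ C.ore
  have hfrac := isFrac_loc C.R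
  have hchar : CharZero (C.R[C.R⁰⁻¹]) := charZero_of hfrac.inj fun n hn => C.nat_ne hn
  exact ⟨C.R[C.R⁰⁻¹], inferInstance, hchar, numeratorRingHom, hfrac.inj, frac_of hfrac fun x hx => C.exists_pow hx⟩

/-- the ideal generated by 2 -/
def I : Ideal C.R where
  carrier := {x | ∃ y, x = 2 * y}
  add_mem' := by
    rintro _ _ ⟨a, rfl⟩ ⟨b, rfl⟩
    exact ⟨a + b, by rw [mul_add]⟩
  zero_mem' := ⟨0, by rw [mul_zero]⟩
  smul_mem' := by
    rintro c _ ⟨a, rfl⟩
    exact ⟨c * a, two_comm c a⟩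

theorem mem_I {x : C.R} : x ∈ C.I ↔ ∃ y, x = 2 * y := Iff.rfl

instance : C.I.IsTwoSided := ⟨by
  rintro _ b ⟨a, rfl⟩
  exact ⟨a * b, mul_assoc _ _ _⟩⟩

/-- the residue skew field -/
theorem exists_D : ∃ (D : Type) (_ : DivisionRing D) (_ : Algebra (ZMod 2) D) (π : C.R →+* D), Function.Surjective π ∧
    ∀ x, π x = 0 ↔ ∃ y, x = 2 * y := by
  have hnt : Nontrivial (C.R ⧸ C.I) := ⟨0, 1, fun h => by
    have h1 : (1 : C.R) ∈ C.I := Ideal.Quotient.eq_zero_iff_mem.1 (by rw [map_one, ← h])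
    obtain ⟨y, hy⟩ := h1
    exact C.one y hy⟩
  have hu : ∀ a : C.R ⧸ C.I, IsUnit a ∨ a = 0 := by
    intro a
    obtain ⟨x, rfl⟩ := Ideal.Quotient.mk_surjective a
    rcases C.half x with h | h
    · exact Or.inl (h.map _)
    · exact Or.inr (Ideal.Quotient.eq_zero_iff_mem.2 h)
  let iD : DivisionRing (C.R ⧸ C.I) := DivisionRing.ofIsUnitOrEqZero hu
  have h2 : (2 : C.R ⧸ C.I) = 0 := by
    have h3 : (Ideal.Quotient.mk C.I) (2 : C.R) = 0 := Ideal.Quotient.eq_zero_iff_mem.2 ⟨1, by rw [mul_one]⟩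
    rw [← h3, map_ofNat]
  have hc : CharP (C.R ⧸ C.I) 2 := CharTwo.of_one_ne_zero_of_two_eq_zero one_ne_zero h2
  exact ⟨C.R ⧸ C.I, iD, ZMod.algebra _ 2, Ideal.Quotient.mk C.I, Ideal.Quotient.mk_surjective,
    fun x => Ideal.Quotient.eq_zero_iff_mem⟩

/-! ### the closures -/

/-- the group in a skew field -/
def up {E : Type} [DivisionRing E] (j : C.R →+* E) : Q →* Eˣ := (Units.map (j : C.R →* E)).comp C.l

theorem up_val {E : Type} [DivisionRing E] (j : C.R →+* E) (g : Q) : ((C.up j g : Eˣ) : E) = j ((C.l g : C.Rˣ) : C.R) := rfl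

theorem up_zpow {E : Type} [DivisionRing E] (j : C.R →+* E) (t : Q) (u : ℤ) :
    ((C.up j t ^ u : Eˣ) : E) = j ((C.l (t ^ u) : C.Rˣ) : C.R) := by
  rw [← map_zpow]
  rfl

section D
variable {D : Type} [DivisionRing D] {π : C.R →+* D} (hπ : ∀ x, π x = 0 ↔ ∃ y, x = 2 * y)
include hπ

theorem mem_cl_D (N : Subgroup Q) {c : D} (hc : c ∈ cl (C.up π) N) : ∃ x ∈ C.sub N, π x = c := by
  let S : Subfield D :=
    { (C.sub N).map π with
      inv_mem' := by
        rintro _ ⟨x, hx, rfl⟩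
        by_cases h0 : π x = 0
        · rw [h0, inv_zero]
          exact ((C.sub N).map π).zero_mem
        · rcases C.half x with ⟨u, rfl⟩ | h
          · refine ⟨((u⁻¹ : C.Rˣ) : C.R), C.sub_inv N u hx, ?_⟩
            refine (inv_eq_of_mul_eq_one_right ?_).symm
            rw [← map_mul, Units.mul_inv, map_one]
          · exact absurd ((hπ x).2 h) h0 }
  have hle : cl (C.up π) N ≤ S := by
    unfold cl
    rw [Subfield.closure_le]
    rintro _ ⟨g, hg, rfl⟩
    exact ⟨_, C.mem_sub N g hg, rfl⟩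
  exact hle hc

theorem ind_D (N : Subgroup Q) (t : Q) (ht : PInd N t) : BO.Ind (C.up π) N t := by
  classical
  intro c hc h0
  choose x hx hxc using fun u => C.mem_cl_D hπ N (hc u)
  have h1 := C.cosets N c.support (fun u : ℤ => t ^ u) x (by
      intro i _ j _ hij hmem
      rw [← zpow_sub] at hmem
      have := ht _ hmem
      omega) (fun u _ => hx u) ((hπ _).1 (by
      rw [map_sum, ← h0, Finsupp.sum]
      refine Finset.sum_congr rfl fun u _ => ?_
      rw [map_mul, hxc, C.up_zpow]))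
  ext u
  by_cases hu : u ∈ c.support
  · rw [Finsupp.coe_zero, Pi.zero_apply, ← hxc u]
    exact (hπ _).2 (h1 u hu)
  · rw [Finsupp.coe_zero, Pi.zero_apply]
    exact Finsupp.notMem_support_iff.1 hu

end D

section F
variable {F : Type} [DivisionRing F] [CharZero F] {j : C.R →+* F} (hj : Function.Injective j)

theorem sub_pow (N : Subgroup Q) (m : ℕ) (y : C.R) (h : 2 ^ m * y ∈ C.sub N) : y ∈ C.sub N := by
  induction m with
  | zero => rwa [pow_zero, one_mul] at h
  | succ m ih =>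
    rw [pow_succ', mul_assoc] at h
    exact ih (C.sub_half N _ h)

theorem two_mem (N : Subgroup Q) (m : ℕ) : (2 : C.R) ^ m ∈ C.sub N := pow_mem (ofNat_mem _ 2) m

include hj in
theorem mem_cl_F (N : Subgroup Q) {c : F} (hc : c ∈ cl (C.up j) N) : ∃ (m : ℕ), ∃ x ∈ C.sub N, 2 ^ m * c = j x := by
  have h2 : ∀ (m : ℕ) (x : F), 2 ^ m * x = x * 2 ^ m := two_pow_comm
  have hp : ∀ m : ℕ, j (2 ^ m) = 2 ^ m := fun m => by rw [map_pow, map_ofNat]
  let S : Subfield F :=
    { carrier := {c | ∃ (m : ℕ), ∃ x ∈ C.sub N, 2 ^ m * c = j x}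
      mul_mem' := by
        rintro a b ⟨m, x, hx, hxa⟩ ⟨n, y, hy, hyb⟩
        refine ⟨m + n, x * y, (C.sub N).mul_mem hx hy, ?_⟩
        rw [map_mul, ← hxa, ← hyb, pow_add]
        rw [mul_assoc (2 ^ m) a, ← mul_assoc a (2 ^ n) b, ← h2 n a]
        simp only [mul_assoc]
      one_mem' := ⟨0, 1, (C.sub N).one_mem, by rw [pow_zero, mul_one, map_one]⟩
      add_mem' := by
        rintro a b ⟨m, x, hx, hxa⟩ ⟨n, y, hy, hyb⟩
        refine ⟨m + n, 2 ^ n * x + 2 ^ m * y, (C.sub N).add_mem ((C.sub N).mul_mem (C.two_mem N n) hx)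
          ((C.sub N).mul_mem (C.two_mem N m) hy), ?_⟩
        rw [map_add, map_mul, map_mul, ← hxa, ← hyb, hp, hp, mul_add, ← mul_assoc, ← mul_assoc, ← pow_add, ← pow_add,
          add_comm n m]
      zero_mem' := ⟨0, 0, (C.sub N).zero_mem, by rw [mul_zero, map_zero]⟩
      neg_mem' := by
        rintro a ⟨m, x, hx, hxa⟩
        exact ⟨m, -x, (C.sub N).neg_mem hx, by rw [map_neg, ← hxa, mul_neg]⟩
      inv_mem' := by
        rintro a ⟨m, x, hx, hxa⟩
        by_cases h0 : a = 0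
        · exact ⟨0, 0, (C.sub N).zero_mem, by rw [h0, inv_zero, mul_zero, map_zero]⟩
        · have hx0 : x ≠ 0 := by
            rintro rfl
            rw [map_zero] at hxa
            rcases mul_eq_zero.1 hxa with h | h
            · exact two_pow_ne m h
            · exact h0 h
          obtain ⟨n, u, ⟨v, rfl⟩, rfl⟩ := C.exists_pow hx0
          refine ⟨n, 2 ^ m * ((v⁻¹ : C.Rˣ) : C.R), (C.sub N).mul_mem (C.two_mem N m) (C.sub_inv N v (C.sub_pow N n _ hx)), ?_⟩
          refine mul_right_cancel₀ h0 ?_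
          rw [mul_assoc, inv_mul_cancel₀ h0, mul_one, map_mul, hp, h2, mul_assoc, hxa, map_mul, hp, ← mul_assoc, ← h2,
            mul_assoc, ← map_mul, Units.inv_mul, map_one, mul_one] }
  have hle : cl (C.up j) N ≤ S := by
    unfold cl
    rw [Subfield.closure_le]
    rintro _ ⟨g, hg, rfl⟩
    exact ⟨0, _, C.mem_sub N g hg, by
      rw [pow_zero, one_mul]
      rfl⟩
  exact hle hc

theorem fam_zero (N : Subgroup Q) (t : Q) (ht : PInd N t) (T : Finset ℤ) (k : ℕ) :
    ∀ x : ℤ → C.R, (∀ u ∈ T, x u ∈ C.sub N) → ∑ u ∈ T, x u * ((C.l (t ^ u) : C.Rˣ) : C.R) = 0 →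
      ∀ u ∈ T, ∃ y, x u = 2 ^ k * y := by
  induction k with
  | zero => exact fun x _ _ u _ => ⟨x u, by rw [pow_zero, one_mul]⟩
  | succ k ih =>
    intro x hx h0
    have h1 := C.cosets N T (fun u : ℤ => t ^ u) x (by
        intro i _ j _ hij hmem
        rw [← zpow_sub] at hmem
        have := ht _ hmem
        omega) hx ⟨0, by rw [h0, mul_zero]⟩
    choose! y hy using h1
    have h2 := ih y (fun u hu => C.sub_half N _ (by rw [← hy u hu]; exact hx u hu)) (by
      apply C.tf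
      rw [Finset.mul_sum, ← h0]
      refine Finset.sum_congr rfl fun u hu => ?_
      rw [hy u hu, mul_assoc])
    intro u hu
    obtain ⟨z, hz⟩ := h2 u hu
    exact ⟨z, by rw [hy u hu, hz, pow_succ', mul_assoc]⟩

include hj in
theorem ind_F (N : Subgroup Q) (t : Q) (ht : PInd N t) : BO.Ind (C.up j) N t := by
  classical
  intro c hc h0
  choose m x hx hxc using fun u => C.mem_cl_F hj N (hc u)
  let M := c.support.sup m
  have hM : ∀ u ∈ c.support, m u ≤ M := fun u hu => Finset.le_sup hu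
  let z : ℤ → C.R := fun u => 2 ^ (M - m u) * x u
  have hz : ∀ u ∈ c.support, j (z u) = 2 ^ M * c u := by
    intro u hu
    show j (2 ^ (M - m u) * x u) = _
    rw [map_mul, ← hxc, map_pow, map_ofNat, ← mul_assoc, ← pow_add, Nat.sub_add_cancel (hM u hu)]
  have hsum : ∑ u ∈ c.support, z u * ((C.l (t ^ u) : C.Rˣ) : C.R) = 0 := by
    apply hj
    rw [map_sum, map_zero]
    have h1 : ∀ u ∈ c.support, j (z u * ((C.l (t ^ u) : C.Rˣ) : C.R)) = 2 ^ M * (c u * ((C.up j t ^ u : Fˣ) : F)) := by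
      intro u hu
      rw [map_mul, hz u hu, mul_assoc, C.up_zpow]
    rw [Finset.sum_congr rfl h1, ← Finset.mul_sum]
    have h2 : ∑ u ∈ c.support, c u * ((C.up j t ^ u : Fˣ) : F) = 0 := h0
    rw [h2, mul_zero]
  have hzero : ∀ u ∈ c.support, z u = 0 := fun u hu =>
    C.sep _ fun k => C.fam_zero N t ht c.support k z
      (fun u _ => (C.sub N).mul_mem (C.two_mem N _) (hx u)) hsum u hu
  ext u
  by_cases hu : u ∈ c.support
  · have h1 := hz u hu
    rw [hzero u hu, map_zero] at h1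
    rw [Finsupp.coe_zero, Pi.zero_apply]
    rcases mul_eq_zero.1 h1.symm with h | h
    · exact absurd h (two_pow_ne M)
    · exact h
  · rw [Finsupp.coe_zero, Pi.zero_apply]
    exact Finsupp.notMem_support_iff.1 hu

end F

/-- **the skew fields of a coefficient ring** -/
theorem exists_frac : ∃ (D F : Type) (_ : DivisionRing D) (_ : DivisionRing F) (_ : Algebra (ZMod 2) D) (_ : CharZero F)
    (π : C.R →+* D) (j : C.R →+* F), Function.Surjective π ∧ (∀ x, π x ≠ 0 → IsUnit x) ∧ Function.Injective j ∧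
      ∀ (N : Subgroup Q) (t : Q), PInd N t → BO.Ind (C.up π) N t ∧ BO.Ind (C.up j) N t := by
  obtain ⟨F, iF, iC, j, hj, -⟩ := C.exists_F
  obtain ⟨D, iD, iA, π, hπs, hπ⟩ := C.exists_D
  refine ⟨D, F, iD, iF, iA, iC, π, j, hπs, fun x hx => ?_, hj, fun N t ht => ⟨C.ind_D hπ N t ht, C.ind_F hj N t ht⟩⟩
  rcases C.half x with h | h
  · exact h
  · exact absurd ((hπ x).2 h) hx

end CoefW

end SQ.U
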