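import Pool.Agent.SQ.T3.Tor
import Pool.Agent.SQ.T3.Lev

/-!
# SQ/U: the complex `P ⊗ (E₁ ⊗ E₂)` for two skew fields and permutation modules `P`

The chains are `F_2[α] ⊗ (E₁ ⊗ E₂)` for a free `K`-set `α`; `K` may be infinitely generated.
-/

set_option autoImplicit false
set_option linter.unusedSectionVars false

open scoped TensorProduct

namespace SQ.U.Bar

open SQ.T3 SQ.T3.Tor

/-- the permutation module -/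
def Pm (α : Type) : Type := α →₀ ZMod 2

noncomputable instance (α : Type) : AddCommGroup (Pm α) := inferInstanceAs (AddCommGroup (α →₀ ZMod 2))

noncomputable instance (α : Type) : Module (ZMod 2) (Pm α) := inferInstanceAs (Module (ZMod 2) (α →₀ ZMod 2))

/-- the basis -/
noncomputable def bs {α : Type} (a : α) : Pm α := (Finsupp.single a 1 : α →₀ ZMod 2)

/-- the chains -/
abbrev Tc (E₁ E₂ : Type) [DivisionRing E₁] [DivisionRing E₂] [Algebra (ZMod 2) E₁] [Algebra (ZMod 2) E₂]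
    (α : Type) : Type :=
  Pm α ⊗[ZMod 2] (E₁ ⊗[ZMod 2] E₂)

/-- the action on the permutation module -/
noncomputable def tr (K : Type) [Group K] (α : Type) [MulAction K α] : Representation (ZMod 2) K (Pm α) where
  toFun g := (Finsupp.lmapDomain (ZMod 2) (ZMod 2) (fun a => g • a) : (α →₀ ZMod 2) →ₗ[ZMod 2] (α →₀ ZMod 2))
  map_one' := by
    refine Finsupp.lhom_ext (fun a c => ?_)
    show (Finsupp.mapDomain (fun a => (1 : K) • a) (Finsupp.single a c) : α →₀ ZMod 2) = Finsupp.single a c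
    rw [Finsupp.mapDomain_single, one_smul]
  map_mul' g h := by
    refine Finsupp.lhom_ext (fun a c => ?_)
    show (Finsupp.mapDomain (fun a => (g * h) • a) (Finsupp.single a c) : α →₀ ZMod 2) =
      Finsupp.mapDomain (fun a => g • a) (Finsupp.mapDomain (fun a => h • a) (Finsupp.single a c) : α →₀ ZMod 2)
    rw [Finsupp.mapDomain_single, Finsupp.mapDomain_single, Finsupp.mapDomain_single, mul_smul]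

lemma tr_bs {K : Type} [Group K] {α : Type} [MulAction K α] (g : K) (a : α) : tr K α g (bs a) = bs (g • a) :=
  Finsupp.mapDomain_single

/-- an equivariant map -/
def Eqv (K : Type) [Group K] {α β : Type} [MulAction K α] [MulAction K β]
    (d : Pm α →ₗ[ZMod 2] Pm β) : Prop := ∀ (g : K) (p : Pm α), d (tr K α g p) = tr K β g (d p)

section base
variable {K : Type} [Group K] {E₁ E₂ : Type} [DivisionRing E₁] [DivisionRing E₂] [Algebra (ZMod 2) E₁]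
  [Algebra (ZMod 2) E₂]

/-- the action on `E₁ ⊗ E₂` -/
noncomputable def ten (ρ₁ : K →* E₁ˣ) (ρ₂ : K →* E₂ˣ) : Representation (ZMod 2) K (E₁ ⊗[ZMod 2] E₂) :=
  (rm ρ₁).tprod (lmul ρ₂)

lemma ten_tmul (ρ₁ : K →* E₁ˣ) (ρ₂ : K →* E₂ˣ) (g : K) (x : E₁) (y : E₂) :
    ten ρ₁ ρ₂ g (x ⊗ₜ[ZMod 2] y) = (x * ((ρ₁ g⁻¹ : E₁ˣ) : E₁)) ⊗ₜ[ZMod 2] (((ρ₂ g : E₂ˣ) : E₂) * y) := rfl

/-- the action on the chains -/
noncomputable def sg (ρ₁ : K →* E₁ˣ) (ρ₂ : K →* E₂ˣ) (α : Type) [MulAction K α] :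
    Representation (ZMod 2) K (Tc E₁ E₂ α) :=
  (tr K α).tprod (ten ρ₁ ρ₂)

lemma sg_tmul (ρ₁ : K →* E₁ˣ) (ρ₂ : K →* E₂ˣ) {α : Type} [MulAction K α] (g : K) (p : Pm α)
    (x : E₁) (y : E₂) :
    sg ρ₁ ρ₂ α g (p ⊗ₜ[ZMod 2] (x ⊗ₜ[ZMod 2] y)) =
      (tr K α g p) ⊗ₜ[ZMod 2] ((x * ((ρ₁ g⁻¹ : E₁ˣ) : E₁)) ⊗ₜ[ZMod 2] (((ρ₂ g : E₂ˣ) : E₂) * y)) := rfl

lemma sg_d (ρ₁ : K →* E₁ˣ) (ρ₂ : K →* E₂ˣ) {α β : Type} [MulAction K α] [MulAction K β] (d : Pm α →ₗ[ZMod 2] Pm β)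
    (hd : Eqv K d)
    (g : K) (z : Tc E₁ E₂ α) :
    d.rTensor (E₁ ⊗[ZMod 2] E₂) (sg ρ₁ ρ₂ α g z) = sg ρ₁ ρ₂ β g (d.rTensor (E₁ ⊗[ZMod 2] E₂) z) := by
  induction z using TensorProduct.induction_on with
  | zero => simp only [map_zero]
  | add x y hx hy => simp only [map_add, hx, hy]
  | tmul p y =>
    rw [sg, sg, Representation.tprod_apply, Representation.tprod_apply, TensorProduct.map_tmul, LinearMap.rTensor_tmul,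
      LinearMap.rTensor_tmul, TensorProduct.map_tmul]
    congr 1
    exact hd g p

/-- the chains with coefficients in two sets -/
noncomputable def Ch (α : Type) (A : Set E₁) (B : Set E₂) : Submodule (ZMod 2) (Tc E₁ E₂ α) :=
  Submodule.span (ZMod 2) {z | ∃ p : Pm α, ∃ x ∈ A, ∃ y ∈ B, z = p ⊗ₜ[ZMod 2] (x ⊗ₜ[ZMod 2] y)}

lemma Ch.mk {α : Type} {A : Set E₁} {B : Set E₂} (p : Pm α) {x : E₁} {y : E₂} (hx : x ∈ A)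
    (hy : y ∈ B) : p ⊗ₜ[ZMod 2] (x ⊗ₜ[ZMod 2] y) ∈ Ch α A B := Submodule.subset_span ⟨p, x, hx, y, hy, rfl⟩

/-- a linear map maps chains to a submodule if it does so on generators -/
lemma Ch.map {α : Type} {A : Set E₁} {B : Set E₂} {X : Type} [AddCommGroup X] [Module (ZMod 2) X]
    (f : Tc E₁ E₂ α →ₗ[ZMod 2] X) (S : Submodule (ZMod 2) X)
    (h : ∀ p : Pm α, ∀ x ∈ A, ∀ y ∈ B, f (p ⊗ₜ[ZMod 2] (x ⊗ₜ[ZMod 2] y)) ∈ S)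
    {z : Tc E₁ E₂ α} (hz : z ∈ Ch α A B) : f z ∈ S := by
  refine Submodule.span_induction (p := fun z _ => f z ∈ S) ?_ (by rw [map_zero]; exact zero_mem _)
    (fun x y _ _ hx hy => by rw [map_add]; exact add_mem hx hy) (fun c x _ hx => by rw [map_smul]; exact S.smul_mem c hx) hz
  rintro _ ⟨p, x, hx, y, hy, rfl⟩
  exact h p x hx y hy

/-- two linear maps which agree on generators agree on chains -/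
lemma Ch.eq {α : Type} {A : Set E₁} {B : Set E₂} {X : Type} [AddCommGroup X] [Module (ZMod 2) X]
    (f g : Tc E₁ E₂ α →ₗ[ZMod 2] X)
    (h : ∀ p : Pm α, ∀ x ∈ A, ∀ y ∈ B, f (p ⊗ₜ[ZMod 2] (x ⊗ₜ[ZMod 2] y)) =
      g (p ⊗ₜ[ZMod 2] (x ⊗ₜ[ZMod 2] y)))
    {z : Tc E₁ E₂ α} (hz : z ∈ Ch α A B) : f z = g z := by
  refine Submodule.span_induction (p := fun z _ => f z = g z) ?_ (by rw [map_zero, map_zero])
    (fun x y _ _ hx hy => by rw [map_add, hx, hy, map_add]) (fun c x _ hx => by rw [map_smul, hx, map_smul]) hz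
  rintro _ ⟨p, x, hx, y, hy, rfl⟩
  exact h p x hx y hy

lemma Ch.univ (α : Type) (z : Tc E₁ E₂ α) : z ∈ Ch α (Set.univ : Set E₁) (Set.univ : Set E₂) := by
  induction z using TensorProduct.induction_on with
  | zero => exact zero_mem _
  | add x y hx hy => exact add_mem hx hy
  | tmul p z =>
    induction z using TensorProduct.induction_on with
    | zero => rw [TensorProduct.tmul_zero]; exact zero_mem _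
    | add x y hx hy => rw [TensorProduct.tmul_add]; exact add_mem hx hy
    | tmul x y => exact Ch.mk p trivial trivial

lemma Ch.mono {α : Type} {A A' : Set E₁} {B B' : Set E₂} (hA : A ⊆ A') (hB : B ⊆ B') : Ch α A B ≤ Ch α A' B' :=
  Submodule.span_mono fun _ ⟨p, x, hx, y, hy, h⟩ => ⟨p, x, hA hx, y, hB hy, h⟩

/-- two linear maps which agree on generators are equal -/
lemma ext3 {α : Type} {X : Type} [AddCommGroup X] [Module (ZMod 2) X] (f g : Tc E₁ E₂ α →ₗ[ZMod 2] X)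
    (h : ∀ (p : Pm α) (x : E₁) (y : E₂), f (p ⊗ₜ[ZMod 2] (x ⊗ₜ[ZMod 2] y)) =
      g (p ⊗ₜ[ZMod 2] (x ⊗ₜ[ZMod 2] y))) (z : Tc E₁ E₂ α) : f z = g z :=
  Ch.eq f g (fun p x _ y _ => h p x y) (Ch.univ α z)

variable (ρ₁ : K →* E₁ˣ) (ρ₂ : K →* E₂ˣ)

/-- the span of the differences `g z - z` -/
noncomputable def Iv (α : Type) [MulAction K α] (N : Subgroup K) : Submodule (ZMod 2) (Tc E₁ E₂ α) :=
  Submodule.span (ZMod 2) {z | ∃ g ∈ N, ∃ x ∈ Ch α (cl ρ₁ N : Set E₁) (cl ρ₂ N : Set E₂), z = sg ρ₁ ρ₂ α g x - x}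

lemma Iv.mk {α : Type} [MulAction K α] {N : Subgroup K} {g : K} (hg : g ∈ N) {x : Tc E₁ E₂ α}
    (hx : x ∈ Ch α (cl ρ₁ N : Set E₁) (cl ρ₂ N : Set E₂)) : sg ρ₁ ρ₂ α g x - x ∈ Iv ρ₁ ρ₂ α N :=
  Submodule.subset_span ⟨g, hg, x, hx, rfl⟩

lemma Iv.map {α : Type} [MulAction K α] {N : Subgroup K} {X : Type} [AddCommGroup X] [Module (ZMod 2) X] (f : Tc E₁ E₂ α →ₗ[ZMod 2] X)
    (S : Submodule (ZMod 2) X)
    (h : ∀ g ∈ N, ∀ x ∈ Ch α (cl ρ₁ N : Set E₁) (cl ρ₂ N : Set E₂), f (sg ρ₁ ρ₂ α g x) - f x ∈ S)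
    {z : Tc E₁ E₂ α} (hz : z ∈ Iv ρ₁ ρ₂ α N) : f z ∈ S := by
  refine Submodule.span_induction (p := fun z _ => f z ∈ S) ?_ (by rw [map_zero]; exact zero_mem _)
    (fun x y _ _ hx hy => by rw [map_add]; exact add_mem hx hy) (fun c x _ hx => by rw [map_smul]; exact S.smul_mem c hx) hz
  rintro _ ⟨g, hg, x, hx, rfl⟩
  rw [map_sub]
  exact h g hg x hx

lemma Iv.mono {α : Type} [MulAction K α] {N N' : Subgroup K} (h : N' ≤ N) : Iv ρ₁ ρ₂ α N' ≤ Iv ρ₁ ρ₂ α N :=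
  Submodule.span_mono fun _ ⟨g, hg, x, hx, e⟩ => ⟨g, h hg, x, Ch.mono (cl_mono ρ₁ h) (cl_mono ρ₂ h) hx, e⟩

lemma Ch.sg {α : Type} [MulAction K α] {N : Subgroup K} {g : K} (hg : g ∈ N) {z : Tc E₁ E₂ α}
    (hz : z ∈ Ch α (cl ρ₁ N : Set E₁) (cl ρ₂ N : Set E₂)) :
    Bar.sg ρ₁ ρ₂ α g z ∈ Ch α (cl ρ₁ N : Set E₁) (cl ρ₂ N : Set E₂) := by
  refine Ch.map _ _ (fun p x hx y hy => ?_) hz
  rw [sg_tmul]
  exact Ch.mk _ ((cl ρ₁ N).mul_mem hx (SQ.T3.mem_cl ρ₁ (N.inv_mem hg))) ((cl ρ₂ N).mul_mem (SQ.T3.mem_cl ρ₂ hg) hy)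

lemma Ch.d {α β : Type} (d : Pm α →ₗ[ZMod 2] Pm β) {A : Set E₁} {B : Set E₂} {z : Tc E₁ E₂ α}
    (hz : z ∈ Ch α A B) : d.rTensor (E₁ ⊗[ZMod 2] E₂) z ∈ Ch β A B := by
  refine Ch.map _ _ (fun p x hx y hy => ?_) hz
  rw [LinearMap.rTensor_tmul]
  exact Ch.mk _ hx hy

lemma Iv.d {α β : Type} [MulAction K α] [MulAction K β] (d : Pm α →ₗ[ZMod 2] Pm β)
    (hd : Eqv K d) {N : Subgroup K} {z : Tc E₁ E₂ α}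
    (hz : z ∈ Iv ρ₁ ρ₂ α N) : d.rTensor (E₁ ⊗[ZMod 2] E₂) z ∈ Iv ρ₁ ρ₂ β N := by
  refine Iv.map ρ₁ ρ₂ _ _ (fun g hg x hx => ?_) hz
  rw [sg_d ρ₁ ρ₂ d hd]
  exact Iv.mk ρ₁ ρ₂ hg (Ch.d d hx)

variable {α β γ : Type} [MulAction K α] [MulAction K β] [MulAction K γ] (d : Pm α →ₗ[ZMod 2] Pm β)
  (e : Pm β →ₗ[ZMod 2] Pm γ) (hd : Eqv K d)

/-- the boundaries modulo the differences -/
noncomputable def Bv (N : Subgroup K) : Submodule (ZMod 2) (Tc E₁ E₂ β) :=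
  Submodule.map (d.rTensor (E₁ ⊗[ZMod 2] E₂)) (Ch α (cl ρ₁ N : Set E₁) (cl ρ₂ N : Set E₂)) ⊔ Iv ρ₁ ρ₂ β N

lemma Bv.mono {N N' : Subgroup K} (h : N' ≤ N) : Bv ρ₁ ρ₂ d N' ≤ Bv ρ₁ ρ₂ d N :=
  sup_le_sup (Submodule.map_mono (Ch.mono (cl_mono ρ₁ h) (cl_mono ρ₂ h))) (Iv.mono ρ₁ ρ₂ h)

lemma Iv.le_Bv (N : Subgroup K) : Iv ρ₁ ρ₂ β N ≤ Bv ρ₁ ρ₂ d N := le_sup_right

lemma Bv.of_d {N : Subgroup K} {z : Tc E₁ E₂ α}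
    (hz : z ∈ Ch α (cl ρ₁ N : Set E₁) (cl ρ₂ N : Set E₂)) : d.rTensor (E₁ ⊗[ZMod 2] E₂) z ∈ Bv ρ₁ ρ₂ d N :=
  Submodule.mem_sup_left ⟨z, hz, rfl⟩

/-- an operator which commutes with boundaries and preserves chains and differences preserves boundaries -/
lemma Bv.stable {N : Subgroup K} (f : Tc E₁ E₂ β →ₗ[ZMod 2] Tc E₁ E₂ β)
    (f' : Tc E₁ E₂ α →ₗ[ZMod 2] Tc E₁ E₂ α)
    (h1 : ∀ z, d.rTensor (E₁ ⊗[ZMod 2] E₂) (f' z) = f (d.rTensor (E₁ ⊗[ZMod 2] E₂) z))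
    (h2 : ∀ p, ∀ x ∈ cl ρ₁ N, ∀ y ∈ cl ρ₂ N, f' (p ⊗ₜ[ZMod 2] (x ⊗ₜ[ZMod 2] y)) ∈
      Ch α (cl ρ₁ N : Set E₁) (cl ρ₂ N : Set E₂))
    (h3 : ∀ z ∈ Iv ρ₁ ρ₂ β N, f z ∈ Iv ρ₁ ρ₂ β N) {z : Tc E₁ E₂ β}
    (hz : z ∈ Bv ρ₁ ρ₂ d N) : f z ∈ Bv ρ₁ ρ₂ d N := by
  obtain ⟨_, ⟨b, hb, rfl⟩, c, hc, rfl⟩ := Submodule.mem_sup.1 hz
  rw [map_add, ← h1]
  exact add_mem (Bv.of_d ρ₁ ρ₂ d (Ch.map _ _ h2 hb)) (Iv.le_Bv ρ₁ ρ₂ d N (h3 c hc))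

/-- the statement of the induction -/
def Va (N : Subgroup K) (G : Set E₁) : Prop :=
  ∀ c ∈ Ch β G (cl ρ₂ N : Set E₂), e.rTensor (E₁ ⊗[ZMod 2] E₂) c ∈ Iv ρ₁ ρ₂ γ N → c ∈ Bv ρ₁ ρ₂ d N

/-! ### the operators -/

/-- left multiplication in the first factor -/
noncomputable def Lx (α : Type) (s : E₁) : Tc E₁ E₂ α →ₗ[ZMod 2] Tc E₁ E₂ α :=
  (TensorProduct.map (LinearMap.mulLeft (ZMod 2) s) LinearMap.id).lTensor _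

/-- right multiplication in the second factor -/
noncomputable def Rx (α : Type) (s : E₂) : Tc E₁ E₂ α →ₗ[ZMod 2] Tc E₁ E₂ α :=
  (TensorProduct.map LinearMap.id (LinearMap.mulRight (ZMod 2) s)).lTensor _

lemma Lx_tmul {α : Type} (s : E₁) (p : Pm α) (x : E₁) (y : E₂) :
    Lx α s (p ⊗ₜ[ZMod 2] (x ⊗ₜ[ZMod 2] y)) = p ⊗ₜ[ZMod 2] ((s * x) ⊗ₜ[ZMod 2] y) := rfl

lemma Rx_tmul {α : Type} (s : E₂) (p : Pm α) (x : E₁) (y : E₂) :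
    Rx α s (p ⊗ₜ[ZMod 2] (x ⊗ₜ[ZMod 2] y)) = p ⊗ₜ[ZMod 2] (x ⊗ₜ[ZMod 2] (y * s)) := rfl

/-- translation by an element which normalizes -/
noncomputable def Ux (α : Type) [MulAction K α] (t : K) : Tc E₁ E₂ α →ₗ[ZMod 2] Tc E₁ E₂ α :=
  TensorProduct.map (tr K α t) (TensorProduct.map (cj (ρ₁ t)) (cj (ρ₂ t)))

lemma Ux_tmul {α : Type} [MulAction K α] (t : K) (p : Pm α) (x : E₁) (y : E₂) :
    Ux ρ₁ ρ₂ α t (p ⊗ₜ[ZMod 2] (x ⊗ₜ[ZMod 2] y)) = (tr K α t p) ⊗ₜ[ZMod 2] ((cj (ρ₁ t) x) ⊗ₜ[ZMod 2] (cj (ρ₂ t) y)) :=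
  rfl

lemma Lx_d {α β : Type} (d : Pm α →ₗ[ZMod 2] Pm β) (s : E₁) (z : Tc E₁ E₂ α) :
    d.rTensor (E₁ ⊗[ZMod 2] E₂) (Lx α s z) = Lx β s (d.rTensor (E₁ ⊗[ZMod 2] E₂) z) :=
  ext3 (d.rTensor _ ∘ₗ Lx α s) (Lx β s ∘ₗ d.rTensor _) (fun _ _ _ => by
    rw [LinearMap.comp_apply, LinearMap.comp_apply, Lx_tmul, LinearMap.rTensor_tmul, LinearMap.rTensor_tmul, Lx_tmul]) z

lemma Rx_d {α β : Type} (d : Pm α →ₗ[ZMod 2] Pm β) (s : E₂) (z : Tc E₁ E₂ α) :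
    d.rTensor (E₁ ⊗[ZMod 2] E₂) (Rx α s z) = Rx β s (d.rTensor (E₁ ⊗[ZMod 2] E₂) z) :=
  ext3 (d.rTensor _ ∘ₗ Rx α s) (Rx β s ∘ₗ d.rTensor _) (fun _ _ _ => by
    rw [LinearMap.comp_apply, LinearMap.comp_apply, Rx_tmul, LinearMap.rTensor_tmul, LinearMap.rTensor_tmul, Rx_tmul]) z

lemma Ux_d {α β : Type} [MulAction K α] [MulAction K β] (d : Pm α →ₗ[ZMod 2] Pm β)
    (hd : Eqv K d) (t : K) (z : Tc E₁ E₂ α) :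
    d.rTensor (E₁ ⊗[ZMod 2] E₂) (Ux ρ₁ ρ₂ α t z) = Ux ρ₁ ρ₂ β t (d.rTensor (E₁ ⊗[ZMod 2] E₂) z) :=
  ext3 (d.rTensor _ ∘ₗ Ux ρ₁ ρ₂ α t) (Ux ρ₁ ρ₂ β t ∘ₗ d.rTensor _) (fun p x y => by
    simp only [LinearMap.comp_apply, LinearMap.rTensor_tmul, Ux_tmul, hd t p]) z

lemma Lx_sg {α : Type} [MulAction K α] (s : E₁) (g : K) (z : Tc E₁ E₂ α) :
    Lx α s (sg ρ₁ ρ₂ α g z) = sg ρ₁ ρ₂ α g (Lx α s z) :=
  ext3 (Lx α s ∘ₗ sg ρ₁ ρ₂ α g) (sg ρ₁ ρ₂ α g ∘ₗ Lx α s) (fun p x y => by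
    simp only [LinearMap.comp_apply, sg_tmul, Lx_tmul, mul_assoc]) z

lemma Rx_sg {α : Type} [MulAction K α] (s : E₂) (g : K) (z : Tc E₁ E₂ α) :
    Rx α s (sg ρ₁ ρ₂ α g z) = sg ρ₁ ρ₂ α g (Rx α s z) :=
  ext3 (Rx α s ∘ₗ sg ρ₁ ρ₂ α g) (sg ρ₁ ρ₂ α g ∘ₗ Rx α s) (fun p x y => by
    simp only [LinearMap.comp_apply, sg_tmul, Rx_tmul, mul_assoc]) z

lemma Ux_sg {α : Type} [MulAction K α] (t g : K) (z : Tc E₁ E₂ α) :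
    Ux ρ₁ ρ₂ α t (sg ρ₁ ρ₂ α g z) = sg ρ₁ ρ₂ α (t * g * t⁻¹) (Ux ρ₁ ρ₂ α t z) :=
  ext3 (Ux ρ₁ ρ₂ α t ∘ₗ sg ρ₁ ρ₂ α g) (sg ρ₁ ρ₂ α (t * g * t⁻¹) ∘ₗ Ux ρ₁ ρ₂ α t) (fun p x y => by
    simp only [LinearMap.comp_apply, sg_tmul, Ux_tmul, cj_apply]
    congr 1
    · rw [← Module.End.mul_apply, ← map_mul, ← Module.End.mul_apply, ← map_mul]
      simp
    · congr 1
      · simp [mul_assoc]
      · simp [mul_assoc]) z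

lemma Ch.Lx {α : Type} {N : Subgroup K} {s : E₁} (hs : s ∈ cl ρ₁ N) {z : Tc E₁ E₂ α}
    (hz : z ∈ Ch α (cl ρ₁ N : Set E₁) (cl ρ₂ N : Set E₂)) :
    Bar.Lx α s z ∈ Ch α (cl ρ₁ N : Set E₁) (cl ρ₂ N : Set E₂) := by
  refine Ch.map _ _ (fun p x hx y hy => ?_) hz
  rw [Lx_tmul]
  exact Ch.mk _ ((cl ρ₁ N).mul_mem hs hx) hy

lemma Ch.Rx {α : Type} {N : Subgroup K} {s : E₂} (hs : s ∈ cl ρ₂ N) {z : Tc E₁ E₂ α}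
    (hz : z ∈ Ch α (cl ρ₁ N : Set E₁) (cl ρ₂ N : Set E₂)) :
    Bar.Rx α s z ∈ Ch α (cl ρ₁ N : Set E₁) (cl ρ₂ N : Set E₂) := by
  refine Ch.map _ _ (fun p x hx y hy => ?_) hz
  rw [Rx_tmul]
  exact Ch.mk _ hx ((cl ρ₂ N).mul_mem hy hs)

lemma Ch.Ux {α : Type} [MulAction K α] {N : Subgroup K} {t : K} (ht : ∀ g ∈ N, t * g * t⁻¹ ∈ N) {z : Tc E₁ E₂ α}
    (hz : z ∈ Ch α (cl ρ₁ N : Set E₁) (cl ρ₂ N : Set E₂)) :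
    Bar.Ux ρ₁ ρ₂ α t z ∈ Ch α (cl ρ₁ N : Set E₁) (cl ρ₂ N : Set E₂) := by
  refine Ch.map _ _ (fun p x hx y hy => ?_) hz
  rw [Ux_tmul]
  exact Ch.mk _ (cj_cl ρ₁ ht hx) (cj_cl ρ₂ ht hy)

lemma Bv.Lx {N : Subgroup K} {s : E₁} (hs : s ∈ cl ρ₁ N) {z : Tc E₁ E₂ β}
    (hz : z ∈ Bv ρ₁ ρ₂ d N) : Bar.Lx β s z ∈ Bv ρ₁ ρ₂ d N := by
  refine Bv.stable ρ₁ ρ₂ d _ (Bar.Lx α s) (fun z => Lx_d d s z) (fun p x hx y hy => ?_)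
    (fun z hz => ?_) hz
  · rw [Lx_tmul]
    exact Ch.mk _ ((cl ρ₁ N).mul_mem hs hx) hy
  · refine Iv.map ρ₁ ρ₂ _ _ (fun g hg x hx => ?_) hz
    rw [Lx_sg]
    exact Iv.mk ρ₁ ρ₂ hg (Ch.Lx ρ₁ ρ₂ hs hx)

lemma Bv.Rx {N : Subgroup K} {s : E₂} (hs : s ∈ cl ρ₂ N) {z : Tc E₁ E₂ β}
    (hz : z ∈ Bv ρ₁ ρ₂ d N) : Bar.Rx β s z ∈ Bv ρ₁ ρ₂ d N := by
  refine Bv.stable ρ₁ ρ₂ d _ (Bar.Rx α s) (fun z => Rx_d d s z) (fun p x hx y hy => ?_)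
    (fun z hz => ?_) hz
  · rw [Rx_tmul]
    exact Ch.mk _ hx ((cl ρ₂ N).mul_mem hy hs)
  · refine Iv.map ρ₁ ρ₂ _ _ (fun g hg x hx => ?_) hz
    rw [Rx_sg]
    exact Iv.mk ρ₁ ρ₂ hg (Ch.Rx ρ₁ ρ₂ hs hx)

include hd in
lemma Bv.Ux {N : Subgroup K} {t : K} (ht : ∀ g ∈ N, t * g * t⁻¹ ∈ N) {z : Tc E₁ E₂ β}
    (hz : z ∈ Bv ρ₁ ρ₂ d N) : Bar.Ux ρ₁ ρ₂ β t z ∈ Bv ρ₁ ρ₂ d N := by
  refine Bv.stable ρ₁ ρ₂ d _ (Bar.Ux ρ₁ ρ₂ α t) (fun z => Ux_d ρ₁ ρ₂ d hd t z)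
    (fun p x hx y hy => ?_) (fun z hz => ?_) hz
  · rw [Ux_tmul]
    exact Ch.mk _ (cj_cl ρ₁ ht hx) (cj_cl ρ₂ ht hy)
  · refine Iv.map ρ₁ ρ₂ _ _ (fun g hg x hx => ?_) hz
    rw [Ux_sg]
    exact Iv.mk ρ₁ ρ₂ (ht g hg) (Ch.Ux ρ₁ ρ₂ ht hx)

end base

end SQ.U.Bar

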