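import Pool.Agent.SQ.U.BarA

/-!
# SQ: two skew fields, one step of the induction
-/

set_option autoImplicit false
set_option linter.unusedSectionVars false

open scoped TensorProduct

namespace SQ.U.Bar

open SQ.T3 SQ.T3.Tor

section theta
variable {K : Type} [Group K] {E₁ E₂ : Type} [DivisionRing E₁] [DivisionRing E₂]
  [Algebra (ZMod 2) E₁] [Algebra (ZMod 2) E₂] (ρ₁ : K →* E₁ˣ) (ρ₂ : K →* E₂ˣ)
  {F₁ L₁ : Subfield E₁} {F₂ L₂ : Subfield E₂} (t : K) (st₁ : Step F₁ L₁ (ρ₁ t)) (st₂ : Step F₂ L₂ (ρ₂ t))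

/-- one term of the expansion of a tensor -/
noncomputable def ct (w u : ℤ) (x : E₁) (y : E₂) : E₁ ⊗[ZMod 2] E₂ :=
  st₁.κ x u ⊗ₜ[ZMod 2] (cj (ρ₂ (t ^ u)) (st₂.κ y (w - u)))

lemma ct_fin (w : ℤ) (x : E₁) (y : E₂) : (Function.support fun u => ct ρ₁ ρ₂ t st₁ st₂ w u x y).Finite := by
  obtain ⟨m, hm⟩ := st₁.bdd x
  obtain ⟨n, hn⟩ := st₂.bdd y
  refine (Set.finite_Icc m (w - n)).subset fun u hu => ?_
  by_contra h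
  rw [Set.mem_Icc, not_and_or, not_le, not_le] at h
  apply hu
  show ct ρ₁ ρ₂ t st₁ st₂ w u x y = 0
  rcases h with h | h
  · rw [ct, hm u h, TensorProduct.zero_tmul]
  · rw [ct, hn (w - u) (by omega), map_zero, TensorProduct.tmul_zero]

/-- the expansion of a tensor -/
noncomputable def cf (w : ℤ) (x : E₁) (y : E₂) : ℤ →₀ E₁ ⊗[ZMod 2] E₂ :=
  Finsupp.ofSupportFinite (fun u => ct ρ₁ ρ₂ t st₁ st₂ w u x y) (ct_fin ρ₁ ρ₂ t st₁ st₂ w x y)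

lemma cf_apply (w : ℤ) (x : E₁) (y : E₂) (u : ℤ) :
    cf ρ₁ ρ₂ t st₁ st₂ w x y u = ct ρ₁ ρ₂ t st₁ st₂ w u x y := rfl

/-- the expansion as a linear map -/
noncomputable def cw (w : ℤ) : E₁ ⊗[ZMod 2] E₂ →ₗ[ZMod 2] (ℤ →₀ E₁ ⊗[ZMod 2] E₂) :=
  TensorProduct.lift (LinearMap.mk₂ (ZMod 2) (fun x y => cf ρ₁ ρ₂ t st₁ st₂ w x y)
    (fun x x' y => by
      apply Finsupp.ext
      intro u
      rw [Finsupp.add_apply, cf_apply, cf_apply, cf_apply, ct, ct, ct, map_add, Pi.add_apply, TensorProduct.add_tmul])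
    (fun c x y => by
      apply Finsupp.ext
      intro u
      rw [Finsupp.smul_apply, cf_apply, cf_apply, ct, ct, ZMod.map_smul, Pi.smul_apply, TensorProduct.smul_tmul'])
    (fun x y y' => by
      apply Finsupp.ext
      intro u
      rw [Finsupp.add_apply, cf_apply, cf_apply, cf_apply, ct, ct, ct, map_add, Pi.add_apply, map_add,
        TensorProduct.tmul_add])
    (fun c x y => by
      apply Finsupp.ext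
      intro u
      rw [Finsupp.smul_apply, cf_apply, cf_apply, ct, ct, ZMod.map_smul, Pi.smul_apply, map_smul,
        TensorProduct.tmul_smul]))

lemma cw_tmul (w : ℤ) (x : E₁) (y : E₂) :
    cw ρ₁ ρ₂ t st₁ st₂ w (x ⊗ₜ[ZMod 2] y) = cf ρ₁ ρ₂ t st₁ st₂ w x y := by
  rw [cw, TensorProduct.lift.tmul, LinearMap.mk₂_apply]

/-- the map `θ w` -/
noncomputable def th (α : Type) [MulAction K α] (w : ℤ) : Tc E₁ E₂ α →ₗ[ZMod 2] Tc E₁ E₂ α :=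
  TensorProduct.lift (LinearMap.mk₂ (ZMod 2)
    (fun p z => (cw ρ₁ ρ₂ t st₁ st₂ w z).sum fun u e => tr K α (t ^ u) p ⊗ₜ[ZMod 2] e)
    (fun p p' z => by
      rw [← Finsupp.sum_add]
      refine Finsupp.sum_congr fun u _ => ?_
      rw [map_add, TensorProduct.add_tmul])
    (fun c p z => by
      rw [Finsupp.smul_sum]
      refine Finsupp.sum_congr fun u _ => ?_
      rw [map_smul, TensorProduct.smul_tmul'])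
    (fun p z z' => by
      rw [map_add, Finsupp.sum_add_index']
      · intro u; rw [TensorProduct.tmul_zero]
      · intro u e e'; rw [TensorProduct.tmul_add])
    (fun c p z => by
      rw [map_smul, Finsupp.sum_smul_index' (by intro u; rw [TensorProduct.tmul_zero]), Finsupp.smul_sum]
      refine Finsupp.sum_congr fun u _ => ?_
      rw [TensorProduct.tmul_smul]))

/-- one term -/
noncomputable def tm {α : Type} [MulAction K α] (w : ℤ) (p : Pm α) (x : E₁) (y : E₂) (u : ℤ) :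
    Tc E₁ E₂ α :=
  tr K α (t ^ u) p ⊗ₜ[ZMod 2] ct ρ₁ ρ₂ t st₁ st₂ w u x y

lemma tm_fin {α : Type} [MulAction K α] (w : ℤ) (p : Pm α) (x : E₁) (y : E₂) :
    (Function.support (tm ρ₁ ρ₂ t st₁ st₂ w p x y)).Finite := by
  refine (ct_fin ρ₁ ρ₂ t st₁ st₂ w x y).subset fun u hu h => hu ?_
  have h' : ct ρ₁ ρ₂ t st₁ st₂ w u x y = 0 := h
  rw [tm, h', TensorProduct.tmul_zero]

lemma th_tmul {α : Type} [MulAction K α] (w : ℤ) (p : Pm α) (x : E₁) (y : E₂) :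
    th ρ₁ ρ₂ t st₁ st₂ α w (p ⊗ₜ[ZMod 2] (x ⊗ₜ[ZMod 2] y)) = ∑ᶠ u, tm ρ₁ ρ₂ t st₁ st₂ w p x y u := by
  rw [th, TensorProduct.lift.tmul, LinearMap.mk₂_apply, cw_tmul]
  have h1 : Function.support (tm ρ₁ ρ₂ t st₁ st₂ w p x y) ⊆ ((cf ρ₁ ρ₂ t st₁ st₂ w x y).support : Set ℤ) := by
    intro u hu
    rw [Finset.mem_coe, Finsupp.mem_support_iff]
    intro h
    apply hu
    rw [tm, ← cf_apply, h, TensorProduct.tmul_zero]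
  rw [finsum_eq_sum_of_support_subset _ h1]
  rfl

lemma map_th {α : Type} [MulAction K α] {X : Type} [AddCommGroup X] [Module (ZMod 2) X] (f : Tc E₁ E₂ α →ₗ[ZMod 2] X) (w : ℤ)
    (p : Pm α) (x : E₁) (y : E₂) :
    f (th ρ₁ ρ₂ t st₁ st₂ α w (p ⊗ₜ[ZMod 2] (x ⊗ₜ[ZMod 2] y))) = ∑ᶠ u, f (tm ρ₁ ρ₂ t st₁ st₂ w p x y u) := by
  rw [th_tmul]
  exact f.toAddMonoidHom.map_finsum (tm_fin ρ₁ ρ₂ t st₁ st₂ w p x y)

lemma th_d {α β : Type} [MulAction K α] [MulAction K β] (d : Pm α →ₗ[ZMod 2] Pm β) (hd : Eqv K d) (w : ℤ) (z : Tc E₁ E₂ α) :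
    d.rTensor (E₁ ⊗[ZMod 2] E₂) (th ρ₁ ρ₂ t st₁ st₂ α w z) =
      th ρ₁ ρ₂ t st₁ st₂ β w (d.rTensor (E₁ ⊗[ZMod 2] E₂) z) :=
  ext3 (d.rTensor _ ∘ₗ th ρ₁ ρ₂ t st₁ st₂ α w) (th ρ₁ ρ₂ t st₁ st₂ β w ∘ₗ d.rTensor _) (fun p x y => by
    rw [LinearMap.comp_apply, LinearMap.comp_apply, map_th, LinearMap.rTensor_tmul, th_tmul]
    refine finsum_congr fun u => ?_
    rw [tm, LinearMap.rTensor_tmul, hd]
    rfl) z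

variable (htL : ((ρ₁ t : E₁ˣ) : E₁) ∈ L₁) (hFL : F₁ ≤ L₁)

include htL in
/-- **(c1)** -/
lemma th_sg_t {α : Type} [MulAction K α] (w : ℤ) {z : Tc E₁ E₂ α} (hz : z ∈ Ch α (L₁ : Set E₁) (L₂ : Set E₂)) :
    th ρ₁ ρ₂ t st₁ st₂ α w (sg ρ₁ ρ₂ α t z) = th ρ₁ ρ₂ t st₁ st₂ α w z := by
  refine Ch.eq (th ρ₁ ρ₂ t st₁ st₂ α w ∘ₗ sg ρ₁ ρ₂ α t) (th ρ₁ ρ₂ t st₁ st₂ α w) (fun p x hx y hy => ?_) hz
  rw [LinearMap.comp_apply, sg_tmul, th_tmul, th_tmul, ← sum_shift (tm ρ₁ ρ₂ t st₁ st₂ w p x y) 1]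
  refine finsum_congr fun u => ?_
  have hl : tr K α (t ^ u) (tr K α t p) = tr K α (t ^ (u + 1)) p := by
    rw [← Module.End.mul_apply, ← map_mul, ← zpow_add_one]
  rw [tm, tm, ct, ct, kap_inv ρ₁ t st₁ htL hx, kap_left ρ₂ t st₂ hy, cj_cj, ← map_mul, ← zpow_add_one, hl,
    show w - u - 1 = w - (u + 1) by ring]

include htL in
lemma th_sg_pow {α : Type} [MulAction K α] (hsg : ∀ (n : ℤ) (z : Tc E₁ E₂ α), z ∈ Ch α (L₁ : Set E₁) (L₂ : Set E₂) →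
      sg ρ₁ ρ₂ α (t ^ n) z ∈ Ch α (L₁ : Set E₁) (L₂ : Set E₂))
    (w : ℤ) (n : ℤ) {z : Tc E₁ E₂ α} (hz : z ∈ Ch α (L₁ : Set E₁) (L₂ : Set E₂)) :
    th ρ₁ ρ₂ t st₁ st₂ α w (sg ρ₁ ρ₂ α (t ^ n) z) = th ρ₁ ρ₂ t st₁ st₂ α w z := by
  induction n using Int.induction_on with
  | zero => rw [zpow_zero, map_one]; rfl
  | succ n ih =>
    rw [add_comm, zpow_one_add, map_mul, Module.End.mul_apply, th_sg_t ρ₁ ρ₂ t st₁ st₂ htL w (hsg n z hz), ih]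
  | pred n ih =>
    have h : sg ρ₁ ρ₂ α t (sg ρ₁ ρ₂ α (t ^ (-(n : ℤ) - 1)) z) = sg ρ₁ ρ₂ α (t ^ (-(n : ℤ))) z := by
      rw [← Module.End.mul_apply, ← map_mul, ← zpow_one_add, show (1 : ℤ) + (-n - 1) = -n by ring]
    rw [← ih, ← h, th_sg_t ρ₁ ρ₂ t st₁ st₂ htL w (hsg (-n - 1) z hz)]

include hFL in
lemma th_Lx_F {α : Type} [MulAction K α] (w : ℤ) {f : E₁} (hf : f ∈ F₁) {z : Tc E₁ E₂ α}
    (hz : z ∈ Ch α (L₁ : Set E₁) (L₂ : Set E₂)) :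
    th ρ₁ ρ₂ t st₁ st₂ α w (Lx α f z) = Lx α f (th ρ₁ ρ₂ t st₁ st₂ α w z) := by
  refine Ch.eq (th ρ₁ ρ₂ t st₁ st₂ α w ∘ₗ Lx α f) (Lx α f ∘ₗ th ρ₁ ρ₂ t st₁ st₂ α w) (fun p x hx y hy => ?_) hz
  rw [LinearMap.comp_apply, LinearMap.comp_apply, Lx_tmul, th_tmul, map_th]
  refine finsum_congr fun u => ?_
  rw [tm, tm, ct, ct, Lx_tmul, st₁.left_F f hf x hx u]

lemma th_Lx_t {α : Type} [MulAction K α] (w : ℤ) {z : Tc E₁ E₂ α} (hz : z ∈ Ch α (L₁ : Set E₁) (L₂ : Set E₂)) :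
    th ρ₁ ρ₂ t st₁ st₂ α w (Lx α ((ρ₁ t : E₁ˣ) : E₁) z) = Ux ρ₁ ρ₂ α t (th ρ₁ ρ₂ t st₁ st₂ α (w - 1) z) := by
  refine Ch.eq (th ρ₁ ρ₂ t st₁ st₂ α w ∘ₗ Lx α ((ρ₁ t : E₁ˣ) : E₁))
    (Ux ρ₁ ρ₂ α t ∘ₗ th ρ₁ ρ₂ t st₁ st₂ α (w - 1)) (fun p x hx y hy => ?_) hz
  rw [LinearMap.comp_apply, LinearMap.comp_apply, Lx_tmul, th_tmul, map_th,
    ← sum_shift (tm ρ₁ ρ₂ t st₁ st₂ w p (((ρ₁ t : E₁ˣ) : E₁) * x) y) 1]
  refine finsum_congr fun u => ?_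
  have hl : tr K α t (tr K α (t ^ u) p) = tr K α (t ^ (u + 1)) p := by
    rw [← Module.End.mul_apply, ← map_mul, ← zpow_one_add, add_comm 1 u]
  rw [tm, tm, ct, ct, Ux_tmul, kap_left ρ₁ t st₁ hx, cj_cj, ← map_mul, ← zpow_one_add, hl,
    add_sub_cancel_right, show w - (u + 1) = w - 1 - u by ring, add_comm 1 u]

lemma th_Rx_F {α : Type} [MulAction K α] (w : ℤ) {f : E₂} (hf : f ∈ F₂) {z : Tc E₁ E₂ α}
    (hz : z ∈ Ch α (L₁ : Set E₁) (L₂ : Set E₂)) :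
    th ρ₁ ρ₂ t st₁ st₂ α w (Rx α f z) = Rx α (cj (ρ₂ (t ^ w)) f) (th ρ₁ ρ₂ t st₁ st₂ α w z) := by
  refine Ch.eq (th ρ₁ ρ₂ t st₁ st₂ α w ∘ₗ Rx α f) (Rx α (cj (ρ₂ (t ^ w)) f) ∘ₗ th ρ₁ ρ₂ t st₁ st₂ α w)
    (fun p x hx y hy => ?_) hz
  rw [LinearMap.comp_apply, LinearMap.comp_apply, Rx_tmul, th_tmul, map_th]
  refine finsum_congr fun u => ?_
  rw [tm, tm, ct, ct, Rx_tmul, kap_right ρ₂ t st₂ hf hy, cj_mul, cj_cj, ← map_mul, ← zpow_add,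
    show u + (w - u) = w by ring]

lemma th_Rx_t {α : Type} [MulAction K α] (w : ℤ) {z : Tc E₁ E₂ α} (hz : z ∈ Ch α (L₁ : Set E₁) (L₂ : Set E₂)) :
    th ρ₁ ρ₂ t st₁ st₂ α w (Rx α ((ρ₂ t : E₂ˣ) : E₂) z) = th ρ₁ ρ₂ t st₁ st₂ α (w - 1) z := by
  refine Ch.eq (th ρ₁ ρ₂ t st₁ st₂ α w ∘ₗ Rx α ((ρ₂ t : E₂ˣ) : E₂)) (th ρ₁ ρ₂ t st₁ st₂ α (w - 1))
    (fun p x hx y hy => ?_) hz
  rw [LinearMap.comp_apply, Rx_tmul, th_tmul, th_tmul]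
  refine finsum_congr fun u => ?_
  rw [tm, tm, ct, ct, st₂.right_t y hy, show w - u - 1 = w - 1 - u by ring]

/-- the value on the monomials -/
lemma th_mon {α : Type} [MulAction K α] (w : ℤ) (p : Pm α) {f : E₁} {g : E₂} (hf : f ∈ F₁) (hg : g ∈ F₂)
    (n m : ℤ) :
    th ρ₁ ρ₂ t st₁ st₂ α w (p ⊗ₜ[ZMod 2] ((f * (((ρ₁ t) ^ n : E₁ˣ) : E₁)) ⊗ₜ[ZMod 2]
      (g * (((ρ₂ t) ^ m : E₂ˣ) : E₂)))) =
      if w = n + m then tr K α (t ^ n) p ⊗ₜ[ZMod 2] (f ⊗ₜ[ZMod 2] (cj (ρ₂ (t ^ n)) g)) else 0 := by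
  rw [th_tmul, finsum_eq_single _ n]
  · rw [tm, ct, st₁.mon f hf, st₂.mon g hg, if_pos rfl]
    by_cases h : w = n + m
    · rw [if_pos h, if_pos (by omega)]
    · rw [if_neg h, if_neg (by omega), map_zero, TensorProduct.tmul_zero, TensorProduct.tmul_zero]
  · intro u hu
    rw [tm, ct, st₁.mon f hf, if_neg hu, TensorProduct.zero_tmul, TensorProduct.tmul_zero]

end theta

section zstep
variable {K : Type} [Group K] {E₁ E₂ : Type} [DivisionRing E₁] [DivisionRing E₂]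
  [Algebra (ZMod 2) E₁] [Algebra (ZMod 2) E₂] (ρ₁ : K →* E₁ˣ) (ρ₂ : K →* E₂ˣ)
  (N' N : Subgroup K) (t : K) (st₁ : Step (cl ρ₁ N') (cl ρ₁ N) (ρ₁ t)) (st₂ : Step (cl ρ₂ N') (cl ρ₂ N) (ρ₂ t))
  (hle : N' ≤ N) (ht : t ∈ N) (hc : ∀ (u : ℤ), ∀ g ∈ N', t ^ u * g * (t ^ u)⁻¹ ∈ N')
  (hgen : ∀ g ∈ N, ∃ n : ℤ, g * t ^ (-n) ∈ N')

include hc in
lemma th_mem {α : Type} [MulAction K α] (w : ℤ) {G A : Set E₁} (hA : ∀ x ∈ A, ∀ u, st₁.κ x u ∈ G) {z : Tc E₁ E₂ α}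
    (hz : z ∈ Ch α A (cl ρ₂ N : Set E₂)) :
    th ρ₁ ρ₂ t st₁ st₂ α w z ∈ Ch α G (cl ρ₂ N' : Set E₂) := by
  refine Ch.map _ _ (fun p x hx y hy => ?_) hz
  rw [th_tmul]
  refine finsum_induction _ (zero_mem _) (fun _ _ => add_mem) fun u => ?_
  exact Ch.mk _ (hA x hx u) (cj_cl ρ₂ (hc u) (st₂.mem y hy _))

include hc in
lemma th_mem' {α : Type} [MulAction K α] (w : ℤ) {z : Tc E₁ E₂ α}
    (hz : z ∈ Ch α (cl ρ₁ N : Set E₁) (cl ρ₂ N : Set E₂)) :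
    th ρ₁ ρ₂ t st₁ st₂ α w z ∈ Ch α (cl ρ₁ N' : Set E₁) (cl ρ₂ N' : Set E₂) :=
  th_mem ρ₁ ρ₂ N' N t st₁ st₂ hc w (fun x hx u => st₁.mem x hx u) hz

include hle hc in
lemma th_sg_F {α : Type} [MulAction K α] (w : ℤ) {δ : K} (hδ : δ ∈ N') {z : Tc E₁ E₂ α}
    (hz : z ∈ Ch α (cl ρ₁ N : Set E₁) (cl ρ₂ N : Set E₂)) :
    th ρ₁ ρ₂ t st₁ st₂ α w (sg ρ₁ ρ₂ α δ z) - th ρ₁ ρ₂ t st₁ st₂ α w z ∈ Iv ρ₁ ρ₂ α N' := by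
  refine Ch.map (th ρ₁ ρ₂ t st₁ st₂ α w ∘ₗ sg ρ₁ ρ₂ α δ - th ρ₁ ρ₂ t st₁ st₂ α w) _ (fun p x hx y hy => ?_) hz
  rw [LinearMap.sub_apply, LinearMap.comp_apply, sg_tmul, th_tmul, th_tmul,
    ← finsum_sub_distrib (tm_fin ρ₁ ρ₂ t st₁ st₂ w _ _ _) (tm_fin ρ₁ ρ₂ t st₁ st₂ w _ _ _)]
  refine finsum_induction _ (zero_mem _) (fun _ _ => add_mem) fun u => ?_
  have h1 : tm ρ₁ ρ₂ t st₁ st₂ w (tr K α δ p) (x * ((ρ₁ δ⁻¹ : E₁ˣ) : E₁)) (((ρ₂ δ : E₂ˣ) : E₂) * y) u =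
      sg ρ₁ ρ₂ α (t ^ u * δ * (t ^ u)⁻¹) (tm ρ₁ ρ₂ t st₁ st₂ w p x y u) := by
    have hA : tr K α (t ^ u) (tr K α δ p) =
        tr K α (t ^ u * δ * (t ^ u)⁻¹) (tr K α (t ^ u) p) := by
      rw [← Module.End.mul_apply, ← Module.End.mul_apply, ← map_mul, ← map_mul, inv_mul_cancel_right]
    rw [tm, tm, ct, ct, sg_tmul, kap_right ρ₁ t st₁ (T3.mem_cl ρ₁ (N'.inv_mem hδ)) hx,
      st₂.left_F _ (T3.mem_cl ρ₂ hδ) y hy, cj_mul, hA, cj_rho, cj_rho]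
    simp only [mul_inv_rev, inv_inv, mul_assoc]
  rw [h1]
  exact Iv.mk ρ₁ ρ₂ (hc u δ hδ) (Ch.mk _ (st₁.mem x hx u) (cj_cl ρ₂ (hc u) (st₂.mem y hy _)))

include hle ht hc hgen in
lemma th_Iv {α : Type} [MulAction K α] (w : ℤ) {z : Tc E₁ E₂ α} (hz : z ∈ Iv ρ₁ ρ₂ α N) :
    th ρ₁ ρ₂ t st₁ st₂ α w z ∈ Iv ρ₁ ρ₂ α N' := by
  refine Iv.map ρ₁ ρ₂ _ _ (fun g hg x hx => ?_) hz
  obtain ⟨n, hn⟩ := hgen g hg
  have h1 : sg ρ₁ ρ₂ α g x = sg ρ₁ ρ₂ α (g * t ^ (-n)) (sg ρ₁ ρ₂ α (t ^ n) x) := by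
    rw [← Module.End.mul_apply, ← map_mul, mul_assoc, ← zpow_add, neg_add_cancel, zpow_zero, mul_one]
  have h2 : ∀ (n : ℤ) (z : Tc E₁ E₂ α), z ∈ Ch α (cl ρ₁ N : Set E₁) (cl ρ₂ N : Set E₂) →
      sg ρ₁ ρ₂ α (t ^ n) z ∈ Ch α (cl ρ₁ N : Set E₁) (cl ρ₂ N : Set E₂) := fun n z hz =>
    Ch.sg ρ₁ ρ₂ (N.zpow_mem ht n) hz
  rw [h1, ← th_sg_pow ρ₁ ρ₂ t st₁ st₂ (T3.mem_cl ρ₁ ht) h2 w n hx]
  exact th_sg_F ρ₁ ρ₂ N' N t st₁ st₂ hle hc w hn (h2 n x hx)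

end zstep

end SQ.U.Bar

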