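import Pool.Agent.SQ.U.BarB

/-!
# SQ: two skew fields, the step of the induction, conclusion
-/

set_option autoImplicit false
set_option linter.unusedSectionVars false

open scoped TensorProduct

namespace SQ.U.Bar

open SQ.T3 SQ.T3.Tor

section lin
variable {E₁ E₂ : Type} [DivisionRing E₁] [DivisionRing E₂] [Algebra (ZMod 2) E₁]
  [Algebra (ZMod 2) E₂]

lemma Lx_add {α : Type} (s s' : E₁) (z : Tc E₁ E₂ α) : Lx α (s + s') z = Lx α s z + Lx α s' z :=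
  ext3 (Lx α (s + s')) (Lx α s + Lx α s') (fun p x y => by
    rw [LinearMap.add_apply, Lx_tmul, Lx_tmul, Lx_tmul, add_mul, TensorProduct.add_tmul, TensorProduct.tmul_add]) z

lemma Rx_add {α : Type} (s s' : E₂) (z : Tc E₁ E₂ α) : Rx α (s + s') z = Rx α s z + Rx α s' z :=
  ext3 (Rx α (s + s')) (Rx α s + Rx α s') (fun p x y => by
    rw [LinearMap.add_apply, Rx_tmul, Rx_tmul, Rx_tmul, mul_add, TensorProduct.tmul_add, TensorProduct.tmul_add]) z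

lemma Lx_mul {α : Type} (s s' : E₁) (z : Tc E₁ E₂ α) : Lx α (s * s') z = Lx α s (Lx α s' z) :=
  ext3 (Lx α (s * s')) (Lx α s ∘ₗ Lx α s') (fun p x y => by
    rw [LinearMap.comp_apply, Lx_tmul, Lx_tmul, Lx_tmul, mul_assoc]) z

lemma Rx_mul {α : Type} (s s' : E₂) (z : Tc E₁ E₂ α) : Rx α (s * s') z = Rx α s' (Rx α s z) :=
  ext3 (Rx α (s * s')) (Rx α s' ∘ₗ Rx α s) (fun p x y => by
    rw [LinearMap.comp_apply, Rx_tmul, Rx_tmul, Rx_tmul, mul_assoc]) z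

lemma Lx_one {α : Type} (z : Tc E₁ E₂ α) : Lx α (1 : E₁) z = z :=
  ext3 (Lx α (1 : E₁)) LinearMap.id (fun p x y => by rw [Lx_tmul, one_mul]; rfl) z

lemma Rx_one {α : Type} (z : Tc E₁ E₂ α) : Rx α (1 : E₂) z = z :=
  ext3 (Rx α (1 : E₂)) LinearMap.id (fun p x y => by rw [Rx_tmul, mul_one]; rfl) z

lemma Lx_Rx {α : Type} (s : E₁) (s' : E₂) (z : Tc E₁ E₂ α) : Lx α s (Rx α s' z) = Rx α s' (Lx α s z) :=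
  ext3 (Lx α s ∘ₗ Rx α s') (Rx α s' ∘ₗ Lx α s) (fun p x y => by
    rw [LinearMap.comp_apply, LinearMap.comp_apply, Rx_tmul, Lx_tmul, Lx_tmul, Rx_tmul]) z

lemma Lx_zero {α : Type} (z : Tc E₁ E₂ α) : Lx α (0 : E₁) z = 0 := by
  have h := Lx_add (0 : E₁) 0 z
  rw [add_zero] at h
  exact left_eq_add.1 h

lemma Rx_zero {α : Type} (z : Tc E₁ E₂ α) : Rx α (0 : E₂) z = 0 := by
  have h := Rx_add (0 : E₂) 0 z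
  rw [add_zero] at h
  exact left_eq_add.1 h

lemma Lx_neg {α : Type} (s : E₁) (z : Tc E₁ E₂ α) : Lx α (-s) z = -Lx α s z := by
  have h := Lx_add s (-s) z
  rw [add_neg_cancel, Lx_zero] at h
  exact (neg_eq_of_add_eq_zero_right h.symm).symm

lemma Rx_neg {α : Type} (s : E₂) (z : Tc E₁ E₂ α) : Rx α (-s) z = -Rx α s z := by
  have h := Rx_add s (-s) z
  rw [add_neg_cancel, Rx_zero] at h
  exact (neg_eq_of_add_eq_zero_right h.symm).symm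

/-- a submodule closed under the left multiplications with `F` and the powers of `t` is closed under the Laurent polynomials -/
lemma lau_Lx {α : Type} {F : Subfield E₁} {t : E₁ˣ} (S : Submodule (ZMod 2) (Tc E₁ E₂ α))
    (h1 : ∀ f ∈ F, ∀ z ∈ S, Lx α f z ∈ S) (h2 : ∀ z ∈ S, Lx α (t : E₁) z ∈ S)
    (h3 : ∀ z ∈ S, Lx α ((t⁻¹ : E₁ˣ) : E₁) z ∈ S) {s : E₁} (hs : s ∈ Lau F t) {z : Tc E₁ E₂ α}
    (hz : z ∈ S) : Lx α s z ∈ S := by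
  have h4 : ∀ n : ℤ, ∀ z ∈ S, Lx α ((t ^ n : E₁ˣ) : E₁) z ∈ S := by
    intro n
    induction n using Int.induction_on with
    | zero => intro z hz; rw [zpow_zero, Units.val_one, Lx_one]; exact hz
    | succ n ih => intro z hz; rw [zpow_add_one, Units.val_mul, Lx_mul]; exact ih _ (h2 z hz)
    | pred n ih => intro z hz; rw [zpow_sub_one, Units.val_mul, Lx_mul]; exact ih _ (h3 z hz)
  refine AddSubgroup.closure_induction (p := fun s _ => Lx α s z ∈ S) ?_ (by rw [Lx_zero]; exact zero_mem _)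
    (fun a b _ _ ha hb => by rw [Lx_add]; exact add_mem ha hb) (fun a _ ha => by rw [Lx_neg]; exact neg_mem ha) hs
  rintro _ ⟨f, hf, n, rfl⟩
  rw [Lx_mul]
  exact h1 f hf _ (h4 n z hz)

lemma lau_Rx {α : Type} {F : Subfield E₂} {t : E₂ˣ} (S : Submodule (ZMod 2) (Tc E₁ E₂ α))
    (h1 : ∀ f ∈ F, ∀ z ∈ S, Rx α f z ∈ S) (h2 : ∀ z ∈ S, Rx α (t : E₂) z ∈ S)
    (h3 : ∀ z ∈ S, Rx α ((t⁻¹ : E₂ˣ) : E₂) z ∈ S) {s : E₂} (hs : s ∈ Lau F t) {z : Tc E₁ E₂ α}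
    (hz : z ∈ S) : Rx α s z ∈ S := by
  have h4 : ∀ n : ℤ, ∀ z ∈ S, Rx α ((t ^ n : E₂ˣ) : E₂) z ∈ S := by
    intro n
    induction n using Int.induction_on with
    | zero => intro z hz; rw [zpow_zero, Units.val_one, Rx_one]; exact hz
    | succ n ih => intro z hz; rw [zpow_add_one, Units.val_mul, Rx_mul]; exact h2 _ (ih z hz)
    | pred n ih => intro z hz; rw [zpow_sub_one, Units.val_mul, Rx_mul]; exact h3 _ (ih z hz)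
  refine AddSubgroup.closure_induction (p := fun s _ => Rx α s z ∈ S) ?_ (by rw [Rx_zero]; exact zero_mem _)
    (fun a b _ _ ha hb => by rw [Rx_add]; exact add_mem ha hb) (fun a _ ha => by rw [Rx_neg]; exact neg_mem ha) hs
  rintro _ ⟨f, hf, n, rfl⟩
  rw [Rx_mul]
  exact h4 n _ (h1 f hf z hz)

/-- a chain is a chain on finite sets -/
lemma Ch.fin {α : Type} {A : Set E₁} {B : Set E₂} {z : Tc E₁ E₂ α} (hz : z ∈ Ch α A B) :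
    ∃ (X : Finset E₁) (Y : Finset E₂), (∀ x ∈ X, x ∈ A) ∧ (∀ y ∈ Y, y ∈ B) ∧ z ∈ Ch α (X : Set E₁) (Y : Set E₂) := by
  classical
  refine Submodule.span_induction (p := fun z _ => ∃ (X : Finset E₁) (Y : Finset E₂), (∀ x ∈ X, x ∈ A) ∧
    (∀ y ∈ Y, y ∈ B) ∧ z ∈ Ch α (X : Set E₁) (Y : Set E₂)) ?_ ⟨∅, ∅, by simp, by simp, zero_mem _⟩ ?_ ?_ hz
  · rintro _ ⟨p, x, hx, y, hy, rfl⟩
    exact ⟨{x}, {y}, by simpa using hx, by simpa using hy, Ch.mk p (by simp) (by simp)⟩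
  · rintro a b _ _ ⟨X, Y, hX, hY, h⟩ ⟨X', Y', hX', hY', h'⟩
    refine ⟨X ∪ X', Y ∪ Y', ?_, ?_, add_mem ?_ ?_⟩
    · intro x hx
      rcases Finset.mem_union.1 hx with hx | hx
      · exact hX x hx
      · exact hX' x hx
    · intro x hx
      rcases Finset.mem_union.1 hx with hx | hx
      · exact hY x hx
      · exact hY' x hx
    · exact Ch.mono (by simp) (by simp) h
    · exact Ch.mono (by simp) (by simp) h'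
  · rintro c a _ ⟨X, Y, hX, hY, h⟩
    exact ⟨X, Y, hX, hY, Submodule.smul_mem _ c h⟩

end lin

section zstep
variable {K : Type} [Group K] {α β γ : Type} [MulAction K α] [MulAction K β] [MulAction K γ]
  (d : Pm α →ₗ[ZMod 2] Pm β) (e : Pm β →ₗ[ZMod 2] Pm γ) (hd : Eqv K d) (he : Eqv K e) {E₁ E₂ : Type}
  [DivisionRing E₁] [DivisionRing E₂]
  [Algebra (ZMod 2) E₁] [Algebra (ZMod 2) E₂] (ρ₁ : K →* E₁ˣ) (ρ₂ : K →* E₂ˣ)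
  (N' N : Subgroup K) (t : K) (st₁ : Step (cl ρ₁ N') (cl ρ₁ N) (ρ₁ t)) (st₂ : Step (cl ρ₂ N') (cl ρ₂ N) (ρ₂ t))
  (hle : N' ≤ N) (ht : t ∈ N) (hc : ∀ (u : ℤ), ∀ g ∈ N', t ^ u * g * (t ^ u)⁻¹ ∈ N')
  (hgen : ∀ g ∈ N, ∃ n : ℤ, g * t ^ (-n) ∈ N')

/-- the chains of `N` all of whose coefficients are boundaries -/
noncomputable def Zs : Submodule (ZMod 2) (Tc E₁ E₂ β) :=
  Ch β (cl ρ₁ N : Set E₁) (cl ρ₂ N : Set E₂) ⊓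
    ⨅ w : ℤ, (Bv ρ₁ ρ₂ d N').comap (th ρ₁ ρ₂ t st₁ st₂ β w)

lemma mem_Zs (z : Tc E₁ E₂ β) : z ∈ Zs d ρ₁ ρ₂ N' N t st₁ st₂ ↔
    z ∈ Ch β (cl ρ₁ N : Set E₁) (cl ρ₂ N : Set E₂) ∧
      ∀ w : ℤ, th ρ₁ ρ₂ t st₁ st₂ β w z ∈ Bv ρ₁ ρ₂ d N' := by
  simp [Zs, Submodule.mem_iInf]

include hle in
lemma Zs_Lx_F {f : E₁} (hf : f ∈ cl ρ₁ N') {z : Tc E₁ E₂ β}
    (hz : z ∈ Zs d ρ₁ ρ₂ N' N t st₁ st₂) : Lx β f z ∈ Zs d ρ₁ ρ₂ N' N t st₁ st₂ := by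
  rw [mem_Zs] at hz ⊢
  refine ⟨Ch.Lx ρ₁ ρ₂ (cl_mono ρ₁ hle hf) hz.1, fun w => ?_⟩
  rw [th_Lx_F ρ₁ ρ₂ t st₁ st₂ (cl_mono ρ₁ hle) w hf hz.1]
  exact Bv.Lx ρ₁ ρ₂ d hf (hz.2 w)

include hle hc in
lemma Zs_Rx_F {f : E₂} (hf : f ∈ cl ρ₂ N') {z : Tc E₁ E₂ β}
    (hz : z ∈ Zs d ρ₁ ρ₂ N' N t st₁ st₂) : Rx β f z ∈ Zs d ρ₁ ρ₂ N' N t st₁ st₂ := by
  rw [mem_Zs] at hz ⊢
  refine ⟨Ch.Rx ρ₁ ρ₂ (cl_mono ρ₂ hle hf) hz.1, fun w => ?_⟩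
  rw [th_Rx_F ρ₁ ρ₂ t st₁ st₂ w hf hz.1]
  exact Bv.Rx ρ₁ ρ₂ d (cj_cl ρ₂ (hc w) hf) (hz.2 w)

include hd ht hc in
lemma Zs_Lx_t {z : Tc E₁ E₂ β} (hz : z ∈ Zs d ρ₁ ρ₂ N' N t st₁ st₂) :
    Lx β ((ρ₁ t : E₁ˣ) : E₁) z ∈ Zs d ρ₁ ρ₂ N' N t st₁ st₂ := by
  rw [mem_Zs] at hz ⊢
  refine ⟨Ch.Lx ρ₁ ρ₂ (T3.mem_cl ρ₁ ht) hz.1, fun w => ?_⟩
  rw [th_Lx_t ρ₁ ρ₂ t st₁ st₂ w hz.1]
  have h1 := hc 1
  rw [zpow_one] at h1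
  exact Bv.Ux ρ₁ ρ₂ d hd h1 (hz.2 (w - 1))

include ht in
lemma Zs_Rx_t {z : Tc E₁ E₂ β} (hz : z ∈ Zs d ρ₁ ρ₂ N' N t st₁ st₂) :
    Rx β ((ρ₂ t : E₂ˣ) : E₂) z ∈ Zs d ρ₁ ρ₂ N' N t st₁ st₂ := by
  rw [mem_Zs] at hz ⊢
  refine ⟨Ch.Rx ρ₁ ρ₂ (T3.mem_cl ρ₂ ht) hz.1, fun w => ?_⟩
  rw [th_Rx_t ρ₁ ρ₂ t st₁ st₂ w hz.1]
  exact hz.2 (w - 1)

omit [MulAction K β] [MulAction K γ] in
lemma Ux_Ux_inv (z : Tc E₁ E₂ α) : Ux ρ₁ ρ₂ α t⁻¹ (Ux ρ₁ ρ₂ α t z) = z :=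
  ext3 (Ux ρ₁ ρ₂ α t⁻¹ ∘ₗ Ux ρ₁ ρ₂ α t) LinearMap.id (fun p x y => by
    rw [LinearMap.comp_apply, Ux_tmul, Ux_tmul, cj_cj, cj_cj, ← map_mul, ← map_mul, inv_mul_cancel, map_one, map_one,
      cj_one, cj_one, ← Module.End.mul_apply, ← map_mul, inv_mul_cancel, map_one]
    rfl) z

include hd ht hc in
lemma Zs_Lx_t' {z : Tc E₁ E₂ β} (hz : z ∈ Zs d ρ₁ ρ₂ N' N t st₁ st₂) :
    Lx β (((ρ₁ t)⁻¹ : E₁ˣ) : E₁) z ∈ Zs d ρ₁ ρ₂ N' N t st₁ st₂ := by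
  rw [mem_Zs] at hz ⊢
  have h0 := Ch.Lx ρ₁ ρ₂ (inv_mem_cl ρ₁ N t ht) hz.1
  refine ⟨h0, fun w => ?_⟩
  have h2 := th_Lx_t ρ₁ ρ₂ t st₁ st₂ (w + 1) h0
  rw [← Lx_mul, ← Units.val_mul, mul_inv_cancel, Units.val_one, Lx_one, add_sub_cancel_right] at h2
  have h3 := congrArg (Ux ρ₁ ρ₂ β t⁻¹) h2
  rw [Ux_Ux_inv] at h3
  rw [← h3]
  have h1 := hc (-1)
  rw [zpow_neg_one] at h1
  exact Bv.Ux ρ₁ ρ₂ d hd h1 (hz.2 (w + 1))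

include ht in
lemma Zs_Rx_t' {z : Tc E₁ E₂ β} (hz : z ∈ Zs d ρ₁ ρ₂ N' N t st₁ st₂) :
    Rx β (((ρ₂ t)⁻¹ : E₂ˣ) : E₂) z ∈ Zs d ρ₁ ρ₂ N' N t st₁ st₂ := by
  rw [mem_Zs] at hz ⊢
  have h0 := Ch.Rx ρ₁ ρ₂ (inv_mem_cl ρ₂ N t ht) hz.1
  refine ⟨h0, fun w => ?_⟩
  have h2 := th_Rx_t ρ₁ ρ₂ t st₁ st₂ (w + 1) h0
  rw [← Rx_mul, ← Units.val_mul, inv_mul_cancel, Units.val_one, Rx_one, add_sub_cancel_right] at h2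
  rw [← h2]
  exact hz.2 (w + 1)

include ht in
/-- **(f)** -/
lemma lau_sum {z : Tc E₁ E₂ α}
    (hz : z ∈ Ch α (Lau (cl ρ₁ N') (ρ₁ t) : Set E₁) (Lau (cl ρ₂ N') (ρ₂ t) : Set E₂)) (hle : N' ≤ N) :
    ∃ W₀ : Finset ℤ, ∀ W : Finset ℤ, W₀ ⊆ W →
      z - ∑ w ∈ W, Rx α ((ρ₂ (t ^ w) : E₂ˣ) : E₂) (th ρ₁ ρ₂ t st₁ st₂ α w z) ∈ Iv ρ₁ ρ₂ α N := by
  classical
  have hadd : ∀ a b : Tc E₁ E₂ α, (∃ W₀ : Finset ℤ, ∀ W : Finset ℤ, W₀ ⊆ W →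
      a - ∑ w ∈ W, Rx α ((ρ₂ (t ^ w) : E₂ˣ) : E₂) (th ρ₁ ρ₂ t st₁ st₂ α w a) ∈ Iv ρ₁ ρ₂ α N) →
      (∃ W₀ : Finset ℤ, ∀ W : Finset ℤ, W₀ ⊆ W →
      b - ∑ w ∈ W, Rx α ((ρ₂ (t ^ w) : E₂ˣ) : E₂) (th ρ₁ ρ₂ t st₁ st₂ α w b) ∈ Iv ρ₁ ρ₂ α N) →
      (∃ W₀ : Finset ℤ, ∀ W : Finset ℤ, W₀ ⊆ W →
      (a + b) - ∑ w ∈ W, Rx α ((ρ₂ (t ^ w) : E₂ˣ) : E₂) (th ρ₁ ρ₂ t st₁ st₂ α w (a + b)) ∈ Iv ρ₁ ρ₂ α N) := by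
    rintro a b ⟨W₁, h1⟩ ⟨W₂, h2⟩
    refine ⟨W₁ ∪ W₂, fun W hW => ?_⟩
    have h3 := add_mem (h1 W (Finset.union_subset_left hW)) (h2 W (Finset.union_subset_right hW))
    simp only [map_add, Finset.sum_add_distrib]
    rwa [sub_add_sub_comm] at h3
  have hneg : ∀ a : Tc E₁ E₂ α, (∃ W₀ : Finset ℤ, ∀ W : Finset ℤ, W₀ ⊆ W →
      a - ∑ w ∈ W, Rx α ((ρ₂ (t ^ w) : E₂ˣ) : E₂) (th ρ₁ ρ₂ t st₁ st₂ α w a) ∈ Iv ρ₁ ρ₂ α N) →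
      (∃ W₀ : Finset ℤ, ∀ W : Finset ℤ, W₀ ⊆ W →
      (-a) - ∑ w ∈ W, Rx α ((ρ₂ (t ^ w) : E₂ˣ) : E₂) (th ρ₁ ρ₂ t st₁ st₂ α w (-a)) ∈ Iv ρ₁ ρ₂ α N) := by
    rintro a ⟨W₁, h1⟩
    refine ⟨W₁, fun W hW => ?_⟩
    have h3 := neg_mem (h1 W hW)
    simp only [map_neg, Finset.sum_neg_distrib]
    rwa [neg_sub', sub_neg_eq_add, ← sub_neg_eq_add] at h3
  have hzero : (∃ W₀ : Finset ℤ, ∀ W : Finset ℤ, W₀ ⊆ W →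
      (0 : Tc E₁ E₂ α) - ∑ w ∈ W, Rx α ((ρ₂ (t ^ w) : E₂ˣ) : E₂) (th ρ₁ ρ₂ t st₁ st₂ α w 0) ∈ Iv ρ₁ ρ₂ α N) :=
    ⟨∅, fun W _ => by simp⟩
  refine Submodule.span_induction (p := fun z _ => ∃ W₀ : Finset ℤ, ∀ W : Finset ℤ, W₀ ⊆ W →
      z - ∑ w ∈ W, Rx α ((ρ₂ (t ^ w) : E₂ˣ) : E₂) (th ρ₁ ρ₂ t st₁ st₂ α w z) ∈ Iv ρ₁ ρ₂ α N) ?_ hzero
      (fun a b _ _ => hadd a b) ?_ hz
  · rintro _ ⟨p, x, hx, y, hy, rfl⟩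
    refine AddSubgroup.closure_induction (p := fun x _ => ∃ W₀ : Finset ℤ, ∀ W : Finset ℤ, W₀ ⊆ W →
      (p ⊗ₜ[ZMod 2] (x ⊗ₜ[ZMod 2] y)) - ∑ w ∈ W, Rx α ((ρ₂ (t ^ w) : E₂ˣ) : E₂) (th ρ₁ ρ₂ t st₁ st₂ α w
        (p ⊗ₜ[ZMod 2] (x ⊗ₜ[ZMod 2] y))) ∈ Iv ρ₁ ρ₂ α N) ?_ ?_ ?_ ?_ hx
    · rintro _ ⟨f, hf, n, rfl⟩
      refine AddSubgroup.closure_induction (p := fun y _ => ∃ W₀ : Finset ℤ, ∀ W : Finset ℤ, W₀ ⊆ W →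
        (p ⊗ₜ[ZMod 2] ((f * (((ρ₁ t) ^ n : E₁ˣ) : E₁)) ⊗ₜ[ZMod 2] y)) - ∑ w ∈ W, Rx α ((ρ₂ (t ^ w) : E₂ˣ) : E₂)
        (th ρ₁ ρ₂ t st₁ st₂ α w (p ⊗ₜ[ZMod 2] ((f * (((ρ₁ t) ^ n : E₁ˣ) : E₁)) ⊗ₜ[ZMod 2] y))) ∈
          Iv ρ₁ ρ₂ α N) ?_ ?_ ?_ ?_ hy
      · rintro _ ⟨g, hg, m, rfl⟩
        refine ⟨{n + m}, fun W hW => ?_⟩
        rw [Finset.sum_eq_single (n + m)]
        · rw [th_mon ρ₁ ρ₂ t st₁ st₂ _ p hf hg, if_pos rfl, Rx_tmul, ← neg_sub]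
          refine neg_mem ?_
          have h1 : (tr K α (t ^ n) p) ⊗ₜ[ZMod 2]
              (f ⊗ₜ[ZMod 2] (cj (ρ₂ (t ^ n)) g * ((ρ₂ (t ^ (n + m)) : E₂ˣ) : E₂))) =
              sg ρ₁ ρ₂ α (t ^ n) (p ⊗ₜ[ZMod 2] ((f * (((ρ₁ t) ^ n : E₁ˣ) : E₁)) ⊗ₜ[ZMod 2]
                (g * (((ρ₂ t) ^ m : E₂ˣ) : E₂)))) := by
            have e1 : f * (((ρ₁ t) ^ n : E₁ˣ) : E₁) * ((ρ₁ (t ^ n)⁻¹ : E₁ˣ) : E₁) = f := by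
              rw [← map_zpow, mul_assoc f, ← Units.val_mul, ← map_mul, mul_inv_cancel, map_one, Units.val_one, mul_one]
            have e2 : cj (ρ₂ (t ^ n)) g * ((ρ₂ (t ^ (n + m)) : E₂ˣ) : E₂) =
                ((ρ₂ (t ^ n) : E₂ˣ) : E₂) * (g * (((ρ₂ t) ^ m : E₂ˣ) : E₂)) := by
              rw [← map_zpow, cj_apply, mul_assoc, mul_assoc, zpow_add, map_mul, Units.val_mul,
                ← mul_assoc (((ρ₂ (t ^ n))⁻¹ : E₂ˣ) : E₂), ← Units.val_mul, inv_mul_cancel, Units.val_one, one_mul]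
            rw [sg_tmul, e1, e2]
          rw [h1]
          refine Iv.mk ρ₁ ρ₂ (N.zpow_mem ht n) (Ch.mk p ?_ ?_)
          · exact mul_mem (cl_mono ρ₁ hle hf) (by rw [← map_zpow]; exact T3.mem_cl ρ₁ (N.zpow_mem ht n))
          · exact mul_mem (cl_mono ρ₂ hle hg) (by rw [← map_zpow]; exact T3.mem_cl ρ₂ (N.zpow_mem ht m))
        · intro w _ hw
          rw [th_mon ρ₁ ρ₂ t st₁ st₂ _ p hf hg, if_neg hw, map_zero]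
        · intro h
          exact absurd (hW (Finset.mem_singleton_self _)) h
      · simpa only [TensorProduct.tmul_zero] using hzero
      · intro a b _ _ ha hb
        simpa only [TensorProduct.tmul_add] using hadd _ _ ha hb
      · intro a _ ha
        simpa only [TensorProduct.tmul_neg] using hneg _ ha
    · simpa only [TensorProduct.zero_tmul, TensorProduct.tmul_zero] using hzero
    · intro a b _ _ ha hb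
      simpa only [TensorProduct.add_tmul, TensorProduct.tmul_add] using hadd _ _ ha hb
    · intro a _ ha
      simpa only [TensorProduct.neg_tmul, TensorProduct.tmul_neg] using hneg _ ha
  · rintro c a _ ⟨W₀, h⟩
    refine ⟨W₀, fun W hW => ?_⟩
    have h1 := Submodule.smul_mem _ c (h W hW)
    simp only [map_smul, ← Finset.smul_sum]
    rwa [smul_sub] at h1

include hd he st₂ hle ht hc hgen in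
/-- **the step of the induction** -/
theorem zstep {G G' : Set E₁} (hG : ∀ x ∈ G, x ∈ cl ρ₁ N) (hG' : ∀ x ∈ G, ∀ u, st₁.κ x u ∈ G')
    (hV : Va ρ₁ ρ₂ d e N' G') : Va ρ₁ ρ₂ d e N G := by
  intro c hc0 hdc
  have hcL : c ∈ Ch β (cl ρ₁ N : Set E₁) (cl ρ₂ N : Set E₂) :=
    Ch.mono (fun x hx => hG x hx) (fun x hx => hx) hc0
  have hZ : c ∈ Zs d ρ₁ ρ₂ N' N t st₁ st₂ := by
    rw [mem_Zs]
    refine ⟨hcL, fun w => ?_⟩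
    refine hV _ (th_mem ρ₁ ρ₂ N' N t st₁ st₂ hc w hG' hc0) ?_
    have h1 := th_Iv ρ₁ ρ₂ N' N t st₁ st₂ hle ht hc hgen w hdc
    rwa [← th_d _ _ _ _ _ e he] at h1
  obtain ⟨X, Y, hX, hY, hXY⟩ := Ch.fin hcL
  obtain ⟨s, hs, hs0, hsX⟩ := st₁.left X hX
  obtain ⟨s', hs', hs0', hsY⟩ := st₂.right Y hY
  have hmem₁ : ∀ {s : E₁}, s ∈ Lau (cl ρ₁ N') (ρ₁ t) → s ∈ cl ρ₁ N := by
    intro s hs
    refine AddSubgroup.closure_induction (p := fun s _ => s ∈ cl ρ₁ N) ?_ (zero_mem _) (fun _ _ _ _ => add_mem)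
      (fun _ _ => neg_mem) hs
    rintro _ ⟨f, hf, n, rfl⟩
    exact mul_mem (cl_mono ρ₁ hle hf) (by rw [← map_zpow]; exact T3.mem_cl ρ₁ (N.zpow_mem ht n))
  have hmem₂ : ∀ {s : E₂}, s ∈ Lau (cl ρ₂ N') (ρ₂ t) → s ∈ cl ρ₂ N := by
    intro s hs
    refine AddSubgroup.closure_induction (p := fun s _ => s ∈ cl ρ₂ N) ?_ (zero_mem _) (fun _ _ _ _ => add_mem)
      (fun _ _ => neg_mem) hs
    rintro _ ⟨f, hf, n, rfl⟩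
    exact mul_mem (cl_mono ρ₂ hle hf) (by rw [← map_zpow]; exact T3.mem_cl ρ₂ (N.zpow_mem ht n))
  have hZ2 : Lx β s (Rx β s' c) ∈ Zs d ρ₁ ρ₂ N' N t st₁ st₂ := by
    refine lau_Lx _ (fun f hf z hz => Zs_Lx_F d ρ₁ ρ₂ N' N t st₁ st₂ hle hf hz)
      (fun z hz => Zs_Lx_t d hd ρ₁ ρ₂ N' N t st₁ st₂ ht hc hz)
      (fun z hz => Zs_Lx_t' d hd ρ₁ ρ₂ N' N t st₁ st₂ ht hc hz) hs ?_
    exact lau_Rx _ (fun f hf z hz => Zs_Rx_F d ρ₁ ρ₂ N' N t st₁ st₂ hle hc hf hz)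
      (fun z hz => Zs_Rx_t d ρ₁ ρ₂ N' N t st₁ st₂ ht hz)
      (fun z hz => Zs_Rx_t' d ρ₁ ρ₂ N' N t st₁ st₂ ht hz) hs' hZ
  have hlau : Lx β s (Rx β s' c) ∈
      Ch β (Lau (cl ρ₁ N') (ρ₁ t) : Set E₁) (Lau (cl ρ₂ N') (ρ₂ t) : Set E₂) := by
    refine Ch.map (Lx β s ∘ₗ Rx β s') _ (fun p x hx y hy => ?_) hXY
    rw [LinearMap.comp_apply, Rx_tmul, Lx_tmul]
    exact Ch.mk p (hsX x hx) (hsY y hy)
  have hB : Lx β s (Rx β s' c) ∈ Bv ρ₁ ρ₂ d N := by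
    obtain ⟨W, hW⟩ := lau_sum ρ₁ ρ₂ N' N t st₁ st₂ ht hlau hle
    have h1 := Iv.le_Bv ρ₁ ρ₂ d N (hW W (le_refl W))
    have h2 : ∑ w ∈ W, Rx β ((ρ₂ (t ^ w) : E₂ˣ) : E₂) (th ρ₁ ρ₂ t st₁ st₂ β w
        (Lx β s (Rx β s' c))) ∈ Bv ρ₁ ρ₂ d N :=
      sum_mem fun w _ => Bv.Rx ρ₁ ρ₂ d (T3.mem_cl ρ₂ (N.zpow_mem ht w))
        (Bv.mono ρ₁ ρ₂ d hle (((mem_Zs d ρ₁ ρ₂ N' N t st₁ st₂ _).1 hZ2).2 w))
    have h3 := add_mem h1 h2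
    rwa [sub_add_cancel] at h3
  have h1 := Bv.Lx ρ₁ ρ₂ d (inv_mem (hmem₁ hs)) (Bv.Rx ρ₁ ρ₂ d (inv_mem (hmem₂ hs')) hB)
  rwa [← Lx_Rx s, ← Rx_mul, mul_inv_cancel₀ hs0', Rx_one, ← Lx_mul, inv_mul_cancel₀ hs0, Lx_one] at h1

end zstep

end SQ.U.Bar

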