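import Pool.Agent.SQ.U.BarC
import Pool.Agent.SQ.BO.Fam

/-!
# SQ/U: coordinates of the chains modulo the action of a subgroup
-/

set_option autoImplicit false
set_option linter.unusedSectionVars false

open scoped TensorProduct

namespace SQ.U.Bar

open SQ.T3 SQ.T3.Tor

/-- induction on the permutation module -/
lemma ind_bs {α : Type} {p : Pm α → Prop} (h0 : p 0) (ha : ∀ x y, p x → p y → p (x + y)) (hb : ∀ a, p (bs a)) (q : Pm α) :
    p q := by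
  refine Finsupp.induction_linear (motive := p) q h0 (fun x y hx hy => ha x y hx hy) (fun a c => ?_)
  fin_cases c
  · have h1 : (Finsupp.single a (0 : ZMod 2) : α →₀ ZMod 2) = 0 := Finsupp.single_zero a
    show p (Finsupp.single a (0 : ZMod 2) : α →₀ ZMod 2)
    rw [h1]; exact h0
  · exact hb a

/-- induction on the chains -/
lemma ind_ten {α Y : Type} [AddCommGroup Y] [Module (ZMod 2) Y] {p : Pm α ⊗[ZMod 2] Y → Prop} (h0 : p 0)
    (ha : ∀ x y, p x → p y → p (x + y)) (hb : ∀ a y, p (bs a ⊗ₜ[ZMod 2] y)) (z : Pm α ⊗[ZMod 2] Y) : p z := by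
  induction z using TensorProduct.induction_on with
  | zero => exact h0
  | add x y hx hy => exact ha x y hx hy
  | tmul q y =>
    refine ind_bs (p := fun q => p (q ⊗ₜ[ZMod 2] y)) ?_ ?_ (fun a => hb a y) q
    · rw [TensorProduct.zero_tmul]; exact h0
    · intro q q' hq hq'
      rw [TensorProduct.add_tmul]; exact ha _ _ hq hq'

/-- linear maps from the permutation module -/
noncomputable def lin {α Y : Type} [AddCommGroup Y] [Module (ZMod 2) Y] (f : α → Y) : Pm α →ₗ[ZMod 2] Y :=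
  Finsupp.lsum (ZMod 2) fun a => LinearMap.toSpanSingleton (ZMod 2) Y (f a)

lemma lin_bs {α Y : Type} [AddCommGroup Y] [Module (ZMod 2) Y] (f : α → Y) (a : α) : lin f (bs a) = f a := by
  have h1 : (Finsupp.lsum (ZMod 2) fun a => LinearMap.toSpanSingleton (ZMod 2) Y (f a))
      (Finsupp.single a (1 : ZMod 2)) = f a := by
    rw [Finsupp.lsum_single, LinearMap.toSpanSingleton_apply, one_smul]
  exact h1

/-- a free action -/
def Fre (K : Type) [Group K] (α : Type) [MulAction K α] : Prop := ∀ (g : K) (a : α), g • a = a → g = 1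

section nu
variable {K : Type} [Group K] {E₁ E₂ : Type} [DivisionRing E₁] [DivisionRing E₂]
  [Algebra (ZMod 2) E₁] [Algebra (ZMod 2) E₂] (ρ₁ : K →* E₁ˣ) (ρ₂ : K →* E₂ˣ) {α : Type} [MulAction K α]

open Classical in
/-- the action of the element of `N` which moves `a` to `b`, zero if there is none -/
noncomputable def pt (N : Subgroup K) (b a : α) : E₁ ⊗[ZMod 2] E₂ →ₗ[ZMod 2] E₁ ⊗[ZMod 2] E₂ :=
  if h : ∃ g ∈ N, g • a = b then ten ρ₁ ρ₂ h.choose else 0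

lemma pt_l (hf : Fre K α) {N : Subgroup K} {g : K} (hg : g ∈ N) (a : α) :
    pt ρ₁ ρ₂ N (g • a) a = ten ρ₁ ρ₂ g := by
  have h : ∃ g' ∈ N, g' • a = g • a := ⟨g, hg, rfl⟩
  rw [pt, dif_pos h]
  have h1 : g⁻¹ * h.choose = 1 := hf _ a (by rw [mul_smul, h.choose_spec.2, inv_smul_smul])
  exact congrArg _ (inv_mul_eq_one.1 h1).symm

lemma pt_no {N : Subgroup K} {b a : α} (h : ¬ ∃ g ∈ N, g • a = b) : pt ρ₁ ρ₂ N b a = 0 := by
  rw [pt, dif_neg h]

lemma pt_mul (hf : Fre K α) {N : Subgroup K} (b a : α) {g : K} (hg : g ∈ N) (z : E₁ ⊗[ZMod 2] E₂) :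
    pt ρ₁ ρ₂ N b (g • a) (ten ρ₁ ρ₂ g z) = pt ρ₁ ρ₂ N b a z := by
  by_cases h : ∃ g' ∈ N, g' • a = b
  · obtain ⟨g', hg', rfl⟩ := h
    have h1 : g' • a = (g' * g⁻¹) • (g • a) := by rw [mul_smul, inv_smul_smul]
    rw [pt_l ρ₁ ρ₂ hf hg', h1, pt_l ρ₁ ρ₂ hf (N.mul_mem hg' (N.inv_mem hg)), ← Module.End.mul_apply, ← map_mul,
      inv_mul_cancel_right]
  · rw [pt_no ρ₁ ρ₂ h, pt_no]
    · rfl
    · rintro ⟨g', hg', h2⟩
      exact h ⟨g' * g, N.mul_mem hg' hg, by rw [mul_smul, h2]⟩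

/-- the coordinates of a chain modulo the action of `N` -/
noncomputable def nu (N : Subgroup K) (b : α) : Tc E₁ E₂ α →ₗ[ZMod 2] E₁ ⊗[ZMod 2] E₂ :=
  TensorProduct.lift (lin fun a => pt ρ₁ ρ₂ N b a)

lemma nu_bs (N : Subgroup K) (b a : α) (z : E₁ ⊗[ZMod 2] E₂) :
    nu ρ₁ ρ₂ N b (bs a ⊗ₜ[ZMod 2] z) = pt ρ₁ ρ₂ N b a z := by
  rw [nu, TensorProduct.lift.tmul, lin_bs]

lemma sg_bs (g : K) (a : α) (z : E₁ ⊗[ZMod 2] E₂) :
    sg ρ₁ ρ₂ α g (bs a ⊗ₜ[ZMod 2] z) = bs (g • a) ⊗ₜ[ZMod 2] ten ρ₁ ρ₂ g z := by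
  rw [sg, Representation.tprod_apply, TensorProduct.map_tmul, tr_bs]

lemma nu_sg (hf : Fre K α) (N : Subgroup K) (b : α) {g : K} (hg : g ∈ N)
    (z : Tc E₁ E₂ α) : nu ρ₁ ρ₂ N b (sg ρ₁ ρ₂ α g z) = nu ρ₁ ρ₂ N b z := by
  refine ind_ten (p := fun z => nu ρ₁ ρ₂ N b (sg ρ₁ ρ₂ α g z) = nu ρ₁ ρ₂ N b z) (by simp only [map_zero])
    (fun x y hx hy => by simp only [map_add, hx, hy]) (fun a y => ?_) z
  rw [sg_bs, nu_bs, nu_bs, pt_mul ρ₁ ρ₂ hf _ _ hg]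

lemma nu_Iv (hf : Fre K α) (N : Subgroup K) (b : α) {z : Tc E₁ E₂ α}
    (hz : z ∈ Iv ρ₁ ρ₂ α N) : nu ρ₁ ρ₂ N b z = 0 := by
  have h1 : nu ρ₁ ρ₂ N b z ∈ (⊥ : Submodule (ZMod 2) (E₁ ⊗[ZMod 2] E₂)) := by
    refine Iv.map ρ₁ ρ₂ _ _ (fun g hg x hx => ?_) hz
    rw [nu_sg ρ₁ ρ₂ hf N b hg, sub_self]
    exact zero_mem _
  exact h1

/-- induction on chains -/
theorem Ch.ind {α : Type} {A : Set E₁} {B : Set E₂} {p : Tc E₁ E₂ α → Prop}
    (h0 : p 0) (ha : ∀ x y, p x → p y → p (x + y))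
    (hb : ∀ a, ∀ x ∈ A, ∀ y ∈ B, p (bs a ⊗ₜ[ZMod 2] (x ⊗ₜ[ZMod 2] y))) {z : Tc E₁ E₂ α} (hz : z ∈ Ch α A B) :
    p z := by
  refine Submodule.span_induction (p := fun z _ => p z) ?_ h0 (fun x y _ _ hx hy => ha x y hx hy) (fun c x _ hx => ?_) hz
  · rintro _ ⟨q, x, hx, y, hy, rfl⟩
    refine ind_bs (p := fun q => p (q ⊗ₜ[ZMod 2] (x ⊗ₜ[ZMod 2] y))) ?_ ?_ ?_ q
    · rw [TensorProduct.zero_tmul]; exact h0
    · intro q q' hq hq'
      rw [TensorProduct.add_tmul]; exact ha _ _ hq hq'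
    · intro a
      exact hb a x hx y hy
  · fin_cases c
    · show p ((0 : ZMod 2) • x)
      rw [zero_smul]; exact h0
    · show p ((1 : ZMod 2) • x)
      rw [one_smul]; exact hx

/-- a chain with zero coordinates is a sum of differences -/
theorem Iv_of_nu (hf : Fre K α) (N : Subgroup K) {z : Tc E₁ E₂ α}
    (hz : z ∈ Ch α (cl ρ₁ N : Set E₁) (cl ρ₂ N : Set E₂)) (h : ∀ b, nu ρ₁ ρ₂ N b z = 0) :
    z ∈ Iv ρ₁ ρ₂ α N := by
  classical
  let r : α → α := fun a => (Quotient.mk (MulAction.orbitRel N α) a).out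
  have hr1 : ∀ a, ∃ g ∈ N, g • a = r a := by
    intro a
    have h1 : MulAction.orbitRel N α (r a) a := Quotient.mk_out (s := MulAction.orbitRel N α) a
    obtain ⟨g, hg⟩ := MulAction.orbitRel_apply.1 h1
    exact ⟨g, g.2, hg⟩
  have hr2 : ∀ g ∈ N, ∀ a, r (g • a) = r a := by
    intro g hg a
    have h1 : (Quotient.mk (MulAction.orbitRel N α) (g • a)) = Quotient.mk (MulAction.orbitRel N α) a :=
      Quotient.sound (s := MulAction.orbitRel N α) (MulAction.orbitRel_apply.2 ⟨⟨g, hg⟩, rfl⟩)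
    show (Quotient.mk (MulAction.orbitRel N α) (g • a)).out = (Quotient.mk (MulAction.orbitRel N α) a).out
    rw [h1]
  have key : ∃ F : Finset α, ∀ F', F ⊆ F' →
      z - ∑ k ∈ F', (if r k = k then bs k ⊗ₜ[ZMod 2] nu ρ₁ ρ₂ N k z else 0) ∈ Iv ρ₁ ρ₂ α N := by
    refine Ch.ind (p := fun z => ∃ F : Finset α, ∀ F', F ⊆ F' →
      z - ∑ k ∈ F', (if r k = k then bs k ⊗ₜ[ZMod 2] nu ρ₁ ρ₂ N k z else 0) ∈ Iv ρ₁ ρ₂ α N)
      ?_ ?_ ?_ hz
    · refine ⟨∅, fun F' _ => ?_⟩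
      simp only [map_zero, TensorProduct.tmul_zero, ite_self, Finset.sum_const_zero, sub_zero]
      exact zero_mem _
    · rintro x y ⟨F₁, h₁⟩ ⟨F₂, h₂⟩
      refine ⟨F₁ ∪ F₂, fun F' hF' => ?_⟩
      have h3 := add_mem (h₁ F' (Finset.union_subset_left hF')) (h₂ F' (Finset.union_subset_right hF'))
      have h4 : (∑ k ∈ F', (if r k = k then bs k ⊗ₜ[ZMod 2] nu ρ₁ ρ₂ N k (x + y) else 0)) =
          (∑ k ∈ F', (if r k = k then bs k ⊗ₜ[ZMod 2] nu ρ₁ ρ₂ N k x else 0)) +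
          ∑ k ∈ F', (if r k = k then bs k ⊗ₜ[ZMod 2] nu ρ₁ ρ₂ N k y else 0) := by
        rw [← Finset.sum_add_distrib]
        refine Finset.sum_congr rfl fun k _ => ?_
        split_ifs
        · rw [map_add, TensorProduct.tmul_add]
        · rw [add_zero]
      rw [h4]
      rwa [sub_add_sub_comm] at h3
    · intro a x hx y hy
      refine ⟨{r a}, fun F' hF' => ?_⟩
      have hrF : r a ∈ F' := hF' (Finset.mem_singleton_self _)
      obtain ⟨g, hg, hga⟩ := hr1 a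
      have h4 : (∑ k ∈ F', (if r k = k then
          bs k ⊗ₜ[ZMod 2] nu ρ₁ ρ₂ N k (bs a ⊗ₜ[ZMod 2] (x ⊗ₜ[ZMod 2] y)) else 0)) =
          sg ρ₁ ρ₂ α g (bs a ⊗ₜ[ZMod 2] (x ⊗ₜ[ZMod 2] y)) := by
        rw [Finset.sum_eq_single (r a)]
        · have h5 : r (r a) = r a := by
            rw [← hga, hr2 g hg, ← hga]
          rw [if_pos h5, nu_bs, sg_bs, ← hga, pt_l ρ₁ ρ₂ hf hg]
        · intro k _ hk
          split_ifs with h5
          · rw [nu_bs, pt_no, LinearMap.zero_apply, TensorProduct.tmul_zero]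
            rintro ⟨g', hg', rfl⟩
            exact hk (by rw [← h5, hr2 g' hg'])
          · rfl
        · intro h5; exact absurd hrF h5
      rw [h4, ← neg_sub]
      exact neg_mem (Iv.mk ρ₁ ρ₂ hg (Ch.mk _ hx hy))
  obtain ⟨F, hF⟩ := key
  have h1 := hF F (Finset.Subset.refl F)
  simp only [h, TensorProduct.tmul_zero, ite_self, Finset.sum_const_zero, sub_zero] at h1
  exact h1

end nu

end SQ.U.Bar
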