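import Pool.Agent.SQ.U.BarD
import Pool.Agent.SQ.HH.TwoF

/-!
# SQ/U: the start of the induction
-/

set_option autoImplicit false
set_option linter.unusedSectionVars false

open scoped TensorProduct

namespace SQ.U.Bar

open SQ.T3 SQ.T3.Tor

section co
variable {α Y : Type} [AddCommGroup Y] [Module (ZMod 2) Y]

/-- the coordinates -/
noncomputable def co (α Y : Type) [AddCommGroup Y] [Module (ZMod 2) Y] : Pm α ⊗[ZMod 2] Y →ₗ[ZMod 2] (α →₀ Y) :=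
  TensorProduct.lift (lin fun a => Finsupp.lsingle a)

lemma co_bs (a : α) (y : Y) : co α Y (bs a ⊗ₜ[ZMod 2] y) = Finsupp.single a y := by
  rw [co, TensorProduct.lift.tmul, lin_bs, Finsupp.lsingle_apply]

lemma un_co (z : Pm α ⊗[ZMod 2] Y) : ((co α Y z).sum fun a y => bs a ⊗ₜ[ZMod 2] y) = z := by
  refine ind_ten (p := fun z => ((co α Y z).sum fun a y => bs a ⊗ₜ[ZMod 2] y) = z) ?_ ?_ ?_ z
  · rw [map_zero, Finsupp.sum_zero_index]
  · intro x y hx hy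
    rw [map_add, Finsupp.sum_add_index' (fun a => TensorProduct.tmul_zero _ _) (fun a y y' => TensorProduct.tmul_add _ _ _),
      hx, hy]
  · intro a y
    rw [co_bs]
    exact Finsupp.sum_single_index (h := fun a y => bs a ⊗ₜ[ZMod 2] y) (TensorProduct.tmul_zero _ _)

end co

section start
variable {K : Type} [Group K] {E₁ E₂ : Type} [DivisionRing E₁] [DivisionRing E₂]
  [Algebra (ZMod 2) E₁] [Algebra (ZMod 2) E₂] (ρ₁ : K →* E₁ˣ) (ρ₂ : K →* E₂ˣ)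

/-- contraction of the first factor -/
noncomputable def con (f : E₁ →ₗ[ZMod 2] ZMod 2) : E₁ ⊗[ZMod 2] E₂ →ₗ[ZMod 2] E₂ :=
  (TensorProduct.lid (ZMod 2) E₂).toLinearMap ∘ₗ TensorProduct.map f LinearMap.id

lemma con_tmul (f : E₁ →ₗ[ZMod 2] ZMod 2) (x : E₁) (y : E₂) : con f (x ⊗ₜ[ZMod 2] y) = f x • y := by
  rw [con, LinearMap.comp_apply, TensorProduct.map_tmul, LinearEquiv.coe_coe, TensorProduct.lid_tmul, LinearMap.id_apply]

/-- the insertion of `1` -/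
noncomputable def in1 (E₁ E₂ : Type) [DivisionRing E₁] [DivisionRing E₂] [Algebra (ZMod 2) E₁]
    [Algebra (ZMod 2) E₂] (α : Type) : Pm α ⊗[ZMod 2] E₂ →ₗ[ZMod 2] Tc E₁ E₂ α :=
  (TensorProduct.mk (ZMod 2) E₁ E₂ 1).lTensor _

lemma in1_tmul {α : Type} (p : Pm α) (y : E₂) :
    in1 E₁ E₂ α (p ⊗ₜ[ZMod 2] y) = p ⊗ₜ[ZMod 2] ((1 : E₁) ⊗ₜ[ZMod 2] y) := rfl

open Classical in
lemma nu_in1 {f : E₁ →ₗ[ZMod 2] ZMod 2} (hf : ∀ g : K, f ((ρ₁ g : E₁ˣ) : E₁) = if g = 1 then 1 else 0) (N : Subgroup K)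
    {α : Type} [MulAction K α] (hα : Fre K α) (b : α) (m : Pm α ⊗[ZMod 2] E₂) :
    con f (nu ρ₁ ρ₂ N b (in1 E₁ E₂ α m)) = co α E₂ m b := by
  refine ind_ten (p := fun m => con f (nu ρ₁ ρ₂ N b (in1 E₁ E₂ α m)) = co α E₂ m b) (by simp only [map_zero]; rfl)
    (fun x y hx hy => by rw [map_add, map_add, map_add, hx, hy, map_add]; rfl) (fun a y => ?_) m
  rw [in1_tmul, nu_bs, co_bs]
  by_cases hb : b = a
  · subst hb
    have h1 := pt_l ρ₁ ρ₂ hα N.one_mem b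
    rw [one_smul, map_one (ten ρ₁ ρ₂)] at h1
    rw [h1, Module.End.one_apply, con_tmul, Finsupp.single_eq_same]
    have h1 := hf 1
    rw [map_one, Units.val_one, if_pos rfl] at h1
    rw [h1, one_smul]
  · rw [Finsupp.single_eq_of_ne hb]
    by_cases hg : ∃ g ∈ N, g • a = b
    · obtain ⟨g, hg, rfl⟩ := hg
      have hg1 : g⁻¹ ≠ 1 := by
        intro h1
        rw [inv_eq_one.1 h1, one_smul] at hb
        exact hb rfl
      rw [pt_l ρ₁ ρ₂ hα hg, ten_tmul, con_tmul, one_mul, hf, if_neg hg1, zero_smul]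
    · rw [pt_no ρ₁ ρ₂ hg, LinearMap.zero_apply, map_zero]

lemma in1_d {α β : Type} (d : Pm α →ₗ[ZMod 2] Pm β) (m : Pm α ⊗[ZMod 2] E₂) :
    d.rTensor (E₁ ⊗[ZMod 2] E₂) (in1 E₁ E₂ α m) = in1 E₁ E₂ β (d.rTensor E₂ m) := by
  induction m using TensorProduct.induction_on with
  | zero => simp only [map_zero]
  | add x y hx hy => rw [map_add, map_add, hx, hy, map_add, map_add]
  | tmul p y => rfl

lemma in1_mem {α : Type} {B : Set E₂} (f : E₂ →ₗ[ZMod 2] E₂) (hf : ∀ y, f y ∈ B) {A : Set E₁} (hA : (1 : E₁) ∈ A)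
    (m : Pm α ⊗[ZMod 2] E₂) : in1 E₁ E₂ α (f.lTensor _ m) ∈ Ch α A B := by
  induction m using TensorProduct.induction_on with
  | zero => simp only [map_zero, zero_mem]
  | add x y hx hy => rw [map_add, map_add]; exact add_mem hx hy
  | tmul p y =>
    rw [LinearMap.lTensor_tmul, in1_tmul]
    exact Ch.mk p hA (hf y)

lemma lT_rT {α β : Type} (d : Pm α →ₗ[ZMod 2] Pm β) (f : E₂ →ₗ[ZMod 2] E₂) (m : Pm α ⊗[ZMod 2] E₂) :
    d.rTensor E₂ (f.lTensor _ m) = f.lTensor _ (d.rTensor E₂ m) := by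
  induction m using TensorProduct.induction_on with
  | zero => simp only [map_zero]
  | add x y hx hy => simp only [map_add, hx, hy]
  | tmul p y => rfl

variable {α β γ : Type} [MulAction K α] [MulAction K β] [MulAction K γ]
  (d : Pm α →ₗ[ZMod 2] Pm β) (e : Pm β →ₗ[ZMod 2] Pm γ) (he : Eqv K e) (hγ : Fre K γ) (hex : Function.Exact d e)

include he hγ hex in
/-- the start of the induction -/
theorem Va_zero (h : LinearIndependent (ZMod 2) fun g : K => ((ρ₁ g : E₁ˣ) : E₁)) (N : Subgroup K) :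
    Va ρ₁ ρ₂ d e N (AddSubgroup.closure ((fun g : K => ((ρ₁ g : E₁ˣ) : E₁)) '' (N : Set K)) : Set E₁) := by
  classical
  intro c hc hd
  obtain ⟨f, hf⟩ := T3.Tor.exists_fun ρ₁ h
  -- the retraction
  obtain ⟨π, hπ⟩ := LinearMap.exists_leftInverse_of_injective (HH.Two.sm (cl ρ₂ N)).subtype
    (LinearMap.ker_eq_bot.2 (HH.Two.sm (cl ρ₂ N)).subtype_injective)
  -- the chains of the form `p ⊗ y`
  let T : ∀ α : Type, Submodule (ZMod 2) (Pm α ⊗[ZMod 2] E₂) := fun α =>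
    Submodule.span (ZMod 2) {z | ∃ p : Pm α, ∃ y ∈ cl ρ₂ N, z = p ⊗ₜ[ZMod 2] y}
  have hT1 : c ∈ Submodule.map (in1 E₁ E₂ β) (T β) ⊔ Iv ρ₁ ρ₂ β N := by
    refine Ch.map LinearMap.id _ (fun p x hx y hy => ?_) hc
    rw [LinearMap.id_apply]
    refine AddSubgroup.closure_induction (p := fun x _ => p ⊗ₜ[ZMod 2] (x ⊗ₜ[ZMod 2] y) ∈
      Submodule.map (in1 E₁ E₂ β) (T β) ⊔ Iv ρ₁ ρ₂ β N) ?_ ?_ ?_ ?_ hx
    · rintro _ ⟨g, hg, rfl⟩
      have h1 : sg ρ₁ ρ₂ β g (p ⊗ₜ[ZMod 2] (((ρ₁ g : E₁ˣ) : E₁) ⊗ₜ[ZMod 2] y)) =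
          in1 E₁ E₂ β (tr K β g p ⊗ₜ[ZMod 2] (((ρ₂ g : E₂ˣ) : E₂) * y)) := by
        rw [sg_tmul, in1_tmul, ← Units.val_mul, ← map_mul, mul_inv_cancel, map_one, Units.val_one]
      have h2 := Iv.mk ρ₁ ρ₂ hg (Ch.mk (α := β) p (T3.mem_cl ρ₁ hg) hy)
      have h3 : p ⊗ₜ[ZMod 2] (((ρ₁ g : E₁ˣ) : E₁) ⊗ₜ[ZMod 2] y) =
          in1 E₁ E₂ β (tr K β g p ⊗ₜ[ZMod 2] (((ρ₂ g : E₂ˣ) : E₂) * y)) -
          (sg ρ₁ ρ₂ β g (p ⊗ₜ[ZMod 2] (((ρ₁ g : E₁ˣ) : E₁) ⊗ₜ[ZMod 2] y)) -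
            p ⊗ₜ[ZMod 2] (((ρ₁ g : E₁ˣ) : E₁) ⊗ₜ[ZMod 2] y)) := by
        rw [h1, sub_sub_cancel]
      show p ⊗ₜ[ZMod 2] (((ρ₁ g : E₁ˣ) : E₁) ⊗ₜ[ZMod 2] y) ∈ _
      rw [h3]
      refine sub_mem (Submodule.mem_sup_left ⟨_, Submodule.subset_span ⟨_, _, ?_, rfl⟩, rfl⟩) (Submodule.mem_sup_right h2)
      exact (cl ρ₂ N).mul_mem (T3.mem_cl ρ₂ hg) hy
    · rw [TensorProduct.zero_tmul, TensorProduct.tmul_zero]; exact zero_mem _
    · intro a b _ _ ha hb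
      rw [TensorProduct.add_tmul, TensorProduct.tmul_add]; exact add_mem ha hb
    · intro a _ ha
      rw [TensorProduct.neg_tmul, TensorProduct.tmul_neg]; exact neg_mem ha
  obtain ⟨_, ⟨m, hm, rfl⟩, i, hi, rfl⟩ := Submodule.mem_sup.1 hT1
  -- the chain is a cycle
  have hcyc : e.rTensor E₂ m = 0 := by
    have h2 : in1 E₁ E₂ γ (e.rTensor E₂ m) ∈ Iv ρ₁ ρ₂ γ N := by
      rw [← in1_d]
      have h3 := sub_mem hd (Iv.d ρ₁ ρ₂ e he hi)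
      rwa [map_add, add_sub_cancel_right] at h3
    have h3 : co γ E₂ (e.rTensor E₂ m) = 0 := by
      apply Finsupp.ext
      intro b
      rw [← nu_in1 ρ₁ ρ₂ hf N hγ b, nu_Iv ρ₁ ρ₂ hγ N b h2, map_zero]
      rfl
    rw [← un_co (e.rTensor E₂ m), h3, Finsupp.sum_zero_index]
  obtain ⟨n, hn⟩ := (Module.Flat.rTensor_exact E₂ hex m).1 hcyc
  -- the retraction of `n`
  let pr : E₂ →ₗ[ZMod 2] E₂ := (HH.Two.sm (cl ρ₂ N)).subtype ∘ₗ π
  have hpr : ∀ x ∈ cl ρ₂ N, pr x = x := by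
    intro x hx
    have h1 := LinearMap.congr_fun hπ ⟨x, hx⟩
    exact congrArg Subtype.val h1
  have hprm : pr.lTensor _ m = m := by
    refine Submodule.span_induction (p := fun m _ => pr.lTensor _ m = m) ?_ (map_zero _) (fun x y _ _ hx hy => by
      rw [map_add, hx, hy]) (fun c x _ hx => by rw [map_smul, hx]) hm
    rintro _ ⟨p, y, hy, rfl⟩
    rw [LinearMap.lTensor_tmul, hpr y hy]
  have hfin : d.rTensor (E₁ ⊗[ZMod 2] E₂) (in1 E₁ E₂ α (pr.lTensor _ n)) = in1 E₁ E₂ β m := by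
    rw [in1_d, lT_rT, hn, hprm]
  rw [← hfin]
  exact add_mem (Bv.of_d ρ₁ ρ₂ d (in1_mem pr (fun y => (π y).2) (one_mem (cl ρ₁ N)) n)) (Iv.le_Bv ρ₁ ρ₂ d N hi)

/-! ### reductions -/

lemma Va.mono {N : Subgroup K} {G G' : Set E₁} (h : G' ⊆ G) (hV : Va ρ₁ ρ₂ d e N G) : Va ρ₁ ρ₂ d e N G' :=
  fun c hc hd => hV c (Ch.mono h (fun _ hy => hy) hc) hd

/-- it is enough to consider finite sets -/
lemma Va_of_fin {N : Subgroup K} {G : Set E₁} (h : ∀ G' : Set E₁, G'.Finite → G' ⊆ G → Va ρ₁ ρ₂ d e N G') :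
    Va ρ₁ ρ₂ d e N G := by
  intro c hc hd
  obtain ⟨X, Y, hX, hY, hXY⟩ := Ch.fin hc
  exact h (X : Set E₁) X.finite_toSet hX c (Ch.mono (fun _ hx => hx) (fun y hy => hY y hy) hXY) hd

end start

end SQ.U.Bar
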