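import Pool.Agent.SQ.U.BarE

/-!
# SQ/U: induction from a subgroup, families
-/

set_option autoImplicit false
set_option linter.unusedSectionVars false

open scoped TensorProduct

namespace SQ.U.Bar

open SQ.T3 SQ.T3.Tor

section up
variable {K : Type} [Group K] {E₁ E₂ : Type} [DivisionRing E₁] [DivisionRing E₂]
  [Algebra (ZMod 2) E₁] [Algebra (ZMod 2) E₂] (ρ₁ : K →* E₁ˣ) (ρ₂ : K →* E₂ˣ)

/-- a linear map of the second factor -/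
noncomputable def T2x (α : Type) (f : E₂ →ₗ[ZMod 2] E₂) : Tc E₁ E₂ α →ₗ[ZMod 2] Tc E₁ E₂ α :=
  (TensorProduct.map LinearMap.id f).lTensor _

lemma T2x_tmul {α : Type} (f : E₂ →ₗ[ZMod 2] E₂) (p : Pm α) (x : E₁) (y : E₂) :
    T2x α f (p ⊗ₜ[ZMod 2] (x ⊗ₜ[ZMod 2] y)) = p ⊗ₜ[ZMod 2] (x ⊗ₜ[ZMod 2] f y) := rfl

lemma T2x_d {α β : Type} (d : Pm α →ₗ[ZMod 2] Pm β) (f : E₂ →ₗ[ZMod 2] E₂) (z : Tc E₁ E₂ α) :
    d.rTensor (E₁ ⊗[ZMod 2] E₂) (T2x α f z) = T2x β f (d.rTensor (E₁ ⊗[ZMod 2] E₂) z) :=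
  ext3 (d.rTensor _ ∘ₗ T2x α f) (T2x β f ∘ₗ d.rTensor _) (fun _ _ _ => by
    rw [LinearMap.comp_apply, LinearMap.comp_apply, T2x_tmul, LinearMap.rTensor_tmul, LinearMap.rTensor_tmul, T2x_tmul]) z

/-- the coordinates for a smaller group -/
lemma nu_proj {H' H : Subgroup K} (le : H' ≤ H) (π : E₁ →ₗ[ZMod 2] E₁)
    (h1 : ∀ x ∈ cl ρ₁ H', π x = x) (h2 : ∀ x ∈ cl ρ₁ H', ∀ g ∈ H, g ∉ H' → π (x * ((ρ₁ g : E₁ˣ) : E₁)) = 0)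
    {α : Type} [MulAction K α] (hα : Fre K α) (b : α) {B : Set E₂} {z : Tc E₁ E₂ α}
    (hz : z ∈ Ch α (cl ρ₁ H' : Set E₁) B) :
    TensorProduct.map π LinearMap.id (nu ρ₁ ρ₂ H b z) = nu ρ₁ ρ₂ H' b z := by
  refine Ch.ind (p := fun z => TensorProduct.map π LinearMap.id (nu ρ₁ ρ₂ H b z) = nu ρ₁ ρ₂ H' b z)
    (by simp only [map_zero]) (fun x y hx hy => by simp only [map_add, hx, hy]) (fun a x hx y _ => ?_) hz
  rw [nu_bs, nu_bs]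
  by_cases hg : ∃ g ∈ H, g • a = b
  · obtain ⟨g, hg, rfl⟩ := hg
    rw [pt_l ρ₁ ρ₂ hα hg, ten_tmul, TensorProduct.map_tmul]
    by_cases hg' : g ∈ H'
    · rw [pt_l ρ₁ ρ₂ hα hg', ten_tmul, h1 _ ((cl ρ₁ H').mul_mem hx (T3.mem_cl ρ₁ (H'.inv_mem hg')))]
      rfl
    · rw [h2 x hx g⁻¹ (H.inv_mem hg) (fun h3 => hg' (by simpa using H'.inv_mem h3)), TensorProduct.zero_tmul, pt_no]
      · rfl
      · rintro ⟨g', hg1, hg2⟩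
        have h3 : g⁻¹ * g' = 1 := hα _ a (by rw [mul_smul, hg2, inv_smul_smul])
        rw [inv_mul_eq_one.1 h3] at hg'
        exact hg' hg1
  · rw [pt_no ρ₁ ρ₂ hg, pt_no, LinearMap.zero_apply, map_zero]
    rintro ⟨g', hg1, hg2⟩
    exact hg ⟨g', le hg1, hg2⟩

/-- the coordinates and left linear maps of the second factor -/
lemma nu_T2x {H' : Subgroup K} (f : E₂ →ₗ[ZMod 2] E₂)
    (h1 : ∀ x ∈ cl ρ₂ H', ∀ y, f (x * y) = x * f y) {α : Type} [MulAction K α] (hα : Fre K α) (b : α) (z : Tc E₁ E₂ α) :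
    nu ρ₁ ρ₂ H' b (T2x α f z) = TensorProduct.map LinearMap.id f (nu ρ₁ ρ₂ H' b z) := by
  refine Ch.ind (p := fun z => nu ρ₁ ρ₂ H' b (T2x α f z) = TensorProduct.map LinearMap.id f (nu ρ₁ ρ₂ H' b z))
    (by simp only [map_zero]) (fun x y hx hy => by simp only [map_add, hx, hy]) (fun a x _ y _ => ?_)
    (Ch.univ α z)
  rw [T2x_tmul, nu_bs, nu_bs]
  by_cases hg : ∃ g ∈ H', g • a = b
  · obtain ⟨g, hg, rfl⟩ := hg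
    rw [pt_l ρ₁ ρ₂ hα hg, ten_tmul, ten_tmul, TensorProduct.map_tmul, LinearMap.id_apply,
      h1 _ (T3.mem_cl ρ₂ hg)]
  · rw [pt_no ρ₁ ρ₂ hg, LinearMap.zero_apply, LinearMap.zero_apply, map_zero]

/-- the decomposition of a chain -/
lemma T2x_sum {ι : Type} {A : Set E₁} {L : Subfield E₂} {b : ι → E₂} {co : ι → (E₂ →+ E₂)}
    (h : ∀ y ∈ L, ∃ s : Finset ι, ∀ s', s ⊆ s' → y = ∑ i ∈ s', co i y * b i) {α : Type} {z : Tc E₁ E₂ α}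
    (hz : z ∈ Ch α A (L : Set E₂)) : ∃ s : Finset ι, ∀ s', s ⊆ s' →
      z = ∑ i ∈ s', Rx α (b i) (T2x α ((co i).toZModLinearMap 2) z) := by
  classical
  refine Submodule.span_induction (p := fun z _ => ∃ s : Finset ι, ∀ s', s ⊆ s' →
      z = ∑ i ∈ s', Rx α (b i) (T2x α ((co i).toZModLinearMap 2) z)) ?_ ?_ ?_ ?_ hz
  · rintro _ ⟨p, x, hx, y, hy, rfl⟩
    obtain ⟨s, hs⟩ := h y hy
    refine ⟨s, fun s' hs' => ?_⟩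
    simp only [T2x_tmul, Rx_tmul]
    rw [← TensorProduct.tmul_sum, ← TensorProduct.tmul_sum]
    congr 2
    exact hs s' hs'
  · exact ⟨∅, fun s' _ => by simp only [map_zero, Finset.sum_const_zero]⟩
  · rintro x y _ _ ⟨s, hs⟩ ⟨t, ht⟩
    refine ⟨s ∪ t, fun s' hs' => ?_⟩
    simp only [map_add, Finset.sum_add_distrib]
    rw [← hs s' (Finset.union_subset_left hs'), ← ht s' (Finset.union_subset_right hs')]
  · rintro c x _ ⟨s, hs⟩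
    refine ⟨s, fun s' hs' => ?_⟩
    simp only [map_smul]
    rw [← Finset.smul_sum, ← hs s' hs']

variable {α β γ : Type} [MulAction K α] [MulAction K β] [MulAction K γ]
  (d : Pm α →ₗ[ZMod 2] Pm β) (e : Pm β →ₗ[ZMod 2] Pm γ) (hd : Eqv K d) (he : Eqv K e) (hγ : Fre K γ)
  (hex : Function.Exact d e)

include he hγ in
/-- **induction from a subgroup** -/
theorem Va_up {H' H : Subgroup K} (le : H' ≤ H) (ci : BO.CosInd ρ₁ H' H) {X' X : Set E₁}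
    (mem : ∀ x ∈ X', x ∈ cl ρ₁ H') (hV : Va ρ₁ ρ₂ d e H' X')
    (h : ∀ x ∈ X, ∃ x' ∈ X', ∃ g ∈ H, x = x' * ((ρ₁ g : E₁ˣ) : E₁)) : Va ρ₁ ρ₂ d e H X := by
  classical
  intro c hc hdc
  -- translation to the trivial coset
  have h1 : c ∈ Ch β X' (cl ρ₂ H : Set E₂) ⊔ Iv ρ₁ ρ₂ β H := by
    refine Ch.map LinearMap.id _ (fun p x hx y hy => ?_) hc
    rw [LinearMap.id_apply]
    obtain ⟨x', hx', g, hg, rfl⟩ := h x hx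
    have h2 : sg ρ₁ ρ₂ β g (p ⊗ₜ[ZMod 2] ((x' * ((ρ₁ g : E₁ˣ) : E₁)) ⊗ₜ[ZMod 2] y)) =
        tr K β g p ⊗ₜ[ZMod 2] (x' ⊗ₜ[ZMod 2] (((ρ₂ g : E₂ˣ) : E₂) * y)) := by
      rw [sg_tmul, mul_assoc, ← Units.val_mul, ← map_mul, mul_inv_cancel, map_one, Units.val_one, mul_one]
    have h3 := Iv.mk ρ₁ ρ₂ hg (Ch.mk (α := β) p
      ((cl ρ₁ H).mul_mem (cl_mono ρ₁ le (mem x' hx')) (T3.mem_cl ρ₁ hg)) hy)
    have h4 : p ⊗ₜ[ZMod 2] ((x' * ((ρ₁ g : E₁ˣ) : E₁)) ⊗ₜ[ZMod 2] y) =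
        tr K β g p ⊗ₜ[ZMod 2] (x' ⊗ₜ[ZMod 2] (((ρ₂ g : E₂ˣ) : E₂) * y)) -
        (sg ρ₁ ρ₂ β g (p ⊗ₜ[ZMod 2] ((x' * ((ρ₁ g : E₁ˣ) : E₁)) ⊗ₜ[ZMod 2] y)) -
          p ⊗ₜ[ZMod 2] ((x' * ((ρ₁ g : E₁ˣ) : E₁)) ⊗ₜ[ZMod 2] y)) := by
      rw [h2, sub_sub_cancel]
    rw [h4]
    exact sub_mem (Submodule.mem_sup_left (Ch.mk _ hx' ((cl ρ₂ H).mul_mem (T3.mem_cl ρ₂ hg) hy)))
      (Submodule.mem_sup_right h3)
  obtain ⟨c', hc', i, hi, rfl⟩ := Submodule.mem_sup.1 h1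
  have hd' : e.rTensor (E₁ ⊗[ZMod 2] E₂) c' ∈ Iv ρ₁ ρ₂ γ H := by
    have h3 := sub_mem hdc (Iv.d ρ₁ ρ₂ e he hi)
    rwa [map_add, add_sub_cancel_right] at h3
  refine add_mem ?_ (Iv.le_Bv ρ₁ ρ₂ d H hi)
  -- the coordinates
  obtain ⟨ι, b, co, hb, hco1, hco2, hco3⟩ := HH.Two.exists_coord (cl ρ₂ H') (cl ρ₂ H) (cl_mono ρ₂ le)
  obtain ⟨π, hπ1, hπ2⟩ := HH.Two.exists_proj ρ₁ H' H ci
  obtain ⟨s, hs⟩ := T2x_sum hco3 hc'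
  rw [hs s (Finset.Subset.refl s)]
  refine sum_mem fun i _ => Bv.Rx ρ₁ ρ₂ d (hb i) (Bv.mono ρ₁ ρ₂ d le ?_)
  refine hV _ (Ch.map _ _ (fun p x hx y hy => ?_) hc') ?_
  · rw [T2x_tmul]
    exact Ch.mk _ hx (hco1 i y)
  · rw [T2x_d]
    have h3 : e.rTensor (E₁ ⊗[ZMod 2] E₂) c' ∈ Ch γ (cl ρ₁ H' : Set E₁) (cl ρ₂ H : Set E₂) :=
      Ch.d e (Ch.mono (fun x hx => mem x hx) (fun _ hy => hy) hc')
    refine Iv_of_nu ρ₁ ρ₂ hγ H' (Ch.map _ _ (fun p x hx y hy => ?_) h3) (fun b => ?_)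
    · rw [T2x_tmul]
      exact Ch.mk _ hx (hco1 i y)
    · rw [nu_T2x ρ₁ ρ₂ _ (fun x hx y => hco2 i x hx y) hγ, ← nu_proj ρ₁ ρ₂ le π hπ1 hπ2 hγ b h3,
        nu_Iv ρ₁ ρ₂ hγ H b hd', map_zero, map_zero]

include hd he hγ hex in
/-- **families** -/
theorem Va_fam (h : LinearIndependent (ZMod 2) fun g : K => ((ρ₁ g : E₁ˣ) : E₁))
    {H : Subgroup K} {X : Set E₁} (hX : BO.Fam ρ₁ ρ₂ H X) : Va ρ₁ ρ₂ d e H X := by
  induction hX with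
  | base H X hX =>
    refine Va.mono ρ₁ ρ₂ d e (fun x hx => ?_) (Va_zero ρ₁ ρ₂ d e he hγ hex h H)
    obtain ⟨n, hn, hn'⟩ := hX x hx
    have h2 : (2 : E₁) = 0 := by
      have h3 : algebraMap (ZMod 2) E₁ 2 = 2 := map_ofNat _ 2
      rw [← h3]
      have h4 : (2 : ZMod 2) = 0 := rfl
      rw [h4, map_zero]
    rcases Nat.even_or_odd' n with ⟨m, rfl | rfl⟩
    · exact absurd (by push_cast; rw [h2, zero_mul]) hn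
    · have h3 : ((2 * m + 1 : ℕ) : E₁) = 1 := by push_cast; rw [h2, zero_mul, zero_add]
      rwa [h3, one_mul] at hn'
  | up H' H X' X le ci mem _ hX ih => exact Va_up ρ₁ ρ₂ d e he hγ le ci mem ih hX
  | step N H t X zp S1 S2 mem _ ih =>
    refine zstep d e hd he ρ₁ ρ₂ N H t S1 S2 zp.le zp.mem (fun u g hg => ?_) zp.gen mem
      (G' := {y | ∃ x ∈ X, ∃ u : ℤ, y = S1.κ x u}) (fun x hx u => ⟨x, hx, u, rfl⟩)
      (Va_of_fin ρ₁ ρ₂ d e fun Y hY hY' => ih Y hY hY')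
    exact zp.conj _ (H.zpow_mem zp.mem u) g hg

end up

end SQ.U.Bar
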