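import Pool.Agent.SQ.U.BarF
import Pool.Agent.SQ.U.PairLoc

/-!
# SQ/U: the bar complex in low degrees, and `H₁(K; E₁ ⊗ E₂) = 0`

`K` arbitrary, `E₁`, `E₂` arbitrary extensions of the fields generated by the group.
-/

set_option autoImplicit false
set_option linter.unusedSectionVars false

open scoped TensorProduct

namespace SQ.U.Bar

open SQ.T3 SQ.T3.Tor

section bar
variable (K : Type) [Group K]

/-- the boundary of the edges -/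
noncomputable def d₀ : Pm (K × K) →ₗ[ZMod 2] Pm K := lin fun x => bs x.1 + bs x.2

/-- the boundary of the triangles -/
noncomputable def d₁ : Pm (K × K × K) →ₗ[ZMod 2] Pm (K × K) :=
  lin fun x => bs (x.2.1, x.2.2) + bs (x.1, x.2.2) + bs (x.1, x.2.1)

lemma d₀_eqv : Eqv K (d₀ K) := by
  intro g p
  refine ind_bs (p := fun p => d₀ K (tr K _ g p) = tr K _ g (d₀ K p)) ?_ ?_ ?_ p
  · simp only [map_zero]
  · intro x y hx hy
    simp only [map_add, hx, hy]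
  · rintro ⟨a, b⟩
    rw [tr_bs, d₀, lin_bs, lin_bs, map_add, tr_bs, tr_bs]
    rfl

lemma d₁_eqv : Eqv K (d₁ K) := by
  intro g p
  refine ind_bs (p := fun p => d₁ K (tr K _ g p) = tr K _ g (d₁ K p)) ?_ ?_ ?_ p
  · simp only [map_zero]
  · intro x y hx hy
    simp only [map_add, hx, hy]
  · rintro ⟨a, b, c⟩
    rw [tr_bs, d₁, lin_bs, lin_bs, map_add, map_add, tr_bs, tr_bs, tr_bs]
    rfl

lemma fre : Fre K K := fun g a h => by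
  have h1 : g * a = a := h
  exact mul_eq_right.1 h1

lemma bar_exact : Function.Exact (d₁ K) (d₀ K) := by
  have h2 : ∀ {α : Type} (x : Pm α), x + x = 0 := fun x => ZModModule.add_self x
  have hh : ∀ y, d₁ K (lin (fun x : K × K => bs ((1 : K), x.1, x.2)) y) + lin (fun g : K => bs ((1 : K), g)) (d₀ K y) = y := by
    intro y
    refine ind_bs (p := fun y => d₁ K (lin (fun x : K × K => bs ((1 : K), x.1, x.2)) y) +
      lin (fun g : K => bs ((1 : K), g)) (d₀ K y) = y) ?_ ?_ ?_ y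
    · simp only [map_zero, add_zero]
    · intro x y hx hy
      simp only [map_add]
      rw [add_add_add_comm, hx, hy]
    · rintro ⟨a, b⟩
      rw [lin_bs, d₁, d₀, lin_bs, lin_bs, map_add, lin_bs, lin_bs]
      have h3 : (bs (a, b) + bs ((1 : K), b) + bs ((1 : K), a) + (bs ((1 : K), a) + bs ((1 : K), b)) : Pm (K × K)) =
          bs (a, b) + (bs ((1 : K), b) + bs ((1 : K), b)) + (bs ((1 : K), a) + bs ((1 : K), a)) := by abel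
      refine h3.trans ?_
      rw [h2, h2, add_zero, add_zero]
  intro y
  constructor
  · intro h
    have h1 := hh y
    rw [h, map_zero, add_zero] at h1
    exact ⟨_, h1⟩
  · rintro ⟨z, rfl⟩
    refine ind_bs (p := fun z => d₀ K (d₁ K z) = 0) ?_ ?_ ?_ z
    · simp only [map_zero]
    · intro x y hx hy
      simp only [map_add, hx, hy, add_zero]
    · rintro ⟨a, b, c⟩
      rw [d₁, lin_bs, d₀, map_add, map_add, lin_bs, lin_bs, lin_bs]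
      have h3 : (bs b + bs c + (bs a + bs c) + (bs a + bs b) : Pm K) =
          (bs a + bs a) + (bs b + bs b) + (bs c + bs c) := by abel
      refine h3.trans ?_
      rw [h2, h2, h2, zero_add, h2]

end bar

section fields
variable {K : Type} [Group K] {E₁ E₂ : Type} [DivisionRing E₁] [DivisionRing E₂]
  [Algebra (ZMod 2) E₁] [Algebra (ZMod 2) E₂] (ρ₁ : K →* E₁ˣ) (ρ₂ : K →* E₂ˣ)

/-- the vanishing for the fields generated by the group -/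
theorem Va_cl (hL : T5.Loc ρ₁ ρ₂) : Va ρ₁ ρ₂ (d₁ K) (d₀ K) ⊤ (cl ρ₁ (⊤ : Subgroup K) : Set E₁) :=
  Va_of_fin ρ₁ ρ₂ _ _ fun _ hG hG' => Va_fam ρ₁ ρ₂ (d₁ K) (d₀ K) (d₁_eqv K) (d₀_eqv K) (fre K) (bar_exact K)
    (BO.allCos_of_loc hL).li (BO.fam_of_loc hL hG fun _ hx => hG' hx)

/-- an element of the division closure in the opposite field -/
theorem op_mem_cl {E : Type} [DivisionRing E] {ρ : K →* Eˣ} {N : Subgroup K} {x : E} (hx : x ∈ cl ρ N) :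
    MulOpposite.op x ∈ cl (BO.opr ρ) N := by
  refine Subfield.closure_induction (p := fun y _ => MulOpposite.op y ∈ cl (BO.opr ρ) N) ?_ ?_ ?_ ?_ ?_ ?_ hx
  · rintro _ ⟨g, hg, rfl⟩
    have h1 := T3.mem_cl (BO.opr ρ) (N.inv_mem hg)
    rwa [BO.opr_val, inv_inv] at h1
  · rw [MulOpposite.op_one]
    exact one_mem _
  · intro a b _ _ ha hb
    rw [MulOpposite.op_add]
    exact add_mem ha hb
  · intro a _ ha
    rw [MulOpposite.op_neg]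
    exact neg_mem ha
  · intro a _ ha
    rw [MulOpposite.op_inv]
    exact inv_mem ha
  · intro a b _ _ ha hb
    rw [MulOpposite.op_mul]
    exact mul_mem hb ha

/-- coordinates of the right vector space `E` -/
theorem exists_coordR {E : Type} [DivisionRing E] (ρ : K →* Eˣ) : ∃ (ι : Type) (b : ι → E) (co : ι → (E →+ E)),
    (∀ i y, co i y ∈ cl ρ (⊤ : Subgroup K)) ∧ (∀ i, ∀ f ∈ cl ρ (⊤ : Subgroup K), ∀ y, co i (y * f) = co i y * f) ∧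
    ∀ y, ∃ s : Finset ι, ∀ s', s ⊆ s' → y = ∑ i ∈ s', b i * co i y := by
  obtain ⟨ι, b, co, -, h1, h2, h3⟩ := HH.Two.exists_coord (cl (BO.opr ρ) (⊤ : Subgroup K)) ⊤ le_top
  refine ⟨ι, fun i => (b i).unop, fun i =>
    { toFun := fun y => (co i (MulOpposite.op y)).unop
      map_zero' := by rw [MulOpposite.op_zero, map_zero, MulOpposite.unop_zero]
      map_add' := fun x y => by rw [MulOpposite.op_add, map_add, MulOpposite.unop_add] }, fun i y => BO.unop_mem_cl (h1 i _),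
    fun i f hf y => ?_, fun y => ?_⟩
  · show (co i (MulOpposite.op (y * f))).unop = (co i (MulOpposite.op y)).unop * f
    rw [MulOpposite.op_mul, h2 i _ (op_mem_cl hf), MulOpposite.unop_mul, MulOpposite.unop_op]
  · obtain ⟨s, hs⟩ := h3 (MulOpposite.op y) trivial
    refine ⟨s, fun s' hs' => ?_⟩
    have h4 := congrArg MulOpposite.unop (hs s' hs')
    rw [MulOpposite.unop_op, Finset.unop_sum] at h4
    exact h4

/-- a linear map of the first factor -/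
noncomputable def T1x (α : Type) (f : E₁ →ₗ[ZMod 2] E₁) : Tc E₁ E₂ α →ₗ[ZMod 2] Tc E₁ E₂ α :=
  (TensorProduct.map f LinearMap.id).lTensor _

lemma T1x_tmul {α : Type} (f : E₁ →ₗ[ZMod 2] E₁) (p : Pm α) (x : E₁) (y : E₂) :
    T1x α f (p ⊗ₜ[ZMod 2] (x ⊗ₜ[ZMod 2] y)) = p ⊗ₜ[ZMod 2] (f x ⊗ₜ[ZMod 2] y) := rfl

lemma T1x_d {α β : Type} (d : Pm α →ₗ[ZMod 2] Pm β) (f : E₁ →ₗ[ZMod 2] E₁) (z : Tc E₁ E₂ α) :
    d.rTensor (E₁ ⊗[ZMod 2] E₂) (T1x α f z) = T1x β f (d.rTensor (E₁ ⊗[ZMod 2] E₂) z) :=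
  ext3 (d.rTensor _ ∘ₗ T1x α f) (T1x β f ∘ₗ d.rTensor _) (fun _ _ _ => by
    rw [LinearMap.comp_apply, LinearMap.comp_apply, T1x_tmul, LinearMap.rTensor_tmul, LinearMap.rTensor_tmul, T1x_tmul]) z

/-- the decomposition of a chain -/
lemma T1x_sum {ι : Type} {b : ι → E₁} {co : ι → (E₁ →+ E₁)}
    (h : ∀ y, ∃ s : Finset ι, ∀ s', s ⊆ s' → y = ∑ i ∈ s', b i * co i y) {α : Type} (z : Tc E₁ E₂ α) :
    ∃ s : Finset ι, ∀ s', s ⊆ s' → z = ∑ i ∈ s', Lx α (b i) (T1x α ((co i).toZModLinearMap 2) z) := by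
  classical
  refine Submodule.span_induction (p := fun z _ => ∃ s : Finset ι, ∀ s', s ⊆ s' →
      z = ∑ i ∈ s', Lx α (b i) (T1x α ((co i).toZModLinearMap 2) z)) ?_ ?_ ?_ ?_ (Ch.univ α z)
  · rintro _ ⟨p, x, hx, y, hy, rfl⟩
    obtain ⟨s, hs⟩ := h x
    refine ⟨s, fun s' hs' => ?_⟩
    simp only [T1x_tmul, Lx_tmul]
    rw [← TensorProduct.tmul_sum, ← TensorProduct.sum_tmul]
    congr 2
    exact hs s' hs'
  · exact ⟨∅, fun s' _ => by simp only [map_zero, Finset.sum_const_zero]⟩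
  · rintro x y _ _ ⟨s, hs⟩ ⟨t, ht⟩
    refine ⟨s ∪ t, fun s' hs' => ?_⟩
    simp only [map_add, Finset.sum_add_distrib]
    rw [← hs s' (Finset.union_subset_left hs'), ← ht s' (Finset.union_subset_right hs')]
  · rintro c x _ ⟨s, hs⟩
    refine ⟨s, fun s' hs' => ?_⟩
    simp only [map_smul]
    rw [← Finset.smul_sum, ← hs s' hs']

/-- all differences -/
noncomputable def Id (α : Type) [MulAction K α] : Submodule (ZMod 2) (Tc E₁ E₂ α) :=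
  Submodule.span (ZMod 2) {z | ∃ (g : K) (x : Tc E₁ E₂ α), z = sg ρ₁ ρ₂ α g x - x}

lemma Id.mk {α : Type} [MulAction K α] (g : K) (x : Tc E₁ E₂ α) : sg ρ₁ ρ₂ α g x - x ∈ Id ρ₁ ρ₂ α :=
  Submodule.subset_span ⟨g, x, rfl⟩

lemma Id.map {α : Type} [MulAction K α] {X : Type} [AddCommGroup X] [Module (ZMod 2) X] (f : Tc E₁ E₂ α →ₗ[ZMod 2] X)
    (S : Submodule (ZMod 2) X) (h : ∀ (g : K) (x : Tc E₁ E₂ α), f (sg ρ₁ ρ₂ α g x) - f x ∈ S)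
    {z : Tc E₁ E₂ α} (hz : z ∈ Id ρ₁ ρ₂ α) : f z ∈ S := by
  refine Submodule.span_induction (p := fun z _ => f z ∈ S) ?_ (by rw [map_zero]; exact zero_mem _)
    (fun x y _ _ hx hy => by rw [map_add]; exact add_mem hx hy) (fun c x _ hx => by rw [map_smul]; exact S.smul_mem c hx) hz
  rintro _ ⟨g, x, rfl⟩
  rw [map_sub]
  exact h g x

lemma Iv_le_Id {α : Type} [MulAction K α] (N : Subgroup K) : Iv ρ₁ ρ₂ α N ≤ Id ρ₁ ρ₂ α :=
  Submodule.span_mono fun _ ⟨g, _, x, _, e⟩ => ⟨g, x, e⟩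

/-- boundaries and differences -/
noncomputable def Bd : Submodule (ZMod 2) (Tc E₁ E₂ (K × K)) :=
  LinearMap.range ((d₁ K).rTensor (E₁ ⊗[ZMod 2] E₂)) ⊔ Id ρ₁ ρ₂ (K × K)

lemma Bv_le_Bd (N : Subgroup K) : Bv ρ₁ ρ₂ (d₁ K) N ≤ Bd ρ₁ ρ₂ :=
  sup_le_sup (fun _ ⟨x, _, h⟩ => ⟨x, h⟩) (Iv_le_Id ρ₁ ρ₂ N)

lemma Bd.Lx (s : E₁) {z : Tc E₁ E₂ (K × K)} (hz : z ∈ Bd ρ₁ ρ₂) : Bar.Lx (K × K) s z ∈ Bd ρ₁ ρ₂ := by
  obtain ⟨_, ⟨b, rfl⟩, c, hc, rfl⟩ := Submodule.mem_sup.1 hz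
  rw [map_add, ← Lx_d]
  refine add_mem (Submodule.mem_sup_left ⟨_, rfl⟩) (Submodule.mem_sup_right ?_)
  refine Id.map ρ₁ ρ₂ _ _ (fun g x => ?_) hc
  rw [Lx_sg]
  exact Id.mk ρ₁ ρ₂ g _

lemma Bd.Rx (s : E₂) {z : Tc E₁ E₂ (K × K)} (hz : z ∈ Bd ρ₁ ρ₂) : Bar.Rx (K × K) s z ∈ Bd ρ₁ ρ₂ := by
  obtain ⟨_, ⟨b, rfl⟩, c, hc, rfl⟩ := Submodule.mem_sup.1 hz
  rw [map_add, ← Rx_d]
  refine add_mem (Submodule.mem_sup_left ⟨_, rfl⟩) (Submodule.mem_sup_right ?_)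
  refine Id.map ρ₁ ρ₂ _ _ (fun g x => ?_) hc
  rw [Rx_sg]
  exact Id.mk ρ₁ ρ₂ g _

lemma T1x_sg {α : Type} [MulAction K α] (f : E₁ →ₗ[ZMod 2] E₁)
    (hf : ∀ (g : K) y, f (y * ((ρ₁ g : E₁ˣ) : E₁)) = f y * ((ρ₁ g : E₁ˣ) : E₁)) (g : K) (z : Tc E₁ E₂ α) :
    T1x α f (sg ρ₁ ρ₂ α g z) = sg ρ₁ ρ₂ α g (T1x α f z) :=
  ext3 (T1x α f ∘ₗ sg ρ₁ ρ₂ α g) (sg ρ₁ ρ₂ α g ∘ₗ T1x α f) (fun p x y => by
    rw [LinearMap.comp_apply, LinearMap.comp_apply, sg_tmul, T1x_tmul, T1x_tmul, sg_tmul, hf]) z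

lemma T2x_sg {α : Type} [MulAction K α] (f : E₂ →ₗ[ZMod 2] E₂)
    (hf : ∀ (g : K) y, f (((ρ₂ g : E₂ˣ) : E₂) * y) = ((ρ₂ g : E₂ˣ) : E₂) * f y) (g : K) (z : Tc E₁ E₂ α) :
    T2x α f (sg ρ₁ ρ₂ α g z) = sg ρ₁ ρ₂ α g (T2x α f z) :=
  ext3 (T2x α f ∘ₗ sg ρ₁ ρ₂ α g) (sg ρ₁ ρ₂ α g ∘ₗ T2x α f) (fun p x y => by
    rw [LinearMap.comp_apply, LinearMap.comp_apply, sg_tmul, T2x_tmul, T2x_tmul, sg_tmul, hf]) z

/-- **`H₁(K; E₁ ⊗ E₂) = 0`** -/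
theorem h1_zero (hL : T5.Loc ρ₁ ρ₂) (c : Tc E₁ E₂ (K × K))
    (hc : (d₀ K).rTensor (E₁ ⊗[ZMod 2] E₂) c ∈ Id ρ₁ ρ₂ K) : c ∈ Bd ρ₁ ρ₂ := by
  obtain ⟨ι, b, co, -, hco1, hco2, hco3⟩ := HH.Two.exists_coord (cl ρ₂ (⊤ : Subgroup K)) ⊤ le_top
  obtain ⟨ι', b', co', hco1', hco2', hco3'⟩ := exists_coordR ρ₁
  obtain ⟨s, hs⟩ := T2x_sum hco3 (Ch.mono (fun _ h => h) (fun _ _ => trivial) (Ch.univ (K × K) c))
  rw [hs s (Finset.Subset.refl s)]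
  refine sum_mem fun j _ => Bd.Rx ρ₁ ρ₂ (b j) ?_
  obtain ⟨s', hs'⟩ := T1x_sum hco3' (T2x (K × K) ((co j).toZModLinearMap 2) c)
  rw [hs' s' (Finset.Subset.refl s')]
  refine sum_mem fun i _ => Bd.Lx ρ₁ ρ₂ (b' i) ?_
  have hmem : ∀ {α : Type} (z : Tc E₁ E₂ α), T1x α ((co' i).toZModLinearMap 2) (T2x α ((co j).toZModLinearMap 2) z) ∈
      Ch α (cl ρ₁ (⊤ : Subgroup K) : Set E₁) (cl ρ₂ (⊤ : Subgroup K) : Set E₂) := by
    intro α z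
    refine Ch.map (T1x α ((co' i).toZModLinearMap 2) ∘ₗ T2x α ((co j).toZModLinearMap 2)) _ (fun p x _ y _ => ?_)
      (Ch.univ α z)
    rw [LinearMap.comp_apply, T2x_tmul, T1x_tmul]
    exact Ch.mk _ (hco1' i x) (hco1 j y)
  refine Bv_le_Bd ρ₁ ρ₂ ⊤ (Va_cl ρ₁ ρ₂ hL _ (hmem c) ?_)
  rw [T1x_d, T2x_d]
  refine Id.map ρ₁ ρ₂ (T1x K ((co' i).toZModLinearMap 2) ∘ₗ T2x K ((co j).toZModLinearMap 2)) _ (fun g x => ?_) hc
  rw [LinearMap.comp_apply, LinearMap.comp_apply, T2x_sg ρ₁ ρ₂ _ (fun g y => hco2 j _ (T3.mem_cl ρ₂ trivial) y),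
    T1x_sg ρ₁ ρ₂ _ (fun g y => hco2' i _ (T3.mem_cl ρ₁ trivial) y)]
  exact Iv.mk ρ₁ ρ₂ (Subgroup.mem_top g) (hmem x)

end fields

end SQ.U.Bar
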