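import Pool.Agent.SQ.T3.Lev

/-!
# SQ/U: uniqueness of the 2-local rings over a group (abstract part)

Page: team-store MP_984acc_HUGHES_h76.md, (1), (2), (5).

`R₁`, `R₂` are rings in which every element is a unit or divisible by 2, with homomorphisms `l₁`, `l₂` of the group `K` into the
units; `Iv l₁ l₂` is the additive subgroup of `R₁ ⊗ R₂` spanned by the differences `x g ⊗ y - x ⊗ g y`.  If `1 ⊗ 1` is not zero
modulo `Iv l₁ l₂` and 2, and if the quotient by `Iv l₁ l₂` has no 2-torsion, then the subrings generated by the group, inverses of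
units and halving are isomorphic; the residue field of such a ring is the division closure of the group.
-/

set_option autoImplicit false

open scoped TensorProduct

noncomputable section

namespace SQ.U

section gen
variable {K : Type} [Group K] {R : Type} [Ring R]

/-- a subring which is closed under the inverses of the units and under halving -/
structure Closed2 (S : Subring R) : Prop where
  inv : ∀ u : Rˣ, (u : R) ∈ S → ((u⁻¹ : Rˣ) : R) ∈ S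
  hlf : ∀ y : R, 2 * y ∈ S → y ∈ S

/-- the subring generated by the units `l g`, `g ∈ N`, the inverses of units and halving -/
def gen (l : K →* Rˣ) (N : Subgroup K) : Subring R :=
  sInf {S : Subring R | (∀ g ∈ N, ((l g : Rˣ) : R) ∈ S) ∧ Closed2 S}

theorem mem_gen (l : K →* Rˣ) {N : Subgroup K} {g : K} (hg : g ∈ N) : ((l g : Rˣ) : R) ∈ gen l N :=
  Subring.mem_sInf.2 fun _ hS => hS.1 g hg

theorem gen_closed (l : K →* Rˣ) (N : Subgroup K) : Closed2 (gen l N) where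
  inv u hu := Subring.mem_sInf.2 fun S hS => hS.2.inv u (Subring.mem_sInf.1 hu S hS)
  hlf y hy := Subring.mem_sInf.2 fun S hS => hS.2.hlf y (Subring.mem_sInf.1 hy S hS)

theorem gen_le (l : K →* Rˣ) {N : Subgroup K} {S : Subring R} (h : ∀ g ∈ N, ((l g : Rˣ) : R) ∈ S) (hS : Closed2 S) :
    gen l N ≤ S := sInf_le ⟨h, hS⟩

theorem gen_mono (l : K →* Rˣ) {N N' : Subgroup K} (h : N ≤ N') : gen l N ≤ gen l N' :=
  gen_le l (fun _ hg => mem_gen l (h hg)) (gen_closed l N')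

end gen

section tensor
variable {K : Type} [Group K] {R₁ R₂ : Type} [Ring R₁] [Ring R₂] (l₁ : K →* R₁ˣ) (l₂ : K →* R₂ˣ)

/-- the differences -/
def Iv : AddSubgroup (R₁ ⊗[ℤ] R₂) :=
  AddSubgroup.closure {z | ∃ (x : R₁) (g : K) (y : R₂),
    z = (x * ((l₁ g : R₁ˣ) : R₁)) ⊗ₜ[ℤ] y - x ⊗ₜ[ℤ] (((l₂ g : R₂ˣ) : R₂) * y)}

variable {l₁ l₂}

theorem diff_mem (x : R₁) (g : K) (y : R₂) :
    (x * ((l₁ g : R₁ˣ) : R₁)) ⊗ₜ[ℤ] y - x ⊗ₜ[ℤ] (((l₂ g : R₂ˣ) : R₂) * y) ∈ Iv l₁ l₂ :=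
  AddSubgroup.subset_closure ⟨x, g, y, rfl⟩

/-- multiplication from the left -/
def mL (a : R₁) : R₁ ⊗[ℤ] R₂ →ₗ[ℤ] R₁ ⊗[ℤ] R₂ := LinearMap.rTensor R₂ (LinearMap.mulLeft ℤ a)

/-- multiplication from the right -/
def mR (b : R₂) : R₁ ⊗[ℤ] R₂ →ₗ[ℤ] R₁ ⊗[ℤ] R₂ := LinearMap.lTensor R₁ (LinearMap.mulRight ℤ b)

@[simp] theorem mL_tmul (a x : R₁) (y : R₂) : mL a (x ⊗ₜ[ℤ] y) = (a * x) ⊗ₜ[ℤ] y := rfl

@[simp] theorem mR_tmul (b : R₂) (x : R₁) (y : R₂) : mR b (x ⊗ₜ[ℤ] y) = x ⊗ₜ[ℤ] (y * b) := rfl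

theorem mL_mem (a : R₁) {z : R₁ ⊗[ℤ] R₂} (hz : z ∈ Iv l₁ l₂) : mL a z ∈ Iv l₁ l₂ := by
  induction hz using AddSubgroup.closure_induction with
  | mem z h =>
    obtain ⟨x, g, y, rfl⟩ := h
    rw [map_sub, mL_tmul, mL_tmul, ← mul_assoc]
    exact diff_mem _ _ _
  | zero => rw [map_zero]; exact zero_mem _
  | add a b _ _ ha hb => rw [map_add]; exact add_mem ha hb
  | neg a _ ha => rw [map_neg]; exact neg_mem ha

theorem mR_mem (b : R₂) {z : R₁ ⊗[ℤ] R₂} (hz : z ∈ Iv l₁ l₂) : mR b z ∈ Iv l₁ l₂ := by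
  induction hz using AddSubgroup.closure_induction with
  | mem z h =>
    obtain ⟨x, g, y, rfl⟩ := h
    rw [map_sub, mR_tmul, mR_tmul, mul_assoc]
    exact diff_mem _ _ _
  | zero => rw [map_zero]; exact zero_mem _
  | add a b _ _ ha hb => rw [map_add]; exact add_mem ha hb
  | neg a _ ha => rw [map_neg]; exact neg_mem ha

variable (l₁ l₂) in
/-- the elements `x` and `y` agree: `x ⊗ 1 = 1 ⊗ y` -/
def Agr (x : R₁) (y : R₂) : Prop := x ⊗ₜ[ℤ] (1 : R₂) - (1 : R₁) ⊗ₜ[ℤ] y ∈ Iv l₁ l₂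

theorem Agr.grp (g : K) : Agr l₁ l₂ ((l₁ g : R₁ˣ) : R₁) ((l₂ g : R₂ˣ) : R₂) := by
  have h := diff_mem (l₁ := l₁) (l₂ := l₂) 1 g 1
  rwa [one_mul, mul_one] at h

theorem Agr.one : Agr l₁ l₂ (1 : R₁) (1 : R₂) := by
  rw [Agr, sub_self]
  exact zero_mem _

theorem Agr.zero : Agr l₁ l₂ (0 : R₁) (0 : R₂) := by
  rw [Agr, TensorProduct.zero_tmul, TensorProduct.tmul_zero, sub_self]
  exact zero_mem _

theorem Agr.add {x x' : R₁} {y y' : R₂} (h : Agr l₁ l₂ x y) (h' : Agr l₁ l₂ x' y') : Agr l₁ l₂ (x + x') (y + y') := by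
  have e : (x + x') ⊗ₜ[ℤ] (1 : R₂) - (1 : R₁) ⊗ₜ[ℤ] (y + y') =
      (x ⊗ₜ[ℤ] (1 : R₂) - (1 : R₁) ⊗ₜ[ℤ] y) + (x' ⊗ₜ[ℤ] (1 : R₂) - (1 : R₁) ⊗ₜ[ℤ] y') := by
    rw [TensorProduct.add_tmul, TensorProduct.tmul_add]
    abel
  rw [Agr, e]
  exact add_mem h h'

theorem Agr.neg {x : R₁} {y : R₂} (h : Agr l₁ l₂ x y) : Agr l₁ l₂ (-x) (-y) := by
  have e : (-x) ⊗ₜ[ℤ] (1 : R₂) - (1 : R₁) ⊗ₜ[ℤ] (-y) = -(x ⊗ₜ[ℤ] (1 : R₂) - (1 : R₁) ⊗ₜ[ℤ] y) := by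
    rw [TensorProduct.neg_tmul, TensorProduct.tmul_neg]
    abel
  rw [Agr, e]
  exact neg_mem h

theorem Agr.mul {x x' : R₁} {y y' : R₂} (h : Agr l₁ l₂ x y) (h' : Agr l₁ l₂ x' y') : Agr l₁ l₂ (x * x') (y * y') := by
  have e : (x * x') ⊗ₜ[ℤ] (1 : R₂) - (1 : R₁) ⊗ₜ[ℤ] (y * y') =
      mL x (x' ⊗ₜ[ℤ] (1 : R₂) - (1 : R₁) ⊗ₜ[ℤ] y') + mR y' (x ⊗ₜ[ℤ] (1 : R₂) - (1 : R₁) ⊗ₜ[ℤ] y) := by
    rw [map_sub, map_sub, mL_tmul, mL_tmul, mR_tmul, mR_tmul, mul_one, one_mul]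
    abel
  rw [Agr, e]
  exact add_mem (mL_mem x h') (mR_mem y' h)

/-- the inverses of units -/
theorem Agr.inv (u : R₁ˣ) (v : R₂ˣ) (h : Agr l₁ l₂ (u : R₁) (v : R₂)) :
    Agr l₁ l₂ ((u⁻¹ : R₁ˣ) : R₁) ((v⁻¹ : R₂ˣ) : R₂) := by
  have h1 := mR_mem ((v⁻¹ : R₂ˣ) : R₂) (mL_mem ((u⁻¹ : R₁ˣ) : R₁) h)
  rw [map_sub, map_sub, mL_tmul, mL_tmul, mR_tmul, mR_tmul, Units.inv_mul, one_mul, mul_one, Units.mul_inv] at h1
  have h2 := neg_mem h1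
  rwa [neg_sub] at h2

/-- `1 ⊗ 1` is not zero modulo 2 and the differences -/
def NZ (l₁ : K →* R₁ˣ) (l₂ : K →* R₂ˣ) : Prop :=
  ∀ w : R₁ ⊗[ℤ] R₂, (1 : R₁) ⊗ₜ[ℤ] (1 : R₂) - 2 • w ∉ Iv l₁ l₂

/-- no 2-torsion modulo the differences -/
def TF (l₁ : K →* R₁ˣ) (l₂ : K →* R₂ˣ) : Prop :=
  ∀ w : R₁ ⊗[ℤ] R₂, 2 • w ∈ Iv l₁ l₂ → w ∈ Iv l₁ l₂

theorem Agr.halve (tf : TF l₁ l₂) {x : R₁} {y : R₂} (h : Agr l₁ l₂ (2 * x) (2 * y)) : Agr l₁ l₂ x y := by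
  apply tf
  have e : (2 : ℕ) • (x ⊗ₜ[ℤ] (1 : R₂) - (1 : R₁) ⊗ₜ[ℤ] y) = (2 * x) ⊗ₜ[ℤ] (1 : R₂) - (1 : R₁) ⊗ₜ[ℤ] (2 * y) := by
    rw [two_mul, two_mul, TensorProduct.add_tmul, TensorProduct.tmul_add, two_nsmul]
    abel
  rw [e]
  exact h

theorem not_unit_double (nz : NZ l₁ l₂) (u : R₁ˣ) (y : R₂) : ¬ Agr l₁ l₂ (u : R₁) (2 * y) := by
  intro h
  apply nz (((u⁻¹ : R₁ˣ) : R₁) ⊗ₜ[ℤ] y)
  have h1 := mL_mem ((u⁻¹ : R₁ˣ) : R₁) h
  rw [map_sub, mL_tmul, mL_tmul, Units.inv_mul, mul_one, two_mul, TensorProduct.tmul_add, ← two_nsmul] at h1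
  exact h1

theorem not_double_unit (nz : NZ l₁ l₂) (x : R₁) (v : R₂ˣ) : ¬ Agr l₁ l₂ (2 * x) (v : R₂) := by
  intro h
  apply nz (x ⊗ₜ[ℤ] ((v⁻¹ : R₂ˣ) : R₂))
  have h1 := mR_mem ((v⁻¹ : R₂ˣ) : R₂) h
  rw [map_sub, mR_tmul, mR_tmul, Units.mul_inv, one_mul, two_mul, TensorProduct.add_tmul, ← two_nsmul] at h1
  have h2 := neg_mem h1
  rwa [neg_sub] at h2

/-- the half of the partner -/
theorem exists_half (half₂ : ∀ x : R₂, IsUnit x ∨ ∃ y, x = 2 * y) (nz : NZ l₁ l₂) (tf : TF l₁ l₂) {x : R₁} {y : R₂}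
    (h : Agr l₁ l₂ (2 * x) y) : ∃ y', y = 2 * y' ∧ Agr l₁ l₂ x y' := by
  rcases half₂ y with ⟨v, rfl⟩ | ⟨y', rfl⟩
  · exact absurd h (not_double_unit nz x v)
  · exact ⟨y', rfl, h.halve tf⟩

theorem exists_half' (half₁ : ∀ x : R₁, IsUnit x ∨ ∃ y, x = 2 * y) (nz : NZ l₁ l₂) (tf : TF l₁ l₂) {x : R₁} {y : R₂}
    (h : Agr l₁ l₂ x (2 * y)) : ∃ x', x = 2 * x' ∧ Agr l₁ l₂ x' y := by
  rcases half₁ x with ⟨v, rfl⟩ | ⟨x', rfl⟩
  · exact absurd h (not_unit_double nz v y)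
  · exact ⟨x', rfl, h.halve tf⟩

/-- the partner of a unit is a unit -/
theorem exists_inv (half₂ : ∀ x : R₂, IsUnit x ∨ ∃ y, x = 2 * y) (nz : NZ l₁ l₂) (u : R₁ˣ) {y : R₂}
    (h : Agr l₁ l₂ (u : R₁) y) : ∃ v : R₂ˣ, y = v ∧ Agr l₁ l₂ ((u⁻¹ : R₁ˣ) : R₁) ((v⁻¹ : R₂ˣ) : R₂) := by
  rcases half₂ y with ⟨v, rfl⟩ | ⟨y', rfl⟩
  · exact ⟨v, rfl, Agr.inv u v h⟩
  · exact absurd h (not_unit_double nz u y')

theorem exists_inv' (half₁ : ∀ x : R₁, IsUnit x ∨ ∃ y, x = 2 * y) (nz : NZ l₁ l₂) (v : R₂ˣ) {x : R₁}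
    (h : Agr l₁ l₂ x (v : R₂)) : ∃ u : R₁ˣ, x = u ∧ Agr l₁ l₂ ((u⁻¹ : R₁ˣ) : R₁) ((v⁻¹ : R₂ˣ) : R₂) := by
  rcases half₁ x with ⟨u, rfl⟩ | ⟨x', rfl⟩
  · exact ⟨u, rfl, Agr.inv u v h⟩
  · exact absurd h (not_double_unit nz x' v)

/-- the partner is unique -/
theorem unique₂ (half₂ : ∀ x : R₂, IsUnit x ∨ ∃ y, x = 2 * y) (sep₂ : ∀ x : R₂, (∀ k : ℕ, ∃ y, x = 2 ^ k * y) → x = 0)
    (nz : NZ l₁ l₂) (tf : TF l₁ l₂) {y : R₂} (h : Agr l₁ l₂ 0 y) : y = 0 := by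
  apply sep₂
  intro k
  have main : ∀ k : ℕ, ∃ y', y = 2 ^ k * y' ∧ Agr l₁ l₂ 0 y' := by
    intro k
    induction k with
    | zero => exact ⟨y, by rw [pow_zero, one_mul], h⟩
    | succ k ih =>
      obtain ⟨y', hy, h'⟩ := ih
      obtain ⟨y₂, hy₂, h₂⟩ := exists_half half₂ nz tf (x := 0) (y := y') (by rwa [mul_zero])
      exact ⟨y₂, by rw [hy, hy₂, pow_succ, mul_assoc], h₂⟩
  obtain ⟨y', hy, _⟩ := main k
  exact ⟨y', hy⟩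

theorem unique₁ (half₁ : ∀ x : R₁, IsUnit x ∨ ∃ y, x = 2 * y) (sep₁ : ∀ x : R₁, (∀ k : ℕ, ∃ y, x = 2 ^ k * y) → x = 0)
    (nz : NZ l₁ l₂) (tf : TF l₁ l₂) {x : R₁} (h : Agr l₁ l₂ x 0) : x = 0 := by
  apply sep₁
  intro k
  have main : ∀ k : ℕ, ∃ x', x = 2 ^ k * x' ∧ Agr l₁ l₂ x' 0 := by
    intro k
    induction k with
    | zero => exact ⟨x, by rw [pow_zero, one_mul], h⟩
    | succ k ih =>
      obtain ⟨x', hx, h'⟩ := ih
      obtain ⟨x₂, hx₂, h₂⟩ := exists_half' half₁ nz tf (x := x') (y := 0) (by rwa [mul_zero])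
      exact ⟨x₂, by rw [hx, hx₂, pow_succ, mul_assoc], h₂⟩
  obtain ⟨x', hx, _⟩ := main k
  exact ⟨x', hx⟩

/-- the elements with a partner -/
def A₁ (l₁ : K →* R₁ˣ) (l₂ : K →* R₂ˣ) : Subring R₁ where
  carrier := {x | ∃ y : R₂, Agr l₁ l₂ x y}
  mul_mem' := fun ⟨_, h⟩ ⟨_, h'⟩ => ⟨_, h.mul h'⟩
  one_mem' := ⟨1, Agr.one⟩
  add_mem' := fun ⟨_, h⟩ ⟨_, h'⟩ => ⟨_, h.add h'⟩
  zero_mem' := ⟨0, Agr.zero⟩
  neg_mem' := fun ⟨_, h⟩ => ⟨_, h.neg⟩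

/-- the partners -/
def A₂ (l₁ : K →* R₁ˣ) (l₂ : K →* R₂ˣ) : Subring R₂ where
  carrier := {y | ∃ x : R₁, Agr l₁ l₂ x y}
  mul_mem' := fun ⟨_, h⟩ ⟨_, h'⟩ => ⟨_, h.mul h'⟩
  one_mem' := ⟨1, Agr.one⟩
  add_mem' := fun ⟨_, h⟩ ⟨_, h'⟩ => ⟨_, h.add h'⟩
  zero_mem' := ⟨0, Agr.zero⟩
  neg_mem' := fun ⟨_, h⟩ => ⟨_, h.neg⟩

theorem exists_partner (half₂ : ∀ x : R₂, IsUnit x ∨ ∃ y, x = 2 * y) (nz : NZ l₁ l₂) (tf : TF l₁ l₂)
    {x : R₁} (hx : x ∈ gen l₁ (⊤ : Subgroup K)) : ∃ y : R₂, Agr l₁ l₂ x y := by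
  have h : gen l₁ (⊤ : Subgroup K) ≤ A₁ l₁ l₂ := by
    refine gen_le l₁ (fun g _ => ⟨_, Agr.grp g⟩) ⟨?_, ?_⟩
    · rintro u ⟨y, hy⟩
      obtain ⟨v, -, hv⟩ := exists_inv half₂ nz u hy
      exact ⟨_, hv⟩
    · rintro x ⟨y, hy⟩
      obtain ⟨y', -, hy'⟩ := exists_half half₂ nz tf hy
      exact ⟨y', hy'⟩
  exact h hx

theorem exists_partner' (half₁ : ∀ x : R₁, IsUnit x ∨ ∃ y, x = 2 * y) (nz : NZ l₁ l₂) (tf : TF l₁ l₂)
    {y : R₂} (hy : y ∈ gen l₂ (⊤ : Subgroup K)) : ∃ x : R₁, Agr l₁ l₂ x y := by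
  have h : gen l₂ (⊤ : Subgroup K) ≤ A₂ l₁ l₂ := by
    refine gen_le l₂ (fun g _ => ⟨_, Agr.grp g⟩) ⟨?_, ?_⟩
    · rintro v ⟨x, hx⟩
      obtain ⟨u, -, hu⟩ := exists_inv' half₁ nz v hx
      exact ⟨_, hu⟩
    · rintro y ⟨x, hx⟩
      obtain ⟨x', -, hx'⟩ := exists_half' half₁ nz tf hx
      exact ⟨x', hx'⟩
  exact h hy

/-- **Theorem U**: the rings are isomorphic over the group -/
theorem theoremU (half₁ : ∀ x : R₁, IsUnit x ∨ ∃ y, x = 2 * y) (sep₁ : ∀ x : R₁, (∀ k : ℕ, ∃ y, x = 2 ^ k * y) → x = 0)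
    (half₂ : ∀ x : R₂, IsUnit x ∨ ∃ y, x = 2 * y) (sep₂ : ∀ x : R₂, (∀ k : ℕ, ∃ y, x = 2 ^ k * y) → x = 0)
    (nz : NZ l₁ l₂) (tf : TF l₁ l₂) (g₁ : gen l₁ ⊤ = ⊤) (g₂ : gen l₂ ⊤ = ⊤) :
    ∃ f : R₁ ≃+* R₂, (∀ x, Agr l₁ l₂ x (f x)) ∧ ∀ g : K, f ((l₁ g : R₁ˣ) : R₁) = ((l₂ g : R₂ˣ) : R₂) := by
  have ex : ∀ x : R₁, ∃ y : R₂, Agr l₁ l₂ x y := fun x => exists_partner half₂ nz tf (g₁ ▸ Subring.mem_top x)
  have ex' : ∀ y : R₂, ∃ x : R₁, Agr l₁ l₂ x y := fun y => exists_partner' half₁ nz tf (g₂ ▸ Subring.mem_top y)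
  have un : ∀ {x : R₁} {y y' : R₂}, Agr l₁ l₂ x y → Agr l₁ l₂ x y' → y = y' := by
    intro x y y' h h'
    have h1 := h.add h'.neg
    rw [add_neg_cancel] at h1
    have h2 := unique₂ half₂ sep₂ nz tf h1
    rwa [← sub_eq_add_neg, sub_eq_zero] at h2
  have un' : ∀ {x x' : R₁} {y : R₂}, Agr l₁ l₂ x y → Agr l₁ l₂ x' y → x = x' := by
    intro x x' y h h'
    have h1 := h.add h'.neg
    rw [add_neg_cancel] at h1
    have h2 := unique₁ half₁ sep₁ nz tf h1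
    rwa [← sub_eq_add_neg, sub_eq_zero] at h2
  choose f hf using ex
  choose k hk using ex'
  refine ⟨{ toFun := f, invFun := k, left_inv := fun x => un' (hk (f x)) (hf x), right_inv := fun y => un (hf (k y)) (hk y),
            map_mul' := fun a b => un (hf (a * b)) ((hf a).mul (hf b)),
            map_add' := fun a b => un (hf (a + b)) ((hf a).add (hf b)) }, fun x => hf x, fun g => un (hf _) (Agr.grp g)⟩

end tensor

section residue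
variable {K : Type} [Group K] {R D : Type} [Ring R] [DivisionRing D] {l : K →* Rˣ} (π : R →+* D)

/-- in a generated ring all elements agree with themselves -/
theorem agr_self (tf : TF l l) (g : gen l ⊤ = ⊤) (x : R) : Agr l l x x := by
  let A : Subring R :=
    { carrier := {x | Agr l l x x}
      mul_mem' := fun h h' => Agr.mul h h'
      one_mem' := Agr.one
      add_mem' := fun h h' => Agr.add h h'
      zero_mem' := Agr.zero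
      neg_mem' := fun h => Agr.neg h }
  have h : gen l ⊤ ≤ A := gen_le l (fun g _ => Agr.grp g) ⟨fun u hu => Agr.inv u u hu, fun y hy => Agr.halve tf hy⟩
  exact h (g ▸ Subring.mem_top x)

/-- the residue field of a generated ring is the division closure of the group -/
theorem res_mem_cl (tf : TF l l) (g : gen l ⊤ = ⊤) (x : R) :
    π x ∈ T3.cl ((Units.map (π : R →* D)).comp l) ⊤ := by
  classical
  set F : Subfield D := T3.cl ((Units.map (π : R →* D)).comp l) ⊤ with hF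
  by_contra hx
  -- a left linear functional which kills 1 but not `π x`
  have h1 : π x ∉ Submodule.span F {(1 : D)} := by
    intro h
    obtain ⟨a, ha⟩ := Submodule.mem_span_singleton.1 h
    apply hx
    rw [← ha]
    have : a • (1 : D) = (a : D) := by
      rw [Subfield.smul_def, smul_eq_mul, mul_one]
    rw [this]
    exact a.2
  obtain ⟨φ, hφ, hφ1⟩ := Submodule.exists_le_ker_of_notMem h1
  have hφ2 : φ 1 = 0 := hφ1 (Submodule.mem_span_singleton_self 1)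
  -- the functional on the tensor product
  let Φ : R ⊗[ℤ] R →ₗ[ℤ] D := TensorProduct.lift
    (LinearMap.mk₂ ℤ (fun a b : R => π a * ((φ (π b) : F) : D))
      (fun a a' b => by rw [map_add, add_mul])
      (fun c a b => by rw [map_zsmul, smul_mul_assoc])
      (fun a b b' => by rw [map_add, map_add, Subfield.coe_add, mul_add])
      (fun c a b => by
        rw [map_zsmul, map_zsmul, zsmul_eq_mul, zsmul_eq_mul]
        push_cast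
        rw [← mul_assoc, (Int.cast_commute c (π a)).symm.eq, mul_assoc]))
  have hΦ : ∀ a b : R, Φ (a ⊗ₜ[ℤ] b) = π a * ((φ (π b) : F) : D) := fun a b => rfl
  have hker : ∀ z ∈ Iv l l, Φ z = 0 := by
    intro z hz
    induction hz using AddSubgroup.closure_induction with
    | mem z h =>
      obtain ⟨a, g, b, rfl⟩ := h
      have hg : π ((l g : Rˣ) : R) ∈ F := by
        rw [hF]
        exact T3.mem_cl ((Units.map (π : R →* D)).comp l) (N := ⊤) (g := g) trivial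
      have e : φ (π ((l g : Rˣ) : R) * π b) = (⟨_, hg⟩ : F) * φ (π b) := by
        rw [← smul_eq_mul (⟨_, hg⟩ : F), ← map_smul]
        rfl
      rw [map_sub, hΦ, hΦ, map_mul, map_mul, e, Subfield.coe_mul, mul_assoc, sub_self]
    | zero => rw [map_zero]
    | add a b _ _ ha hb => rw [map_add, ha, hb, add_zero]
    | neg a _ ha => rw [map_neg, ha, neg_zero]
  have h3 := hker _ (agr_self tf g x)
  rw [map_sub, hΦ, hΦ, map_one, hφ2, Subfield.coe_zero, mul_zero, one_mul, zero_sub, neg_eq_zero] at h3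
  exact hφ (Subtype.ext h3)

end residue

end SQ.U
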