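import Pool.Agent.SQ.U.BarG
import Pool.Agent.SQ.U.Hughes

/-!
# SQ/U: no 2-torsion in `R₁ ⊗ R₂` over the group ring

Page: team-store MP_984acc_HUGHES_h76.md, (3), in the form: the functional `Ψ` on the edges of the bar complex with values in the
differences modulo 2.
-/

set_option autoImplicit false
set_option linter.unusedSectionVars false

open scoped TensorProduct

noncomputable section

namespace SQ.U.Bar

open SQ.T3 SQ.T3.Tor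

section desc
variable {R₁ R₂ D₁ D₂ : Type} [Ring R₁] [Ring R₂] [DivisionRing D₁] [DivisionRing D₂] [Algebra (ZMod 2) D₁]
  [Algebra (ZMod 2) D₂] (r₁ : R₁ →+* D₁) (r₂ : R₂ →+* D₂)

/-- the reduction of the tensor product -/
def kap : R₁ ⊗[ℤ] R₂ →+ D₁ ⊗[ZMod 2] D₂ :=
  TensorProduct.liftAddHom
    { toFun := fun x =>
        { toFun := fun y => r₁ x ⊗ₜ[ZMod 2] r₂ y
          map_zero' := by rw [map_zero, TensorProduct.tmul_zero]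
          map_add' := fun y y' => by rw [map_add, TensorProduct.tmul_add] }
      map_zero' := by
        ext y
        show r₁ 0 ⊗ₜ[ZMod 2] r₂ y = 0
        rw [map_zero, TensorProduct.zero_tmul]
      map_add' := fun x x' => by
        ext y
        show r₁ (x + x') ⊗ₜ[ZMod 2] r₂ y = r₁ x ⊗ₜ[ZMod 2] r₂ y + r₁ x' ⊗ₜ[ZMod 2] r₂ y
        rw [map_add, TensorProduct.add_tmul] }
    (fun n x y => by
      show r₁ (n • x) ⊗ₜ[ZMod 2] r₂ y = r₁ x ⊗ₜ[ZMod 2] r₂ (n • y)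
      rw [map_zsmul, map_zsmul, ← Int.cast_smul_eq_zsmul (ZMod 2) n (r₁ x), ← Int.cast_smul_eq_zsmul (ZMod 2) n (r₂ y),
        TensorProduct.smul_tmul])

theorem kap_tmul (x : R₁) (y : R₂) : kap r₁ r₂ (x ⊗ₜ[ℤ] y) = r₁ x ⊗ₜ[ZMod 2] r₂ y := rfl

variable {r₁ r₂}

/-- descent of additive maps -/
theorem exists_desc (hs₁ : Function.Surjective r₁) (hs₂ : Function.Surjective r₂)
    (hk₁ : ∀ x, r₁ x = 0 → ∃ y, x = 2 * y) (hk₂ : ∀ x, r₂ x = 0 → ∃ y, x = 2 * y) {Y : Type} [AddCommGroup Y]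
    [Module (ZMod 2) Y] (θ : R₁ ⊗[ℤ] R₂ →+ Y) :
    ∃ f : D₁ ⊗[ZMod 2] D₂ →ₗ[ZMod 2] Y, ∀ x y, f (r₁ x ⊗ₜ[ZMod 2] r₂ y) = θ (x ⊗ₜ[ℤ] y) := by
  have key₁ : ∀ x x' y, r₁ x = r₁ x' → θ (x ⊗ₜ[ℤ] y) = θ (x' ⊗ₜ[ℤ] y) := by
    intro x x' y h
    obtain ⟨u, hu⟩ := hk₁ (x - x') (by rw [map_sub, h, sub_self])
    rw [sub_eq_iff_eq_add] at hu
    rw [hu, TensorProduct.add_tmul, two_mul, TensorProduct.add_tmul, map_add, map_add, ZModModule.add_self, zero_add]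
  have key₂ : ∀ x y y', r₂ y = r₂ y' → θ (x ⊗ₜ[ℤ] y) = θ (x ⊗ₜ[ℤ] y') := by
    intro x y y' h
    obtain ⟨u, hu⟩ := hk₂ (y - y') (by rw [map_sub, h, sub_self])
    rw [sub_eq_iff_eq_add] at hu
    rw [hu, TensorProduct.tmul_add, two_mul, TensorProduct.tmul_add, map_add, map_add, ZModModule.add_self, zero_add]
  let s₁ := Function.surjInv hs₁
  let s₂ := Function.surjInv hs₂
  have hs₁' : ∀ a, r₁ (s₁ a) = a := Function.surjInv_eq hs₁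
  have hs₂' : ∀ a, r₂ (s₂ a) = a := Function.surjInv_eq hs₂
  let F : D₁ →+ D₂ →+ Y :=
    { toFun := fun a =>
        { toFun := fun b => θ (s₁ a ⊗ₜ[ℤ] s₂ b)
          map_zero' := by
            rw [key₂ _ _ 0 (by rw [hs₂', map_zero]), TensorProduct.tmul_zero, map_zero]
          map_add' := fun b b' => by
            rw [key₂ _ _ (s₂ b + s₂ b') (by rw [map_add, hs₂', hs₂', hs₂']), TensorProduct.tmul_add, map_add] }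
      map_zero' := by
        ext b
        show θ (s₁ 0 ⊗ₜ[ℤ] s₂ b) = 0
        rw [key₁ _ 0 _ (by rw [hs₁', map_zero]), TensorProduct.zero_tmul, map_zero]
      map_add' := fun a a' => by
        ext b
        show θ (s₁ (a + a') ⊗ₜ[ℤ] s₂ b) = θ (s₁ a ⊗ₜ[ℤ] s₂ b) + θ (s₁ a' ⊗ₜ[ℤ] s₂ b)
        rw [key₁ _ (s₁ a + s₁ a') _ (by rw [map_add, hs₁', hs₁', hs₁']), TensorProduct.add_tmul, map_add] }
  refine ⟨(TensorProduct.liftAddHom F (fun c a b => ?_)).toZModLinearMap 2, fun x y => ?_⟩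
  · fin_cases c
    · show F ((0 : ZMod 2) • a) b = F a ((0 : ZMod 2) • b)
      rw [zero_smul, zero_smul, map_zero, map_zero]
      rfl
    · show F ((1 : ZMod 2) • a) b = F a ((1 : ZMod 2) • b)
      rw [one_smul, one_smul]
  · show θ (s₁ (r₁ x) ⊗ₜ[ℤ] s₂ (r₂ y)) = θ (x ⊗ₜ[ℤ] y)
    rw [key₁ _ x _ (hs₁' _), key₂ _ _ y (hs₂' _)]

end desc

section tf
variable {K : Type} [Group K] {R₁ R₂ D₁ D₂ : Type} [Ring R₁] [Ring R₂] [DivisionRing D₁] [DivisionRing D₂]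
  [Algebra (ZMod 2) D₁] [Algebra (ZMod 2) D₂] {r₁ : R₁ →+* D₁} {r₂ : R₂ →+* D₂} (l₁ : K →* R₁ˣ) (l₂ : K →* R₂ˣ)

/-- the translation of a tensor -/
def tl (g : K) : R₁ ⊗[ℤ] R₂ →+ R₁ ⊗[ℤ] R₂ :=
  (TensorProduct.map (LinearMap.mulRight ℤ ((l₁ g : R₁ˣ) : R₁)) (LinearMap.mulLeft ℤ ((l₂ g⁻¹ : R₂ˣ) : R₂))).toAddMonoidHom

theorem tl_tmul (g : K) (x : R₁) (y : R₂) :
    tl l₁ l₂ g (x ⊗ₜ[ℤ] y) = (x * ((l₁ g : R₁ˣ) : R₁)) ⊗ₜ[ℤ] (((l₂ g⁻¹ : R₂ˣ) : R₂) * y) := rfl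

theorem tl_mem (g : K) (z : R₁ ⊗[ℤ] R₂) : tl l₁ l₂ g z - z ∈ SQ.U.Iv l₁ l₂ := by
  induction z using TensorProduct.induction_on with
  | zero => rw [map_zero, sub_self]; exact zero_mem _
  | add a b ha hb =>
    rw [map_add, add_sub_add_comm]
    exact add_mem ha hb
  | tmul x y =>
    have h1 := diff_mem (l₁ := l₁) (l₂ := l₂) x g (((l₂ g⁻¹ : R₂ˣ) : R₂) * y)
    rwa [← mul_assoc ((l₂ g : R₂ˣ) : R₂), ← Units.val_mul, ← map_mul, mul_inv_cancel, map_one, Units.val_one, one_mul] at h1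

theorem tl_mem' (g h : K) (z : R₁ ⊗[ℤ] R₂) : tl l₁ l₂ h z - tl l₁ l₂ g z ∈ SQ.U.Iv l₁ l₂ := by
  have h1 := sub_mem (tl_mem l₁ l₂ h z) (tl_mem l₁ l₂ g z)
  rwa [sub_sub_sub_cancel_right] at h1

/-- the doubles of the differences -/
def dbl : AddSubgroup (SQ.U.Iv l₁ l₂) := (nsmulAddMonoidHom 2).range

instance : Module (ZMod 2) (SQ.U.Iv l₁ l₂ ⧸ dbl l₁ l₂) := QuotientAddGroup.zmodModule fun x => ⟨x, rfl⟩

/-- the difference of two translations -/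
def dl (g h : K) : R₁ ⊗[ℤ] R₂ →+ SQ.U.Iv l₁ l₂ :=
  (tl l₁ l₂ h - tl l₁ l₂ g).codRestrict _ fun z => tl_mem' l₁ l₂ g h z

theorem dl_val (g h : K) (z : R₁ ⊗[ℤ] R₂) : ((dl l₁ l₂ g h z : SQ.U.Iv l₁ l₂) : R₁ ⊗[ℤ] R₂) = tl l₁ l₂ h z - tl l₁ l₂ g z :=
  rfl

/-- **no 2-torsion** -/
theorem tf_of (hs₁ : Function.Surjective r₁) (hs₂ : Function.Surjective r₂)
    (hk₁ : ∀ x, r₁ x = 0 → ∃ y, x = 2 * y) (hk₂ : ∀ x, r₂ x = 0 → ∃ y, x = 2 * y)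
    (hz : ∀ z : R₁ ⊗[ℤ] R₂, 2 • z = 0 → z = 0)
    (hL : T5.Loc ((Units.map (r₁ : R₁ →* D₁)).comp l₁) ((Units.map (r₂ : R₂ →* D₂)).comp l₂)) : TF l₁ l₂ := by
  set ρ₁ := (Units.map (r₁ : R₁ →* D₁)).comp l₁ with hρ₁
  set ρ₂ := (Units.map (r₂ : R₂ →* D₂)).comp l₂ with hρ₂
  let q : SQ.U.Iv l₁ l₂ →+ SQ.U.Iv l₁ l₂ ⧸ dbl l₁ l₂ := QuotientAddGroup.mk' _
  choose f hf using fun gh : K × K => exists_desc hs₁ hs₂ hk₁ hk₂ (q.comp (dl l₁ l₂ gh.1 gh.2))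
  let Ψ : Tc D₁ D₂ (K × K) →ₗ[ZMod 2] SQ.U.Iv l₁ l₂ ⧸ dbl l₁ l₂ := TensorProduct.lift (lin f)
  have hΨ : ∀ (g h : K) (x : R₁) (y : R₂), Ψ (bs (g, h) ⊗ₜ[ZMod 2] (r₁ x ⊗ₜ[ZMod 2] r₂ y)) = q (dl l₁ l₂ g h (x ⊗ₜ[ℤ] y)) := by
    intro g h x y
    show TensorProduct.lift (lin f) (bs (g, h) ⊗ₜ[ZMod 2] (r₁ x ⊗ₜ[ZMod 2] r₂ y)) = _
    rw [TensorProduct.lift.tmul, lin_bs, hf]
    rfl
  -- generators
  have ind : ∀ {α : Type} {p : Tc D₁ D₂ α → Prop}, p 0 → (∀ x y, p x → p y → p (x + y)) →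
      (∀ a x y, p (bs a ⊗ₜ[ZMod 2] (r₁ x ⊗ₜ[ZMod 2] r₂ y))) → ∀ z, p z := by
    intro α p h0 ha hb z
    refine Ch.ind (p := p) h0 ha (fun a x _ y _ => ?_) (Ch.univ α z)
    obtain ⟨x, rfl⟩ := hs₁ x
    obtain ⟨y, rfl⟩ := hs₂ y
    exact hb a x y
  -- the functional vanishes on boundaries
  have hΨ1 : ∀ z, Ψ ((d₁ K).rTensor (D₁ ⊗[ZMod 2] D₂) z) = 0 := by
    refine ind (by rw [map_zero, map_zero]) (fun x y hx hy => by rw [map_add, map_add, hx, hy, add_zero]) ?_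
    rintro ⟨a, b, c⟩ x y
    rw [LinearMap.rTensor_tmul, d₁, lin_bs, TensorProduct.add_tmul, TensorProduct.add_tmul, map_add, map_add, hΨ, hΨ, hΨ,
      ← map_add, ← map_add]
    have e : dl l₁ l₂ b c (x ⊗ₜ[ℤ] y) + dl l₁ l₂ a c (x ⊗ₜ[ℤ] y) + dl l₁ l₂ a b (x ⊗ₜ[ℤ] y) =
        dl l₁ l₂ a c (x ⊗ₜ[ℤ] y) + dl l₁ l₂ a c (x ⊗ₜ[ℤ] y) := by
      apply Subtype.ext
      simp only [AddSubgroup.coe_add, dl_val]
      abel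
    rw [e, map_add, ZModModule.add_self]
  -- the functional is invariant
  have hΨ2 : ∀ (g : K) z, Ψ (sg ρ₁ ρ₂ (K × K) g z) = Ψ z := by
    intro g
    refine ind (by rw [map_zero, map_zero]) (fun x y hx hy => by rw [map_add, map_add, map_add, hx, hy]) ?_
    rintro ⟨a, b⟩ x y
    have e1 : sg ρ₁ ρ₂ (K × K) g (bs (a, b) ⊗ₜ[ZMod 2] (r₁ x ⊗ₜ[ZMod 2] r₂ y)) =
        bs (g * a, g * b) ⊗ₜ[ZMod 2] (r₁ (x * ((l₁ g⁻¹ : R₁ˣ) : R₁)) ⊗ₜ[ZMod 2] r₂ (((l₂ g : R₂ˣ) : R₂) * y)) := by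
      rw [sg_tmul, tr_bs, map_mul, map_mul]
      rfl
    have e2 : ∀ c : K, tl l₁ l₂ (g * c) ((x * ((l₁ g⁻¹ : R₁ˣ) : R₁)) ⊗ₜ[ℤ] (((l₂ g : R₂ˣ) : R₂) * y)) =
        tl l₁ l₂ c (x ⊗ₜ[ℤ] y) := by
      intro c
      rw [tl_tmul, tl_tmul, mul_assoc, ← Units.val_mul, ← map_mul, inv_mul_cancel_left, ← mul_assoc, ← Units.val_mul,
        ← map_mul, mul_inv_rev, inv_mul_cancel_right]
    rw [e1, hΨ, hΨ]
    congr 1
    apply Subtype.ext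
    rw [dl_val, dl_val, e2, e2]
  have hΨ3 : ∀ z ∈ Bd ρ₁ ρ₂, Ψ z = 0 := by
    intro z hz
    obtain ⟨_, ⟨b, rfl⟩, c, hc, rfl⟩ := Submodule.mem_sup.1 hz
    have h1 : Ψ c ∈ (⊥ : Submodule (ZMod 2) (SQ.U.Iv l₁ l₂ ⧸ dbl l₁ l₂)) :=
      Id.map ρ₁ ρ₂ Ψ ⊥ (fun g x => by rw [hΨ2, sub_self]; exact zero_mem _) hc
    rw [map_add, hΨ1, zero_add]
    exact h1
  -- chains for the differences
  have hch : ∀ z (hzI : z ∈ SQ.U.Iv l₁ l₂), ∃ c : Tc D₁ D₂ (K × K),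
      (d₀ K).rTensor (D₁ ⊗[ZMod 2] D₂) c - bs (1 : K) ⊗ₜ[ZMod 2] kap r₁ r₂ z ∈ Id ρ₁ ρ₂ K ∧ Ψ c = q ⟨z, hzI⟩ := by
    intro z hzI
    induction hzI using AddSubgroup.closure_induction with
    | mem z h =>
      obtain ⟨x, g, y, rfl⟩ := h
      refine ⟨bs ((1 : K), g) ⊗ₜ[ZMod 2] (r₁ x ⊗ₜ[ZMod 2] r₂ (((l₂ g : R₂ˣ) : R₂) * y)), ?_, ?_⟩
      · have e1 : (bs g : Pm K) ⊗ₜ[ZMod 2] (r₁ x ⊗ₜ[ZMod 2] r₂ (((l₂ g : R₂ˣ) : R₂) * y)) =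
            sg ρ₁ ρ₂ K g (bs (1 : K) ⊗ₜ[ZMod 2] (r₁ (x * ((l₁ g : R₁ˣ) : R₁)) ⊗ₜ[ZMod 2] r₂ y)) := by
          have e3 : r₁ (x * ((l₁ g : R₁ˣ) : R₁)) * ((ρ₁ g⁻¹ : D₁ˣ) : D₁) = r₁ x := by
            have e4 : ((ρ₁ g⁻¹ : D₁ˣ) : D₁) = r₁ ((l₁ g⁻¹ : R₁ˣ) : R₁) := rfl
            rw [e4, ← map_mul, mul_assoc, ← Units.val_mul, ← map_mul, mul_inv_cancel, map_one, Units.val_one, mul_one]
          have e5 : g • (1 : K) = g := mul_one g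
          rw [sg_tmul, tr_bs, e3, e5, map_mul]
          rfl
        have e2 : (d₀ K).rTensor (D₁ ⊗[ZMod 2] D₂) (bs ((1 : K), g) ⊗ₜ[ZMod 2]
            (r₁ x ⊗ₜ[ZMod 2] r₂ (((l₂ g : R₂ˣ) : R₂) * y))) - bs (1 : K) ⊗ₜ[ZMod 2] kap r₁ r₂
            ((x * ((l₁ g : R₁ˣ) : R₁)) ⊗ₜ[ℤ] y - x ⊗ₜ[ℤ] (((l₂ g : R₂ˣ) : R₂) * y)) =
            (sg ρ₁ ρ₂ K g (bs (1 : K) ⊗ₜ[ZMod 2] (r₁ (x * ((l₁ g : R₁ˣ) : R₁)) ⊗ₜ[ZMod 2] r₂ y)) -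
            bs (1 : K) ⊗ₜ[ZMod 2] (r₁ (x * ((l₁ g : R₁ˣ) : R₁)) ⊗ₜ[ZMod 2] r₂ y)) +
            (bs (1 : K) ⊗ₜ[ZMod 2] (r₁ x ⊗ₜ[ZMod 2] r₂ (((l₂ g : R₂ˣ) : R₂) * y)) +
            bs (1 : K) ⊗ₜ[ZMod 2] (r₁ x ⊗ₜ[ZMod 2] r₂ (((l₂ g : R₂ˣ) : R₂) * y))) := by
          rw [← e1, LinearMap.rTensor_tmul, d₀, lin_bs, map_sub, kap_tmul, kap_tmul, TensorProduct.add_tmul,
            TensorProduct.tmul_sub]
          abel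
        rw [e2, ZModModule.add_self, add_zero]
        exact Id.mk ρ₁ ρ₂ g _
      · rw [hΨ]
        congr 1
        apply Subtype.ext
        rw [dl_val, tl_tmul, tl_tmul, ← mul_assoc ((l₂ g⁻¹ : R₂ˣ) : R₂), ← Units.val_mul, ← map_mul, inv_mul_cancel, inv_one,
          map_one, map_one, Units.val_one, Units.val_one, one_mul, mul_one, one_mul]
    | zero =>
      refine ⟨0, ?_, ?_⟩
      · rw [map_zero, map_zero, TensorProduct.tmul_zero, sub_zero]; exact zero_mem _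
      · rw [map_zero]; exact (map_zero q).symm
    | add a b ha hb iha ihb =>
      obtain ⟨c, hc, hc'⟩ := iha
      obtain ⟨c₂, hc₂, hc₂'⟩ := ihb
      refine ⟨c + c₂, ?_, ?_⟩
      · have h1 := add_mem hc hc₂
        rw [map_add, map_add, TensorProduct.tmul_add, add_sub_add_comm]
        exact h1
      · rw [map_add, hc', hc₂', ← map_add]
        rfl
    | neg a ha iha =>
      obtain ⟨c, hc, hc'⟩ := iha
      refine ⟨-c, ?_, ?_⟩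
      · rw [map_neg, map_neg, TensorProduct.tmul_neg, ← neg_sub']
        exact neg_mem hc
      · rw [map_neg, hc', ← map_neg]
        rfl
  intro w hw
  obtain ⟨c, hc, hc'⟩ := hch _ hw
  have h1 : kap r₁ r₂ (2 • w) = 0 := by rw [map_nsmul, two_nsmul, ZModModule.add_self]
  rw [h1, TensorProduct.tmul_zero, sub_zero] at hc
  have h2 := hΨ3 c (h1_zero ρ₁ ρ₂ hL c hc)
  rw [hc'] at h2
  obtain ⟨i, hi⟩ := (QuotientAddGroup.eq_zero_iff _).1 h2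
  have h3 : 2 • (i : R₁ ⊗[ℤ] R₂) = 2 • w := congrArg Subtype.val hi
  have h4 : w - i = 0 := hz _ (by rw [smul_sub, h3, sub_self])
  rw [sub_eq_zero.1 h4]
  exact i.2

end tf

end SQ.U.Bar
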