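import Pool.Agent.SQ.U.Lam

/-!
# The crossed group ring

`CF C`: the finitely supported functions `G → R` with the crossed product.
-/

set_option autoImplicit false
set_option linter.unusedSectionVars false

noncomputable section

namespace SQ.U

/-- the crossed group ring -/
def CF {G R : Type} [Group G] [Ring R] (_C : Crs G R) : Type := G →₀ R

namespace CF

section basic
variable {G R : Type} [Group G] [Ring R] {C : Crs G R}

instance : AddCommGroup (CF C) := inferInstanceAs (AddCommGroup (G →₀ R))

/-- monomials -/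
def sg (g : G) : R →+ CF C := Finsupp.singleAddHom g

/-- the coefficients -/
def co (g : G) : CF C →+ R := Finsupp.applyAddHom g

/-- the support -/
def sp (x : CF C) : Finset G := Finsupp.support x

theorem mem_sp {x : CF C} {g : G} : g ∈ sp x ↔ co g x ≠ 0 := Finsupp.mem_support_iff

@[ext]
theorem ext {x y : CF C} (h : ∀ g, co g x = co g y) : x = y := Finsupp.ext h

open Classical in
theorem co_sg (g h : G) (r : R) : co h (sg g r : CF C) = if g = h then r else 0 := Finsupp.single_apply

@[elab_as_elim]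
theorem ind {p : CF C → Prop} (x : CF C) (zero : p 0) (add : ∀ x y, p x → p y → p (x + y)) (sg : ∀ g r, p (sg g r)) : p x :=
  Finsupp.induction_linear x zero (fun _ _ h1 h2 => add _ _ h1 h2) sg

/-- additive maps given on the monomials -/
def lft {M : Type} [AddCommMonoid M] (f : G → R →+ M) : CF C →+ M := Finsupp.liftAddHom f

theorem lft_sg {M : Type} [AddCommMonoid M] (f : G → R →+ M) (g : G) (r : R) : lft f (sg g r : CF C) = f g r :=
  Finsupp.liftAddHom_apply_single _ _ _

theorem hom_ext {M : Type} [AddCommMonoid M] {f f' : CF C →+ M} (h : ∀ g r, f (sg g r) = f' (sg g r)) : f = f' :=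
  Finsupp.addHom_ext h

/-- the product, as a homomorphism -/
def mulA : CF C →+ CF C →+ CF C := lft fun a =>
  AddMonoidHom.mk' (fun x => lft fun b => AddMonoidHom.mk' (fun y => sg (a * b) (x * C.σ a y * (C.α a b : R)))
    fun y y' => by rw [map_add, mul_add, add_mul, map_add]) fun x x' => by
      refine hom_ext fun b y => ?_
      rw [AddMonoidHom.add_apply, lft_sg, lft_sg, lft_sg]
      show sg (a * b) ((x + x') * C.σ a y * (C.α a b : R)) = sg (a * b) (x * C.σ a y * (C.α a b : R)) +
        sg (a * b) (x' * C.σ a y * (C.α a b : R))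
      rw [add_mul, add_mul, map_add]

theorem mulA_sg (a b : G) (x y : R) : mulA (sg a x : CF C) (sg b y) = sg (a * b) (x * C.σ a y * (C.α a b : R)) := by
  rw [mulA, lft_sg]
  show (lft _ (sg b y : CF C)) = _
  rw [lft_sg]
  rfl

theorem eq_sum (x : CF C) : x = ∑ a ∈ sp x, sg a (co a x) := (Finsupp.sum_single x).symm

theorem mulA_sum (x y : CF C) : mulA x y = ∑ a ∈ sp x, ∑ b ∈ sp y, sg (a * b) (co a x * C.σ a (co b y) * (C.α a b : R)) := by
  have h1 : mulA x y = ∑ a ∈ sp x, mulA (sg a (co a x)) y := by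
    conv_lhs => rw [eq_sum x]
    rw [map_sum]
    exact AddMonoidHom.finsetSum_apply _ _ _
  rw [h1]
  refine Finset.sum_congr rfl fun a _ => ?_
  conv_lhs => rw [eq_sum y]
  rw [map_sum]
  exact Finset.sum_congr rfl fun b _ => mulA_sg _ _ _ _

theorem trip (a b c : G) (x y z : R) : x * C.σ a y * (C.α a b : R) * C.σ (a * b) z * (C.α (a * b) c : R) =
    x * C.σ a (y * C.σ b z * (C.α b c : R)) * (C.α a (b * c) : R) := by
  rw [map_mul, map_mul]
  simp only [mul_assoc]
  rw [C.h2, ← mul_assoc ((C.α a b : Rˣ) : R), ← C.h1]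
  simp only [mul_assoc]

instance : Ring (CF C) :=
  { (inferInstance : AddCommGroup (CF C)) with
    mul := fun x y => mulA x y
    one := sg 1 1
    left_distrib := fun x y z => map_add (mulA x) y z
    right_distrib := fun x y z => by
      show mulA (x + y) z = mulA x z + mulA y z
      rw [map_add]
      rfl
    zero_mul := fun x => by
      show mulA 0 x = 0
      rw [map_zero]
      rfl
    mul_zero := fun x => map_zero (mulA x)
    mul_assoc := fun x y z => by
      show mulA (mulA x y) z = mulA x (mulA y z)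
      induction x using ind with
      | zero => rw [map_zero, AddMonoidHom.zero_apply, map_zero, AddMonoidHom.zero_apply, AddMonoidHom.zero_apply]
      | add x x' h h' => rw [map_add, AddMonoidHom.add_apply, map_add, AddMonoidHom.add_apply, AddMonoidHom.add_apply, h, h']
      | sg a x =>
        induction y using ind with
        | zero => rw [map_zero, map_zero, AddMonoidHom.zero_apply, map_zero]
        | add y y' h h' => rw [map_add, map_add, AddMonoidHom.add_apply, map_add, AddMonoidHom.add_apply, map_add, h, h']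
        | sg b y =>
          induction z using ind with
          | zero => rw [map_zero, map_zero, map_zero]
          | add z z' h h' => rw [map_add, map_add, map_add, h, h']
          | sg c z => rw [mulA_sg, mulA_sg, mulA_sg, mulA_sg, mul_assoc a b c, trip]
    one_mul := fun x => by
      show mulA (sg 1 1) x = x
      induction x using ind with
      | zero => exact map_zero _
      | add x y hx hy => rw [map_add, hx, hy]
      | sg a x => rw [mulA_sg, one_mul, one_mul, C.σ_one, C.α_one_left, Units.val_one, mul_one]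
    mul_one := fun x => by
      show mulA x (sg 1 1) = x
      induction x using ind with
      | zero => rw [map_zero]; rfl
      | add x y hx hy => rw [map_add, AddMonoidHom.add_apply, hx, hy]
      | sg a x => rw [mulA_sg, mul_one, map_one, mul_one, C.α_one_right, Units.val_one, mul_one] }

theorem mul_sg_sg (a b : G) (x y : R) : (sg a x : CF C) * sg b y = sg (a * b) (x * C.σ a y * (C.α a b : R)) := mulA_sg a b x y

theorem one_def : (1 : CF C) = sg 1 1 := rfl

theorem mul_eq_sum (x y : CF C) : x * y = ∑ a ∈ sp x, ∑ b ∈ sp y, sg (a * b) (co a x * C.σ a (co b y) * (C.α a b : R)) :=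
  mulA_sum x y

open Classical in
theorem co_mul (x y : CF C) (g : G) : co g (x * y) = ∑ a ∈ sp x, ∑ b ∈ sp y,
    if a * b = g then co a x * C.σ a (co b y) * (C.α a b : R) else 0 := by
  rw [mul_eq_sum, map_sum]
  refine Finset.sum_congr rfl fun a _ => ?_
  rw [map_sum]
  exact Finset.sum_congr rfl fun b _ => co_sg _ _ _

theorem co_mul_ne {x y : CF C} {g : G} (h : co g (x * y) ≠ 0) : ∃ a b, co a x ≠ 0 ∧ co b y ≠ 0 ∧ a * b = g := by
  classical
  by_contra hcon
  push Not at hcon
  apply h
  rw [co_mul]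
  refine Finset.sum_eq_zero fun a ha => Finset.sum_eq_zero fun b hb => ?_
  rw [if_neg (hcon a b (mem_sp.1 ha) (mem_sp.1 hb))]

theorem co_mul_sg (x : CF C) (b : G) (y : R) (g : G) :
    co g (x * sg b y) = co (g * b⁻¹) x * C.σ (g * b⁻¹) y * (C.α (g * b⁻¹) b : R) := by
  classical
  induction x using ind with
  | zero => rw [zero_mul, map_zero, map_zero, zero_mul, zero_mul]
  | add x x' h h' => rw [add_mul, map_add, map_add, h, h', add_mul, add_mul]
  | sg a x =>
    rw [mul_sg_sg, co_sg, co_sg]
    by_cases h : a * b = g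
    · have h1 : a = g * b⁻¹ := by rw [← h, mul_inv_cancel_right]
      rw [if_pos h, if_pos h1, h1]
    · rw [if_neg h, if_neg fun h1 => h (by rw [h1, inv_mul_cancel_right]), zero_mul, zero_mul]

/-- the constants -/
def cst : R →+* CF C where
  toFun r := sg 1 r
  map_zero' := map_zero _
  map_one' := rfl
  map_add' := map_add _
  map_mul' r s := by rw [mul_sg_sg, one_mul, C.σ_one, C.α_one_left, Units.val_one, mul_one]

theorem cst_apply (r : R) : (cst r : CF C) = sg 1 r := rfl

theorem co_cst_mul (r : R) (x : CF C) (g : G) : co g (cst r * x) = r * co g x := by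
  classical
  induction x using ind with
  | zero => rw [mul_zero, map_zero, mul_zero]
  | add x x' h h' => rw [mul_add, map_add, map_add, h, h', mul_add]
  | sg a x =>
    rw [cst_apply, mul_sg_sg, one_mul, C.σ_one, C.α_one_left, Units.val_one, mul_one, co_sg, co_sg]
    split_ifs
    · rfl
    · rw [mul_zero]

theorem two_co (x : CF C) (g : G) : co g (2 * x) = 2 * co g x := by
  rw [two_mul, map_add, two_mul]

/-- the series with support in a subgroup -/
def In (M : Subgroup G) : Subring (CF C) where
  carrier := {x | ∀ g, co g x ≠ 0 → g ∈ M}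
  zero_mem' g hg := absurd (map_zero (co g)) hg
  one_mem' g hg := by
    classical
    rw [one_def, co_sg] at hg
    by_cases h : 1 = g
    · rw [← h]
      exact M.one_mem
    · exact absurd (if_neg h) hg
  add_mem' {x y} hx hy g hg := by
    by_cases h : co g x = 0
    · refine hy g fun h2 => hg ?_
      rw [map_add, h, h2, add_zero]
    · exact hx g h
  neg_mem' {x} hx g hg := hx g fun h => hg (by rw [map_neg, h, neg_zero])
  mul_mem' {x y} hx hy g hg := by
    obtain ⟨a, b, ha, hb, rfl⟩ := co_mul_ne hg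
    exact M.mul_mem (hx a ha) (hy b hb)

theorem mem_In {M : Subgroup G} {x : CF C} : x ∈ In M ↔ ∀ g, co g x ≠ 0 → g ∈ M := Iff.rfl

theorem sg_mem_In {M : Subgroup G} {g : G} (hg : g ∈ M) (r : R) : (sg g r : CF C) ∈ In M := by
  classical
  intro h hh
  rw [co_sg] at hh
  by_cases h1 : g = h
  · rw [← h1]
    exact hg
  · exact absurd (if_neg h1) hh

theorem In_mono {M M' : Subgroup G} (h : M ≤ M') {x : CF C} (hx : x ∈ In M) : x ∈ In M' := fun g hg => h (hx g hg)

theorem mem_In_top (x : CF C) : x ∈ In (⊤ : Subgroup G) := fun _ _ => Subgroup.mem_top _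

end basic

/-! ### divisibility by 2 -/

section two
variable {G R : Type} [Group G] [Ring R] {C : Crs G R} (d : DV R)

theorem even_iff {x : CF C} : (∃ y, x = 2 * y) ↔ ∀ g, ∃ r, co g x = 2 * r := by
  classical
  constructor
  · rintro ⟨y, rfl⟩ g
    exact ⟨co g y, two_co y g⟩
  · intro h
    have h1 : ∀ g, ∃ r : R, co g x = 2 * r ∧ (co g x = 0 → r = 0) := by
      intro g
      by_cases hg : co g x = 0
      · exact ⟨0, by rw [hg, mul_zero], fun _ => rfl⟩
      · obtain ⟨r, hr⟩ := h g
        exact ⟨r, hr, fun h0 => absurd h0 hg⟩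
    choose r hr hr0 using h1
    let y : CF C := Finsupp.onFinset (sp x) r fun g hg => by
      rw [mem_sp]
      exact fun h0 => hg (hr0 g h0)
    refine ⟨y, CF.ext fun g => ?_⟩
    rw [two_co]
    exact hr g

/-- the half has the same support -/
theorem half_mem_In {M : Subgroup G} {y : CF C} (d : DV R) (h : 2 * y ∈ In M) : y ∈ In M := by
  intro g hg
  refine h g fun h0 => hg (d.tf _ ?_)
  rw [← two_co, h0]

include d in
theorem tf (x : CF C) (h : 2 * x = 0) : x = 0 := CF.ext fun g => by
  rw [map_zero]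
  apply d.tf
  rw [← two_co, h, map_zero]

theorem pow_co (k : ℕ) (x : CF C) (g : G) : co g (2 ^ k * x) = 2 ^ k * co g x := by
  induction k generalizing x with
  | zero => rw [pow_zero, one_mul, pow_zero, one_mul]
  | succ k ih => rw [pow_succ, mul_assoc, ih, two_co, pow_succ, mul_assoc]

include d in
theorem sep (x : CF C) (h : ∀ k : ℕ, ∃ y, x = 2 ^ k * y) : x = 0 := CF.ext fun g => by
  rw [map_zero]
  refine d.sep _ fun k => ?_
  obtain ⟨y, rfl⟩ := h k
  exact ⟨co g y, pow_co k y g⟩

include d in
theorem one_odd : ¬ ∃ y : CF C, (1 : CF C) = 2 * y := by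
  classical
  rintro ⟨y, hy⟩
  have h1 := congrArg (co 1) hy
  rw [one_def, co_sg, if_pos rfl, two_co] at h1
  exact d.one _ h1

include d in
/-- **the crossed group ring modulo 2 is a domain** -/
theorem odd_mul [UniqueProds G] {x y : CF C} (hx : ¬ ∃ z, x = 2 * z) (hy : ¬ ∃ z, y = 2 * z) : ¬ ∃ z, x * y = 2 * z := by
  classical
  rw [even_iff] at hx hy ⊢
  push Not at hx hy
  obtain ⟨a1, ha1⟩ := hx
  obtain ⟨b1, hb1⟩ := hy
  let A : Finset G := (sp x).filter fun a => ∀ r, co a x ≠ 2 * r
  let B : Finset G := (sp y).filter fun b => ∀ r, co b y ≠ 2 * r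
  have hmA : ∀ a, (∀ r, co a x ≠ 2 * r) → a ∈ A := fun a h => Finset.mem_filter.2
    ⟨mem_sp.2 fun h0 => h 0 (by rw [h0, mul_zero]), h⟩
  have hmB : ∀ b, (∀ r, co b y ≠ 2 * r) → b ∈ B := fun b h => Finset.mem_filter.2
    ⟨mem_sp.2 fun h0 => h 0 (by rw [h0, mul_zero]), h⟩
  obtain ⟨a₀, ha₀, b₀, hb₀, hu⟩ := UniqueProds.uniqueMul_of_nonempty ⟨a1, hmA a1 ha1⟩ ⟨b1, hmB b1 hb1⟩
  intro hcon
  have h1 := hcon (a₀ * b₀)
  rw [co_mul] at h1
  let I : AddSubgroup R := (AddMonoidHom.mulLeft (2 : R)).range
  have hI : ∀ r, r ∈ I ↔ ∃ s, r = 2 * s := fun r => ⟨fun ⟨s, hs⟩ => ⟨s, hs.symm⟩, fun ⟨s, hs⟩ => ⟨s, hs.symm⟩⟩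
  have h2 : (∑ a ∈ sp x, ∑ b ∈ sp y, if a * b = a₀ * b₀ then co a x * C.σ a (co b y) * (C.α a b : R) else 0) ∈ I := (hI _).2 h1
  have hterm : ∀ a b, (a, b) ≠ (a₀, b₀) → (if a * b = a₀ * b₀ then co a x * C.σ a (co b y) * (C.α a b : R) else 0) ∈ I := by
    intro a b hab
    split_ifs with h3
    · have h4 : a ∉ A ∨ b ∉ B := by
        by_contra hc
        push Not at hc
        obtain ⟨h5, h6⟩ := hu hc.1 hc.2 h3
        exact hab (by rw [h5, h6])
      rcases h4 with h4 | h4
      · have h5 : ∃ r, co a x = 2 * r := by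
          by_contra hc
          push Not at hc
          exact h4 (hmA a hc)
        obtain ⟨r, hr⟩ := h5
        exact (hI _).2 ⟨_, by rw [hr, mul_assoc, mul_assoc]⟩
      · have h5 : ∃ r, co b y = 2 * r := by
          by_contra hc
          push Not at hc
          exact h4 (hmB b hc)
        obtain ⟨r, hr⟩ := h5
        refine (hI _).2 ⟨co a x * C.σ a r * (C.α a b : R), ?_⟩
        rw [hr, map_mul, map_ofNat, two_comm, mul_assoc]
    · exact zero_mem _
  have hrow : ∀ a, a ≠ a₀ → (∑ b ∈ sp y, if a * b = a₀ * b₀ then co a x * C.σ a (co b y) * (C.α a b : R) else 0) ∈ I := by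
    intro a ha
    exact sum_mem fun b _ => hterm a b fun h => ha (congrArg Prod.fst h)
  have ha₀x : a₀ ∈ sp x := (Finset.mem_filter.1 ha₀).1
  have hb₀y : b₀ ∈ sp y := (Finset.mem_filter.1 hb₀).1
  rw [← Finset.add_sum_erase _ _ ha₀x] at h2
  have h3 := (AddSubgroup.add_mem_cancel_right I (sum_mem fun a ha => hrow a (Finset.ne_of_mem_erase ha))).1 h2
  rw [← Finset.add_sum_erase _ _ hb₀y] at h3
  have h4 := (AddSubgroup.add_mem_cancel_right I (sum_mem fun b hb => hterm a₀ b fun h =>
    Finset.ne_of_mem_erase hb (congrArg Prod.snd h))).1 h3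
  rw [if_pos rfl] at h4
  obtain ⟨r, hr⟩ := (hI _).1 h4
  have hux : IsUnit (co a₀ x) := (d.half _).resolve_right fun ⟨s, hs⟩ => (Finset.mem_filter.1 ha₀).2 s hs
  have huy : IsUnit (co b₀ y) := (d.half _).resolve_right fun ⟨s, hs⟩ => (Finset.mem_filter.1 hb₀).2 s hs
  exact d.unit_ne ((hux.mul (huy.map (C.σ a₀))).mul (C.α a₀ b₀).isUnit) r hr

end two

end CF

end SQ.U
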