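import Pool.Agent.SQ.BO.MN

/-!
# The crossed Malcev-Neumann ring

`Crs G R`: a crossed system `(σ, α)` of the group `G` over the ring `R`; `CM C`: the functions `G → R` with well-ordered support,
with the product `(x y)(g) = ∑ₐ x(a) σₐ(y(a⁻¹ g)) α(a, a⁻¹ g)`.  `unit_of_lead`: a series whose smallest coefficient is a unit
is a unit.
-/

set_option autoImplicit false
set_option linter.unusedSectionVars false

noncomputable section

namespace SQ.U

open SQ.BO

/-- crossed systems -/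
structure Crs (G R : Type) [Group G] [Ring R] where
  σ : G → R →+* R
  α : G → G → Rˣ
  σ_one : ∀ r, σ 1 r = r
  α_one_left : ∀ g, α 1 g = 1
  α_one_right : ∀ g, α g 1 = 1
  h1 : ∀ (a b : G) (r : R), σ a (σ b r) * (α a b : R) = (α a b : R) * σ (a * b) r
  h2 : ∀ a b c : G, σ a (α b c : R) * (α a (b * c) : R) = (α a b : R) * (α (a * b) c : R)

namespace Crs

variable {G R : Type} [Group G] [Ring R] (C : Crs G R)

theorem h1' (a b : G) (r : R) : σ C a (σ C b r) = (C.α a b : R) * C.σ (a * b) r * ((C.α a b)⁻¹ : Rˣ) := by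
  rw [← C.h1, mul_assoc, Units.mul_inv, mul_one]

end Crs

/-- the functions with partially well-ordered support -/
@[ext]
structure CM {G R : Type} [Group G] [Ring R] [Preorder G] (C : Crs G R) where
  c : G → R
  pwo : (Function.support c).IsPWO

namespace CM

/-! ### the additive group -/

section add
variable {G R : Type} [Group G] [LinearOrder G] [Ring R] {C : Crs G R}

theorem c_inj : Function.Injective (CM.c : CM C → G → R) := fun _ _ h => CM.ext h

instance : Zero (CM C) := ⟨⟨0, by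
  rw [Function.support_zero]
  exact Set.isPWO_empty⟩⟩

instance : Add (CM C) := ⟨fun x y => ⟨x.c + y.c, (x.pwo.union y.pwo).mono (Function.support_add _ _)⟩⟩

instance : Neg (CM C) := ⟨fun x => ⟨-x.c, by
  rw [Function.support_neg]
  exact x.pwo⟩⟩

instance : Sub (CM C) := ⟨fun x y => ⟨x.c - y.c, (x.pwo.union y.pwo).mono (Function.support_sub _ _)⟩⟩

instance : SMul ℕ (CM C) := ⟨fun n x => ⟨n • x.c, x.pwo.mono (Function.support_const_smul_subset n x.c)⟩⟩

instance : SMul ℤ (CM C) := ⟨fun n x => ⟨n • x.c, x.pwo.mono (Function.support_const_smul_subset n x.c)⟩⟩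

instance : AddCommGroup (CM C) :=
  c_inj.addCommGroup _ rfl (fun _ _ => rfl) (fun _ => rfl) (fun _ _ => rfl) (fun _ _ => rfl) fun _ _ => rfl

@[simp] theorem zero_c (g : G) : (0 : CM C).c g = 0 := rfl

@[simp] theorem add_c (x y : CM C) (g : G) : (x + y).c g = x.c g + y.c g := rfl

@[simp] theorem neg_c (x : CM C) (g : G) : (-x).c g = -x.c g := rfl

@[simp] theorem sub_c (x y : CM C) (g : G) : (x - y).c g = x.c g - y.c g := rfl

theorem nsmul_c (n : ℕ) (x : CM C) (g : G) : (n • x).c g = n • x.c g := rfl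

/-- the coefficient as a homomorphism -/
def cA (g : G) : CM C →+ R where
  toFun x := x.c g
  map_zero' := rfl
  map_add' _ _ := rfl

theorem sum_c {ι : Type} (s : Finset ι) (f : ι → CM C) (g : G) : (∑ i ∈ s, f i).c g = ∑ i ∈ s, (f i).c g :=
  map_sum (cA g) f s

end add

/-! ### the ring -/

section mul
variable {G R : Type} [Group G] [LinearOrder G] [MulLeftMono G] [MulRightMono G] [Ring R] {C : Crs G R}

/-- the terms of the product -/
def tm (x y : CM C) (g a : G) : R := x.c a * C.σ a (y.c (a⁻¹ * g)) * (C.α a (a⁻¹ * g) : R)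

theorem tm_ne {x y : CM C} {g a : G} (h : tm x y g a ≠ 0) : x.c a ≠ 0 ∧ y.c (a⁻¹ * g) ≠ 0 := by
  have h1 := left_ne_zero_of_mul h
  refine ⟨left_ne_zero_of_mul h1, fun h0 => h1 ?_⟩
  rw [h0, map_zero, mul_zero]

theorem supp_fin (x y : CM C) (g : G) : (Function.support (tm x y g)).Finite :=
  (MN.fin_anti x.pwo y.pwo g).subset fun _ ha => tm_ne ha

/-- the coefficients of the product -/
def mulC (x y : CM C) (g : G) : R := ∑ᶠ a, tm x y g a

theorem mulC_ne {x y : CM C} {g : G} (h : mulC x y g ≠ 0) : ∃ a, x.c a ≠ 0 ∧ y.c (a⁻¹ * g) ≠ 0 := by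
  by_contra hcon
  push Not at hcon
  apply h
  rw [mulC]
  refine finsum_eq_zero_of_forall_eq_zero fun a => ?_
  by_contra h1
  obtain ⟨h2, h3⟩ := tm_ne h1
  exact h3 (hcon a h2)

theorem supp_mul_pwo (x y : CM C) : {g | ∃ a ∈ Function.support x.c, ∃ b ∈ Function.support y.c, g = a * b}.IsPWO :=
  MN.pwo_mul x.pwo y.pwo

instance : Mul (CM C) := ⟨fun x y => ⟨mulC x y, (supp_mul_pwo x y).mono fun g hg => by
  obtain ⟨a, h1, h2⟩ := mulC_ne hg
  exact ⟨a, h1, a⁻¹ * g, h2, (mul_inv_cancel_left a g).symm⟩⟩⟩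

theorem mul_c (x y : CM C) (g : G) : (x * y).c g = ∑ᶠ a, tm x y g a := rfl

theorem mul_ne {x y : CM C} {g : G} (h : (x * y).c g ≠ 0) : ∃ a b, x.c a ≠ 0 ∧ y.c b ≠ 0 ∧ g = a * b := by
  obtain ⟨a, h1, h2⟩ := mulC_ne (x := x) (y := y) h
  exact ⟨a, a⁻¹ * g, h1, h2, (mul_inv_cancel_left a g).symm⟩

/-- monomials -/
def sg (g : G) (r : R) : CM C := ⟨fun h => if h = g then r else 0, (Set.isPWO_singleton g).mono fun h hh => by
  by_contra hne
  exact hh (if_neg hne)⟩

theorem sg_c (g : G) (r : R) (h : G) : (sg g r : CM C).c h = if h = g then r else 0 := rfl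

instance : One (CM C) := ⟨sg 1 1⟩

theorem one_c (h : G) : (1 : CM C).c h = if h = 1 then 1 else 0 := rfl

theorem sg_mul_c (g : G) (r : R) (y : CM C) (h : G) :
    (sg g r * y).c h = r * C.σ g (y.c (g⁻¹ * h)) * (C.α g (g⁻¹ * h) : R) := by
  rw [mul_c, finsum_eq_single _ g]
  · rw [tm, sg_c, if_pos rfl]
  · intro a ha
    rw [tm, sg_c, if_neg ha, zero_mul, zero_mul]

theorem mul_sg_c (g : G) (r : R) (y : CM C) (h : G) :
    (y * sg g r).c h = y.c (h * g⁻¹) * C.σ (h * g⁻¹) r * (C.α (h * g⁻¹) g : R) := by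
  have e : (h * g⁻¹)⁻¹ * h = g := by rw [mul_inv_rev, inv_inv, mul_assoc, inv_mul_cancel, mul_one]
  rw [mul_c, finsum_eq_single _ (h * g⁻¹)]
  · rw [tm, sg_c, e, if_pos rfl]
  · intro a ha
    rw [tm, sg_c, if_neg, map_zero, mul_zero, zero_mul]
    intro h1
    apply ha
    rw [← h1, mul_inv_rev, inv_inv, mul_inv_cancel_left]

/-- the triple terms -/
theorem triple (x y z : CM C) (g a b : G) :
    x.c a * C.σ a (y.c (a⁻¹ * b)) * (C.α a (a⁻¹ * b) : R) * C.σ b (z.c (b⁻¹ * g)) * (C.α b (b⁻¹ * g) : R) =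
      x.c a * C.σ a (y.c (a⁻¹ * b) * C.σ (a⁻¹ * b) (z.c (b⁻¹ * g)) * (C.α (a⁻¹ * b) (b⁻¹ * g) : R)) *
        (C.α a (a⁻¹ * g) : R) := by
  have h1 := C.h1 a (a⁻¹ * b) (z.c (b⁻¹ * g))
  have h2 := C.h2 a (a⁻¹ * b) (b⁻¹ * g)
  rw [mul_inv_cancel_left] at h1 h2
  have e : a⁻¹ * b * (b⁻¹ * g) = a⁻¹ * g := by rw [mul_assoc, mul_inv_cancel_left]
  rw [e] at h2
  rw [map_mul, map_mul]
  simp only [mul_assoc]
  rw [h2, ← mul_assoc (C.σ a (C.σ (a⁻¹ * b) (z.c (b⁻¹ * g)))), h1]
  simp only [mul_assoc]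

instance : Ring (CM C) :=
  { (inferInstance : AddCommGroup (CM C)) with
    mul := (· * ·)
    one := 1
    left_distrib := fun x y z => CM.ext (funext fun g => by
      show (x * (y + z)).c g = (x * y).c g + (x * z).c g
      rw [mul_c, mul_c, mul_c, ← finsum_add_distrib (supp_fin x y g) (supp_fin x z g)]
      refine finsum_congr fun a => ?_
      rw [tm, tm, tm, add_c, map_add, mul_add, add_mul])
    right_distrib := fun x y z => CM.ext (funext fun g => by
      show ((x + y) * z).c g = (x * z).c g + (y * z).c g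
      rw [mul_c, mul_c, mul_c, ← finsum_add_distrib (supp_fin x z g) (supp_fin y z g)]
      refine finsum_congr fun a => ?_
      rw [tm, tm, tm, add_c, add_mul, add_mul])
    zero_mul := fun x => CM.ext (funext fun g => by
      show (0 * x).c g = 0
      rw [mul_c]
      exact finsum_eq_zero_of_forall_eq_zero fun a => by rw [tm, zero_c, zero_mul, zero_mul])
    mul_zero := fun x => CM.ext (funext fun g => by
      show (x * 0).c g = 0
      rw [mul_c]
      exact finsum_eq_zero_of_forall_eq_zero fun a => by rw [tm, zero_c, map_zero, mul_zero, zero_mul])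
    mul_assoc := fun x y z => CM.ext (funext fun g => by
      classical
      show ((x * y) * z).c g = (x * (y * z)).c g
      let B : Finset G := (MN.fin_anti (x * y).pwo z.pwo g).toFinset ∪
        (MN.fin_anti (supp_mul_pwo x y) z.pwo g).toFinset
      let A : Finset G := (MN.fin_anti x.pwo (supp_mul_pwo y z) g).toFinset
      have hB : ∀ b, (∃ a, x.c a ≠ 0 ∧ y.c (a⁻¹ * b) ≠ 0) → z.c (b⁻¹ * g) ≠ 0 → b ∈ B := by
        rintro b ⟨a, ha1, ha2⟩ h2
        refine Finset.mem_union_right _ ?_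
        rw [Set.Finite.mem_toFinset]
        exact ⟨⟨a, ha1, a⁻¹ * b, ha2, (mul_inv_cancel_left a b).symm⟩, h2⟩
      have hA : ∀ a, x.c a ≠ 0 → (∃ b, y.c (a⁻¹ * b) ≠ 0 ∧ z.c (b⁻¹ * g) ≠ 0) → a ∈ A := by
        rintro a ha ⟨b, hb1, hb2⟩
        rw [Set.Finite.mem_toFinset]
        exact ⟨ha, a⁻¹ * b, hb1, b⁻¹ * g, hb2, by rw [mul_assoc, mul_inv_cancel_left]⟩
      have h1 : ((x * y) * z).c g = ∑ b ∈ B, ∑ a ∈ A,
          tm x y b a * C.σ b (z.c (b⁻¹ * g)) * (C.α b (b⁻¹ * g) : R) := by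
        rw [mul_c, finsum_eq_sum_of_support_subset (s := B)]
        · refine Finset.sum_congr rfl fun b _ => ?_
          rw [tm]
          by_cases hz : z.c (b⁻¹ * g) = 0
          · rw [hz, map_zero, mul_zero, zero_mul]
            exact (Finset.sum_eq_zero fun a _ => by rw [mul_zero, zero_mul]).symm
          · rw [mul_c, finsum_mul' _ _ (supp_fin x y b), finsum_mul']
            · rw [finsum_eq_sum_of_support_subset (s := A)]
              intro a ha
              have ha' : tm x y b a * C.σ b (z.c (b⁻¹ * g)) * (C.α b (b⁻¹ * g) : R) ≠ 0 := ha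
              obtain ⟨h3, h4⟩ := tm_ne (left_ne_zero_of_mul (left_ne_zero_of_mul ha'))
              exact hA a h3 ⟨b, h4, hz⟩
            · exact (supp_fin x y b).subset fun a ha => left_ne_zero_of_mul ha
        · intro b hb
          obtain ⟨h3, h4⟩ := tm_ne hb
          obtain ⟨a, h5, h6⟩ := mulC_ne (x := x) (y := y) h3
          exact hB b ⟨a, h5, h6⟩ h4
      have h2 : (x * (y * z)).c g = ∑ a ∈ A, ∑ b ∈ B,
          tm x y b a * C.σ b (z.c (b⁻¹ * g)) * (C.α b (b⁻¹ * g) : R) := by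
        have h3 : ∀ a, (y * z).c (a⁻¹ * g) = ∑ᶠ b,
            y.c (a⁻¹ * b) * C.σ (a⁻¹ * b) (z.c (b⁻¹ * g)) * (C.α (a⁻¹ * b) (b⁻¹ * g) : R) := by
          intro a
          rw [mul_c, ← finsum_comp_equiv (Equiv.mulLeft a⁻¹)]
          refine finsum_congr fun b => ?_
          rw [Equiv.coe_mulLeft, tm]
          have e : (a⁻¹ * b)⁻¹ * (a⁻¹ * g) = b⁻¹ * g := by rw [mul_inv_rev, inv_inv, mul_assoc, mul_inv_cancel_left]
          rw [e]
        have h4 : ∀ a, (Function.support fun b =>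
            y.c (a⁻¹ * b) * C.σ (a⁻¹ * b) (z.c (b⁻¹ * g)) * (C.α (a⁻¹ * b) (b⁻¹ * g) : R)).Finite := by
          intro a
          refine ((supp_fin y z (a⁻¹ * g)).preimage (f := fun b => a⁻¹ * b)
            (fun _ _ _ _ h => mul_left_cancel h)).subset fun b hb => ?_
          show tm y z (a⁻¹ * g) (a⁻¹ * b) ≠ 0
          have e : (a⁻¹ * b)⁻¹ * (a⁻¹ * g) = b⁻¹ * g := by rw [mul_inv_rev, inv_inv, mul_assoc, mul_inv_cancel_left]
          rw [tm, e]
          exact hb
        rw [mul_c, finsum_eq_sum_of_support_subset (s := A)]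
        · refine Finset.sum_congr rfl fun a _ => ?_
          rw [tm]
          by_cases hx : x.c a = 0
          · rw [hx, zero_mul, zero_mul]
            exact (Finset.sum_eq_zero fun b _ => by rw [tm, hx, zero_mul, zero_mul, zero_mul, zero_mul]).symm
          · rw [h3, map_finsum (C.σ a) (h4 a), mul_finsum', finsum_mul', finsum_eq_sum_of_support_subset (s := B)]
            · refine Finset.sum_congr rfl fun b _ => ?_
              rw [tm, triple]
            · intro b hb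
              have hb' : x.c a * C.σ a (y.c (a⁻¹ * b) * C.σ (a⁻¹ * b) (z.c (b⁻¹ * g)) * (C.α (a⁻¹ * b) (b⁻¹ * g) : R)) *
                (C.α a (a⁻¹ * g) : R) ≠ 0 := hb
              rw [← triple] at hb'
              have h5 := left_ne_zero_of_mul hb'
              have h6 := right_ne_zero_of_mul h5
              have h7 := right_ne_zero_of_mul (left_ne_zero_of_mul (left_ne_zero_of_mul h5))
              exact hB b ⟨a, hx, fun h0 => h7 (by rw [h0, map_zero])⟩ fun h0 => h6 (by rw [h0, map_zero])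
            · refine (h4 a).subset fun b hb => ?_
              have hb' : x.c a * C.σ a (y.c (a⁻¹ * b) * C.σ (a⁻¹ * b) (z.c (b⁻¹ * g)) *
                (C.α (a⁻¹ * b) (b⁻¹ * g) : R)) ≠ 0 := hb
              intro h0
              have h0' : y.c (a⁻¹ * b) * C.σ (a⁻¹ * b) (z.c (b⁻¹ * g)) * (C.α (a⁻¹ * b) (b⁻¹ * g) : R) = 0 := h0
              exact right_ne_zero_of_mul hb' (by rw [h0', map_zero])
            · refine (h4 a).subset fun b hb => ?_
              have hb' : C.σ a (y.c (a⁻¹ * b) * C.σ (a⁻¹ * b) (z.c (b⁻¹ * g)) *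
                (C.α (a⁻¹ * b) (b⁻¹ * g) : R)) ≠ 0 := hb
              intro h0
              have h0' : y.c (a⁻¹ * b) * C.σ (a⁻¹ * b) (z.c (b⁻¹ * g)) * (C.α (a⁻¹ * b) (b⁻¹ * g) : R) = 0 := h0
              exact hb' (by rw [h0', map_zero])
        · intro a ha
          obtain ⟨h5, h6⟩ := tm_ne ha
          obtain ⟨b, h7, h8⟩ := mulC_ne (x := y) (y := z) h6
          refine hA a h5 ⟨a * b, ?_, ?_⟩
          · rw [inv_mul_cancel_left]
            exact h7
          · rw [mul_inv_rev, mul_assoc]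
            exact h8
      rw [h1, h2, Finset.sum_comm])
    one_mul := fun x => CM.ext (funext fun g => by
      show (sg 1 1 * x).c g = x.c g
      rw [sg_mul_c, one_mul, inv_one, one_mul, C.σ_one, C.α_one_left, Units.val_one, mul_one])
    mul_one := fun x => CM.ext (funext fun g => by
      show (x * sg 1 1).c g = x.c g
      rw [mul_sg_c, inv_one, mul_one, map_one, mul_one, C.α_one_right, Units.val_one, mul_one]) }

theorem natCast_c (n : ℕ) (g : G) : ((n : CM C)).c g = if g = 1 then (n : R) else 0 := by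
  induction n with
  | zero =>
    rw [Nat.cast_zero, Nat.cast_zero, zero_c, ite_self]
  | succ n ih =>
    rw [Nat.cast_succ, add_c, ih, one_c, Nat.cast_succ]
    by_cases h : g = 1
    · rw [if_pos h, if_pos h, if_pos h]
    · rw [if_neg h, if_neg h, if_neg h, add_zero]

theorem sg_mul_sg (g h : G) (r s : R) : (sg g r : CM C) * sg h s = sg (g * h) (r * C.σ g s * (C.α g h : R)) := by
  refine CM.ext (funext fun k => ?_)
  rw [sg_mul_c, sg_c, sg_c]
  by_cases hk : k = g * h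
  · rw [if_pos hk, hk, inv_mul_cancel_left, if_pos rfl]
  · rw [if_neg hk, if_neg, map_zero, mul_zero, zero_mul]
    intro h1
    apply hk
    rw [← h1, mul_inv_cancel_left]

theorem sg_zero (g : G) : (sg g 0 : CM C) = 0 := CM.ext (funext fun h => by
  rw [sg_c, ite_self, zero_c])

theorem sg_add (g : G) (r s : R) : (sg g (r + s) : CM C) = sg g r + sg g s := CM.ext (funext fun h => by
  rw [add_c, sg_c, sg_c, sg_c]
  split_ifs
  · rfl
  · rw [add_zero])

/-- the left inverse of a monomial -/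
def linv (g : G) (r : Rˣ) : CM C := sg g⁻¹ (((Units.map (C.σ g⁻¹ : R →* R) r * C.α g⁻¹ g)⁻¹ : Rˣ) : R)

theorem linv_mul (g : G) (r : Rˣ) : (linv g r : CM C) * sg g (r : R) = 1 := by
  rw [linv, sg_mul_sg, inv_mul_cancel]
  have h1 : (((Units.map (C.σ g⁻¹ : R →* R) r * C.α g⁻¹ g)⁻¹ : Rˣ) : R) * C.σ g⁻¹ (r : R) * (C.α g⁻¹ g : R) = 1 := by
    have h2 : C.σ g⁻¹ (r : R) * (C.α g⁻¹ g : R) = ((Units.map (C.σ g⁻¹ : R →* R) r * C.α g⁻¹ g : Rˣ) : R) := by
      rw [Units.val_mul]
      rfl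
    rw [mul_assoc, h2, Units.inv_mul]
  rw [h1]
  rfl

/-- the surjectivity of `σ` -/
theorem σ_surj (C : Crs G R) (g : G) (w : R) : C.σ g (C.σ g⁻¹ (((C.α g g⁻¹)⁻¹ : Rˣ) * w * (C.α g g⁻¹ : R))) = w := by
  rw [C.h1', mul_inv_cancel, C.σ_one]
  simp only [mul_assoc]
  rw [Units.mul_inv, mul_one, ← mul_assoc, Units.mul_inv, one_mul]

theorem exists_rinv (g : G) (r : Rˣ) : ∃ y : CM C, sg g (r : R) * y = 1 := by
  refine ⟨sg g⁻¹ (C.σ g⁻¹ (((C.α g g⁻¹)⁻¹ : Rˣ) * (((r⁻¹ : Rˣ) : R) * (((C.α g g⁻¹)⁻¹ : Rˣ) : R)) * (C.α g g⁻¹ : R))), ?_⟩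
  rw [sg_mul_sg, mul_inv_cancel, σ_surj, ← mul_assoc, Units.mul_inv, one_mul, Units.inv_mul]
  rfl

theorem mul_linv (g : G) (r : Rˣ) : sg g (r : R) * (linv g r : CM C) = 1 := by
  obtain ⟨y, hy⟩ := exists_rinv (C := C) g r
  rw [left_inv_eq_right_inv (linv_mul g r) hy]
  exact hy

/-! ### the geometric series -/

section geom
variable {u : CM C} (hu : ∀ g, u.c g ≠ 0 → 1 < g)

/-- lists of elements of the support -/
def Ls (u : CM C) : Set (List G) := {l : List G | ∀ x, x ∈ l → x ∈ Function.support u.c}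

theorem pow_ne {n : ℕ} {g : G} (h : (u ^ n).c g ≠ 0) : ∃ l ∈ Ls u, l.length = n ∧ l.prod = g := by
  induction n generalizing g with
  | zero =>
    rw [pow_zero, one_c] at h
    refine ⟨[], fun x hx => absurd hx List.not_mem_nil, rfl, ?_⟩
    rw [List.prod_nil]
    by_contra hne
    exact h (if_neg (Ne.symm hne))
  | succ n ih =>
    rw [pow_succ'] at h
    obtain ⟨a, b, h1, h2, rfl⟩ := mul_ne h
    obtain ⟨l, hl1, hl2, hl3⟩ := ih h2
    refine ⟨a :: l, ?_, by rw [List.length_cons, hl2], by rw [List.prod_cons, hl3]⟩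
    intro x hx
    rcases List.mem_cons.1 hx with rfl | hx
    · exact h1
    · exact hl1 x hx

include hu

theorem Ls_gt {l : List G} (hl : l ∈ Ls u) : ∀ x ∈ l, 1 < x := fun x hx => hu x (hl x hx)

theorem Ls_pwo : (Ls u).PartiallyWellOrderedOn (List.SublistForall₂ (· ≤ ·)) :=
  Set.PartiallyWellOrderedOn.partiallyWellOrderedOn_sublistForall₂ (· ≤ ·) u.pwo

/-- the products of the lists -/
theorem W_pwo : {g | ∃ l ∈ Ls u, l.prod = g}.IsPWO := by
  rw [Set.IsPWO, Set.partiallyWellOrderedOn_iff_exists_lt]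
  intro f hf
  choose l hl hlf using hf
  obtain ⟨m, n, hmn, h⟩ := Set.partiallyWellOrderedOn_iff_exists_lt.1 (Ls_pwo hu) l hl
  refine ⟨m, n, hmn, ?_⟩
  rw [← hlf, ← hlf]
  rcases MN.prod_lt h (Ls_gt hu (hl n)) with h | h
  · rw [h]
  · exact h.le

theorem fin_pow (g : G) : {n : ℕ | (u ^ n).c g ≠ 0}.Finite := by
  by_contra hinf
  let f := Set.Infinite.natEmbedding _ hinf
  choose l hl1 hl2 hl3 using fun n => pow_ne (f n).2
  obtain ⟨m, n, hmn, h⟩ := Set.partiallyWellOrderedOn_iff_exists_lt.1 (Ls_pwo hu) l hl1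
  rcases MN.prod_lt h (Ls_gt hu (hl1 n)) with h | h
  · have h1 := congrArg List.length h
    rw [hl2, hl2] at h1
    have h2 := f.injective (Subtype.ext h1)
    omega
  · rw [hl3, hl3] at h
    exact lt_irrefl _ h

/-- the geometric series -/
def gs : CM C := ⟨fun g => ∑ᶠ n : ℕ, (u ^ n).c g, (W_pwo hu).mono fun g hg => by
  by_contra hne
  apply hg
  refine finsum_eq_zero_of_forall_eq_zero fun n => ?_
  by_contra h
  obtain ⟨l, h1, _, h2⟩ := pow_ne h
  exact hne ⟨l, h1, h2⟩⟩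

theorem gs_c (g : G) : (gs hu).c g = ∑ᶠ n : ℕ, (u ^ n).c g := rfl

theorem gs_ne {g : G} (h : (gs hu).c g ≠ 0) : ∃ l ∈ Ls u, l.prod = g := by
  by_contra hne
  apply h
  refine finsum_eq_zero_of_forall_eq_zero fun n => ?_
  by_contra h
  obtain ⟨l, h1, _, h2⟩ := pow_ne h
  exact hne ⟨l, h1, h2⟩

theorem gs_eq : gs hu = 1 + u * gs hu := by
  classical
  refine CM.ext (funext fun g => ?_)
  let A : Finset G := (MN.fin_anti u.pwo (W_pwo hu) g).toFinset
  let N : Finset ℕ := A.biUnion fun a => (fin_pow hu (a⁻¹ * g)).toFinset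
  have hA : ∀ a n, u.c a ≠ 0 → (u ^ n).c (a⁻¹ * g) ≠ 0 → a ∈ A := by
    intro a n ha hn
    rw [Set.Finite.mem_toFinset]
    obtain ⟨l, h1, _, h2⟩ := pow_ne hn
    exact ⟨ha, l, h1, h2⟩
  have h1 : (u * gs hu).c g = ∑ a ∈ A, ∑ n ∈ N, tm u (u ^ n) g a := by
    rw [mul_c, finsum_eq_sum_of_support_subset (s := A)]
    · refine Finset.sum_congr rfl fun a ha => ?_
      rw [tm, gs_c, map_finsum (C.σ a) (fin_pow hu _), mul_finsum', finsum_mul', finsum_eq_sum_of_support_subset (s := N)]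
      · refine Finset.sum_congr rfl fun n _ => rfl
      · intro n hn
        refine Finset.mem_biUnion.2 ⟨a, ha, ?_⟩
        rw [Set.Finite.mem_toFinset]
        exact (tm_ne (x := u) (y := u ^ n) (g := g) (a := a) hn).2
      · refine (fin_pow hu (a⁻¹ * g)).subset fun n hn => ?_
        have hn' : u.c a * C.σ a ((u ^ n).c (a⁻¹ * g)) ≠ 0 := hn
        intro h0
        exact right_ne_zero_of_mul hn' (by rw [h0, map_zero])
      · refine (fin_pow hu (a⁻¹ * g)).subset fun n hn => ?_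
        have hn' : C.σ a ((u ^ n).c (a⁻¹ * g)) ≠ 0 := hn
        intro h0
        exact hn' (by rw [h0, map_zero])
    · intro a ha
      obtain ⟨h2, h3⟩ := tm_ne ha
      rw [SetLike.mem_coe, Set.Finite.mem_toFinset]
      exact ⟨h2, gs_ne hu h3⟩
  have h2 : ∀ n, (u ^ (n + 1)).c g = ∑ a ∈ A, tm u (u ^ n) g a := by
    intro n
    rw [pow_succ', mul_c, finsum_eq_sum_of_support_subset (s := A)]
    intro a ha
    obtain ⟨h3, h4⟩ := tm_ne ha
    exact hA a n h3 h4
  obtain ⟨M, hM⟩ : ∃ M : ℕ, (∀ n, M ≤ n → (u ^ n).c g = 0) ∧ ∀ n ∈ N, n < M := by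
    obtain ⟨M1, h3⟩ := ((fin_pow hu g).toFinset ∪ N).exists_nat_subset_range
    refine ⟨M1, fun n hn => ?_, fun n hn => Finset.mem_range.1 (h3 (Finset.mem_union_right _ hn))⟩
    by_contra hne
    have := Finset.mem_range.1 (h3 (Finset.mem_union_left _ ((Set.Finite.mem_toFinset _).2 hne)))
    omega
  have h3 : (gs hu).c g = ∑ n ∈ Finset.range (M + 1), (u ^ n).c g := by
    rw [gs_c, finsum_eq_sum_of_support_subset]
    intro n hn
    rw [Finset.coe_range, Set.mem_Iio]
    by_contra hcon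
    exact hn (hM.1 n (by omega))
  have h4 : ∑ n ∈ N, ∑ a ∈ A, tm u (u ^ n) g a = ∑ n ∈ Finset.range M, ∑ a ∈ A, tm u (u ^ n) g a := by
    refine Finset.sum_subset (fun n hn => Finset.mem_range.2 (hM.2 n hn)) fun n _ hn => ?_
    refine Finset.sum_eq_zero fun a ha => ?_
    by_contra h5
    exact hn (Finset.mem_biUnion.2 ⟨a, ha, (Set.Finite.mem_toFinset _).2 (tm_ne h5).2⟩)
  rw [add_c, h1, Finset.sum_comm, h4, h3, Finset.sum_range_succ', add_comm]
  congr 1
  refine Finset.sum_congr rfl fun n _ => h2 n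

theorem mul_gs : (1 - u) * gs hu = 1 := by
  rw [sub_mul, one_mul, sub_eq_iff_eq_add]
  exact gs_eq hu

theorem gs_sub_pos : ∀ g, (-(u * gs hu)).c g ≠ 0 → 1 < g := by
  intro g hg
  rw [neg_c, neg_ne_zero] at hg
  obtain ⟨a, b, ha, hb, rfl⟩ := mul_ne hg
  obtain ⟨l, h1, rfl⟩ := gs_ne hu hb
  rcases MN.prod_gt (Ls_gt hu h1) with rfl | h
  · rw [List.prod_nil, mul_one]
    exact hu a ha
  · exact one_lt_mul'' (hu a ha) h

theorem gs_mul : gs hu * (1 - u) = 1 := by
  have h1 : 1 - (-(u * gs hu)) = gs hu := by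
    rw [sub_neg_eq_add]
    exact (gs_eq hu).symm
  have h2 := mul_gs (gs_sub_pos hu)
  rw [h1] at h2
  have h3 : 1 - u = gs (gs_sub_pos hu) := by
    calc 1 - u = (1 - u) * (gs hu * gs (gs_sub_pos hu)) := by rw [h2, mul_one]
      _ = (1 - u) * gs hu * gs (gs_sub_pos hu) := (mul_assoc _ _ _).symm
      _ = gs (gs_sub_pos hu) := by rw [mul_gs, one_mul]
  rw [h3]
  exact h2

end geom

/-- support in a subgroup -/
def In (N : Subgroup G) (x : CM C) : Prop := ∀ g, x.c g ≠ 0 → g ∈ N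

theorem In.add {N : Subgroup G} {x y : CM C} (hx : In N x) (hy : In N y) : In N (x + y) := by
  intro g hg
  by_cases h : x.c g = 0
  · refine hy g fun h2 => hg ?_
    rw [add_c, h, h2, add_zero]
  · exact hx g h

theorem In.neg {N : Subgroup G} {x : CM C} (hx : In N x) : In N (-x) := by
  intro g hg
  rw [neg_c, neg_ne_zero] at hg
  exact hx g hg

theorem In.mul {N : Subgroup G} {x y : CM C} (hx : In N x) (hy : In N y) : In N (x * y) := by
  intro g hg
  obtain ⟨a, b, ha, hb, rfl⟩ := mul_ne hg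
  exact N.mul_mem (hx a ha) (hy b hb)

theorem In.zero (N : Subgroup G) : In N (0 : CM C) := fun _ hg => absurd rfl hg

theorem In.sg {N : Subgroup G} {g : G} (hg : g ∈ N) (r : R) : In N (sg g r : CM C) := by
  intro h hh
  rw [sg_c] at hh
  by_cases h1 : h = g
  · rw [h1]
    exact hg
  · exact absurd (if_neg h1) hh

theorem In.one (N : Subgroup G) : In N (1 : CM C) := In.sg N.one_mem 1

/-- **units** -/
theorem unit_of_lead {x : CM C} {g₀ : G} (h0 : IsUnit (x.c g₀)) (hmin : ∀ g, g < g₀ → x.c g = 0) :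
    ∃ y, x * y = 1 ∧ y * x = 1 ∧ ∀ N : Subgroup G, g₀ ∈ N → In N x → In N y := by
  obtain ⟨r, hr⟩ := h0
  let m : CM C := linv g₀ r
  let m' : CM C := CM.sg g₀ (r : R)
  have hm' : m' * m = 1 := mul_linv g₀ r
  have hu : ∀ g, (1 - m * x).c g ≠ 0 → 1 < g := by
    intro g hg
    by_contra hcon
    push Not at hcon
    apply hg
    rw [sub_c, show (m * x).c g = _ from sg_mul_c _ _ _ _, inv_inv]
    rcases eq_or_lt_of_le hcon with rfl | h
    · rw [mul_one, ← hr, one_c, if_pos rfl]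
      have h1 : C.σ g₀⁻¹ (r : R) * (C.α g₀⁻¹ g₀ : R) = ((Units.map (C.σ g₀⁻¹ : R →* R) r * C.α g₀⁻¹ g₀ : Rˣ) : R) := by
        rw [Units.val_mul]
        rfl
      rw [mul_assoc, h1, Units.inv_mul, sub_self]
    · rw [hmin (g₀ * g) (mul_lt_of_lt_one_right' _ h), map_zero, mul_zero, zero_mul, one_c, if_neg h.ne, sub_self]
  have h1 := mul_gs hu
  have h2 := gs_mul hu
  rw [sub_sub_cancel] at h1 h2
  refine ⟨gs hu * m, ?_, ?_, ?_⟩
  · calc x * (gs hu * m) = m' * m * (x * (gs hu * m)) := by rw [hm', one_mul]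
      _ = m' * (m * x * gs hu) * m := by simp only [mul_assoc]
      _ = 1 := by rw [h1, mul_one, hm']
  · rw [mul_assoc]
    exact h2
  · intro N hN hx
    refine In.mul ?_ (In.sg (N.inv_mem hN) _)
    intro g hg
    obtain ⟨l, hl, rfl⟩ := gs_ne hu hg
    refine N.list_prod_mem fun y hy => ?_
    have h3 : In N (1 - m * x) := by
      rw [sub_eq_add_neg]
      exact (In.one N).add ((In.sg (N.inv_mem hN) _).mul hx).neg
    exact h3 y (hl y hy)

/-- the smallest element of the support -/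
theorem exists_lead {x : CM C} (hx : x ≠ 0) : ∃ g, x.c g ≠ 0 ∧ ∀ h, h < g → x.c h = 0 := by
  obtain ⟨g, hg⟩ : ∃ g, x.c g ≠ 0 := by
    by_contra hcon
    push Not at hcon
    exact hx (CM.ext (funext hcon))
  obtain ⟨m, hm⟩ := x.pwo.exists_minimal ⟨g, hg⟩
  refine ⟨m, hm.1, fun h hh => ?_⟩
  by_contra hne
  exact absurd (hm.2 hne hh.le) (not_le.2 hh)

end mul

end CM

end SQ.U
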