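import Pool.Agent.SQ.BO.Final
import Pool.Agent.SQ.BO.Van
import Pool.Agent.SQ.T2.Ultra2

/-!
# SQ/U: the ultraproduct of a sequence of lifts, and the vanishing theorem (row U5)

Page: team-store MP_984acc_UNION_h50.md.
-/

set_option autoImplicit false

noncomputable section

namespace SQ.U

open Filter SQ.Ultra SQ.T3 SQ.BO Singer Pool.Agent.Helper18.SQ

/-! ### the ultraproduct of rings -/

section ring
variable {I : Type} (U : Ultrafilter I) (L : I → Type) [∀ c, Ring (L c)]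

/-- eventual equality -/
def conR : RingCon (∀ c, L c) where
  r f g := ∀ᶠ c in (U : Filter I), f c = g c
  iseqv := ⟨fun _ => Eventually.of_forall fun _ => rfl, fun h => h.mono fun _ h => h.symm,
    fun h h' => by filter_upwards [h, h'] with c a b using a.trans b⟩
  mul' h h' := by filter_upwards [h, h'] with c a b using by simp only [Pi.mul_apply, a, b]
  add' h h' := by filter_upwards [h, h'] with c a b using by simp only [Pi.add_apply, a, b]

/-- the ultraproduct -/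
def UR : Type := (conR U L).Quotient

instance : Ring (UR U L) := inferInstanceAs (Ring (conR U L).Quotient)

/-- the class of a sequence -/
def mkR : (∀ c, L c) →+* UR U L := (conR U L).mk'

theorem mkR_surj : Function.Surjective (mkR U L) := (conR U L).mk'_surjective

variable {U L}

theorem mkR_eq {f g : ∀ c, L c} : mkR U L f = mkR U L g ↔ ∀ᶠ c in (U : Filter I), f c = g c :=
  (conR U L).eq

variable {D : I → Type} [∀ c, DivisionRing (D c)] (f : ∀ c, L c →+* D c)

/-- the homomorphism to an ultraproduct of skew fields -/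
def mapR : UR U L →+* UD U D :=
  (conR U L).lift ((mk U D).comp (RingHom.pi fun c => (f c).comp (Pi.evalRingHom L c))) (by
    intro x y h
    have h1 : ∀ᶠ c in (U : Filter I), x c = y c := h
    show mk U D (fun c => f c (x c)) = mk U D (fun c => f c (y c))
    rw [mk_eq]
    filter_upwards [h1] with c hc
    rw [hc])

theorem mapR_mk (x : ∀ c, L c) : mapR f (mkR U L x) = mk U D (fun c => f c (x c)) := rfl

theorem mapR_surj (hf : ∀ c, Function.Surjective (f c)) : Function.Surjective (mapR (U := U) f) := by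
  intro y
  obtain ⟨y, rfl⟩ := mk_surj U D y
  choose x hx using fun c => hf c (y c)
  exact ⟨mkR U L x, by rw [mapR_mk]; exact congrArg _ (funext hx)⟩

theorem mapR_unit (hf : ∀ c x, f c x ≠ 0 → IsUnit x) (x : UR U L) (hx : mapR f x ≠ 0) : IsUnit x := by
  classical
  obtain ⟨x, rfl⟩ := mkR_surj U L x
  rw [mapR_mk, mk_ne_zero] at hx
  have h1 : ∀ᶠ c in (U : Filter I), IsUnit (x c) := hx.mono fun c hc => hf c _ hc
  let z : ∀ c, L c := fun c => if h : IsUnit (x c) then ((h.unit⁻¹ : (L c)ˣ) : L c) else 0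
  have hz : ∀ c, IsUnit (x c) → x c * z c = 1 ∧ z c * x c = 1 := by
    intro c hc
    have h2 : z c = ((hc.unit⁻¹ : (L c)ˣ) : L c) := dif_pos hc
    rw [h2]
    exact ⟨hc.mul_val_inv, hc.val_inv_mul⟩
  refine ⟨⟨mkR U L x, mkR U L z, ?_, ?_⟩, rfl⟩
  · rw [← map_mul, ← map_one (mkR U L), mkR_eq]
    filter_upwards [h1] with c hc
    exact (hz c hc).1
  · rw [← map_mul, ← map_one (mkR U L), mkR_eq]
    filter_upwards [h1] with c hc
    exact (hz c hc).2

/-- the product homomorphism -/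
def homR {K : Type} [Group K] (u : ∀ c, K →* (L c)ˣ) : K →* (UR U L)ˣ :=
  MonoidHom.toHomUnits ((mkR U L : (∀ c, L c) →* UR U L).comp (MonoidHom.pi fun c => (Units.coeHom (L c)).comp (u c)))

theorem homR_val {K : Type} [Group K] (u : ∀ c, K →* (L c)ˣ) (g : K) :
    (((homR u : K →* (UR U L)ˣ) g : (UR U L)ˣ) : UR U L) = mkR U L (fun c => ((u c g : (L c)ˣ) : L c)) := rfl

end ring

section div
variable {I : Type} {U : Ultrafilter I} {D : I → Type} [∀ c, DivisionRing (D c)]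

instance charZero_UD [∀ c, CharZero (D c)] : CharZero (UD U D) where
  cast_injective a b h := by
    have h1 : mk U D (fun c => (a : D c)) = mk U D (fun c => (b : D c)) := by
      have e : ∀ n : ℕ, mk U D (fun c => (n : D c)) = (n : UD U D) := fun n => by
        rw [← map_natCast (mk U D) n]
        rfl
      rw [e, e]
      exact h
    rw [mk_eq] at h1
    obtain ⟨c, hc⟩ := h1.exists
    exact Nat.cast_injective hc

variable {K : Type} [Group K] (u : ∀ c, K →* (D c)ˣ)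

/-- the division closure in the ultraproduct -/
theorem cl_hom_le (N : Subgroup K) : cl (hom u : K →* (UD U D)ˣ) N ≤ sub fun c => cl (u c) N := by
  refine (Subfield.closure_le).2 ?_
  rintro _ ⟨g, hg, rfl⟩
  exact ⟨_, rfl, fun c => Subfield.subset_closure ⟨g, hg, rfl⟩⟩

open Classical in
/-- the independence in the ultraproduct -/
theorem ind_hom {N : Subgroup K} {t : K} (h : ∀ᶠ c in (U : Filter I), BO.Ind (u c) N t) :
    BO.Ind (hom u : K →* (UD U D)ˣ) N t := by
  intro c hc h0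
  choose f hf1 hf2 using fun v => cl_hom_le u N (hc v)
  have h1 : ∀ᶠ a in (U : Filter I), ∑ v ∈ c.support, f v a * ((u a t ^ v : (D a)ˣ) : D a) = 0 := by
    rw [← mk_eq_zero, ← h0, Finsupp.sum]
    have h2 : (fun a => ∑ v ∈ c.support, f v a * ((u a t ^ v : (D a)ˣ) : D a)) =
        ∑ v ∈ c.support, (f v * fun a => ((u a t ^ v : (D a)ˣ) : D a)) := by
      funext a
      rw [Finset.sum_apply]
      rfl
    rw [h2, map_sum]
    refine Finset.sum_congr rfl fun v _ => ?_
    rw [map_mul, hf1, ← map_zpow, hom_val]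
    congr 2
    funext a
    rw [map_zpow]
  have h3 : ∀ᶠ a in (U : Filter I), ∀ v ∈ c.support, f v a = 0 := by
    filter_upwards [h, h1] with a ha ha1
    have h4 := ha (Finsupp.onFinset c.support (fun v => if v ∈ c.support then f v a else 0) fun v hv => by
      by_contra h5
      exact hv (if_neg h5)) (fun v => by
      rw [Finsupp.onFinset_apply]
      split_ifs
      · exact hf2 v a
      · exact zero_mem _) (by
      rw [Finsupp.onFinset_sum _ (fun v => zero_mul _), ← ha1]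
      refine Finset.sum_congr rfl fun v hv => ?_
      rw [if_pos hv])
    intro v hv
    have h5 := DFunLike.congr_fun h4 v
    rw [Finsupp.onFinset_apply, if_pos hv, Finsupp.zero_apply] at h5
    exact h5
  ext v
  rw [Finsupp.zero_apply]
  by_cases hv : v ∈ c.support
  · rw [← hf1 v, mk_eq_zero]
    filter_upwards [h3] with a ha
    exact ha v hv
  · exact Finsupp.notMem_support_iff.1 hv

end div

/-! ### the opposite skew field -/

section op
variable {K : Type} [Group K] {E : Type} [DivisionRing E] {ρ : K →* Eˣ}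

theorem unop_mem {N : Subgroup K} {x : Eᵐᵒᵖ} (hx : x ∈ cl (opr ρ) N) : x.unop ∈ cl ρ N := by
  refine Subfield.closure_induction (p := fun x _ => MulOpposite.unop x ∈ cl ρ N) ?_ ?_ ?_ ?_ ?_ ?_ hx
  · rintro _ ⟨g, hg, rfl⟩
    show ((ρ g⁻¹ : Eˣ) : E) ∈ cl ρ N
    exact Subfield.subset_closure ⟨g⁻¹, inv_mem hg, rfl⟩
  · exact one_mem _
  · intro a b _ _ ha hb
    exact add_mem ha hb
  · intro a _ ha
    exact neg_mem ha
  · intro a _ ha
    exact inv_mem ha
  · intro a b _ _ ha hb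
    exact mul_mem hb ha

theorem conj_mem {N : Subgroup K} {g : K} (h : ∀ k ∈ N, g * k * g⁻¹ ∈ N) {x : E} (hx : x ∈ cl ρ N) :
    ((ρ g : Eˣ) : E) * x * ((ρ g⁻¹ : Eˣ) : E) ∈ cl ρ N := by
  have hinv : ((ρ g⁻¹ : Eˣ) : E) * ((ρ g : Eˣ) : E) = 1 := by
    rw [← Units.val_mul, ← map_mul, inv_mul_cancel, map_one, Units.val_one]
  have hinv' : ((ρ g : Eˣ) : E) * ((ρ g⁻¹ : Eˣ) : E) = 1 := by
    rw [← Units.val_mul, ← map_mul, mul_inv_cancel, map_one, Units.val_one]
  refine Subfield.closure_induction (p := fun x _ => ((ρ g : Eˣ) : E) * x * ((ρ g⁻¹ : Eˣ) : E) ∈ cl ρ N)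
    ?_ ?_ ?_ ?_ ?_ ?_ hx
  · rintro _ ⟨k, hk, rfl⟩
    show ((ρ g : Eˣ) : E) * ((ρ k : Eˣ) : E) * ((ρ g⁻¹ : Eˣ) : E) ∈ cl ρ N
    rw [← Units.val_mul, ← Units.val_mul, ← map_mul, ← map_mul]
    exact Subfield.subset_closure ⟨_, h k hk, rfl⟩
  · rw [mul_one, hinv']
    exact one_mem _
  · intro a b _ _ ha hb
    rw [mul_add, add_mul]
    exact add_mem ha hb
  · intro a _ ha
    rw [mul_neg, neg_mul]
    exact neg_mem ha
  · intro a _ ha
    have h1 : ((ρ g : Eˣ) : E) * a⁻¹ * ((ρ g⁻¹ : Eˣ) : E) = (((ρ g : Eˣ) : E) * a * ((ρ g⁻¹ : Eˣ) : E))⁻¹ := by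
      rw [mul_inv_rev, mul_inv_rev, ← Units.val_inv_eq_inv_val, ← Units.val_inv_eq_inv_val, ← map_inv, ← map_inv, inv_inv,
        mul_assoc]
    rw [h1]
    exact inv_mem ha
  · intro a b _ _ ha hb
    have h1 : ((ρ g : Eˣ) : E) * (a * b) * ((ρ g⁻¹ : Eˣ) : E) =
        (((ρ g : Eˣ) : E) * a * ((ρ g⁻¹ : Eˣ) : E)) * (((ρ g : Eˣ) : E) * b * ((ρ g⁻¹ : Eˣ) : E)) := by
      have h2 : ((ρ g : Eˣ) : E) * a * ((ρ g⁻¹ : Eˣ) : E) * (((ρ g : Eˣ) : E) * b * ((ρ g⁻¹ : Eˣ) : E)) =
          ((ρ g : Eˣ) : E) * a * (((ρ g⁻¹ : Eˣ) : E) * ((ρ g : Eˣ) : E)) * b * ((ρ g⁻¹ : Eˣ) : E) := by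
        simp only [mul_assoc]
      rw [h2, hinv, mul_one]
      simp only [mul_assoc]
    rw [h1]
    exact mul_mem ha hb

/-- the independence for the opposite skew field -/
theorem ind_op {H N : Subgroup K} {t : K} (hz : ZP H N t) (hI : BO.Ind ρ N t) : BO.Ind (opr ρ) N t := by
  classical
  intro c hc h0
  have hconj : ∀ (u : ℤ) (k : K), k ∈ N → t ^ u * k * (t ^ u)⁻¹ ∈ N := fun u k hk => hz.conj _ (H.zpow_mem hz.mem u) k hk
  let b : ℤ → E := fun u => ((ρ (t ^ u) : Eˣ) : E) * (c (-u)).unop * ((ρ (t ^ u)⁻¹ : Eˣ) : E)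
  have hb : ∀ u, b u ≠ 0 → u ∈ c.support.image (fun v => -v) := by
    intro u hu
    refine Finset.mem_image.2 ⟨-u, Finsupp.mem_support_iff.2 fun h => hu ?_, neg_neg u⟩
    show ((ρ (t ^ u) : Eˣ) : E) * (c (-u)).unop * ((ρ (t ^ u)⁻¹ : Eˣ) : E) = 0
    rw [h, MulOpposite.unop_zero, mul_zero, zero_mul]
  have h1 := hI (Finsupp.onFinset (c.support.image (fun v => -v)) b hb) (fun u => by
      rw [Finsupp.onFinset_apply]
      exact conj_mem (hconj u) (unop_mem (hc (-u)))) (by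
      rw [Finsupp.onFinset_sum _ (fun v => zero_mul _), Finset.sum_image (fun _ _ _ _ h => neg_injective h)]
      have h2 := congrArg MulOpposite.unop h0
      rw [Finsupp.sum, Finset.unop_sum, MulOpposite.unop_zero] at h2
      rw [← h2]
      refine Finset.sum_congr rfl fun v _ => ?_
      show ((ρ (t ^ (-v)) : Eˣ) : E) * (c (- -v)).unop * ((ρ (t ^ (-v))⁻¹ : Eˣ) : E) * ((ρ t ^ (-v) : Eˣ) : E) = _
      rw [MulOpposite.unop_mul, ← map_zpow (opr ρ), opr_val, MulOpposite.unop_op, mul_assoc, ← map_zpow ρ, ← Units.val_mul,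
        ← map_mul, inv_mul_cancel, map_one, Units.val_one, mul_one, neg_neg, zpow_neg])
  ext v
  have h3 := DFunLike.congr_fun h1 (-v)
  rw [Finsupp.onFinset_apply, Finsupp.zero_apply] at h3
  have h4 : ((ρ (t ^ (-v)) : Eˣ) : E) * (c (- -v)).unop * ((ρ (t ^ (-v))⁻¹ : Eˣ) : E) = 0 := h3
  rw [neg_neg, mul_eq_zero, mul_eq_zero] at h4
  have h5 : (c v).unop = 0 := by
    rcases h4 with (h4 | h4) | h4
    · exact absurd h4 (Units.ne_zero _)
    · exact h4
    · exact absurd h4 (Units.ne_zero _)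
  exact MulOpposite.unop_injective h5

end op

/-! ### local independence -/

section loc
variable {K : Type} [Group K]

/-- the restriction to the skew field generated by the group -/
theorem ind_sub {E : Type} [DivisionRing E] {ρ : K →* Eˣ} {N : Subgroup K} {t : K} (hI : BO.Ind ρ N t) : BO.Ind (sρ ρ) N t := by
  intro c hc h0
  have h1 := hI (c.mapRange (val ρ) (map_zero _)) (fun u => by
      rw [Finsupp.mapRange_apply, ← map_cl]
      exact ⟨c u, hc u, rfl⟩) (by
      rw [Finsupp.sum_mapRange_index (fun u => zero_mul _)]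
      have h2 := congrArg (val ρ) h0
      rw [map_zero, Finsupp.sum, map_sum] at h2
      rw [← h2, Finsupp.sum]
      refine Finset.sum_congr rfl fun u _ => ?_
      rw [map_mul, ← map_zpow (sρ ρ), val_sρ, map_zpow])
  ext u
  have h2 := DFunLike.congr_fun h1 u
  rw [Finsupp.mapRange_apply, Finsupp.zero_apply] at h2
  rw [Finsupp.zero_apply]
  exact val_inj ρ (h2.trans (map_zero _).symm)

variable {E₁ E₂ : Type} [DivisionRing E₁] [DivisionRing E₂] {ρ₁ : K →* E₁ˣ} {ρ₂ : K →* E₂ˣ}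

theorem loc_left (h : T5.Loc ρ₁ ρ₂) : T5.Loc ρ₁ ρ₁ := fun S hS hne => by
  obtain ⟨N, t, h1, h2, -⟩ := h S hS hne
  exact ⟨N, t, h1, h2, h2⟩

theorem loc_right (h : T5.Loc ρ₁ ρ₂) : T5.Loc ρ₂ ρ₂ := fun S hS hne => by
  obtain ⟨N, t, h1, -, h2⟩ := h S hS hne
  exact ⟨N, t, h1, h2, h2⟩

theorem loc_sub (h : T5.Loc ρ₁ ρ₁) : T5.Loc (sρ ρ₁) (sρ ρ₁) := fun S hS hne => by
  obtain ⟨N, t, h1, h2, -⟩ := h S hS hne
  exact ⟨N, t, h1, ind_sub h2, ind_sub h2⟩

theorem loc_op (h : T5.Loc ρ₁ ρ₁) : T5.Loc (opr ρ₁) ρ₁ := fun S hS hne => by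
  obtain ⟨N, t, h1, h2, -⟩ := h S hS hne
  exact ⟨N, t, h1, ind_op h1 h2, h2⟩

theorem loc_opop (h : T5.Loc ρ₁ ρ₁) : T5.Loc (opr (opr ρ₁)) (opr ρ₁) := fun S hS hne => by
  obtain ⟨N, t, h1, h2, -⟩ := h S hS hne
  exact ⟨N, t, h1, ind_op h1 (ind_op h1 h2), ind_op h1 h2⟩

/-- there is no involution -/
theorem noInv_of_loc (h : T5.Loc ρ₁ ρ₂) : ∀ g : K, g * g = 1 → g = 1 := by
  intro g hg
  by_contra hne
  obtain ⟨N, t, hz, -, -⟩ := h (Subgroup.zpowers g) ⟨{g}, by rw [Finset.coe_singleton, Subgroup.zpowers_eq_closure]⟩ fun h1 =>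
    hne (Subgroup.zpowers_eq_bot.1 h1)
  obtain ⟨k, hk⟩ := Subgroup.mem_zpowers_iff.1 hz.mem
  have h2 : t ^ (2 : ℤ) = 1 := by
    rw [← hk, ← zpow_mul, mul_comm k 2, zpow_mul, zpow_two, hg, one_zpow]
  have h3 := hz.inf 2 (by rw [h2]; exact one_mem _)
  omega

/-- **the vanishing for a locally independent skew field of characteristic two** -/
theorem ex_of_loc {K : Type} [Group K] {D : Type} [DivisionRing D] [Algebra (ZMod 2) D] {ρ : K →* Dˣ} (h : T5.Loc ρ ρ) {n : ℕ}
    (hn : IsPD n K) (R : FinRes K) (i : ℕ) (hi : 2 * i ≠ n) : Ex (lmul ρ) R i := by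
  have hs := loc_sub h
  have htop := cl_top ρ
  have hid : Function.Injective (MonoidHom.id K) := Function.injective_id
  refine ex_base ρ R i (stmtVan K (noInv_of_loc h) (SF ρ) (sρ ρ) n hn R (fun j => ?_) (fun j => ?_) i hi)
  · exact torF K K (MonoidHom.id K) hid _ _ (opr (sρ ρ)) (sρ ρ) (cl_opr_top htop) htop (allFam_of_loc (loc_op hs))
      (allCos_of_loc (loc_op hs)) R j
  · exact torF K K (MonoidHom.id K) hid _ _ (opr (opr (sρ ρ))) (opr (sρ ρ)) (cl_opr_top (cl_opr_top htop)) (cl_opr_top htop)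
      (allFam_of_loc (loc_opop hs)) (allCos_of_loc (loc_opop hs)) R j

/-- **the vanishing of the `ℓ²`-homology from a lift** -/
theorem vanE_of_lift {K : Type} [Group K] {L D F : Type} [Ring L] [DivisionRing D] [Algebra (ZMod 2) D] [DivisionRing F]
    [CharZero F] (red : L →+* D) (hs : Function.Surjective red) (hu : ∀ x, red x ≠ 0 → IsUnit x) (inc : L →+* F)
    (lam : K →* Lˣ) (σ : K →* Dˣ) (ρ : K →* Fˣ) (hσ : ∀ g, red (lam g : Lˣ) = ((σ g : Dˣ) : D))
    (hρ : ∀ g, inc (lam g : Lˣ) = ((ρ g : Fˣ) : F)) (h : T5.Loc σ ρ) {n : ℕ} (hn : IsPD n K) (R : FinRes K) (i : ℕ)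
    (hi : 2 * i ≠ n) : R.VanE i := by
  have h2 : T5.Loc ρ ρ := loc_right h
  refine vanE_of_fam R i red hu hs inc lam σ ρ ρ hσ hρ (allCos_of_loc h2 ⊥ ⊤ bot_le) (fun X hX hX' => ?_)
    (ex_of_loc (loc_left h) hn R i hi)
  exact fam_of_loc h2 hX hX'

end loc

/-! ### sequences of lifts -/

/-- a sequence of lifts which is locally independent in the limit -/
structure SeqD (K : Type) [Group K] where
  /-- the local rings -/
  L : ℕ → Type
  /-- the residue fields, of characteristic two -/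
  D : ℕ → Type
  /-- the skew fields of characteristic zero -/
  F : ℕ → Type
  rL : ∀ c, Ring (L c)
  dD : ∀ c, DivisionRing (D c)
  aD : ∀ c, Algebra (ZMod 2) (D c)
  dF : ∀ c, DivisionRing (F c)
  zF : ∀ c, CharZero (F c)
  red : ∀ c, L c →+* D c
  surj : ∀ c, Function.Surjective (red c)
  unit : ∀ c x, red c x ≠ 0 → IsUnit x
  inc : ∀ c, L c →+* F c
  lam : ∀ c, K →* (L c)ˣ
  loc : ∀ S : Subgroup K, S.FG → S ≠ ⊥ → ∃ (N : Subgroup K) (t : K), ZP S N t ∧
    ∀ᶠ c in atTop, BO.Ind ((Units.map (red c : L c →* D c)).comp (lam c)) N t ∧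
      BO.Ind ((Units.map (inc c : L c →* F c)).comp (lam c)) N t

attribute [instance] SeqD.rL SeqD.dD SeqD.aD SeqD.dF SeqD.zF

section seq
variable {K : Type} [Group K]

/-- the local independence in the ultraproduct -/
theorem SeqD.loc_ultra (A : SeqD K) :
    T5.Loc (hom fun c => (Units.map (A.red c : A.L c →* A.D c)).comp (A.lam c) : K →* (UD T2.U0 A.D)ˣ)
      (hom fun c => (Units.map (A.inc c : A.L c →* A.F c)).comp (A.lam c) : K →* (UD T2.U0 A.F)ˣ) := by
  intro S hS hne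
  obtain ⟨N, t, hz, h⟩ := A.loc S hS hne
  have h1 : ∀ᶠ c in (T2.U0 : Filter ℕ), BO.Ind ((Units.map (A.red c : A.L c →* A.D c)).comp (A.lam c)) N t ∧
      BO.Ind ((Units.map (A.inc c : A.L c →* A.F c)).comp (A.lam c)) N t := by
    rw [← Nat.cofinite_eq_atTop] at h
    exact Filter.hyperfilter_le_cofinite h
  exact ⟨N, t, hz, ind_hom _ (h1.mono fun _ hc => hc.1), ind_hom _ (h1.mono fun _ hc => hc.2)⟩

/-- **the vanishing theorem for a sequence of lifts** -/
theorem vanE_of_seq (A : SeqD K) {n : ℕ} (hn : IsPD n K) (R : FinRes K) (i : ℕ) (hi : 2 * i ≠ n) : R.VanE i :=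
  vanE_of_lift (L := UR T2.U0 A.L) (D := UD T2.U0 A.D) (F := UD T2.U0 A.F) (mapR A.red) (mapR_surj A.red A.surj)
    (mapR_unit A.red A.unit) (mapR A.inc) (homR A.lam) (hom fun c => (Units.map (A.red c : A.L c →* A.D c)).comp (A.lam c))
    (hom fun c => (Units.map (A.inc c : A.L c →* A.F c)).comp (A.lam c)) (fun _ => rfl) (fun _ => rfl) A.loc_ultra hn R i hi

/-- **the same for a group with a subgroup of finite index which has a sequence of lifts** -/
theorem vanE_virtual_of_seq {Γ : Type} [Group Γ] (H : Subgroup Γ) [hH : H.FiniteIndex] (hA : Countable H → Nonempty (SeqD H))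
    {n : ℕ} (hPD : IsPD n Γ ∨ IsPD n H) (R : FinRes Γ) (i : ℕ) (hi : 2 * i ≠ n) : R.VanE i :=
  FinRes.vanE_of_index H (fun R' => by
    obtain ⟨A⟩ := hA (T2.countable_of_finRes R')
    exact vanE_of_seq A (hPD.elim (fun h => h.of_finiteIndex H) id) R' i hi) R

end seq

end SQ.U
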