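import Pool.Agent.SQ.U.Frac
import Pool.Agent.SQ.U.Seq

/-!
# SQ/U: the vanishing theorem for the groups which are residually in the class, from the row U3
-/

set_option autoImplicit false

noncomputable section

namespace SQ.U

open Filter Singer SQ.T3 SQ.T5 SQ.BO

/-- **U3** coefficient rings for the extensions of bi-orderable groups -/
def StmtExt : Prop :=
  ∀ (Q B : Type) [Group Q] [Group B] (q : Q →* B), Function.Surjective q → BiOrd B → Coef q.ker → Nonempty (CoefW Q)

/-- the sequence of lifts -/
theorem exists_seqD (hE : StmtExt) {K : Type} [Group K] [Countable K] (hK : ResC K) : Nonempty (SeqD K) := by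
  obtain ⟨A⟩ := exists_seq hK
  have hW : ∀ c, Nonempty (CoefW (A.G c)) := fun c => by
    obtain ⟨C⟩ := exists_coef' (A.al c).foe (A.al c).li
    exact hE _ _ (A.q c) (A.surj c) (A.ord c) C
  let W : ∀ c, CoefW (A.G c) := fun c => (hW c).some
  choose D F iD iF iA iC π j hπs hπu hj hI using fun c => (W c).exists_frac
  exact ⟨
    { L := fun c => (W c).R
      D := D
      F := F
      rL := fun c => inferInstance
      dD := iD
      aD := iA
      dF := iF
      zF := iC
      red := π
      surj := hπs
      unit := hπu
      inc := j
      lam := fun c => (W c).l.comp (A.P c)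
      loc := fun S hS hne => A.loc_ind (fun c => (W c).up (π c)) (fun c => (W c).up (j c))
        (fun c N t h => hI c N t (PInd.of_map (A.q c) h)) (fun c N t _ _ h => hI c N t h) S hS hne }⟩

/-- **the vanishing theorem**, from the row U3: the Poincare duality groups with a subgroup of finite index which is residually
((amenable and locally indicable)-by-(bi-orderable)) -/
theorem vanE_virtual_resC_of (hE : StmtExt) {Γ : Type} [Group Γ] (H : Subgroup Γ) [H.FiniteIndex] (hH : ResC H) {n : ℕ}
    (hPD : IsPD n Γ ∨ IsPD n H) (R : FinRes Γ) (i : ℕ) (hi : 2 * i ≠ n) : R.VanE i :=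
  vanE_virtual_of_seq H (fun hc => @exists_seqD hE H _ hc hH) hPD R i hi

end SQ.U
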