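import Pool.Agent.SQ.U.Seq

/-!
# SQ/U, stage 7, row H4: 2-local rings of ultraproducts

* `exists_sep`: the quotient of a 2-local ring by the intersection of the powers of 2;
* `mapR_ker`, `tf_UR`: the ultraproduct of 2-local rings.
-/

set_option autoImplicit false

noncomputable section

namespace SQ.U

open Filter SQ.Ultra SQ.T3 SQ.BO Singer

section sep
variable {L D : Type} [Ring L] [DivisionRing D] (red : L →+* D)

theorem pow_tf' {L : Type} [Ring L] (tf : ∀ x : L, 2 * x = 0 → x = 0) (m : ℕ) (x : L) (h : 2 ^ m * x = 0) : x = 0 := by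
  induction m with
  | zero => rwa [pow_zero, one_mul] at h
  | succ m ih =>
    rw [pow_succ', mul_assoc] at h
    exact ih (tf _ h)

theorem pow_comm' {L : Type} [Ring L] (m : ℕ) (x y : L) : x * (2 ^ m * y) = 2 ^ m * (x * y) := by
  have h := Nat.cast_commute (2 ^ m) x
  push_cast at h
  rw [← mul_assoc, ← h.eq, mul_assoc]

/-- the elements which are divisible by all powers of 2 -/
def J2 (L : Type) [Ring L] : Ideal L where
  carrier := {x | ∀ k : ℕ, ∃ y, x = 2 ^ k * y}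
  add_mem' := by
    intro a b ha hb k
    obtain ⟨x, rfl⟩ := ha k
    obtain ⟨y, rfl⟩ := hb k
    exact ⟨x + y, by rw [mul_add]⟩
  zero_mem' k := ⟨0, by rw [mul_zero]⟩
  smul_mem' := by
    intro c a ha k
    obtain ⟨x, rfl⟩ := ha k
    exact ⟨c * x, pow_comm' k c x⟩

theorem mem_J2 {L : Type} [Ring L] {x : L} : x ∈ J2 L ↔ ∀ k : ℕ, ∃ y, x = 2 ^ k * y := Iff.rfl

instance (L : Type) [Ring L] : (J2 L).IsTwoSided := ⟨by
  intro a b ha k
  obtain ⟨x, rfl⟩ := ha k
  exact ⟨x * b, mul_assoc _ _ _⟩⟩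

/-- the quotient by the elements which are divisible by all powers of 2 -/
theorem exists_sep (surj : Function.Surjective red) (unit : ∀ x, red x ≠ 0 → IsUnit x)
    (ker : ∀ x, red x = 0 ↔ ∃ y, x = 2 * y) (tf : ∀ x : L, 2 * x = 0 → x = 0) :
    ∃ (R : Type) (_ : Ring R) (q : L →+* R) (red' : R →+* D), Function.Surjective q ∧ red'.comp q = red ∧
      Function.Surjective red' ∧ (∀ x, red' x ≠ 0 → IsUnit x) ∧ (∀ x, red' x = 0 ↔ ∃ y, x = 2 * y) ∧
      (∀ x : R, 2 * x = 0 → x = 0) ∧ ∀ x : R, (∀ k : ℕ, ∃ y, x = 2 ^ k * y) → x = 0 := by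
  have hJ : ∀ a ∈ J2 L, red a = 0 := by
    intro a ha
    obtain ⟨y, hy⟩ := ha 1
    exact (ker a).2 ⟨y, by rw [hy, pow_one]⟩
  let q : L →+* L ⧸ J2 L := Ideal.Quotient.mk (J2 L)
  have hq : Function.Surjective q := Ideal.Quotient.mk_surjective
  have hq0 : ∀ x, q x = 0 ↔ x ∈ J2 L := fun x => Ideal.Quotient.eq_zero_iff_mem
  let r : L ⧸ J2 L →+* D := Ideal.Quotient.lift (J2 L) red hJ
  have hr : ∀ x, r (q x) = red x := fun x => Ideal.Quotient.lift_mk (J2 L) red hJ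
  have htf : ∀ x : L ⧸ J2 L, 2 * x = 0 → x = 0 := by
    intro x hx
    obtain ⟨x, rfl⟩ := hq x
    have h1 : (2 : L) * x ∈ J2 L := by
      rw [← hq0, map_mul, map_ofNat]
      exact hx
    rw [hq0]
    intro k
    obtain ⟨y, hy⟩ := h1 (k + 1)
    refine ⟨y, ?_⟩
    rw [← sub_eq_zero]
    apply tf
    rw [mul_sub, hy, pow_succ', mul_assoc, sub_self]
  refine ⟨L ⧸ J2 L, inferInstance, q, r, hq, RingHom.ext hr, ?_, ?_, ?_, htf, ?_⟩
  · intro d
    obtain ⟨x, hx⟩ := surj d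
    exact ⟨q x, by rw [hr, hx]⟩
  · intro x hx
    obtain ⟨x, rfl⟩ := hq x
    rw [hr] at hx
    exact (unit x hx).map q
  · intro x
    obtain ⟨x, rfl⟩ := hq x
    rw [hr, ker]
    constructor
    · rintro ⟨y, rfl⟩
      exact ⟨q y, by rw [map_mul, map_ofNat]⟩
    · rintro ⟨y, hy⟩
      obtain ⟨y, rfl⟩ := hq y
      have h1 : x - 2 * y ∈ J2 L := by
        rw [← hq0, map_sub, map_mul, map_ofNat, hy, sub_self]
      obtain ⟨z, hz⟩ := h1 1
      exact ⟨y + z, by rw [mul_add, ← pow_one (2 : L), ← hz, pow_one, add_sub_cancel]⟩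
  · intro x hx
    obtain ⟨x, rfl⟩ := hq x
    rw [hq0]
    intro k
    obtain ⟨y, hy⟩ := hx k
    obtain ⟨y, rfl⟩ := hq y
    have h1 : x - 2 ^ k * y ∈ J2 L := by
      rw [← hq0, map_sub, map_mul, map_pow, map_ofNat, hy, sub_self]
    obtain ⟨z, hz⟩ := h1 k
    exact ⟨y + z, by rw [mul_add, ← hz, add_sub_cancel]⟩

end sep

section ultra
variable {I : Type} {U : Ultrafilter I} {L D : I → Type} [∀ c, Ring (L c)] [∀ c, DivisionRing (D c)]
  (f : ∀ c, L c →+* D c)

theorem mapR_ker (ker : ∀ c x, f c x = 0 ↔ ∃ y, x = 2 * y) (x : UR U L) :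
    mapR (U := U) f x = 0 ↔ ∃ y, x = 2 * y := by
  classical
  constructor
  · intro hx
    obtain ⟨x, rfl⟩ := mkR_surj U L x
    rw [mapR_mk, mk_eq_zero] at hx
    let y : ∀ c, L c := fun c => if h : f c (x c) = 0 then ((ker c (x c)).1 h).choose else 0
    refine ⟨mkR U L y, ?_⟩
    rw [← map_ofNat (mkR U L) 2, ← map_mul, mkR_eq]
    filter_upwards [hx] with c hc
    have h1 : y c = ((ker c (x c)).1 hc).choose := dif_pos hc
    show x c = (2 : L c) * y c
    rw [h1]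
    exact ((ker c (x c)).1 hc).choose_spec
  · rintro ⟨y, rfl⟩
    obtain ⟨y, rfl⟩ := mkR_surj U L y
    rw [← map_ofNat (mkR U L) 2, ← map_mul, mapR_mk, mk_eq_zero]
    exact Eventually.of_forall fun c => (ker c _).2 ⟨y c, rfl⟩

omit [∀ c, DivisionRing (D c)] in
theorem tf_UR (tf : ∀ c (x : L c), 2 * x = 0 → x = 0) (x : UR U L) (h : 2 * x = 0) : x = 0 := by
  obtain ⟨x, rfl⟩ := mkR_surj U L x
  rw [← map_ofNat (mkR U L) 2, ← map_mul, ← map_zero (mkR U L), mkR_eq] at h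
  rw [← map_zero (mkR U L), mkR_eq]
  filter_upwards [h] with c hc
  exact tf c _ hc

end ultra

end SQ.U
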