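import Pool.Agent.SQ.U.WDef
import Pool.Agent.SQ.U.SeqW
import Pool.Agent.SQ.U.Apx

/-!
# SQ/U, stage 7, rows H4 and H5: the class of groups, the residual step, the assembly

* `WD.restr`: W-data of subgroups; `WD.ultra`: W-data from ultraproducts;
* `P K`: `K` is locally indicable (in the form of pairs) and has a W-datum;
* `HH`: the smallest class of groups closed under extensions by bi-orderable or (amenable and locally indicable) quotients and
  residually;
* `HH.p`: all groups of the class have the property `P`, if `P` is closed under the two kinds of extensions.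
-/

set_option autoImplicit false

noncomputable section

namespace SQ.U

open Filter SQ.Ultra SQ.T3 SQ.T5 SQ.BO Singer

/-! ### local indicability -/

/-- local indicability: all nontrivial finitely generated subgroups have pairs -/
def LZ (K : Type) [Group K] : Prop := ∀ S : Subgroup K, S.FG → S ≠ ⊥ → ∃ (N : Subgroup K) (t : K), ZP S N t

theorem LZ.of_li {K : Type} [Group K] (h : LI K) : LZ K := by
  intro S hS hne
  obtain ⟨χ, s, hs⟩ := h S hS hne
  obtain ⟨t, ht⟩ := zp_of_chi S χ ⟨s, hs⟩
  exact ⟨_, t, ht⟩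

theorem LZ.of_biOrd {K : Type} [Group K] (h : BiOrd K) : LZ K := stmtLI K h

theorem LZ.of_res {K : Type} [Group K] (h : ∀ g : K, g ≠ 1 → ∃ (Q : Type) (_ : Group Q) (π : K →* Q), LZ Q ∧ π g ≠ 1) :
    LZ K := by
  intro S hS hne
  obtain ⟨g, hg, hg1⟩ : ∃ g ∈ S, g ≠ 1 := by
    by_contra hcon
    push Not at hcon
    exact hne ((Subgroup.eq_bot_iff_forall S).2 hcon)
  obtain ⟨Q, _, π, hQ, hπ⟩ := h g hg1
  obtain ⟨N', t', h'⟩ := hQ (S.map π) (fg_map hS π) (by
    intro h0
    have h1 : π g ∈ S.map π := Subgroup.mem_map_of_mem π hg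
    rw [h0, Subgroup.mem_bot] at h1
    exact hπ h1)
  obtain ⟨N, t, hz, -, -⟩ := exists_zp_of_map S π h'
  exact ⟨N, t, hz⟩

theorem LZ.of_injective {Q Q' : Type} [Group Q] [Group Q'] (h : LZ Q) (f : Q' →* Q) (hf : Function.Injective f) : LZ Q' :=
  LZ.of_res fun _ hg => ⟨Q, inferInstance, f, h, fun h1 => hg (hf (h1.trans (map_one f).symm))⟩

theorem zp_map {K K' : Type} [Group K] [Group K'] {S N : Subgroup K} {t : K} (h : ZP S N t) (f : K →* K')
    (hf : Function.Injective f) : ZP (S.map f) (N.map f) (f t) := by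
  refine ⟨Subgroup.map_mono h.le, ⟨t, h.mem, rfl⟩, ?_, ?_, ?_⟩
  · rintro _ ⟨g, hg, rfl⟩ _ ⟨x, hx, rfl⟩
    exact ⟨g * x * g⁻¹, h.conj g hg x hx, by rw [map_mul, map_mul, map_inv]⟩
  · rintro _ ⟨g, hg, rfl⟩
    obtain ⟨n, hn⟩ := h.gen g hg
    exact ⟨n, g * t ^ (-n), hn, by rw [map_mul, map_zpow]⟩
  · rintro n ⟨x, hx, hxn⟩
    rw [← map_zpow] at hxn
    exact h.inf n (hf hxn ▸ hx)

theorem LZ.of_ext {K : Type} [Group K] (N : Subgroup K) [N.Normal] (h1 : LZ N) (h2 : LZ (K ⧸ N)) : LZ K := by
  intro S hS hne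
  by_cases hc : S.map (QuotientGroup.mk' N) = ⊥
  · have hle : S ≤ N := by
      intro x hx
      have h3 : QuotientGroup.mk' N x ∈ S.map (QuotientGroup.mk' N) := Subgroup.mem_map_of_mem _ hx
      rw [hc, Subgroup.mem_bot] at h3
      exact (QuotientGroup.eq_one_iff x).1 h3
    have hmap : (S.subgroupOf N).map N.subtype = S := by
      rw [Subgroup.subgroupOf_map_subtype, inf_eq_left.2 hle]
    have hfg : (S.subgroupOf N).FG := by
      have e := Subgroup.subgroupOfEquivOfLe hle
      have h3 : Group.FG S := (Group.fg_iff_subgroup_fg S).2 hS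
      have h4 : Group.FG (S.subgroupOf N) := Group.fg_of_surjective (f := e.symm.toMonoidHom) e.symm.surjective
      exact (Group.fg_iff_subgroup_fg _).1 h4
    obtain ⟨N', t', h'⟩ := h1 (S.subgroupOf N) hfg (by
      intro h0
      apply hne
      rw [← hmap, h0, Subgroup.map_bot])
    have h3 := zp_map h' N.subtype N.subtype_injective
    rw [hmap] at h3
    exact ⟨_, _, h3⟩
  · obtain ⟨N', t', h'⟩ := h2 (S.map (QuotientGroup.mk' N)) (fg_map hS _) hc
    obtain ⟨N'', t, hz, -, -⟩ := exists_zp_of_map S (QuotientGroup.mk' N) h'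
    exact ⟨N'', t, hz⟩

/-- the homomorphism to the integers of a pair -/
theorem LZ.li {K : Type} [Group K] (h : LZ K) : LI K := by
  intro S hS hne
  obtain ⟨N, t, hz⟩ := h S hS hne
  choose n hn using fun g : S => hz.gen (g : K) g.2
  have huniq : ∀ (g : S) (m : ℤ), (g : K) * t ^ (-m) ∈ N → n g = m := by
    intro g m hm
    have h1 : ((g : K) * t ^ (-n g))⁻¹ * ((g : K) * t ^ (-m)) ∈ N := N.mul_mem (N.inv_mem (hn g)) hm
    have h2 : ((g : K) * t ^ (-n g))⁻¹ * ((g : K) * t ^ (-m)) = t ^ (n g - m) := by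
      rw [mul_inv_rev, mul_assoc, inv_mul_cancel_left, ← zpow_neg, neg_neg, ← zpow_add, sub_eq_add_neg]
    rw [h2] at h1
    have := hz.inf _ h1
    omega
  have hmul : ∀ g g' : S, n (g * g') = n g + n g' := by
    intro g g'
    apply huniq
    have h1 : ((g * g' : S) : K) * t ^ (-(n g + n g')) =
        ((g : K) * t ^ (-n g)) * (t ^ (n g) * ((g' : K) * t ^ (-n g')) * (t ^ (n g))⁻¹) := by
      rw [Subgroup.coe_mul, neg_add_rev, zpow_add]
      have h2 : t ^ (-n g) * t ^ (n g) = 1 := by rw [← zpow_add, neg_add_cancel, zpow_zero]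
      simp only [mul_assoc]
      rw [← mul_assoc (t ^ (-n g)) (t ^ (n g)), h2, one_mul, zpow_neg t (n g)]
    rw [h1]
    exact N.mul_mem (hn g) (hz.conj _ (S.zpow_mem hz.mem _) _ (hn g'))
  refine ⟨{ toFun := fun g => Multiplicative.ofAdd (n g)
            map_one' := ?_
            map_mul' := fun g g' => by rw [hmul, ofAdd_add] }, ⟨t, hz.mem⟩, ?_⟩
  · have h1 := hmul 1 1
    rw [mul_one] at h1
    have h2 : n 1 = 0 := by omega
    rw [h2]
    rfl
  · intro h1
    have h2 : n ⟨t, hz.mem⟩ = 1 := huniq _ _ (by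
      show t * t ^ (-(1 : ℤ)) ∈ N
      rw [zpow_neg, zpow_one, mul_inv_cancel]
      exact N.one_mem)
    have h3 : Multiplicative.ofAdd (n ⟨t, hz.mem⟩) = 1 := h1
    rw [h2] at h3
    exact absurd (ofAdd_eq_one.1 h3) one_ne_zero

/-! ### cosets -/

theorem allCos_restr {K K' : Type} [Group K] [Group K'] {E : Type} [DivisionRing E] {ρ : K →* Eˣ} (h : AllCos ρ)
    (f : K' →* K) (hf : Function.Injective f) : AllCos (ρ.comp f) := by
  classical
  intro H' H hle s a hs hd ha h0 g hg
  have hinv : ∀ x, Function.invFun f (f x) = x := Function.leftInverse_invFun hf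
  have h1 := h (H'.map f) (H.map f) (Subgroup.map_mono hle) (s.map ⟨f, hf⟩) (fun k => a (Function.invFun f k)) (by
      intro k hk
      obtain ⟨x, hx, rfl⟩ := Finset.mem_map.1 hk
      exact ⟨x, hs x hx, rfl⟩) (by
      intro k hk k' hk' hkk
      obtain ⟨x, hx, rfl⟩ := Finset.mem_map.1 hk
      obtain ⟨x', hx', rfl⟩ := Finset.mem_map.1 hk'
      obtain ⟨y, hy, hyx⟩ := hkk
      have h2 : y = x * x'⁻¹ := hf (by
        rw [hyx, map_mul, map_inv]
        rfl)
      rw [h2] at hy
      rw [hd x hx x' hx' hy]) (by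
      intro k hk
      obtain ⟨x, hx, rfl⟩ := Finset.mem_map.1 hk
      show a (Function.invFun f (f x)) ∈ _
      rw [hinv, ← cl_comp_map]
      exact ha x hx) (by
      rw [Finset.sum_map, ← h0]
      refine Finset.sum_congr rfl fun x _ => ?_
      show a (Function.invFun f (f x)) * _ = _
      rw [hinv]
      rfl) (f g) (Finset.mem_map_of_mem _ hg)
  have h2 : a (Function.invFun f (f g)) = 0 := h1
  rwa [hinv] at h2

theorem ind_of_cos {K : Type} [Group K] {E : Type} [DivisionRing E] {ρ : K →* Eˣ} (h : AllCos ρ) {N : Subgroup K} {t : K}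
    (ht : PInd N t) : BO.Ind ρ N t := by
  classical
  intro c hc h0
  have hinj : Function.Injective fun u : ℤ => t ^ u := by
    intro u v huv
    have h1 : t ^ (u - v) ∈ N := by
      rw [zpow_sub]
      have h2 : t ^ u = t ^ v := huv
      rw [h2, mul_inv_cancel]
      exact N.one_mem
    have := ht _ h1
    omega
  have hinv : ∀ u : ℤ, Function.invFun (fun u : ℤ => t ^ u) (t ^ u) = u := Function.leftInverse_invFun hinj
  have h1 := h N ⊤ le_top (c.support.map ⟨fun u : ℤ => t ^ u, hinj⟩) (fun k => c (Function.invFun (fun u : ℤ => t ^ u) k))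
    (fun _ _ => Subgroup.mem_top _) (by
      intro k hk k' hk' hkk
      obtain ⟨u, hu, rfl⟩ := Finset.mem_map.1 hk
      obtain ⟨v, hv, rfl⟩ := Finset.mem_map.1 hk'
      have h2 : t ^ (u - v) ∈ N := by
        rw [zpow_sub]
        exact hkk
      have h3 := ht _ h2
      have h4 : u = v := by omega
      rw [h4]) (fun k _ => hc _) (by
      rw [Finset.sum_map, ← h0, Finsupp.sum]
      refine Finset.sum_congr rfl fun u _ => ?_
      show c (Function.invFun (fun u : ℤ => t ^ u) (t ^ u)) * ((ρ (t ^ u) : Eˣ) : E) = _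
      rw [hinv, map_zpow])
  ext u
  by_cases hu : u ∈ c.support
  · have h2 : c (Function.invFun (fun u : ℤ => t ^ u) (t ^ u)) = 0 := h1 (t ^ u) (Finset.mem_map_of_mem _ hu)
    rwa [hinv] at h2
  · exact Finsupp.notMem_support_iff.1 hu

/-! ### W-data -/

/-- the restriction to a subgroup -/
def WD.restr {K K' : Type} [Group K] [Group K'] (W : WD K) (f : K' →* K) (hf : Function.Injective f) : WD K' where
  R := W.R
  l := W.l.comp f
  D := W.D
  red := W.red
  surj := W.surj
  unit := W.unit
  ker := W.ker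
  tf := W.tf
  sep := W.sep
  cos := allCos_restr W.cos f hf

/-- **W-data from ultraproducts** -/
theorem WD.ultra {K : Type} [Group K] {I : Type} (U : Ultrafilter I) {G : I → Type} [∀ c, Group (G c)]
    (W : ∀ c, WD (G c)) (P : ∀ c, K →* G c)
    (loc : ∀ S : Subgroup K, S.FG → S ≠ ⊥ → ∃ (N : Subgroup K) (t : K), ZP S N t ∧
      ∀ᶠ c in (U : Filter I), BO.Ind ((W c).rho.comp (P c)) N t) : Nonempty (WD K) := by
  obtain ⟨R, iR, q, r, hq, hqr, hrs, hru, hrk, htf, hsep⟩ := exists_sep
    (mapR (U := U) fun c => (W c).red) (mapR_surj _ fun c => (W c).surj) (mapR_unit _ fun c => (W c).unit)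
    (mapR_ker _ fun c => (W c).ker) (tf_UR fun c => (W c).tf)
  let l : K →* Rˣ := (Units.map (q : UR U (fun c => (W c).R) →* R)).comp (homR fun c => (W c).l.comp (P c))
  have hl : (Units.map (r : R →* UD U fun c => (W c).D)).comp l = hom fun c => (W c).rho.comp (P c) := by
    ext g
    show r (q (((homR fun c => (W c).l.comp (P c)) g : (UR U fun c => (W c).R)ˣ) : UR U fun c => (W c).R)) = _
    have h1 : ∀ x, r (q x) = mapR (U := U) (fun c => (W c).red) x := fun x => RingHom.congr_fun hqr x
    rw [h1]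
    rfl
  have hloc : T5.Loc ((Units.map (r : R →* UD U fun c => (W c).D)).comp l)
      ((Units.map (r : R →* UD U fun c => (W c).D)).comp l) := by
    rw [hl]
    intro S hS hne
    obtain ⟨N, t, hz, h⟩ := loc S hS hne
    exact ⟨N, t, hz, ind_hom _ h, ind_hom _ h⟩
  exact ⟨
    { R := R
      l := l
      D := UD U fun c => (W c).D
      red := r
      surj := hrs
      unit := hru
      ker := hrk
      tf := htf
      sep := hsep
      cos := allCos_of_loc hloc }⟩

/-- the property of the groups -/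
structure P (K : Type) [Group K] : Prop where
  lz : LZ K
  wd : Nonempty (WD K)

theorem P.of_injective {K K' : Type} [Group K] [Group K'] (h : P K) (f : K' →* K) (hf : Function.Injective f) : P K' :=
  ⟨h.lz.of_injective f hf, h.wd.map fun W => W.restr f hf⟩

/-- the filtered residual step -/
theorem P.of_filtered {K : Type} [Group K] {I : Type} [SemilatticeSup I] [Nonempty I] {G : I → Type} [∀ c, Group (G c)]
    (hG : ∀ c, P (G c)) (p : ∀ c, K →* G c) (anti : ∀ c c', c ≤ c' → (p c').ker ≤ (p c).ker)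
    (inf : ∀ g, g ≠ 1 → ∃ c, p c g ≠ 1) : P K := by
  refine ⟨LZ.of_res fun g hg => ?_, ?_⟩
  · obtain ⟨c, hc⟩ := inf g hg
    exact ⟨G c, inferInstance, p c, (hG c).lz, hc⟩
  · refine WD.ultra (Ultrafilter.of (atTop : Filter I)) (fun c => (hG c).wd.some) p fun S hS hne => ?_
    obtain ⟨g, hg, hg1⟩ : ∃ g ∈ S, g ≠ 1 := by
      by_contra hcon
      push Not at hcon
      exact hne ((Subgroup.eq_bot_iff_forall S).2 hcon)
    obtain ⟨m, hm⟩ := inf g hg1
    obtain ⟨N', t', h'⟩ := (hG m).lz (S.map (p m)) (fg_map hS _) (by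
      intro h0
      have h1 : p m g ∈ S.map (p m) := Subgroup.mem_map_of_mem _ hg
      rw [h0, Subgroup.mem_bot] at h1
      exact hm h1)
    obtain ⟨N, t, hz, hN, rfl⟩ := exists_zp_of_map S (p m) h'
    refine ⟨N, t, hz, ?_⟩
    have h1 : ∀ᶠ c in (atTop : Filter I), BO.Ind ((hG c).wd.some.rho.comp (p c)) N t := by
      filter_upwards [eventually_ge_atTop m] with c hc
      exact ind_comp (ind_of_cos (hG c).wd.some.cos (pind_trans (anti m c hc) fun n hn => h'.inf n (hN hn)))
    exact (Ultrafilter.of_le (atTop : Filter I)) h1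

/-! ### the class -/

/-- The smallest class of groups which contains the trivial groups and is closed under extensions with bi-orderable or amenable
locally indicable quotients and residually. -/
inductive HH : ∀ (K : Type) [Group K], Prop
  | one (K : Type) [Group K] : (∀ g : K, g = 1) → HH K
  | ord {K : Type} [Group K] (N : Subgroup K) [N.Normal] : HH N → BiOrd (K ⧸ N) → HH K
  | amen {K : Type} [Group K] (N : Subgroup K) [N.Normal] : HH N → AL (K ⧸ N) → HH K
  | res {K : Type} [Group K] (Q : K → Type) [∀ g, Group (Q g)] (π : ∀ g, K →* Q g) :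
      (∀ g, HH (Q g)) → (∀ g, g ≠ 1 → π g g ≠ 1) → HH K

/-- **H2** extensions by bi-orderable groups -/
def StmtOrd : Prop := ∀ (K : Type) [Group K] (N : Subgroup K) [N.Normal], P N → BiOrd (K ⧸ N) → Nonempty (WD K)

/-- **H3** extensions by amenable locally indicable groups -/
def StmtAmen : Prop := ∀ (K : Type) [Group K] (N : Subgroup K) [N.Normal], P N → AL (K ⧸ N) → Nonempty (WD K)

/-- a property of quotients passes from the second factor to the product -/
theorem prod_quot {G Q : Type} [Group G] [Group Q] (N : Subgroup Q) [N.Normal] :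
    ∃ e : (G × Q) ⧸ ((⊤ : Subgroup G).prod N) →* Q ⧸ N, Function.Bijective e := by
  let f : G × Q →* Q ⧸ N := (QuotientGroup.mk' N).comp (MonoidHom.snd G Q)
  have hker : f.ker = (⊤ : Subgroup G).prod N := by
    ext x
    rw [MonoidHom.mem_ker, Subgroup.mem_prod]
    show QuotientGroup.mk' N x.2 = 1 ↔ _
    rw [QuotientGroup.mk'_apply, QuotientGroup.eq_one_iff]
    exact ⟨fun h => ⟨Subgroup.mem_top _, h⟩, fun h => h.2⟩
  refine ⟨QuotientGroup.lift _ f fun x hx => ?_, ?_, ?_⟩
  · rw [← hker] at hx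
    exact hx
  · rw [← MonoidHom.ker_eq_bot_iff, Subgroup.eq_bot_iff_forall]
    intro x hx
    obtain ⟨y, rfl⟩ := QuotientGroup.mk_surjective x
    rw [MonoidHom.mem_ker, QuotientGroup.lift_mk] at hx
    rw [QuotientGroup.eq_one_iff, ← hker]
    exact hx
  · intro x
    obtain ⟨y, rfl⟩ := QuotientGroup.mk_surjective x
    exact ⟨QuotientGroup.mk (1, y), rfl⟩

/-- the product with the whole first factor -/
def prodF (G : Type) {Q : Type} [Group G] [Group Q] (N : Subgroup Q) : (⊤ : Subgroup G).prod N →* G × N where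
  toFun x := (x.1.1, ⟨x.1.2, (Subgroup.mem_prod.1 x.2).2⟩)
  map_one' := rfl
  map_mul' _ _ := rfl

theorem prodF_inj (G : Type) {Q : Type} [Group G] [Group Q] (N : Subgroup Q) : Function.Injective (prodF G N) := by
  intro x y hxy
  have h1 : x.1.1 = y.1.1 := congrArg (fun z : G × N => z.1) hxy
  have h2 : x.1.2 = y.1.2 := congrArg (fun z : G × N => (z.2 : Q)) hxy
  exact Subtype.ext (Prod.ext h1 h2)

/-- the product of a group with the property with a group of the class has the property -/
theorem HH.prod (hO : StmtOrd) (hA : StmtAmen) {Q : Type} [Group Q] (hQ : HH Q) :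
    ∀ (G : Type) [Group G], P G → P (G × Q) := by
  induction hQ with
  | one Q h1 =>
    intro G _ hG
    refine hG.of_injective (MonoidHom.fst G Q) fun x y hxy => ?_
    exact Prod.ext hxy ((h1 _).trans (h1 _).symm)
  | @ord Q _ N _ _ hB ih =>
    intro G _ hG
    obtain ⟨e, he⟩ := prod_quot (G := G) N
    have hM : P ((⊤ : Subgroup G).prod N) := (ih G hG).of_injective
      (prodF G N) (prodF_inj G N)
    exact ⟨LZ.of_ext _ hM.lz (LZ.of_biOrd (hB.of_injective e he.1)), hO _ _ hM (hB.of_injective e he.1)⟩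
  | @amen Q _ N _ _ hB ih =>
    intro G _ hG
    obtain ⟨e, he⟩ := prod_quot (G := G) N
    have hB' : AL ((G × Q) ⧸ ((⊤ : Subgroup G).prod N)) := hB.congr (MulEquiv.ofBijective e he).symm
    have hM : P ((⊤ : Subgroup G).prod N) := (ih G hG).of_injective
      (prodF G N) (prodF_inj G N)
    exact ⟨LZ.of_ext _ hM.lz (LZ.of_li hB'.li), hA _ _ hM hB'⟩
  | @res Q _ T _ π _ hπ ih =>
    intro G _ hG
    classical
    have hex : ∀ F : Finset Q, ∃ (S : Type) (_ : Group S) (p : G × Q →* S), P S ∧
        ∀ x, p x = 1 ↔ x.1 = 1 ∧ ∀ g ∈ F, π g x.2 = 1 := by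
      intro F
      induction F using Finset.induction_on with
      | empty =>
        refine ⟨G, inferInstance, MonoidHom.fst G Q, hG, fun x => ⟨fun h => ⟨h, fun g hg => ?_⟩, fun h => h.1⟩⟩
        exact absurd hg (Finset.notMem_empty g)
      | insert g F _ ihF =>
        obtain ⟨S, iS, p, hS, hp⟩ := ihF
        refine ⟨S × T g, inferInstance, p.prod ((π g).comp (MonoidHom.snd G Q)), ih g S hS, fun x => ?_⟩
        have h1 : (p.prod ((π g).comp (MonoidHom.snd G Q))) x = 1 ↔ p x = 1 ∧ π g x.2 = 1 :=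
          ⟨fun h => ⟨congrArg Prod.fst h, congrArg Prod.snd h⟩, fun h => Prod.ext h.1 h.2⟩
        rw [h1, hp, Finset.forall_mem_insert]
        tauto
    choose S iS p hS hp using hex
    refine P.of_filtered hS p (fun c c' hc x hx => ?_) fun g hg => ?_
    · rw [MonoidHom.mem_ker, hp] at hx ⊢
      exact ⟨hx.1, fun g hg => hx.2 g (hc hg)⟩
    · by_contra hcon
      push Not at hcon
      apply hg
      have h1 := (hp {g.2} g).1 (hcon {g.2})
      refine Prod.ext h1.1 ?_
      by_contra h2
      exact hπ g.2 h2 (h1.2 g.2 (Finset.mem_singleton_self _))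

/-- **all groups of the class have the property** -/
theorem HH.p (hO : StmtOrd) (hA : StmtAmen) (h1 : P Unit) {K : Type} [Group K] (hK : HH K) : P K :=
  (hK.prod hO hA Unit h1).of_injective (MonoidHom.inr Unit K) fun _ _ h => congrArg Prod.snd h

end SQ.U
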