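import Pool.Agent.SQ.U.Red

/-!
# The 2-adic ring of crossed Malcev-Neumann series

`R`: a ring in which the elements not divisible by 2 are the units.  `Lam C`: the compatible sequences of crossed series over
`R / 2 ^ (k + 1)`.  It has the same properties as `R`.
-/

set_option autoImplicit false
set_option linter.unusedSectionVars false

noncomputable section

namespace SQ.U

/-- the elements which are not divisible by 2 are the units -/
structure DV (R : Type) [Ring R] : Prop where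
  half : ∀ x : R, IsUnit x ∨ ∃ y, x = 2 * y
  tf : ∀ x : R, 2 * x = 0 → x = 0
  one : ∀ y : R, (1 : R) ≠ 2 * y
  sep : ∀ x : R, (∀ k : ℕ, ∃ y, x = 2 ^ k * y) → x = 0

namespace DV
variable {R : Type} [Ring R] (d : DV R)

include d

theorem inj {x y : R} (h : 2 * x = 2 * y) : x = y := by
  rw [← sub_eq_zero]
  apply d.tf
  rw [mul_sub, h, sub_self]

theorem unit_ne {x : R} (hx : IsUnit x) (y : R) : x ≠ 2 * y := by
  rintro rfl
  obtain ⟨u, hu⟩ := hx
  apply d.one (y * ((u⁻¹ : Rˣ) : R))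
  rw [← mul_assoc, ← hu, Units.mul_inv]

theorem qm0_ne_one : (1 : Rk R 0) ≠ 0 := by
  intro h
  have h1 : qm 0 (1 : R) = 0 := by rw [map_one, h]
  obtain ⟨y, hy⟩ := qm_eq_zero.1 h1
  rw [zero_add, pow_one] at hy
  exact d.one y hy

/-- the nonzero elements modulo 2 are units -/
theorem unit0 {a : Rk R 0} (h : a ≠ 0) : IsUnit a := by
  obtain ⟨x, rfl⟩ := qm_surj 0 a
  rcases d.half x with h1 | ⟨y, hy⟩
  · exact h1.map (qm 0)
  · exact absurd (qm_eq_zero.2 ⟨y, by rw [zero_add, pow_one]; exact hy⟩) h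

/-- half of an even element -/
theorem exists_hlf (k : ℕ) : ∃ f : Rk R (k + 1) → Rk R k, ∀ x : R, f (qm (k + 1) (2 * x)) = qm k x := by
  classical
  refine ⟨fun a => if h : ∃ x : R, a = qm (k + 1) (2 * x) then qm k h.choose else 0, fun x => ?_⟩
  have h : ∃ y : R, qm (k + 1) (2 * x) = qm (k + 1) (2 * y) := ⟨x, rfl⟩
  show (if h : ∃ y : R, qm (k + 1) (2 * x) = qm (k + 1) (2 * y) then qm k h.choose else 0) = qm k x
  rw [dif_pos h]
  have h1 := h.choose_spec
  set y := h.choose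
  rw [← sub_eq_zero, ← map_sub] at h1 ⊢
  obtain ⟨w, hw⟩ := qm_eq_zero.1 h1
  refine qm_eq_zero.2 ⟨-w, ?_⟩
  apply d.inj
  rw [← mul_assoc, ← pow_succ', mul_neg, ← hw]
  noncomm_ring

/-- half of an even element -/
def hlf (k : ℕ) : Rk R (k + 1) → Rk R k := (d.exists_hlf k).choose

theorem hlf_eq (k : ℕ) (x : R) : d.hlf k (qm (k + 1) (2 * x)) = qm k x := (d.exists_hlf k).choose_spec x

theorem hlf_zero (k : ℕ) : d.hlf k 0 = 0 := by
  have h := d.hlf_eq k 0
  rwa [mul_zero, map_zero, map_zero] at h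

theorem two_qm (k : ℕ) {x : R} (h : 2 * qm (k + 1) x = 0) : qm k x = 0 := by
  have h1 : qm (k + 1) (2 * x) = 0 := by rw [map_mul, map_ofNat, h]
  have h2 := d.hlf_eq k x
  rw [h1, d.hlf_zero] at h2
  exact h2.symm

end DV

/-! ### series modulo `2 ^ (k + 1)` -/

section ser
variable {G R : Type} [Group G] [LinearOrder G] [MulLeftMono G] [MulRightMono G] [Ring R] {C : Crs G R} (d : DV R)

/-- the series which vanish modulo 2 are nilpotent -/
theorem nilp {k : ℕ} {n : CM (C.q k)} (h : CM.map (cmp_r0 C k) n = 0) : IsNilpotent n := by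
  have h0 : ∀ g, ∃ x : R, n.c g = qm k (2 * x) ∧ (n.c g = 0 → x = 0) := by
    intro g
    by_cases hg : n.c g = 0
    · exact ⟨0, by rw [mul_zero, map_zero, hg], fun _ => rfl⟩
    · obtain ⟨x, hx⟩ := r0_eq_zero (congrArg (fun z : CM (C.q 0) => z.c g) h : r0 k (n.c g) = 0)
      exact ⟨x, hx, fun h => absurd h hg⟩
  choose x hx hx0 using h0
  let w : CM (C.q k) := ⟨fun g => qm k (x g), n.pwo.mono fun g hg h1 => hg (by
    show qm k (x g) = 0
    rw [hx0 g h1, map_zero])⟩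
  have h1 : n = (2 : ℕ) • w := by
    refine CM.ext (funext fun g => ?_)
    rw [CM.nsmul_c]
    show n.c g = 2 • qm k (x g)
    rw [hx, map_mul, map_ofNat, nsmul_eq_mul, Nat.cast_ofNat]
  refine ⟨k + 1, ?_⟩
  have h4 : ∀ m : ℕ, n ^ m = (2 ^ m : ℕ) • w ^ m := by
    intro m
    rw [h1, nsmul_eq_mul, (Nat.cast_commute _ _).mul_pow, nsmul_eq_mul]
    push_cast
    rfl
  rw [h4]
  refine CM.ext (funext fun g => ?_)
  rw [CM.nsmul_c, CM.zero_c]
  obtain ⟨z, hz⟩ := qm_surj k ((w ^ (k + 1)).c g)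
  rw [← hz, nsmul_eq_mul, Nat.cast_pow, Nat.cast_ofNat, ← map_ofNat (qm k) 2, ← map_pow, ← map_mul]
  exact qm_two_pow k z

include d in
/-- the inverse modulo 2, with graded coefficients -/
theorem exists_inv0 {x : CM (C.q 0)} (hx : x ≠ 0) :
    ∃ y, x * y = 1 ∧ y * x = 1 ∧ ∀ 𝒜 : Grd (C.q 0), x ∈ 𝒜.sub → y ∈ 𝒜.sub := by
  obtain ⟨g₀, h0, hmin⟩ := CM.exists_lead hx
  obtain ⟨r, hr⟩ := d.unit0 h0
  let m : CM (C.q 0) := CM.linv g₀ r
  let m' : CM (C.q 0) := CM.sg g₀ (r : Rk R 0)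
  have hm' : m' * m = 1 := CM.mul_linv g₀ r
  have hu : ∀ g, (1 - m * x).c g ≠ 0 → 1 < g := by
    intro g hg
    by_contra hcon
    push Not at hcon
    apply hg
    rw [CM.sub_c, show (m * x).c g = _ from CM.sg_mul_c _ _ _ _, inv_inv]
    rcases eq_or_lt_of_le hcon with rfl | h
    · rw [mul_one, ← hr, CM.one_c, if_pos rfl]
      have h1 : (C.q 0).σ g₀⁻¹ (r : Rk R 0) * ((C.q 0).α g₀⁻¹ g₀ : Rk R 0) =
          ((Units.map ((C.q 0).σ g₀⁻¹ : Rk R 0 →* Rk R 0) r * (C.q 0).α g₀⁻¹ g₀ : (Rk R 0)ˣ) : Rk R 0) := by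
        rw [Units.val_mul]
        rfl
      rw [mul_assoc, h1, Units.inv_mul, sub_self]
    · rw [hmin (g₀ * g) (mul_lt_of_lt_one_right' _ h), map_zero, mul_zero, zero_mul, CM.one_c, if_neg h.ne, sub_self]
  have h1 := CM.mul_gs hu
  have h2 := CM.gs_mul hu
  rw [sub_sub_cancel] at h1 h2
  refine ⟨CM.gs hu * m, ?_, ?_, ?_⟩
  · calc x * (CM.gs hu * m) = m' * m * (x * (CM.gs hu * m)) := by rw [hm', one_mul]
      _ = m' * (m * x * CM.gs hu) * m := by simp only [mul_assoc]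
      _ = 1 := by rw [h1, mul_one, hm']
  · rw [mul_assoc]
    exact h2
  · intro 𝒜 hx𝒜
    have hm𝒜 : m ∈ 𝒜.sub := by
      intro b
      show (CM.sg g₀⁻¹ _ : CM (C.q 0)).c b ∈ 𝒜.A b
      rw [CM.sg_c]
      split_ifs with h
      · rw [h]
        exact 𝒜.inv g₀ r (by rw [hr]; exact hx𝒜 g₀)
      · exact zero_mem _
    refine mul_mem ?_ hm𝒜
    intro b
    rw [CM.gs_c]
    have h3 : 1 - m * x ∈ 𝒜.sub := sub_mem (one_mem _) (mul_mem hm𝒜 hx𝒜)
    exact finsum_induction (fun r => r ∈ 𝒜.A b) (zero_mem _) (fun _ _ h1 h2 => add_mem h1 h2) fun n => (pow_mem h3 n) b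

include d in
/-- units modulo `2 ^ (k + 1)`, with graded coefficients -/
theorem exists_invk {k : ℕ} {x : CM (C.q k)} (hx : CM.map (cmp_r0 C k) x ≠ 0) :
    ∃ y, x * y = 1 ∧ y * x = 1 ∧ ∀ 𝒜 : Grd C, x ∈ (𝒜.q d.half d.one k).sub → y ∈ (𝒜.q d.half d.one k).sub := by
  have key : ∀ 𝒜 : Grd C, x ∈ (𝒜.q d.half d.one k).sub → ∃ y, x * y = 1 ∧ y * x = 1 ∧ y ∈ (𝒜.q d.half d.one k).sub := by
    intro 𝒜 hx𝒜
    obtain ⟨y, hy1, hy2, hy⟩ := exists_inv0 d hx
    have h1 : y ∈ (𝒜.q d.half d.one 0).sub := hy _ fun b => by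
      obtain ⟨r, hr, hr'⟩ := hx𝒜 b
      refine ⟨r, hr, ?_⟩
      rw [CM.map_c, ← hr']
      rfl
    have h2 : ∀ b, ∃ r ∈ 𝒜.A b, qm 0 r = y.c b ∧ (y.c b = 0 → r = 0) := by
      intro b
      by_cases hb : y.c b = 0
      · exact ⟨0, zero_mem _, by rw [map_zero, hb], fun _ => rfl⟩
      · obtain ⟨r, hr, hr'⟩ := h1 b
        exact ⟨r, hr, hr', fun h => absurd h hb⟩
    choose r hr1 hr2 hr3 using h2
    let z : CM (C.q k) := ⟨fun b => qm k (r b), y.pwo.mono fun b hb h => hb (by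
      show qm k (r b) = 0
      rw [hr3 b h, map_zero])⟩
    have hz : CM.map (cmp_r0 C k) z = y := CM.ext (funext fun b => by
      rw [CM.map_c]
      exact hr2 b)
    have hz𝒜 : z ∈ (𝒜.q d.half d.one k).sub := fun b => ⟨r b, hr1 b, rfl⟩
    have inv1 : ∀ w ∈ (𝒜.q d.half d.one k).sub, CM.map (cmp_r0 C k) w = 1 → ∃ v ∈ (𝒜.q d.half d.one k).sub, w * v = 1 ∧ v * w = 1 := by
      intro w hw h1
      have h3 : IsNilpotent (1 - w) := nilp (by rw [map_sub, h1, map_one, sub_self])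
      obtain ⟨n, hn⟩ := h3
      have hm : 1 - w ∈ (𝒜.q d.half d.one k).sub := sub_mem (one_mem _) hw
      refine ⟨∑ i ∈ Finset.range n, (1 - w) ^ i, sum_mem fun i _ => pow_mem hm i, ?_, ?_⟩
      · have h4 := mul_neg_geom_sum (1 - w) n
        rwa [sub_sub_cancel, hn, sub_zero] at h4
      · have h4 := geom_sum_mul_neg (1 - w) n
        rwa [sub_sub_cancel, hn, sub_zero] at h4
    obtain ⟨v, hv, hv1, -⟩ := inv1 (x * z) (mul_mem hx𝒜 hz𝒜) (by rw [map_mul, hz, hy1])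
    obtain ⟨v', hv', -, hv2⟩ := inv1 (z * x) (mul_mem hz𝒜 hx𝒜) (by rw [map_mul, hz, hy2])
    have h5 : x * (z * v) = 1 := by rw [← mul_assoc]; exact hv1
    have h6 : v' * z * x = 1 := by rw [mul_assoc]; exact hv2
    exact ⟨z * v, h5, by rw [← left_inv_eq_right_inv h6 h5]; exact h6, mul_mem hz𝒜 hv⟩
  let top : Grd C := ⟨fun _ => ⊤, trivial, fun _ _ _ _ _ _ => trivial, fun _ _ _ => trivial⟩
  obtain ⟨y, hy1, hy2, -⟩ := key top fun b => by
    obtain ⟨r, hr⟩ := qm_surj k (x.c b)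
    exact ⟨r, trivial, hr⟩
  refine ⟨y, hy1, hy2, fun 𝒜 h𝒜 => ?_⟩
  obtain ⟨y', hy1', -, hy'⟩ := key 𝒜 h𝒜
  rwa [left_inv_eq_right_inv hy2 hy1']

end ser

/-! ### the ring -/

section lam
variable {G R : Type} [Group G] [LinearOrder G] [MulLeftMono G] [MulRightMono G] [Ring R] (C : Crs G R)

/-- the compatible sequences -/
def Lam : Subring (∀ k : ℕ, CM (C.q k)) where
  carrier := {x | ∀ k, CM.map (cmp_rd C k) (x (k + 1)) = x k}
  one_mem' k := map_one _
  zero_mem' k := map_zero _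
  mul_mem' {x y} hx hy k := by
    show CM.map (cmp_rd C k) (x (k + 1) * y (k + 1)) = x k * y k
    rw [map_mul, hx k, hy k]
  add_mem' {x y} hx hy k := by
    show CM.map (cmp_rd C k) (x (k + 1) + y (k + 1)) = x k + y k
    rw [map_add, hx k, hy k]
  neg_mem' {x} hx k := by
    show CM.map (cmp_rd C k) (-x (k + 1)) = -x k
    rw [map_neg, hx k]

variable {C}

namespace Lam

/-- the components -/
def co (x : Lam C) (k : ℕ) : CM (C.q k) := x.1 k

theorem compat (x : Lam C) (k : ℕ) : CM.map (cmp_rd C k) (co x (k + 1)) = co x k := x.2 k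

theorem compat_c (x : Lam C) (k : ℕ) (g : G) : rd k ((co x (k + 1)).c g) = (co x k).c g := by
  rw [← compat x k]
  rfl

theorem ext' {x y : Lam C} (h : ∀ k, co x k = co y k) : x = y := Subtype.ext (funext h)

theorem mul_co (x y : Lam C) (k : ℕ) : co (x * y) k = co x k * co y k := rfl
theorem add_co (x y : Lam C) (k : ℕ) : co (x + y) k = co x k + co y k := rfl
theorem one_co (k : ℕ) : co (1 : Lam C) k = 1 := rfl
theorem zero_co (k : ℕ) : co (0 : Lam C) k = 0 := rfl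

/-- the component as a ring homomorphism -/
def coH (k : ℕ) : Lam C →+* CM (C.q k) :=
  (Pi.evalRingHom (fun k : ℕ => CM (C.q k)) k).comp (Lam C).subtype

theorem coH_apply (k : ℕ) (x : Lam C) : coH k x = co x k := rfl

theorem two_co (x : Lam C) (k : ℕ) (g : G) : (co (2 * x) k).c g = 2 * (co x k).c g := by
  rw [two_mul, add_co, CM.add_c, two_mul]

theorem r0_co (x : Lam C) (k : ℕ) (g : G) : r0 k ((co x k).c g) = (co x 0).c g := by
  induction k with
  | zero => exact r0_zero _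
  | succ k ih => rw [← ih, ← compat_c x k, r0_rd]

theorem map_r0_co (x : Lam C) (k : ℕ) : CM.map (cmp_r0 C k) (co x k) = co x 0 := CM.ext (funext fun g => r0_co x k g)

variable (d : DV R)

/-- the elements with graded coefficients -/
def Gr (𝒜 : Grd C) : Subring (Lam C) where
  carrier := {x | ∀ k, co x k ∈ (𝒜.q d.half d.one k).sub}
  one_mem' k := one_mem _
  zero_mem' k := zero_mem _
  mul_mem' hx hy k := mul_mem (hx k) (hy k)
  add_mem' hx hy k := add_mem (hx k) (hy k)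
  neg_mem' hx k := neg_mem (hx k)

theorem mem_Gr {𝒜 : Grd C} {x : Lam C} : x ∈ Gr d 𝒜 ↔ ∀ k b, ∃ r ∈ 𝒜.A b, qm k r = (co x k).c b := Iff.rfl

include d in
/-- **units** -/
theorem isUnit {x : Lam C} (h : co x 0 ≠ 0) : IsUnit x := by
  have h1 : ∀ k, ∃ y, co x k * y = 1 ∧ y * co x k = 1 := fun k => by
    obtain ⟨y, h1, h2, -⟩ := exists_invk d (x := co x k) (by rw [map_r0_co]; exact h)
    exact ⟨y, h1, h2⟩
  choose y hy1 hy2 using h1
  have h2 : ∀ k, CM.map (cmp_rd C k) (y (k + 1)) = y k := by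
    intro k
    have h3 : CM.map (cmp_rd C k) (y (k + 1)) * co x k = 1 := by
      rw [← compat x k, ← map_mul, hy2, map_one]
    exact left_inv_eq_right_inv h3 (hy1 k)
  exact ⟨⟨x, ⟨y, h2⟩, ext' fun k => hy1 k, ext' fun k => hy2 k⟩, rfl⟩

theorem inv_mem_Gr {𝒜 : Grd C} (u : (Lam C)ˣ) (h : (u : Lam C) ∈ Gr d 𝒜) : ((u⁻¹ : (Lam C)ˣ) : Lam C) ∈ Gr d 𝒜 := by
  intro k
  have h0 : CM.map (cmp_r0 C k) (co (u : Lam C) k) ≠ 0 := by
    intro h0
    have h1 : CM.map (cmp_r0 C k) (co ((u : Lam C) * ((u⁻¹ : (Lam C)ˣ) : Lam C)) k) = 0 := by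
      rw [mul_co, map_mul, h0, zero_mul]
    rw [Units.mul_inv, one_co, map_one] at h1
    have h2 := congrArg (fun z : CM (C.q 0) => z.c 1) h1
    simp only [CM.one_c, if_true, CM.zero_c] at h2
    exact d.qm0_ne_one h2
  obtain ⟨y, h1, h2, h3⟩ := exists_invk d h0
  have h4 : co (u : Lam C) k * co ((u⁻¹ : (Lam C)ˣ) : Lam C) k = 1 := by
    rw [← mul_co, Units.mul_inv, one_co]
  rw [← left_inv_eq_right_inv h2 h4]
  exact h3 𝒜 (h k)

include d in
/-- division by 2 -/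
theorem exists_half {x : Lam C} (h : co x 0 = 0) : ∃ y : Lam C, x = 2 * y := by
  have hev : ∀ k g, ∃ r : R, (co x k).c g = qm k (2 * r) := by
    intro k g
    apply r0_eq_zero
    rw [r0_co, h, CM.zero_c]
  let y : ∀ k : ℕ, CM (C.q k) := fun k => ⟨fun g => d.hlf k ((co x (k + 1)).c g), (co x (k + 1)).pwo.mono fun g hg h0 => hg (by
    show d.hlf k ((co x (k + 1)).c g) = 0
    rw [h0, d.hlf_zero])⟩
  have hy : ∀ k g, (y k).c g = d.hlf k ((co x (k + 1)).c g) := fun k g => rfl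
  have hyL : y ∈ Lam C := by
    intro k
    refine CM.ext (funext fun g => ?_)
    rw [CM.map_c, hy, hy]
    obtain ⟨r, hr⟩ := hev (k + 2) g
    rw [show (co x (k + 1 + 1)).c g = _ from hr, d.hlf_eq, ← compat_c x (k + 1), show (co x (k + 1 + 1)).c g = _ from hr,
      rd_qm, rd_qm, d.hlf_eq]
  refine ⟨⟨y, hyL⟩, ext' fun k => CM.ext (funext fun g => ?_)⟩
  rw [two_co, ← compat_c]
  show rd k ((co x (k + 1)).c g) = 2 * d.hlf k ((co x (k + 1)).c g)
  obtain ⟨r, hr⟩ := hev (k + 1) g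
  rw [hr, d.hlf_eq, rd_qm, map_mul, map_ofNat]

theorem half_mem_Gr {𝒜 : Grd C} (hA : ∀ (b : G) (r : R), 2 * r ∈ 𝒜.A b → r ∈ 𝒜.A b) {y : Lam C} (h : 2 * y ∈ Gr d 𝒜) :
    y ∈ Gr d 𝒜 := by
  intro k b
  obtain ⟨a, ha, ha'⟩ := h (k + 1) b
  have ha1 : qm (k + 1) a = (co (2 * y) (k + 1)).c b := ha'
  obtain ⟨r, hr⟩ := qm_surj (k + 1) ((co y (k + 1)).c b)
  rw [two_co, ← hr, ← map_ofNat (qm (k + 1)) 2, ← map_mul, ← sub_eq_zero, ← map_sub] at ha1
  obtain ⟨w, hw⟩ := qm_eq_zero.1 ha1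
  have h1 : a = 2 * (r + 2 ^ (k + 1) * w) := by
    rw [mul_add, ← mul_assoc, ← pow_succ', ← hw, add_sub_cancel]
  refine ⟨r + 2 ^ (k + 1) * w, hA b _ (by rw [← h1]; exact ha), ?_⟩
  show qm k (r + 2 ^ (k + 1) * w) = (co y k).c b
  rw [map_add, qm_two_pow, add_zero, ← compat_c, ← hr, rd_qm]

include d in
/-- the properties of `R` -/
theorem dv : DV (Lam C) where
  half x := by
    by_cases h : co x 0 = 0
    · exact Or.inr (exists_half d h)
    · exact Or.inl (isUnit d h)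
  tf x hx := ext' fun k => CM.ext (funext fun g => by
    obtain ⟨r, hr⟩ := qm_surj (k + 1) ((co x (k + 1)).c g)
    have h1 := two_co x (k + 1) g
    rw [hx, zero_co, CM.zero_c, ← hr] at h1
    rw [← compat_c, ← hr, rd_qm, d.two_qm k h1.symm, zero_co, CM.zero_c])
  one y hy := by
    have h1 := congrArg (fun z : Lam C => (co z 0).c 1) hy
    simp only [two_co, one_co, CM.one_c, if_true] at h1
    obtain ⟨r, hr⟩ := qm_surj 0 ((co y 0).c 1)
    rw [← hr, ← map_ofNat (qm 0) 2, ← map_mul] at h1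
    rw [show (2 : R) * r = 2 ^ (0 + 1) * r by rw [zero_add, pow_one], qm_two_pow] at h1
    exact d.qm0_ne_one h1
  sep x hx := ext' fun k => CM.ext (funext fun g => by
    obtain ⟨y, hy⟩ := hx (k + 1)
    have h1 : ∀ (m : ℕ) (z : Lam C), (co (2 ^ m * z) k).c g = 2 ^ m * (co z k).c g := by
      intro m
      induction m with
      | zero => exact fun z => by rw [pow_zero, one_mul, pow_zero, one_mul]
      | succ m ih => exact fun z => by rw [pow_succ', mul_assoc, two_co, ih, ← mul_assoc, ← pow_succ']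
    obtain ⟨r, hr⟩ := qm_surj k ((co y k).c g)
    rw [hy, h1, ← hr, ← map_ofNat (qm k) 2, ← map_pow, ← map_mul, qm_two_pow, zero_co, CM.zero_c])

end Lam

end lam

end SQ.U
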