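import Pool.Agent.SQ.U.OreC
import Pool.Agent.SQ.U.Ext
import Pool.Agent.SQ.U.HH
import Pool.Agent.SQ.U.Frac

/-!
# The W-datum of an extension of an amenable locally indicable group

The ring is the localisation of the crossed group ring at the elements which are not divisible by 2.
-/

set_option autoImplicit false
set_option linter.unusedSectionVars false

noncomputable section

namespace SQ.U

open SQ.T3 SQ.BO

/-! ### the localisation -/

/-- the elements which are not divisible by 2 are a set of denominators -/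
structure OddR (S : Type) [Ring S] : Prop where
  tf : ∀ x : S, 2 * x = 0 → x = 0
  one : ¬ ∃ y : S, (1 : S) = 2 * y
  mul : ∀ x y : S, (¬ ∃ z, x = 2 * z) → (¬ ∃ z, y = 2 * z) → ¬ ∃ z, x * y = 2 * z
  sep : ∀ x : S, (∀ k : ℕ, ∃ y, x = 2 ^ k * y) → x = 0
  ore : ∀ a s : S, (¬ ∃ z, s = 2 * z) → ∃ q r : S, (¬ ∃ z, r = 2 * z) ∧ r * a = q * s

/-- `R` is the ring of left fractions -/
structure IsOdd {S R : Type} [Ring S] [Ring R] (i : S →+* R) : Prop where
  inj : Function.Injective i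
  unit : ∀ s, (¬ ∃ z, s = 2 * z) → IsUnit (i s)
  gen : ∀ x : R, ∃ s a : S, (¬ ∃ z, s = 2 * z) ∧ i s * x = i a

section loc
variable {S : Type} [Ring S] (h : OddR S)

include h

theorem OddR.pow_tf (m : ℕ) {x : S} (h0 : 2 ^ m * x = 0) : x = 0 := by
  induction m with
  | zero => rwa [pow_zero, one_mul] at h0
  | succ m ih =>
    rw [pow_succ', mul_assoc] at h0
    exact ih (h.tf _ h0)

theorem OddR.exists_pow {x : S} (hx : x ≠ 0) : ∃ (m : ℕ) (y : S), (¬ ∃ z, y = 2 * z) ∧ x = 2 ^ m * y := by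
  classical
  have hex : ∃ k : ℕ, ¬ ∃ y, x = 2 ^ k * y := by
    by_contra hcon
    push Not at hcon
    exact hx (h.sep x hcon)
  obtain ⟨m, hm⟩ : ∃ m, Nat.find hex = m + 1 := by
    refine Nat.exists_eq_succ_of_ne_zero fun h0 => ?_
    have h1 := Nat.find_spec hex
    rw [h0] at h1
    exact h1 ⟨x, by rw [pow_zero, one_mul]⟩
  have h1 := Nat.find_spec hex
  rw [hm] at h1
  have h2 : ∃ y, x = 2 ^ m * y := by
    by_contra hcon
    have := Nat.find_min' hex hcon
    omega
  obtain ⟨y, hy⟩ := h2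
  refine ⟨m, y, ?_, hy⟩
  rintro ⟨z, hz⟩
  exact h1 ⟨z, by rw [hy, hz, pow_succ, mul_assoc]⟩

theorem OddR.reg {x s : S} (hs : ¬ ∃ z, s = 2 * z) (hx : x ≠ 0) : x * s ≠ 0 ∧ s * x ≠ 0 := by
  obtain ⟨k, y, hy, rfl⟩ := h.exists_pow hx
  constructor
  · intro h0
    rw [mul_assoc] at h0
    exact h.mul _ _ hy hs ⟨0, by rw [h.pow_tf k h0, mul_zero]⟩
  · intro h0
    rw [pow_two_comm] at h0
    exact h.mul _ _ hs hy ⟨0, by rw [h.pow_tf k h0, mul_zero]⟩

/-- the denominators -/
def OddR.sub : Submonoid S where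
  carrier := {s | ¬ ∃ z, s = 2 * z}
  one_mem' := h.one
  mul_mem' hx hy := h.mul _ _ hx hy

open OreLocalization in
theorem OddR.nonempty_oreSet : Nonempty (OreSet h.sub) := by
  refine nonempty_oreSet_iff.2 ⟨?_, ?_⟩
  · intro r₁ r₂ s h0
    refine ⟨s, ?_⟩
    have h1 : r₁ = r₂ := by
      by_contra hne
      apply (h.reg s.2 (sub_ne_zero.2 hne)).1
      rw [sub_mul, h0, sub_self]
    rw [h1]
  · intro r s
    obtain ⟨q, t, ht, he⟩ := h.ore r s s.2
    exact ⟨q, ⟨t, ht⟩, he⟩

open OreLocalization in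
theorem OddR.exists_loc : ∃ (R : Type) (_ : Ring R) (i : S →+* R), IsOdd i := by
  obtain ⟨inst⟩ := h.nonempty_oreSet
  refine ⟨OreLocalization h.sub S, inferInstance, numeratorRingHom, ⟨?_, ?_, ?_⟩⟩
  · refine numeratorHom_inj fun s hs x hx => ?_
    by_contra hne
    exact (h.reg hs hne).2 hx
  · intro s hs
    exact (numeratorUnit (⟨s, hs⟩ : h.sub)).isUnit
  · intro x
    induction x using OreLocalization.ind with | _ r s
    refine ⟨s, r, s.2, ?_⟩
    show (numeratorHom (s : S) : OreLocalization h.sub S) * (r /ₒ s) = numeratorHom r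
    rw [numeratorHom_apply, numeratorHom_apply]
    exact OreLocalization.mul_cancel

variable {R : Type} [Ring R] {i : S →+* R} (hi : IsOdd i)

include hi

theorem OddR.one' (y : R) : (1 : R) ≠ 2 * y := by
  intro h1
  obtain ⟨s, a, hs, hx⟩ := hi.gen y
  apply hs
  refine ⟨a, hi.inj ?_⟩
  rw [map_mul, map_ofNat, ← hx, ← two_comm, ← h1, mul_one]

theorem OddR.even {a : S} {y : R} (hy : i a = 2 * y) : ∃ z, a = 2 * z := by
  by_contra hne
  obtain ⟨u, hu⟩ := hi.unit a hne
  apply h.one' hi (((u⁻¹ : Rˣ) : R) * y)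
  rw [← two_comm, ← hy, ← hu, Units.inv_mul]

theorem OddR.dv : DV R where
  half x := by
    obtain ⟨s, a, hs, hx⟩ := hi.gen x
    obtain ⟨u, hu⟩ := hi.unit s hs
    by_cases ha : ∃ z, a = 2 * z
    · right
      obtain ⟨z, rfl⟩ := ha
      refine ⟨((u⁻¹ : Rˣ) : R) * i z, ?_⟩
      rw [← two_comm, ← map_ofNat i 2, ← map_mul, ← hx, ← hu, Units.inv_mul_cancel_left]
    · left
      obtain ⟨v, hv⟩ := hi.unit a ha
      refine ⟨u⁻¹ * v, ?_⟩
      rw [Units.val_mul, hv, ← hx, ← hu, Units.inv_mul_cancel_left]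
  tf x h0 := by
    obtain ⟨s, a, hs, hx⟩ := hi.gen x
    have h1 : i (2 * a) = 0 := by
      rw [map_mul, map_ofNat, ← hx, ← two_comm, h0, mul_zero]
    have h2 : a = 0 := h.tf _ (hi.inj (by rw [h1, map_zero]))
    rw [h2, map_zero] at hx
    exact ((hi.unit s hs).mul_right_eq_zero).1 hx
  one y := h.one' hi y
  sep x hk := by
    have hpow : ∀ (k : ℕ) (a : S) (y : R), i a = 2 ^ k * y → ∃ b, a = 2 ^ k * b := by
      intro k
      induction k with
      | zero => exact fun a y _ => ⟨a, by rw [pow_zero, one_mul]⟩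
      | succ k ih =>
        intro a y hy
        rw [pow_succ', mul_assoc] at hy
        obtain ⟨z, rfl⟩ := h.even hi hy
        have htf : ∀ w : R, 2 * w = 0 → w = 0 := by
          intro w h0
          obtain ⟨s, a, hs, hx⟩ := hi.gen w
          have h1 : i (2 * a) = 0 := by
            rw [map_mul, map_ofNat, ← hx, ← two_comm, h0, mul_zero]
          have h2 : a = 0 := h.tf _ (hi.inj (by rw [h1, map_zero]))
          rw [h2, map_zero] at hx
          exact ((hi.unit s hs).mul_right_eq_zero).1 hx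
        have h2 : i z = 2 ^ k * y := by
          rw [← sub_eq_zero]
          apply htf
          rw [mul_sub, ← hy, ← map_ofNat i 2, ← map_mul, sub_self]
        obtain ⟨b, hb⟩ := ih _ _ h2
        exact ⟨b, by rw [hb, pow_succ', mul_assoc]⟩
    obtain ⟨s, a, hs, hx⟩ := hi.gen x
    have h2 : a = 0 := h.sep _ fun k => by
      obtain ⟨y, hy⟩ := hk k
      exact hpow k a (i s * y) (by rw [← hx, hy, pow_two_comm])
    rw [h2, map_zero] at hx
    exact ((hi.unit s hs).mul_right_eq_zero).1 hx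

end loc

/-- the residue skew field -/
theorem DV.exists_D {R : Type} [Ring R] (d : DV R) : ∃ (D : Type) (_ : DivisionRing D) (_ : Algebra (ZMod 2) D) (π : R →+* D),
    Function.Surjective π ∧ ∀ x, π x = 0 ↔ ∃ y, x = 2 * y := by
  have hnt : Nontrivial (Rk R 0) := ⟨0, 1, d.qm0_ne_one.symm⟩
  let iD : DivisionRing (Rk R 0) := DivisionRing.ofIsUnitOrEqZero fun a => by
    by_cases h : a = 0
    · exact Or.inr h
    · exact Or.inl (d.unit0 h)
  have h3 : ∀ x : R, qm 0 x = 0 ↔ ∃ y, x = 2 * y := fun x => by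
    rw [qm_eq_zero, zero_add, pow_one]
  have h2 : (2 : Rk R 0) = 0 := by
    rw [← map_ofNat (qm 0) 2]
    exact (h3 2).2 ⟨1, by rw [mul_one]⟩
  have hc : CharP (Rk R 0) 2 := CharTwo.of_one_ne_zero_of_two_eq_zero one_ne_zero h2
  exact ⟨Rk R 0, iD, ZMod.algebra _ 2, qm 0, qm_surj 0, h3⟩

/-! ### the extension -/

section ext
variable {Q B : Type} [Group Q] [Group B] (q : Q →* B) (hq : Function.Surjective q) (C : Coef q.ker)

/-- the group elements in the crossed group ring -/
def lS : Q →* CF (crs q hq C) where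
  toFun g := CF.sg (q g) ((C.l (fib q hq g) : C.Rˣ) : C.R)
  map_one' := by
    rw [map_one, fib_one, map_one, Units.val_one]
    rfl
  map_mul' g h := by
    rw [CF.mul_sg_sg, map_mul q, fib_mul, crs_σ, crs_α, C.act_l]
    simp only [map_mul, Units.val_mul]

theorem lS_apply (g : Q) : lS q hq C g = CF.sg (q g) ((C.l (fib q hq g) : C.Rˣ) : C.R) := rfl

theorem lS_ker (g : q.ker) : lS q hq C (g : Q) = CF.cst ((C.l g : C.Rˣ) : C.R) := by
  have h1 : q (g : Q) = 1 := g.2
  rw [lS_apply, h1, fib_ker, CF.cst_apply]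

variable (hB : AL B)

include hB in
theorem oddR : OddR (CF (crs q hq C)) := by
  obtain ⟨F, iF, _, j, hj, hden⟩ := C.toW.exists_F
  have := hB.li.uniqueProds
  exact
    { tf := fun x hx => CF.tf C.dv x hx
      one := CF.one_odd C.dv
      mul := fun x y hx hy => CF.odd_mul C.dv hx hy
      sep := fun x hx => CF.sep C.dv x hx
      ore := fun a s hs => by
        obtain ⟨q', _, r', _, h1, h2⟩ := CF.ore C.dv hj hden (⊤ : Subgroup B) (T5.foe_subgroup hB.foe ⊤) (CF.mem_In_top a)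
          (CF.mem_In_top s) hs
        exact ⟨q', r', h1, h2⟩ }

include hB in
theorem oreM (M : Subgroup B) {a s : CF (crs q hq C)} (ha : a ∈ CF.In M) (hs : s ∈ CF.In M) (hodd : ¬ ∃ z, s = 2 * z) :
    ∃ q' ∈ CF.In M, ∃ r ∈ CF.In M, (¬ ∃ z, r = 2 * z) ∧ r * a = q' * s := by
  obtain ⟨F, iF, _, j, hj, hden⟩ := C.toW.exists_F
  have := hB.li.uniqueProds
  exact CF.ore C.dv hj hden M (T5.foe_subgroup hB.foe M) ha hs hodd

variable {R D : Type} [Ring R] [DivisionRing D] {i : CF (crs q hq C) →+* R} (hi : IsOdd i) {π : R →+* D}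
  (hπ : ∀ x, π x = 0 ↔ ∃ y, x = 2 * y)

include hB hi hπ in
theorem even_iff_pi (x : CF (crs q hq C)) : π (i x) = 0 ↔ ∃ z, x = 2 * z := by
  rw [hπ]
  constructor
  · rintro ⟨y, hy⟩
    exact (oddR q hq C hB).even hi hy
  · rintro ⟨z, rfl⟩
    exact ⟨i z, by rw [map_mul, map_ofNat]⟩

/-- the fractions with supports in a subgroup -/
def LM (hB : AL B) (hi : IsOdd i) (hπ : ∀ x, π x = 0 ↔ ∃ y, x = 2 * y) (M : Subgroup B) : Subfield D where
  carrier := {z | ∃ s ∈ CF.In M, ∃ a ∈ CF.In M, (¬ ∃ w, s = 2 * w) ∧ π (i s) * z = π (i a)}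
  one_mem' := ⟨1, one_mem _, 1, one_mem _, (oddR q hq C hB).one, mul_one _⟩
  zero_mem' := ⟨1, one_mem _, 0, zero_mem _, (oddR q hq C hB).one, by rw [mul_zero, map_zero, map_zero]⟩
  mul_mem' := by
    rintro x y ⟨s, hsN, a, haN, hs, hx⟩ ⟨t, htN, b, hbN, ht, hy⟩
    obtain ⟨a', ha', t', ht', ht0, he⟩ := oreM q hq C hB M haN htN ht
    refine ⟨t' * s, mul_mem ht' hsN, a' * b, mul_mem ha' hbN, (oddR q hq C hB).mul _ _ ht0 hs, ?_⟩
    rw [map_mul, map_mul, map_mul, map_mul, ← hy, mul_assoc, ← mul_assoc (π (i s)), hx, ← mul_assoc, ← mul_assoc, ← map_mul, ← map_mul,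
      ← map_mul, ← map_mul, he]
  add_mem' := by
    rintro x y ⟨s, hsN, a, haN, hs, hx⟩ ⟨t, htN, b, hbN, ht, hy⟩
    obtain ⟨q', hq', r, hr, hr0, he⟩ := oreM q hq C hB M hsN htN ht
    refine ⟨r * s, mul_mem hr hsN, r * a + q' * b, add_mem (mul_mem hr haN) (mul_mem hq' hbN), (oddR q hq C hB).mul _ _ hr0 hs, ?_⟩
    rw [mul_add, map_add, map_add]
    congr 1
    · rw [map_mul, map_mul, mul_assoc, hx, map_mul, map_mul]
    · rw [he, map_mul, map_mul, mul_assoc, hy, map_mul, map_mul]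
  neg_mem' := by
    rintro x ⟨s, hsN, a, haN, hs, hx⟩
    exact ⟨s, hsN, -a, neg_mem haN, hs, by rw [mul_neg, hx, map_neg, map_neg]⟩
  inv_mem' := by
    rintro x ⟨s, hsN, a, haN, hs, hx⟩
    by_cases h0 : x = 0
    · rw [h0, inv_zero]
      exact ⟨1, one_mem _, 0, zero_mem _, (oddR q hq C hB).one, by rw [mul_zero, map_zero, map_zero]⟩
    · refine ⟨a, haN, s, hsN, fun ha => h0 ?_, by rw [← hx, mul_inv_cancel_right₀ h0]⟩
      have h1 := (even_iff_pi q hq C hB hi hπ a).2 ha
      rw [← hx] at h1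
      exact (mul_eq_zero.1 h1).resolve_left fun h2 => hs ((even_iff_pi q hq C hB hi hπ s).1 h2)

/-- common denominators -/
theorem exists_commonM {M : Subgroup B} {ι : Type} (T : Finset ι) (x : ι → D) (hx : ∀ k ∈ T, x k ∈ LM q hq C hB hi hπ M) :
    ∃ (s : CF (crs q hq C)) (a : ι → CF (crs q hq C)), s ∈ CF.In M ∧ (¬ ∃ w, s = 2 * w) ∧
      ∀ k ∈ T, a k ∈ CF.In M ∧ π (i s) * x k = π (i (a k)) := by
  classical
  induction T using Finset.induction_on with
  | empty => exact ⟨1, fun _ => 0, one_mem _, (oddR q hq C hB).one, fun k hk => absurd hk (Finset.notMem_empty k)⟩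
  | insert k T hk ih =>
    obtain ⟨s, a, hsN, hs, ha⟩ := ih fun j hj => hx j (Finset.mem_insert_of_mem hj)
    obtain ⟨t, htN, b, hbN, ht, hxk⟩ := hx k (Finset.mem_insert_self k T)
    obtain ⟨q', hq', r, hr, hr0, he⟩ := oreM q hq C hB M hsN htN ht
    refine ⟨r * s, fun j => if j = k then q' * b else r * a j, mul_mem hr hsN, (oddR q hq C hB).mul _ _ hr0 hs, fun j hj => ?_⟩
    by_cases hjk : j = k
    · subst hjk
      simp only [if_true]
      refine ⟨mul_mem hq' hbN, ?_⟩
      rw [he, map_mul, map_mul, mul_assoc, hxk, map_mul, map_mul]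
    · simp only [if_neg hjk]
      have hjT : j ∈ T := (Finset.mem_insert.1 hj).resolve_left hjk
      refine ⟨mul_mem hr (ha j hjT).1, ?_⟩
      rw [map_mul, map_mul, map_mul, map_mul, mul_assoc, (ha j hjT).2]

/-- the group in the residue skew field -/
def rS (i : CF (crs q hq C) →+* R) (π : R →+* D) : Q →* Dˣ :=
  (Units.map (π : R →* D)).comp ((Units.map (i : CF (crs q hq C) →* R)).comp (lS q hq C).toHomUnits)

theorem rS_val (g : Q) : ((rS q hq C i π g : Dˣ) : D) = π (i (lS q hq C g)) := rfl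

theorem cl_le_LM (N : Subgroup Q) : cl (rS q hq C i π) N ≤ LM q hq C hB hi hπ (N.map q) := by
  refine Subfield.closure_le.2 ?_
  rintro _ ⟨g, hg, rfl⟩
  refine ⟨1, one_mem _, lS q hq C g, CF.sg_mem_In (M := N.map q) (Subgroup.mem_map_of_mem q hg) _, (oddR q hq C hB).one, ?_⟩
  show π (i 1) * ((rS q hq C i π g : Dˣ) : D) = _
  rw [rS_val, map_one, map_one, one_mul]

include hB hi hπ in
/-- independence, the first kind -/
theorem indA {N : Subgroup Q} {t : Q} (ht : PInd (N.map q) (q t)) : BO.Ind (rS q hq C i π) N t := by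
  intro c hc h0
  obtain ⟨s, a, _, hs, ha⟩ := exists_commonM q hq C hB hi hπ c.support (fun u => c u)
    fun u _ => cl_le_LM q hq C hB hi hπ N (hc u)
  have h1 : π (i (∑ u ∈ c.support, a u * lS q hq C (t ^ u))) = 0 := by
    rw [map_sum, map_sum]
    calc ∑ u ∈ c.support, π (i (a u * lS q hq C (t ^ u))) = ∑ u ∈ c.support, π (i s) * (c u * (((rS q hq C i π) t ^ u : Dˣ) : D)) := by
          refine Finset.sum_congr rfl fun u hu => ?_
          rw [← map_zpow, rS_val, ← mul_assoc, (ha u hu).2, map_mul, map_mul]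
      _ = 0 := by
        rw [← Finset.mul_sum]
        have h2 : ∑ u ∈ c.support, c u * (((rS q hq C i π) t ^ u : Dˣ) : D) = 0 := h0
        rw [h2, mul_zero]
  rw [even_iff_pi q hq C hB hi hπ, CF.even_iff] at h1
  ext u
  rw [Finsupp.zero_apply]
  by_cases hu : u ∈ c.support
  · have h2 : ∃ z, a u = 2 * z := by
      rw [CF.even_iff]
      intro b
      by_cases hb : CF.co b (a u) = 0
      · exact ⟨0, by rw [hb, mul_zero]⟩
      have hbM := (ha u hu).1 b hb
      obtain ⟨r, hr⟩ := h1 (b * q (t ^ u))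
      rw [map_sum, Finset.sum_eq_single u] at hr
      · rw [lS_apply, CF.co_mul_sg, mul_inv_cancel_right, mul_assoc] at hr
        -- the unit factor
        have hunit : IsUnit ((crs q hq C).σ b ((C.l (fib q hq (t ^ u)) : C.Rˣ) : C.R) * ((crs q hq C).α b (q (t ^ u)) : C.R)) :=
          (((C.l (fib q hq (t ^ u))).isUnit).map _).mul (Units.isUnit _)
        obtain ⟨v, hv⟩ := hunit
        refine ⟨r * ((v⁻¹ : C.Rˣ) : C.R), ?_⟩
        rw [← mul_assoc, ← hr, ← hv, Units.mul_inv_cancel_right]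
      · intro v hv hvu
        rw [lS_apply, CF.co_mul_sg]
        have h3 : CF.co (b * q (t ^ u) * (q (t ^ v))⁻¹) (a v) = 0 := by
          by_contra hne
          have h4 := (ha v hv).1 _ hne
          have h5 : q t ^ (u - v) ∈ N.map q := by
            have h6 := (N.map q).mul_mem ((N.map q).inv_mem hbM) h4
            have e : b⁻¹ * (b * q (t ^ u) * (q (t ^ v))⁻¹) = q t ^ (u - v) := by
              rw [map_zpow, map_zpow, zpow_sub]
              group
            rwa [e] at h6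
          exact hvu (by have := ht _ h5; omega)
        rw [h3, zero_mul, zero_mul]
      · intro h'
        exact absurd hu h'
    have h3 := (even_iff_pi q hq C hB hi hπ (a u)).2 h2
    rw [← (ha u hu).2] at h3
    exact (mul_eq_zero.1 h3).resolve_left fun h4 => hs ((even_iff_pi q hq C hB hi hπ s).1 h4)
  · exact Finsupp.notMem_support_iff.1 hu

/-- the constants over a subgroup of the kernel -/
def LN (hB : AL B) (hi : IsOdd i) (hπ : ∀ x, π x = 0 ↔ ∃ y, x = 2 * y) (N : Subgroup q.ker) : Subfield D where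
  carrier := {z | ∃ x ∈ C.sub N, π (i (CF.cst x)) = z}
  one_mem' := ⟨1, one_mem _, by rw [map_one, map_one, map_one]⟩
  zero_mem' := ⟨0, zero_mem _, by rw [map_zero, map_zero, map_zero]⟩
  mul_mem' := by
    rintro _ _ ⟨x, hx, rfl⟩ ⟨y, hy, rfl⟩
    exact ⟨x * y, mul_mem hx hy, by rw [map_mul, map_mul, map_mul]⟩
  add_mem' := by
    rintro _ _ ⟨x, hx, rfl⟩ ⟨y, hy, rfl⟩
    exact ⟨x + y, add_mem hx hy, by rw [map_add, map_add, map_add]⟩
  neg_mem' := by
    rintro _ ⟨x, hx, rfl⟩
    exact ⟨-x, neg_mem hx, by rw [map_neg, map_neg, map_neg]⟩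
  inv_mem' := by
    rintro _ ⟨x, hx, rfl⟩
    rcases C.half x with ⟨u, rfl⟩ | ⟨y, hy⟩
    · refine ⟨_, C.sub_inv N u hx, eq_inv_of_mul_eq_one_left ?_⟩
      rw [← map_mul, ← map_mul, ← map_mul, Units.inv_mul, map_one, map_one, map_one]
    · refine ⟨0, zero_mem _, ?_⟩
      have h1 : π (i (CF.cst x)) = 0 := (even_iff_pi q hq C hB hi hπ _).2 ⟨CF.cst y, by rw [hy, map_mul, map_ofNat]⟩
      rw [h1, map_zero, map_zero, map_zero, inv_zero]

theorem cl_le_LN {N : Subgroup Q} (hN : N ≤ q.ker) :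
    cl (rS q hq C i π) N ≤ LN q hq C hB hi hπ (N.subgroupOf q.ker) := by
  refine Subfield.closure_le.2 ?_
  rintro _ ⟨g, hg, rfl⟩
  refine ⟨((C.l ⟨g, hN hg⟩ : C.Rˣ) : C.R), C.mem_sub _ _ (Subgroup.mem_subgroupOf.2 hg), ?_⟩
  show _ = ((rS q hq C i π g : Dˣ) : D)
  rw [rS_val, ← lS_ker]

include hB hi hπ in
/-- independence, the second kind -/
theorem indB {N : Subgroup Q} {t : Q} (hN : N ≤ q.ker) (htk : t ∈ q.ker) (ht : PInd N t) : BO.Ind (rS q hq C i π) N t := by
  intro c hc h0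
  choose x hx hxc using fun u => cl_le_LN q hq C hB hi hπ hN (hc u)
  have h1 : π (i (CF.cst (∑ u ∈ c.support, x u * ((C.l ((⟨t, htk⟩ : q.ker) ^ u) : C.Rˣ) : C.R)))) = 0 := by
    rw [map_sum, map_sum, map_sum]
    have h2 : ∑ u ∈ c.support, c u * (((rS q hq C i π) t ^ u : Dˣ) : D) = 0 := h0
    rw [← h2]
    refine Finset.sum_congr rfl fun u _ => ?_
    rw [← map_zpow, rS_val, ← hxc, map_mul, map_mul, map_mul, ← lS_ker]
    rfl
  rw [even_iff_pi q hq C hB hi hπ, CF.even_iff] at h1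
  classical
  obtain ⟨r, hr⟩ := h1 1
  rw [CF.cst_apply, CF.co_sg, if_pos rfl] at hr
  have h3 := C.cosets (N.subgroupOf q.ker) c.support (fun u => (⟨t, htk⟩ : q.ker) ^ u) x (by
    intro u hu v hv huv hmem
    rw [Subgroup.mem_subgroupOf] at hmem
    apply huv
    have h4 : t ^ (u - v) ∈ N := by
      rw [zpow_sub]
      exact hmem
    have := ht _ h4
    omega) (fun u _ => hx u) ⟨r, hr⟩
  ext u
  rw [Finsupp.zero_apply]
  by_cases hu : u ∈ c.support
  · obtain ⟨y, hy⟩ := h3 u hu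
    rw [← hxc u]
    exact (even_iff_pi q hq C hB hi hπ _).2 ⟨CF.cst y, by rw [hy, map_mul, map_ofNat]⟩
  · exact Finsupp.notMem_support_iff.1 hu

end ext

/-- **the W-datum of an extension of an amenable locally indicable group** -/
theorem exists_wd_al {Q B : Type} [Group Q] [Group B] (q : Q →* B) (hq : Function.Surjective q) (hB : AL B)
    (hK : LZ q.ker) (C : Coef q.ker) : Nonempty (WD Q) := by
  have hodd := oddR q hq C hB
  obtain ⟨R, iR, i, hi⟩ := hodd.exists_loc
  have d : DV R := hodd.dv hi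
  obtain ⟨D, iD, aD, π, hπs, hπ⟩ := d.exists_D
  have hloc : T5.Loc (rS q hq C i π) (rS q hq C i π) := by
    intro S hS hne
    by_cases hc : S.map q = ⊥
    · have hle : S ≤ q.ker := by
        intro x hx
        have h3 : q x ∈ S.map q := Subgroup.mem_map_of_mem _ hx
        rw [hc, Subgroup.mem_bot] at h3
        exact h3
      have hmap : (S.subgroupOf q.ker).map q.ker.subtype = S := by
        rw [Subgroup.subgroupOf_map_subtype, inf_eq_left.2 hle]
      have hfg : (S.subgroupOf q.ker).FG := by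
        have e := Subgroup.subgroupOfEquivOfLe hle
        have h3 : Group.FG S := (Group.fg_iff_subgroup_fg S).2 hS
        have h4 : Group.FG (S.subgroupOf q.ker) := Group.fg_of_surjective (f := e.symm.toMonoidHom) e.symm.surjective
        exact (Group.fg_iff_subgroup_fg _).1 h4
      obtain ⟨N', t', h'⟩ := hK (S.subgroupOf q.ker) hfg (by
        intro h0
        apply hne
        rw [← hmap, h0, Subgroup.map_bot])
      have h3 := zp_map h' q.ker.subtype q.ker.subtype_injective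
      rw [hmap] at h3
      have h4 : BO.Ind (rS q hq C i π) (N'.map q.ker.subtype) (q.ker.subtype t') :=
        indB q hq C hB hi hπ (h3.le.trans hle) t'.2 h3.inf
      exact ⟨_, _, h3, h4, h4⟩
    · obtain ⟨N', t', h'⟩ := LZ.of_li hB.li (S.map q) (T5.fg_map hS _) hc
      obtain ⟨N'', t, hz, hN, rfl⟩ := exists_zp_of_map S q h'
      have h4 : BO.Ind (rS q hq C i π) N'' t := indA q hq C hB hi hπ fun n hn => h'.inf n (hN hn)
      exact ⟨N'', t, hz, h4, h4⟩
  exact ⟨
    { R := R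
      l := (Units.map (i : CF (crs q hq C) →* R)).comp (lS q hq C).toHomUnits
      D := D
      red := π
      surj := hπs
      unit := fun x hx => (d.half x).resolve_right fun h => hx ((hπ x).2 h)
      ker := hπ
      tf := d.tf
      sep := d.sep
      cos := allCos_of_loc hloc }⟩

end SQ.U
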