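import Pool.Agent.SQ.U.HH

/-!
# SQ/U: directed unions

If all finitely generated subgroups of `K` have the property `P`, then so does `K`.
-/

set_option autoImplicit false

noncomputable section

namespace SQ.U

open Filter SQ.Ultra SQ.T3 SQ.T5 SQ.BO Singer

/-- independence passes to the image -/
theorem ind_of_comp {K Q : Type} [Group K] [Group Q] {E : Type} [DivisionRing E] {σ : Q →* Eˣ} {f : K →* Q} {N : Subgroup K}
    {t : K} (h : BO.Ind (σ.comp f) N t) : BO.Ind σ (N.map f) (f t) := by
  intro c hc h0
  refine h c (fun u => ?_) h0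
  rw [cl_comp_map]
  exact hc u

variable {K : Type} [Group K]

theorem LZ.of_local (h : ∀ S : Subgroup K, S.FG → LZ S) : LZ K := by
  intro S hS hne
  have h1 : Group.FG S := (Group.fg_iff_subgroup_fg S).2 hS
  have h2 : (⊤ : Subgroup S) ≠ ⊥ := by
    intro h0
    apply hne
    rw [Subgroup.eq_bot_iff_forall]
    intro x hx
    have h3 : (⟨x, hx⟩ : S) ∈ (⊥ : Subgroup S) := by
      rw [← h0]
      exact Subgroup.mem_top _
    exact congrArg Subtype.val (Subgroup.mem_bot.1 h3)
  obtain ⟨N, t, hz⟩ := h S hS ⊤ (Group.fg_def.1 h1) h2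
  have h3 := zp_map hz S.subtype S.subtype_injective
  rw [← MonoidHom.range_eq_map, Subgroup.range_subtype] at h3
  exact ⟨_, _, h3⟩

/-- the subgroup generated by a finite set -/
abbrev fc (T : Finset K) : Subgroup K := Subgroup.closure (T : Set K)

theorem mem_fc {T : Finset K} {g : K} (h : g ∈ T) : g ∈ fc T := Subgroup.subset_closure h

theorem fc_mono {T T' : Finset K} (h : T ≤ T') : fc T ≤ fc T' := Subgroup.closure_mono (Finset.coe_subset.2 h)

section ultra
variable (W : ∀ T : Finset K, WD (fc T)) (U : Ultrafilter (Finset K)) (hU : (U : Filter (Finset K)) ≤ atTop)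

open Classical in
/-- the sequence of a group element -/
def lf (g : K) (T : Finset K) : (W T).R := if h : g ∈ fc T then (((W T).l ⟨g, h⟩ : (W T).Rˣ) : (W T).R) else 1

theorem lf_mem {g : K} {T : Finset K} (h : g ∈ fc T) : lf W g T = (((W T).l ⟨g, h⟩ : (W T).Rˣ) : (W T).R) := dif_pos h

open Classical in
/-- the group in the ultraproduct -/
def lst (hU : (U : Filter (Finset K)) ≤ atTop) : K →* (UR U fun T => (W T).R)ˣ :=
  MonoidHom.toHomUnits
    { toFun := fun g => mkR U (fun T => (W T).R) (lf W g)
      map_one' := by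
        rw [← map_one (mkR U fun T => (W T).R), mkR_eq]
        refine Eventually.of_forall fun T => ?_
        rw [lf_mem W (one_mem _)]
        have h1 : (⟨1, one_mem _⟩ : fc T) = 1 := rfl
        rw [h1, map_one]
        rfl
      map_mul' := fun g h => by
        rw [← map_mul, mkR_eq]
        refine hU ?_
        filter_upwards [eventually_ge_atTop ({g, h} : Finset K)] with T hT
        have hg : g ∈ fc T := mem_fc (hT (by simp))
        have hh : h ∈ fc T := mem_fc (hT (by simp))
        rw [Pi.mul_apply, lf_mem W hg, lf_mem W hh, lf_mem W (mul_mem hg hh), ← Units.val_mul, ← map_mul]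
        rfl }

open Classical in
/-- the partial homomorphisms -/
def uS (S : Subgroup K) (T : Finset K) : S →* ((W T).R)ˣ :=
  if h : S ≤ fc T then (W T).l.comp (Subgroup.inclusion h) else 1

theorem uS_eq {S : Subgroup K} {T : Finset K} (h : S ≤ fc T) : uS W S T = (W T).l.comp (Subgroup.inclusion h) := dif_pos h

theorem lst_comp {S : Subgroup K} {T₀ : Finset K} (hS : S ≤ fc T₀) : (lst W U hU).comp S.subtype = homR fun T => uS W S T := by
  ext g
  show mkR U (fun T => (W T).R) (lf W (g : K)) = _
  rw [homR_val, mkR_eq]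
  refine hU ?_
  filter_upwards [eventually_ge_atTop T₀] with T hT
  have h : S ≤ fc T := hS.trans (fc_mono hT)
  rw [lf_mem W (h g.2), uS_eq W h]
  rfl

end ultra

/-- **W-data from the finitely generated subgroups** -/
theorem WD.of_local (hL : LZ K) (hW : ∀ T : Finset K, Nonempty (WD (fc T))) : Nonempty (WD K) := by
  classical
  let W : ∀ T : Finset K, WD (fc T) := fun T => (hW T).some
  let U : Ultrafilter (Finset K) := Ultrafilter.of atTop
  have hU : (U : Filter (Finset K)) ≤ atTop := Ultrafilter.of_le _
  obtain ⟨R, iR, q, r, hq, hqr, hrs, hru, hrk, htf, hsep⟩ := exists_sep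
    (mapR (U := U) fun c => (W c).red) (mapR_surj _ fun c => (W c).surj) (mapR_unit _ fun c => (W c).unit)
    (mapR_ker _ fun c => (W c).ker) (tf_UR fun c => (W c).tf)
  let l : K →* Rˣ := (Units.map (q : UR U (fun c => (W c).R) →* R)).comp (lst W U hU)
  have hl : ∀ (S : Subgroup K) (T₀ : Finset K), S ≤ fc T₀ →
      ((Units.map (r : R →* UD U fun c => (W c).D)).comp l).comp S.subtype =
        hom fun c => (Units.map ((W c).red : (W c).R →* (W c).D)).comp (uS W S c) := by
    intro S T₀ hS
    have h0 := lst_comp W U hU hS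
    ext g
    show r (q (((lst W U hU) (g : K) : (UR U fun c => (W c).R)ˣ) : UR U fun c => (W c).R)) = _
    have h1 : ∀ x, r (q x) = mapR (U := U) (fun c => (W c).red) x := fun x => RingHom.congr_fun hqr x
    have h2 : (lst W U hU) (g : K) = (homR fun T => uS W S T) g := DFunLike.congr_fun h0 g
    rw [h1, h2]
    rfl
  have hloc : T5.Loc ((Units.map (r : R →* UD U fun c => (W c).D)).comp l)
      ((Units.map (r : R →* UD U fun c => (W c).D)).comp l) := by
    intro S hS hne
    obtain ⟨N, t, hz⟩ := hL S hS hne
    obtain ⟨T₀, hT₀⟩ := hS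
    have hST : S ≤ fc T₀ := hT₀.ge
    have hN : (N.subgroupOf S).map S.subtype = N := by
      rw [Subgroup.subgroupOf_map_subtype, inf_eq_left.2 hz.le]
    have h1 : BO.Ind (hom fun c => (Units.map ((W c).red : (W c).R →* (W c).D)).comp (uS W S c) : S →* (UD U fun c => (W c).D)ˣ)
        (N.subgroupOf S) ⟨t, hz.mem⟩ := by
      refine ind_hom _ (hU ?_)
      filter_upwards [eventually_ge_atTop T₀] with T hT
      have h : S ≤ fc T := hST.trans (fc_mono hT)
      rw [uS_eq W h]
      show BO.Ind ((W T).rho.comp (Subgroup.inclusion h)) _ _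
      refine ind_comp (ind_of_cos (W T).cos ?_)
      rintro n ⟨x, hx, hxn⟩
      refine hz.inf n ?_
      have h3 : ((Subgroup.inclusion h x : fc T) : K) = t ^ n := by
        rw [hxn]
        rfl
      have h4 : (x : K) = t ^ n := h3
      rw [← h4]
      exact Subgroup.mem_subgroupOf.1 hx
    rw [← hl S T₀ hST] at h1
    have h2 := ind_of_comp h1
    rw [hN] at h2
    exact ⟨N, t, hz, h2, h2⟩
  exact ⟨
    { R := R
      l := l
      D := UD U fun c => (W c).D
      red := r
      surj := hrs
      unit := hru
      ker := hrk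
      tf := htf
      sep := hsep
      cos := allCos_of_loc hloc }⟩

/-- **directed unions** -/
theorem P.of_local (h : ∀ S : Subgroup K, S.FG → P S) : P K := by
  have hL : LZ K := LZ.of_local fun S hS => (h S hS).lz
  exact ⟨hL, WD.of_local hL fun T => (h (fc T) ⟨T, rfl⟩).wd⟩

end SQ.U
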