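import Pool.Agent.SQ.U.HH
import Pool.Agent.SQ.U.Hughes
import Pool.Agent.SQ.BO.Asm
import Pool.Agent.SQ.HH.TwoF
import Pool.Agent.SQ.BO.SrcRow

/-!
# SQ/U: `1 ⊗ 1` is not zero in the tensor product over the group ring

Page: team-store MP_984acc_HUGHES_h76.md, (4).  `Dv H X B`: the span of the differences `a g ⊗ b - a ⊗ g b`, `a ∈ X`, `g ∈ H`,
`b ∈ B`.  By induction over the good families, `1 ⊗ 1 ∉ Dv H X E₂`.
-/

set_option autoImplicit false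
set_option linter.unusedSectionVars false

open scoped TensorProduct

noncomputable section

namespace SQ.U

open SQ.T3 SQ.T3.Tor SQ.BO SQ.HH.Two

section dv
variable {K : Type} [Group K] {E₁ E₂ : Type} [DivisionRing E₁] [DivisionRing E₂] [Algebra (ZMod 2) E₁]
  [Algebra (ZMod 2) E₂] (ρ₁ : K →* E₁ˣ) (ρ₂ : K →* E₂ˣ)

/-- the span of the differences -/
def Dv (H : Subgroup K) (X : Set E₁) (B : Set E₂) : Submodule (ZMod 2) (E₁ ⊗[ZMod 2] E₂) :=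
  Submodule.span (ZMod 2) {z | ∃ a ∈ X, ∃ g ∈ H, ∃ b ∈ B,
    z = (a * ((ρ₁ g : E₁ˣ) : E₁)) ⊗ₜ[ZMod 2] b - a ⊗ₜ[ZMod 2] (((ρ₂ g : E₂ˣ) : E₂) * b)}

variable {ρ₁ ρ₂}

theorem Dv.mk {H : Subgroup K} {X : Set E₁} {B : Set E₂} {a : E₁} (ha : a ∈ X) {g : K} (hg : g ∈ H) {b : E₂} (hb : b ∈ B) :
    (a * ((ρ₁ g : E₁ˣ) : E₁)) ⊗ₜ[ZMod 2] b - a ⊗ₜ[ZMod 2] (((ρ₂ g : E₂ˣ) : E₂) * b) ∈ Dv ρ₁ ρ₂ H X B :=
  Submodule.subset_span ⟨a, ha, g, hg, b, hb, rfl⟩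

theorem Dv.mono {H H' : Subgroup K} {X X' : Set E₁} {B B' : Set E₂} (hH : H ≤ H') (hX : X ⊆ X') (hB : B ⊆ B') :
    Dv ρ₁ ρ₂ H X B ≤ Dv ρ₁ ρ₂ H' X' B' :=
  Submodule.span_mono fun _ ⟨a, ha, g, hg, b, hb, h⟩ => ⟨a, hX ha, g, hH hg, b, hB hb, h⟩

theorem Dv.map {H : Subgroup K} {X : Set E₁} {B : Set E₂} {M : Type} [AddCommGroup M] [Module (ZMod 2) M]
    (f : E₁ ⊗[ZMod 2] E₂ →ₗ[ZMod 2] M) (S : Submodule (ZMod 2) M)
    (h : ∀ a ∈ X, ∀ g ∈ H, ∀ b ∈ B, f ((a * ((ρ₁ g : E₁ˣ) : E₁)) ⊗ₜ[ZMod 2] b) -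
      f (a ⊗ₜ[ZMod 2] (((ρ₂ g : E₂ˣ) : E₂) * b)) ∈ S) {z : E₁ ⊗[ZMod 2] E₂} (hz : z ∈ Dv ρ₁ ρ₂ H X B) : f z ∈ S := by
  refine Submodule.span_induction (p := fun z _ => f z ∈ S) ?_ (by rw [map_zero]; exact zero_mem _)
    (fun x y _ _ hx hy => by rw [map_add]; exact add_mem hx hy) (fun c x _ hx => by rw [map_smul]; exact S.smul_mem c hx) hz
  rintro _ ⟨a, ha, g, hg, b, hb, rfl⟩
  rw [map_sub]
  exact h a ha g hg b hb

/-- only finitely many elements are needed -/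
theorem Dv.fin {H : Subgroup K} {X : Set E₁} {B : Set E₂} {z : E₁ ⊗[ZMod 2] E₂} (hz : z ∈ Dv ρ₁ ρ₂ H X B) :
    ∃ Y : Set E₁, Y.Finite ∧ Y ⊆ X ∧ z ∈ Dv ρ₁ ρ₂ H Y B := by
  unfold Dv at hz
  induction hz using Submodule.span_induction with
  | mem z h =>
    obtain ⟨a, ha, g, hg, b, hb, rfl⟩ := h
    have h1 := Dv.mk (ρ₁ := ρ₁) (ρ₂ := ρ₂) (X := {a}) (Set.mem_singleton a) hg hb
    exact ⟨{a}, Set.finite_singleton a, Set.singleton_subset_iff.2 ha, h1⟩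
  | zero => exact ⟨∅, Set.finite_empty, Set.empty_subset _, zero_mem _⟩
  | add x y _ _ hx hy =>
    obtain ⟨Y, h1, h2, h3⟩ := hx
    obtain ⟨Y', h1', h2', h3'⟩ := hy
    have h4 : x ∈ Dv ρ₁ ρ₂ H (Y ∪ Y') B := Dv.mono le_rfl Set.subset_union_left (fun _ h => h) h3
    have h5 : y ∈ Dv ρ₁ ρ₂ H (Y ∪ Y') B := Dv.mono le_rfl Set.subset_union_right (fun _ h => h) h3'
    exact ⟨Y ∪ Y', h1.union h1', Set.union_subset h2 h2', add_mem h4 h5⟩
  | smul c x _ hx =>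
    obtain ⟨Y, h1, h2, h3⟩ := hx
    exact ⟨Y, h1, h2, Submodule.smul_mem _ c h3⟩

/-- a left linear retraction to a subfield -/
theorem exists_ret {E : Type} [DivisionRing E] [Algebra (ZMod 2) E] (F : Subfield E) : ∃ r : E →ₗ[ZMod 2] E,
    (∀ y, r y ∈ F) ∧ (∀ f ∈ F, ∀ y, r (f * y) = f * r y) ∧ ∀ y ∈ F, r y = y := by
  let M : Submodule F E :=
    { carrier := F
      add_mem' := fun ha hb => F.add_mem ha hb
      zero_mem' := F.zero_mem
      smul_mem' := fun c x hx => F.mul_mem c.2 hx }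
  obtain ⟨P, hP⟩ := LinearMap.exists_leftInverse_of_injective M.subtype (LinearMap.ker_eq_bot.2 M.subtype_injective)
  refine ⟨AddMonoidHom.toZModLinearMap 2
    { toFun := fun y => (P y : E)
      map_zero' := by rw [map_zero]; rfl
      map_add' := fun x y => by rw [map_add]; rfl }, fun y => (P y).2, fun f hf y => ?_, fun y hy => ?_⟩
  · show (P (f * y) : E) = f * (P y : E)
    have h1 : f * y = (⟨f, hf⟩ : F) • y := rfl
    rw [h1, map_smul]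
    rfl
  · have h1 : P y = ⟨y, hy⟩ := LinearMap.congr_fun hP ⟨y, hy⟩
    show (P y : E) = y
    rw [h1]

/-- a right linear retraction to a subfield -/
theorem exists_ret_right {E : Type} [DivisionRing E] [Algebra (ZMod 2) E] (F : Subfield E) : ∃ r : E →ₗ[ZMod 2] E,
    (∀ y, r y ∈ F) ∧ (∀ f ∈ F, ∀ y, r (y * f) = r y * f) ∧ ∀ y ∈ F, r y = y := by
  let F' : Subfield Eᵐᵒᵖ :=
    { carrier := {x | x.unop ∈ F}
      mul_mem' := fun {a b} ha hb => F.mul_mem hb ha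
      one_mem' := F.one_mem
      add_mem' := fun {a b} ha hb => F.add_mem ha hb
      zero_mem' := F.zero_mem
      neg_mem' := fun {a} ha => F.neg_mem ha
      inv_mem' := fun a ha => F.inv_mem ha }
  obtain ⟨r, h1, h2, h3⟩ := exists_ret (E := Eᵐᵒᵖ) F'
  refine ⟨AddMonoidHom.toZModLinearMap 2
    { toFun := fun y => (r (MulOpposite.op y)).unop
      map_zero' := by rw [MulOpposite.op_zero, map_zero]; rfl
      map_add' := fun x y => by rw [MulOpposite.op_add, map_add]; rfl }, fun y => h1 _, fun f hf y => ?_, fun y hy => ?_⟩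
  · show (r (MulOpposite.op (y * f))).unop = (r (MulOpposite.op y)).unop * f
    rw [MulOpposite.op_mul, h2 (MulOpposite.op f) hf]
    rfl
  · show (r (MulOpposite.op y)).unop = y
    rw [h3 (MulOpposite.op y) hy]
    rfl

/-- the second components may be taken in the division closure -/
theorem Dv.ret {H : Subgroup K} {X : Set E₁} (h : (1 : E₁) ⊗ₜ[ZMod 2] (1 : E₂) ∈ Dv ρ₁ ρ₂ H X Set.univ) :
    (1 : E₁) ⊗ₜ[ZMod 2] (1 : E₂) ∈ Dv ρ₁ ρ₂ H X (cl ρ₂ H : Set E₂) := by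
  obtain ⟨r, h1, h2, h3⟩ := exists_ret (cl ρ₂ H)
  have h4 := Dv.map (LinearMap.lTensor E₁ r) (Dv ρ₁ ρ₂ H X (cl ρ₂ H : Set E₂)) (fun a ha g hg b _ => by
    rw [LinearMap.lTensor_tmul, LinearMap.lTensor_tmul, h2 _ (T3.mem_cl ρ₂ hg)]
    exact Dv.mk ha hg (h1 b)) h
  rwa [LinearMap.lTensor_tmul, h3 1 (one_mem _)] at h4

/-! ### base -/

theorem nq_base (hli : LinearIndependent (ZMod 2) fun g : K => ((ρ₁ g : E₁ˣ) : E₁)) (H : Subgroup K) {X : Set E₁}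
    (hX : ∀ x ∈ X, x ∈ AddSubgroup.closure ((fun g : K => ((ρ₁ g : E₁ˣ) : E₁)) '' (H : Set K))) :
    (1 : E₁) ⊗ₜ[ZMod 2] (1 : E₂) ∉ Dv ρ₁ ρ₂ H X Set.univ := by
  classical
  intro h
  -- the coordinates of the group elements
  obtain ⟨P, hP⟩ := LinearMap.exists_leftInverse_of_injective (Finsupp.linearCombination (ZMod 2) fun g : K => ((ρ₁ g : E₁ˣ) : E₁))
    (LinearMap.ker_eq_bot.2 hli)
  have hP1 : ∀ g : K, P ((ρ₁ g : E₁ˣ) : E₁) = Finsupp.single g 1 := by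
    intro g
    have h1 := LinearMap.congr_fun hP (Finsupp.single g 1)
    rw [LinearMap.comp_apply, Finsupp.linearCombination_single, one_smul, LinearMap.id_apply] at h1
    exact h1
  let Q : E₁ →ₗ[ZMod 2] (E₂ →ₗ[ZMod 2] E₂) :=
    (Finsupp.linearCombination (ZMod 2) fun g : K => LinearMap.mulLeft (ZMod 2) ((ρ₂ g : E₂ˣ) : E₂)) ∘ₗ P
  have hQ : ∀ (g : K) (b : E₂), Q ((ρ₁ g : E₁ˣ) : E₁) b = ((ρ₂ g : E₂ˣ) : E₂) * b := by
    intro g b
    show (Finsupp.linearCombination (ZMod 2) (fun g : K => LinearMap.mulLeft (ZMod 2) ((ρ₂ g : E₂ˣ) : E₂))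
      (P ((ρ₁ g : E₁ˣ) : E₁))) b = _
    rw [hP1, Finsupp.linearCombination_single, one_smul, LinearMap.mulLeft_apply]
  have hQ2 : ∀ a ∈ AddSubgroup.closure ((fun g : K => ((ρ₁ g : E₁ˣ) : E₁)) '' (H : Set K)), ∀ g : K, ∀ b : E₂,
      Q (a * ((ρ₁ g : E₁ˣ) : E₁)) b = Q a (((ρ₂ g : E₂ˣ) : E₂) * b) := by
    intro a ha g b
    induction ha using AddSubgroup.closure_induction with
    | mem a h =>
      obtain ⟨k, _, rfl⟩ := h
      show Q (((ρ₁ k : E₁ˣ) : E₁) * ((ρ₁ g : E₁ˣ) : E₁)) b = Q ((ρ₁ k : E₁ˣ) : E₁) (((ρ₂ g : E₂ˣ) : E₂) * b)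
      rw [← Units.val_mul, ← map_mul, hQ, hQ, map_mul, Units.val_mul, mul_assoc]
    | zero => rw [zero_mul, map_zero]; rfl
    | add x y _ _ hx hy => rw [add_mul, map_add, map_add, LinearMap.add_apply, LinearMap.add_apply, hx, hy]
    | neg x _ hx => rw [neg_mul, map_neg, map_neg, LinearMap.neg_apply, LinearMap.neg_apply, hx]
  have h1 := Dv.map (TensorProduct.lift Q) ⊥ (fun a ha g _ b _ => by
    rw [TensorProduct.lift.tmul, TensorProduct.lift.tmul, hQ2 a (hX a ha), sub_self]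
    exact zero_mem _) h
  rw [TensorProduct.lift.tmul, Submodule.mem_bot] at h1
  have h2 := hQ 1 1
  have e1 : ((ρ₁ 1 : E₁ˣ) : E₁) = 1 := by rw [map_one, Units.val_one]
  have e2 : ((ρ₂ 1 : E₂ˣ) : E₂) = 1 := by rw [map_one, Units.val_one]
  rw [e1, e2, mul_one] at h2
  rw [h2] at h1
  exact one_ne_zero h1

/-! ### induction from a subgroup -/

theorem nq_up {H' H : Subgroup K} (le : H' ≤ H) (ci : BO.CosInd ρ₁ H' H) {X' X : Set E₁} (mem : ∀ x ∈ X', x ∈ cl ρ₁ H')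
    (hX : ∀ x ∈ X, ∃ x' ∈ X', ∃ g ∈ H, x = x' * ((ρ₁ g : E₁ˣ) : E₁))
    (h : (1 : E₁) ⊗ₜ[ZMod 2] (1 : E₂) ∈ Dv ρ₁ ρ₂ H X Set.univ) :
    (1 : E₁) ⊗ₜ[ZMod 2] (1 : E₂) ∈ Dv ρ₁ ρ₂ H' X' Set.univ := by
  classical
  obtain ⟨π, hπ1, hπ2⟩ := exists_proj ρ₁ H' H ci
  -- representatives, 1 for the trivial coset
  let r : K → K := fun h => if h ∈ H' then 1 else (Quotient.mk (QuotientGroup.rightRel H') h).out
  have hr1 : ∀ h, r h * h⁻¹ ∈ H' := by
    intro h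
    by_cases hh : h ∈ H'
    · show (if h ∈ H' then 1 else (Quotient.mk (QuotientGroup.rightRel H') h).out) * h⁻¹ ∈ H'
      rw [if_pos hh, one_mul]
      exact H'.inv_mem hh
    · show (if h ∈ H' then 1 else (Quotient.mk (QuotientGroup.rightRel H') h).out) * h⁻¹ ∈ H'
      rw [if_neg hh]
      have h1 : QuotientGroup.rightRel H' (Quotient.mk (QuotientGroup.rightRel H') h).out h :=
        Quotient.mk_out (s := QuotientGroup.rightRel H') h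
      exact QuotientGroup.rightRel_apply.1 ((QuotientGroup.rightRel H').symm' h1)
  have hr2 : ∀ h k, k * h⁻¹ ∈ H' → r k = r h := by
    intro h k hk
    by_cases hh : h ∈ H'
    · have hk' : k ∈ H' := by
        have := H'.mul_mem hk hh
        rwa [inv_mul_cancel_right] at this
      show (if k ∈ H' then 1 else _) = (if h ∈ H' then 1 else _)
      rw [if_pos hh, if_pos hk']
    · have hk' : k ∉ H' := by
        intro hk'
        apply hh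
        have := H'.mul_mem (H'.inv_mem hk) hk'
        rwa [mul_inv_rev, inv_inv, inv_mul_cancel_right] at this
      show (if k ∈ H' then 1 else (Quotient.mk (QuotientGroup.rightRel H') k).out) =
        (if h ∈ H' then 1 else (Quotient.mk (QuotientGroup.rightRel H') h).out)
      rw [if_neg hh, if_neg hk']
      have h1 : (Quotient.mk (QuotientGroup.rightRel H') k) = Quotient.mk (QuotientGroup.rightRel H') h :=
        Quotient.sound (s := QuotientGroup.rightRel H') (by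
          have h2 : QuotientGroup.rightRel H' h k := QuotientGroup.rightRel_apply.2 hk
          exact (QuotientGroup.rightRel H').symm' h2)
      rw [h1]
  have hr0 : r 1 = 1 := if_pos H'.one_mem
  have hrH : ∀ h ∈ H, r h ∈ H := by
    intro h hh
    have := H.mul_mem (le (hr1 h)) hh
    rwa [inv_mul_cancel_right] at this
  have hrr : ∀ h, r (r h) = r h := fun h => hr2 _ _ (hr1 h)
  -- the component of one coset
  let cp : K → (E₁ ⊗[ZMod 2] E₂ →ₗ[ZMod 2] E₁ ⊗[ZMod 2] E₂) := fun c =>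
    TensorProduct.map (π ∘ₗ LinearMap.mulRight (ZMod 2) ((ρ₁ c⁻¹ : E₁ˣ) : E₁)) (LinearMap.mulLeft (ZMod 2) ((ρ₂ c : E₂ˣ) : E₂))
  have hcp : ∀ c x y, cp c (x ⊗ₜ[ZMod 2] y) = (π (x * ((ρ₁ c⁻¹ : E₁ˣ) : E₁))) ⊗ₜ[ZMod 2] (((ρ₂ c : E₂ˣ) : E₂) * y) :=
    fun c x y => rfl
  let pj : Finset K → (E₁ ⊗[ZMod 2] E₂ →ₗ[ZMod 2] E₁ ⊗[ZMod 2] E₂) := fun C =>
    ∑ c ∈ C.filter (fun c => r c = c ∧ c ∈ H), cp c
  -- value on one element
  have key : ∀ a ∈ X', ∀ k ∈ H, ∀ b : E₂, ∀ C : Finset K, r k ∈ C →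
      pj C ((a * ((ρ₁ k : E₁ˣ) : E₁)) ⊗ₜ[ZMod 2] b) - a ⊗ₜ[ZMod 2] (((ρ₂ k : E₂ˣ) : E₂) * b) ∈ Dv ρ₁ ρ₂ H' X' Set.univ := by
    intro a ha k hk b C hC
    have e1 : pj C ((a * ((ρ₁ k : E₁ˣ) : E₁)) ⊗ₜ[ZMod 2] b) = cp (r k) ((a * ((ρ₁ k : E₁ˣ) : E₁)) ⊗ₜ[ZMod 2] b) := by
      show (∑ c ∈ C.filter (fun c => r c = c ∧ c ∈ H), cp c) _ = _
      rw [LinearMap.sum_apply, Finset.sum_eq_single (r k)]
      · intro c hc hne
        obtain ⟨_, hc1, hc2⟩ := Finset.mem_filter.1 hc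
        rw [hcp, mul_assoc, ← Units.val_mul, ← map_mul]
        have h3 : k * c⁻¹ ∉ H' := by
          intro h4
          apply hne
          rw [← hc1, hr2 c k h4]
        rw [hπ2 a (mem a ha) _ (H.mul_mem hk (H.inv_mem hc2)) h3, TensorProduct.zero_tmul]
      · intro h'
        exact absurd (Finset.mem_filter.2 ⟨hC, hrr k, hrH k hk⟩) h'
    have h4 : k * (r k)⁻¹ ∈ H' := by
      have := H'.inv_mem (hr1 k)
      rwa [mul_inv_rev, inv_inv] at this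
    rw [e1, hcp, mul_assoc, ← Units.val_mul, ← map_mul,
      hπ1 _ ((cl ρ₁ H').mul_mem (mem a ha) (T3.mem_cl ρ₁ h4))]
    have h5 := Dv.mk (ρ₁ := ρ₁) (ρ₂ := ρ₂) ha h4 (b := ((ρ₂ (r k) : E₂ˣ) : E₂) * b) (B := Set.univ) trivial
    have e2 : ((ρ₂ (k * (r k)⁻¹) : E₂ˣ) : E₂) * (((ρ₂ (r k) : E₂ˣ) : E₂) * b) = ((ρ₂ k : E₂ˣ) : E₂) * b := by
      rw [← mul_assoc, ← Units.val_mul, ← map_mul, inv_mul_cancel_right]
    rwa [e2] at h5
  -- all elements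
  have main : ∀ z ∈ Dv ρ₁ ρ₂ H X Set.univ, ∃ C₀ : Finset K, ∀ C, C₀ ⊆ C → pj C z ∈ Dv ρ₁ ρ₂ H' X' Set.univ := by
    intro z hz
    refine Submodule.span_induction (p := fun z _ => ∃ C₀ : Finset K, ∀ C, C₀ ⊆ C → pj C z ∈ Dv ρ₁ ρ₂ H' X' Set.univ) ?_
      ⟨∅, fun C _ => by rw [map_zero]; exact zero_mem _⟩ ?_ ?_ hz
    · rintro _ ⟨x, hx, g, hg, b, _, rfl⟩
      obtain ⟨a, ha, k, hk, rfl⟩ := hX x hx
      refine ⟨{r (k * g), r k}, fun C hC => ?_⟩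
      have h1 := key a ha (k * g) (H.mul_mem hk hg) b C (hC (Finset.mem_insert_self _ _))
      have h2 := key a ha k hk (((ρ₂ g : E₂ˣ) : E₂) * b) C (hC (Finset.mem_insert_of_mem (Finset.mem_singleton_self _)))
      rw [map_mul, Units.val_mul, ← mul_assoc a, map_mul, Units.val_mul, mul_assoc ((ρ₂ k : E₂ˣ) : E₂)] at h1
      have h3 := sub_mem h1 h2
      rwa [sub_sub_sub_cancel_right, ← map_sub] at h3
    · rintro x y _ _ ⟨C, hC⟩ ⟨C', hC'⟩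
      exact ⟨C ∪ C', fun D hD => by
        rw [map_add]
        exact add_mem (hC D (Finset.union_subset_left hD)) (hC' D (Finset.union_subset_right hD))⟩
    · rintro c x _ ⟨C, hC⟩
      exact ⟨C, fun D hD => by
        rw [map_smul]
        exact Submodule.smul_mem _ c (hC D hD)⟩
  obtain ⟨C₀, hC₀⟩ := main _ h
  have h1 := hC₀ (insert 1 C₀) (Finset.subset_insert _ _)
  have e : pj (insert 1 C₀) ((1 : E₁) ⊗ₜ[ZMod 2] (1 : E₂)) = (1 : E₁) ⊗ₜ[ZMod 2] (1 : E₂) := by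
    show (∑ c ∈ (insert 1 C₀).filter (fun c => r c = c ∧ c ∈ H), cp c) _ = _
    rw [LinearMap.sum_apply, Finset.sum_eq_single 1]
    · rw [hcp, inv_one, map_one, map_one, Units.val_one, Units.val_one, mul_one, one_mul, hπ1 1 (one_mem _)]
    · intro c hc hne
      obtain ⟨_, hc1, hc2⟩ := Finset.mem_filter.1 hc
      rw [hcp]
      have h3 : c⁻¹ ∉ H' := by
        intro h4
        apply hne
        rw [← hc1, hr2 1 c (by rw [inv_one, mul_one]; exact (H'.inv_mem_iff).1 h4), hr0]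
      rw [hπ2 1 (one_mem _) _ (H.inv_mem hc2) h3, TensorProduct.zero_tmul]
    · intro h'
      exact absurd (Finset.mem_filter.2 ⟨Finset.mem_insert_self _ _, hr0, H.one_mem⟩) h'
  rwa [e] at h1

end dv

end SQ.U
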