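import Pool.Agent.SQ.U.CF
import Pool.Agent.SQ.U.Grp

/-!
# The Ore condition in the crossed group ring, for the elements which are not divisible by 2
-/

set_option autoImplicit false
set_option linter.unusedSectionVars false

noncomputable section

namespace SQ.U

open SQ.T3

/-! ### linear algebra over `R` -/

namespace DV
variable {R : Type} [Ring R] (d : DV R)

include d

theorem pow_tf (m : ℕ) {x : R} (h : 2 ^ m * x = 0) : x = 0 := by
  induction m with
  | zero => rwa [pow_zero, one_mul] at h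
  | succ m ih =>
    rw [pow_succ', mul_assoc] at h
    exact ih (d.tf _ h)

theorem one_ne : (1 : R) ≠ 0 := fun h => d.one 0 (by rw [mul_zero, h])

theorem two_pow_ne (m : ℕ) : (2 : R) ^ m ≠ 0 := fun h => d.one_ne (d.pow_tf m (x := 1) (by rw [mul_one, h]))

/-- a solution which is not divisible by 2 -/
theorem exists_odd {ι κ : Type} [Fintype ι] (M : ι → κ → R) (w : ι → R) (hw : w ≠ 0) (h : ∀ k, ∑ i, w i * M i k = 0) :
    ∃ v : ι → R, (∃ i, ¬ ∃ y, v i = 2 * y) ∧ ∀ k, ∑ i, v i * M i k = 0 := by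
  classical
  obtain ⟨i, hi⟩ : ∃ i, w i ≠ 0 := by
    by_contra hcon
    push Not at hcon
    exact hw (funext hcon)
  have hex : ∃ k : ℕ, ¬ ∀ i, ∃ y, w i = 2 ^ k * y := by
    by_contra hcon
    push Not at hcon
    exact hi (d.sep _ fun k => hcon k i)
  obtain ⟨m, hm⟩ : ∃ m, Nat.find hex = m + 1 := by
    refine Nat.exists_eq_succ_of_ne_zero fun h0 => ?_
    have h1 := Nat.find_spec hex
    rw [h0] at h1
    exact h1 fun i => ⟨w i, by rw [pow_zero, one_mul]⟩
  have h1 := Nat.find_spec hex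
  rw [hm] at h1
  have h2 : ∀ i, ∃ y, w i = 2 ^ m * y := by
    by_contra hcon
    have := Nat.find_min' hex hcon
    omega
  choose v hv using h2
  refine ⟨v, ?_, fun k => ?_⟩
  · by_contra hcon
    push Not at hcon
    refine h1 fun i => ?_
    obtain ⟨y, hy⟩ := hcon i
    exact ⟨y, by rw [hv, hy, pow_succ, mul_assoc]⟩
  · apply d.pow_tf m
    rw [Finset.mul_sum, ← h k]
    exact Finset.sum_congr rfl fun i _ => by rw [hv, mul_assoc]

variable {F : Type} [DivisionRing F] {j : R →+* F} (hj : Function.Injective j)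
  (hden : ∀ x : F, ∃ (m : ℕ) (y : R), 2 ^ m * x = j y)

include hj hden

/-- a homogeneous system with more unknowns than equations -/
theorem exists_ker {ι κ : Type} [Fintype ι] [Fintype κ] (hc : Fintype.card κ < Fintype.card ι) (M : ι → κ → R) :
    ∃ v : ι → R, (∃ i, ¬ ∃ y, v i = 2 * y) ∧ ∀ k, ∑ i, v i * M i k = 0 := by
  classical
  let L : (ι → F) →ₗ[F] (κ → F) :=
    { toFun := fun v k => ∑ i, v i * j (M i k)
      map_add' := fun v w => funext fun k => by
        rw [Pi.add_apply, ← Finset.sum_add_distrib]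
        exact Finset.sum_congr rfl fun i _ => by rw [Pi.add_apply, add_mul]
      map_smul' := fun c v => funext fun k => by
        rw [Pi.smul_apply, Finset.smul_sum]
        exact Finset.sum_congr rfl fun i _ => by rw [Pi.smul_apply, smul_eq_mul, RingHom.id_apply, smul_eq_mul, mul_assoc] }
  have hker : ¬ Function.Injective L := by
    intro hinj
    have h1 := card_le_of_injective F L hinj
    omega
  obtain ⟨p, hp, hp0⟩ : ∃ p, L p = 0 ∧ p ≠ 0 := by
    by_contra hcon
    push Not at hcon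
    exact hker ((injective_iff_map_eq_zero L).2 hcon)
  choose m y hy using fun i => hden (p i)
  have h2 : ∀ k : ℕ, (2 : F) ^ k ≠ 0 := by
    intro k h
    apply d.two_pow_ne k
    apply hj
    rw [map_pow, map_ofNat, h, map_zero]
  have h1 : ∀ i, (2 : F) ^ (∑ i, m i) * p i = j (2 ^ (∑ i' ∈ Finset.univ.erase i, m i') * y i) := by
    intro i
    rw [map_mul, map_pow, map_ofNat, ← hy, ← mul_assoc, ← pow_add, Finset.sum_erase_add _ _ (Finset.mem_univ i)]
  refine d.exists_odd M (fun i => 2 ^ (∑ i' ∈ Finset.univ.erase i, m i') * y i) ?_ fun k => hj ?_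
  · intro h0
    apply hp0
    funext i
    have h3 := h1 i
    have h4 : (2 : R) ^ (∑ i' ∈ Finset.univ.erase i, m i') * y i = 0 := congrFun h0 i
    rw [h4, map_zero] at h3
    exact (mul_eq_zero.1 h3).resolve_left (h2 _)
  · rw [map_sum, map_zero]
    have h3 : L p k = 0 := congrFun hp k
    have h4 : ∑ i, p i * j (M i k) = 0 := h3
    calc ∑ i, j (2 ^ (∑ i' ∈ Finset.univ.erase i, m i') * y i * M i k) = ∑ i, 2 ^ (∑ i, m i) * (p i * j (M i k)) := by
          refine Finset.sum_congr rfl fun i _ => ?_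
          rw [map_mul, ← h1, mul_assoc]
      _ = 0 := by rw [← Finset.mul_sum, h4, mul_zero]

end DV

/-! ### the Ore condition -/

namespace CF
variable {G R : Type} [Group G] [Ring R] {C : Crs G R} (d : DV R)

/-- the elements with given coefficients -/
def tot (T : Finset G) (v : T → R) : CF C := ∑ t : T, sg (t : G) (v t)

open Classical in
theorem co_tot (T : Finset G) (v : T → R) (t : T) : co (t : G) (tot T v : CF C) = v t := by
  rw [tot, map_sum, Finset.sum_eq_single t]
  · rw [co_sg, if_pos rfl]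
  · intro s _ hs
    rw [co_sg, if_neg fun h => hs (Subtype.ext h)]
  · intro h
    exact absurd (Finset.mem_univ _) h

theorem co_tot_ne {T : Finset G} {v : T → R} {g : G} (h : co g (tot T v : CF C) ≠ 0) : g ∈ T := by
  classical
  by_contra hg
  apply h
  rw [tot, map_sum]
  refine Finset.sum_eq_zero fun t _ => ?_
  rw [co_sg]
  exact if_neg fun h' : (t : G) = g => hg (h' ▸ t.2)

theorem tot_mul (T : Finset G) (v : T → R) (a : CF C) (g : G) : co g (tot T v * a) = ∑ t : T, v t * co g (sg (t : G) 1 * a) := by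
  rw [tot, Finset.sum_mul, map_sum]
  refine Finset.sum_congr rfl fun t _ => ?_
  rw [← co_cst_mul, ← mul_assoc, cst_apply, mul_sg_sg, one_mul, C.σ_one, C.α_one_left, Units.val_one, mul_one, mul_one]

variable {F : Type} [DivisionRing F] {j : R →+* F} (hj : Function.Injective j)
  (hden : ∀ x : F, ∃ (m : ℕ) (y : R), 2 ^ m * x = j y)

include d hj hden in
/-- **the Ore condition** with supports in a subgroup -/
theorem ore [UniqueProds G] (M : Subgroup G) (hF : Foe M) {a s : CF C} (ha : a ∈ In M) (hs : s ∈ In M)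
    (hodd : ¬ ∃ z, s = 2 * z) : ∃ q ∈ In M, ∃ r ∈ In M, (¬ ∃ z, r = 2 * z) ∧ r * a = q * s := by
  classical
  let S : Finset G := sp a ∪ sp s
  have hSM : ∀ g ∈ S, g ∈ M := by
    intro g hg
    rcases Finset.mem_union.1 hg with h | h
    · exact ha g (mem_sp.1 h)
    · exact hs g (mem_sp.1 h)
  obtain ⟨Φ, I, h1, h2, h3, h4⟩ := hF (S.subtype (· ∈ M)) 1
  let e : M ↪ G := ⟨Subtype.val, Subtype.val_injective⟩
  obtain ⟨T, hT⟩ : ∃ T : Finset G, T = I.map e := ⟨_, rfl⟩
  obtain ⟨T', hT'⟩ : ∃ T' : Finset G, T' = Φ.map e := ⟨_, rfl⟩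
  have hTM : ∀ g ∈ T, g ∈ M := by
    intro g hg
    rw [hT] at hg
    obtain ⟨x, _, hx⟩ := Finset.mem_map.1 hg
    rw [← hx]
    exact x.2
  have hTT' : ∀ x ∈ T, ∀ y ∈ S, x * y ∈ T' := by
    intro x hx y hy
    rw [hT] at hx
    rw [hT']
    obtain ⟨x', hx', rfl⟩ := Finset.mem_map.1 hx
    exact Finset.mem_map.2 ⟨x' * ⟨y, hSM y hy⟩, h3 x' hx' _ (Finset.mem_subtype.2 hy), rfl⟩
  have hcard : Fintype.card T' < Fintype.card (T ⊕ T) := by
    rw [Fintype.card_sum, Fintype.card_coe, Fintype.card_coe, hT, hT', Finset.card_map, Finset.card_map]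
    have := h1.card_pos
    omega
  obtain ⟨v, ⟨i₀, hi₀⟩, hv⟩ := d.exists_ker hj hden hcard
    (fun (i : T ⊕ T) (g : T') => Sum.elim (fun t : T => co (g : G) (sg (t : G) 1 * a)) (fun t : T => -co (g : G) (sg (t : G) 1 * s)) i)
  set r : CF C := tot T fun t => v (Sum.inl t) with hr
  set q : CF C := tot T fun t => v (Sum.inr t) with hq
  have htot : ∀ w : T → R, (tot T w : CF C) ∈ In M := fun w g hg => hTM g (co_tot_ne hg)
  have heq : r * a = q * s := by
    refine CF.ext fun g => ?_
    by_cases hg : g ∈ T'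
    · have h5 := hv ⟨g, hg⟩
      rw [Fintype.sum_sum_type] at h5
      simp only [Sum.elim_inl, Sum.elim_inr, mul_neg, Finset.sum_neg_distrib] at h5
      rw [hr, hq, tot_mul, tot_mul, ← sub_eq_zero, sub_eq_add_neg]
      exact h5
    · have hz : ∀ (w : T → R) (x : CF C), sp x ⊆ S → co g (tot T w * x) = 0 := by
        intro w x hx
        by_contra hne
        obtain ⟨b, c, hb, hc, rfl⟩ := co_mul_ne hne
        exact hg (hTT' b (co_tot_ne hb) c (hx (mem_sp.2 hc)))
      rw [hr, hq, hz _ a Finset.subset_union_left, hz _ s Finset.subset_union_right]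
  refine ⟨q, htot _, r, htot _, ?_, heq⟩
  intro hre
  have hqe : ∃ z, q = 2 * z := by
    by_contra hqo
    apply odd_mul d hqo hodd
    obtain ⟨z, hz⟩ := hre
    exact ⟨z * a, by rw [← heq, hz, mul_assoc]⟩
  apply hi₀
  rcases i₀ with t | t
  · obtain ⟨z, hz⟩ := even_iff.1 hre t
    rw [hr, co_tot] at hz
    exact ⟨z, hz⟩
  · obtain ⟨z, hz⟩ := even_iff.1 hqe t
    rw [hq, co_tot] at hz
    exact ⟨z, hz⟩

end CF

end SQ.U
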