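import Pool.Agent.SQ.T5.Li
import Pool.Agent.SQ.Lead

/-!
# The Ore condition for the elements of `ℤ[A]` which are not divisible by 2

`A` has Foelner sets in all subgroups and `F_2[A]` is a domain.
-/

set_option autoImplicit false
set_option linter.unusedSectionVars false

noncomputable section

namespace SQ.U

open MonoidAlgebra SQ.T3 SQ.Ore

variable {A : Type} [Group A]

/-- the reduction modulo 2 of the integral group ring -/
def red2 : MonoidAlgebra ℤ A →+* MonoidAlgebra (ZMod 2) A := mapRingHom A (Int.castRingHom (ZMod 2))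

theorem red2_coeff (x : MonoidAlgebra ℤ A) (g : A) : (red2 x).coeff g = ((x.coeff g : ℤ) : ZMod 2) :=
  coeff_mapRingHom _ _ _

theorem two_coeff (x : MonoidAlgebra ℤ A) (g : A) : (2 * x).coeff g = 2 * x.coeff g := by
  rw [two_mul, coeff_add, Finsupp.add_apply, two_mul]

theorem red2_two (x : MonoidAlgebra ℤ A) : red2 (2 * x) = 0 := by
  ext g
  rw [red2_coeff, two_coeff, coeff_zero, Finsupp.zero_apply, Int.cast_mul]
  have h : ((2 : ℤ) : ZMod 2) = 0 := by decide
  rw [h, zero_mul]

/-- half of an element -/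
def hlf (x : MonoidAlgebra ℤ A) : MonoidAlgebra ℤ A := ofCoeff (x.coeff.mapRange (fun n => n / 2) rfl)

theorem hlf_coeff (x : MonoidAlgebra ℤ A) (g : A) : (hlf x).coeff g = x.coeff g / 2 := by
  rw [hlf, coeff_ofCoeff, Finsupp.mapRange_apply]

theorem two_hlf {x : MonoidAlgebra ℤ A} (h : red2 x = 0) : 2 * hlf x = x := by
  ext g
  rw [two_coeff, hlf_coeff]
  have h1 := congrArg (fun y => y.coeff g) h
  simp only [red2_coeff, coeff_zero, Finsupp.zero_apply] at h1
  have h2 : (2 : ℤ) ∣ x.coeff g := (ZMod.intCast_zmod_eq_zero_iff_dvd _ 2).1 h1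
  exact Int.mul_ediv_cancel' h2

theorem hlf_mem (H : Subgroup A) {x : MonoidAlgebra ℤ A} (hx : x ∈ subRing ℤ H) : hlf x ∈ subRing ℤ H := by
  intro g hg
  apply hx g
  rw [Finsupp.mem_support_iff] at hg ⊢
  intro h
  apply hg
  rw [hlf_coeff, h]
  rfl

theorem two_tf {x : MonoidAlgebra ℤ A} (h : 2 * x = 0) : x = 0 := by
  ext g
  have h1 := congrArg (fun y => y.coeff g) h
  simp only [two_coeff, coeff_zero, Finsupp.zero_apply] at h1
  rw [coeff_zero, Finsupp.zero_apply]
  omega

/-- a nonzero element is `2 ^ k` times an element which is not divisible by 2 -/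
theorem exists_odd (H : Subgroup A) {x : MonoidAlgebra ℤ A} (hx : x ≠ 0) (hxH : x ∈ subRing ℤ H) :
    ∃ (k : ℕ) (y : MonoidAlgebra ℤ A), y ∈ subRing ℤ H ∧ red2 y ≠ 0 ∧ x = 2 ^ k * y := by
  classical
  obtain ⟨g, hg⟩ : ∃ g, x.coeff g ≠ 0 := by
    by_contra hcon
    push Not at hcon
    apply hx
    ext g
    rw [hcon g, coeff_zero, Finsupp.zero_apply]
  suffices key : ∀ (n : ℕ) (x : MonoidAlgebra ℤ A), x ∈ subRing ℤ H → x.coeff g ≠ 0 → (x.coeff g).natAbs ≤ n →
      ∃ (k : ℕ) (y : MonoidAlgebra ℤ A), y ∈ subRing ℤ H ∧ red2 y ≠ 0 ∧ x = 2 ^ k * y from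
    key _ x hxH hg le_rfl
  intro n
  induction n with
  | zero =>
    intro x _ hg hn
    exact absurd (Int.natAbs_eq_zero.1 (Nat.le_zero.1 hn)) hg
  | succ n ih =>
    intro x hxH hg hn
    by_cases h : red2 x = 0
    · have h1 := two_hlf h
      have h2 : x.coeff g = 2 * (hlf x).coeff g := by rw [← two_coeff, h1]
      obtain ⟨k, y, hy1, hy2, hy3⟩ := ih (hlf x) (hlf_mem H hxH) (by
        intro h0
        rw [h0, mul_zero] at h2
        exact hg h2) (by omega)
      exact ⟨k + 1, y, hy1, hy2, by rw [← h1, hy3, pow_succ', mul_assoc]⟩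
    · exact ⟨0, x, hxH, h, by rw [pow_zero, one_mul]⟩

/-- functions on `T` as elements of the group ring -/
def toZ (T : Finset A) : (T → ℤ) →ₗ[ℤ] MonoidAlgebra ℤ A :=
  Fintype.linearCombination ℤ (fun g : T => of ℤ A (g : A))

open Classical in
theorem toZ_coeff (T : Finset A) (f : T → ℤ) (g : A) :
    (toZ T f).coeff g = if h : g ∈ T then f ⟨g, h⟩ else 0 := by
  rw [toZ, Fintype.linearCombination_apply]
  rw [coeff_sum, Finsupp.finsetSum_apply]
  split_ifs with h
  · rw [Finset.sum_eq_single (⟨g, h⟩ : T)]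
    · simp [of]
    · intro b _ hb
      have : (b : A) ≠ g := fun h' => hb (Subtype.ext h')
      simp [of, this]
    · intro h'
      exact absurd (Finset.mem_univ _) h'
  · apply Finset.sum_eq_zero
    intro b _
    have : (b : A) ≠ g := fun h' => h (h' ▸ b.2)
    simp [of, this]

theorem toZ_supp (T : Finset A) (f : T → ℤ) {g : A} (h : (toZ T f).coeff g ≠ 0) : g ∈ T := by
  classical
  by_contra h'
  rw [toZ_coeff, dif_neg h'] at h
  exact h rfl

theorem toZ_eq_zero (T : Finset A) (f : T → ℤ) (h : toZ T f = 0) : f = 0 := by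
  classical
  funext g
  have := congrArg (fun x => x.coeff (g : A)) h
  simp only [toZ_coeff, dif_pos g.2] at this
  simpa using this

open Classical in
theorem coreZ (T T' S : Finset A) (hT : ∀ x ∈ T, ∀ y ∈ S, x * y ∈ T') (hn : T'.card < 2 * T.card)
    (a s : MonoidAlgebra ℤ A) (ha : a.coeff.support ⊆ S) (hs : s.coeff.support ⊆ S) :
    ∃ f h : T → ℤ, (f, h) ≠ 0 ∧ toZ T f * a = toZ T h * s := by
  let L : ((T ⊕ T) → ℤ) →ₗ[ℤ] (T' → ℤ) :=
    { toFun := fun p g => (toZ T (fun i => p (Sum.inl i)) * a - toZ T (fun i => p (Sum.inr i)) * s).coeff (g : A)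
      map_add' := by
        intro p q
        funext g
        have e1 : (fun i : T => (p + q) (Sum.inl i)) = (fun i => p (Sum.inl i)) + fun i => q (Sum.inl i) := rfl
        have e2 : (fun i : T => (p + q) (Sum.inr i)) = (fun i => p (Sum.inr i)) + fun i => q (Sum.inr i) := rfl
        rw [e1, e2]
        simp only [map_add, add_mul, coeff_sub, coeff_add, Finsupp.sub_apply, Finsupp.add_apply, Pi.add_apply]
        ring
      map_smul' := by
        intro c p
        funext g
        have e1 : (fun i : T => (c • p) (Sum.inl i)) = c • fun i => p (Sum.inl i) := rfl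
        have e2 : (fun i : T => (c • p) (Sum.inr i)) = c • fun i => p (Sum.inr i) := rfl
        rw [e1, e2]
        simp only [map_smul, smul_mul_assoc, coeff_sub, coeff_smul,
          Finsupp.sub_apply, Finsupp.smul_apply, Pi.smul_apply, smul_eq_mul, RingHom.id_apply]
        ring }
  have hker : ¬ Function.Injective L := by
    intro hinj
    have h1 := card_le_of_injective ℤ L hinj
    rw [Fintype.card_sum, Fintype.card_coe, Fintype.card_coe] at h1
    omega
  obtain ⟨p, hp, hp0⟩ : ∃ p, L p = 0 ∧ p ≠ 0 := by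
    by_contra hcon
    push Not at hcon
    exact hker ((injective_iff_map_eq_zero L).2 hcon)
  refine ⟨fun i => p (Sum.inl i), fun i => p (Sum.inr i), ?_, ?_⟩
  · intro h0
    apply hp0
    funext i
    rcases i with i | i
    · exact congrFun (congrArg Prod.fst h0) i
    · exact congrFun (congrArg Prod.snd h0) i
  · rw [← sub_eq_zero]
    ext g
    rw [coeff_zero, Finsupp.zero_apply]
    by_cases hg : g ∈ T'
    · have := congrFun hp ⟨g, hg⟩
      exact this
    · by_contra hne
      have hmem : g ∈ (toZ T (fun i => p (Sum.inl i)) * a - toZ T (fun i => p (Sum.inr i)) * s).coeff.support :=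
        Finsupp.mem_support_iff.2 hne
      rw [coeff_sub] at hmem
      have := Finsupp.support_sub hmem
      apply hg
      rcases Finset.mem_union.1 this with h | h
      · obtain ⟨c, hc, d, hd, rfl⟩ := Finset.mem_mul.1 (support_coeff_mul_subset _ _ h)
        exact hT _ (toZ_supp T _ (Finsupp.mem_support_iff.1 hc)) _ (ha hd)
      · obtain ⟨c, hc, d, hd, rfl⟩ := Finset.mem_mul.1 (support_coeff_mul_subset _ _ h)
        exact hT _ (toZ_supp T _ (Finsupp.mem_support_iff.1 hc)) _ (hs hd)

/-- **the Ore condition** with supports in a subgroup -/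
theorem oreZ (hF : ∀ H : Subgroup A, Foe H) (hdom : NoZeroDivisors (MonoidAlgebra (ZMod 2) A)) (H : Subgroup A)
    (a : MonoidAlgebra ℤ A) (ha : a ∈ subRing ℤ H) (s : MonoidAlgebra ℤ A) (hs : s ∈ subRing ℤ H) (hs0 : red2 s ≠ 0) :
    ∃ q ∈ subRing ℤ H, ∃ r ∈ subRing ℤ H, red2 r ≠ 0 ∧ r * a = q * s := by
  classical
  let S : Finset A := a.coeff.support ∪ s.coeff.support
  have hSH : ∀ g ∈ S, g ∈ H := by
    intro g hg
    rcases Finset.mem_union.1 hg with h | h
    · exact ha g h
    · exact hs g h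
  obtain ⟨Φ, I, h1, h2, h3, h4⟩ := hF H (S.subtype (· ∈ H)) 1
  let e : H ↪ A := ⟨Subtype.val, Subtype.val_injective⟩
  obtain ⟨T, hT⟩ : ∃ T : Finset A, T = I.map e := ⟨_, rfl⟩
  have hTc : T.card = I.card := by rw [hT, Finset.card_map]
  have hTH : ∀ g ∈ T, g ∈ H := by
    intro g hg
    rw [hT] at hg
    obtain ⟨x, _, hx⟩ := Finset.mem_map.1 hg
    rw [← hx]
    exact x.2
  obtain ⟨f, h, hne, he⟩ := coreZ T (Φ.map e) S (by
      intro x hx y hy
      rw [hT] at hx
      obtain ⟨x', hx', rfl⟩ := Finset.mem_map.1 hx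
      refine Finset.mem_map.2 ⟨x' * ⟨y, hSH y hy⟩, h3 x' hx' _ ?_, rfl⟩
      exact Finset.mem_subtype.2 hy) (by
      rw [hTc, Finset.card_map]
      have := h1.card_pos
      omega) a s Finset.subset_union_left Finset.subset_union_right
  have hsupp : ∀ f : T → ℤ, toZ T f ∈ subRing ℤ H := fun f g hg => hTH g (toZ_supp _ f (Finsupp.mem_support_iff.1 hg))
  -- a solution which is not zero
  obtain ⟨g, hg⟩ : ∃ g, (toZ T f).coeff g ≠ 0 ∨ (toZ T h).coeff g ≠ 0 := by
    by_contra hcon
    push Not at hcon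
    apply hne
    have e1 : toZ T f = 0 := by
      ext g
      rw [(hcon g).1, coeff_zero, Finsupp.zero_apply]
    have e2 : toZ T h = 0 := by
      ext g
      rw [(hcon g).2, coeff_zero, Finsupp.zero_apply]
    rw [toZ_eq_zero _ _ e1, toZ_eq_zero _ _ e2]
    rfl
  -- divide by the powers of 2
  suffices key : ∀ (n : ℕ) (r q : MonoidAlgebra ℤ A), r ∈ subRing ℤ H → q ∈ subRing ℤ H → r * a = q * s →
      (r.coeff g ≠ 0 ∨ q.coeff g ≠ 0) → (r.coeff g).natAbs + (q.coeff g).natAbs ≤ n →
      ∃ q ∈ subRing ℤ H, ∃ r ∈ subRing ℤ H, red2 r ≠ 0 ∧ r * a = q * s from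
    key _ _ _ (hsupp f) (hsupp h) he hg le_rfl
  intro n
  induction n with
  | zero =>
    intro r q _ _ _ hne hn
    omega
  | succ n ih =>
    intro r q hr hq he hne hn
    by_cases h5 : red2 r = 0
    · have h6 : red2 q = 0 := by
        have h7 : red2 q * red2 s = 0 := by rw [← map_mul, ← he, map_mul, h5, zero_mul]
        exact (mul_eq_zero.1 h7).resolve_right hs0
      have e1 := two_hlf h5
      have e2 := two_hlf h6
      refine ih (hlf r) (hlf q) (hlf_mem H hr) (hlf_mem H hq) ?_ ?_ ?_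
      · rw [← sub_eq_zero]
        apply two_tf
        rw [mul_sub, ← mul_assoc, ← mul_assoc, e1, e2, he, sub_self]
      · have e3 : r.coeff g = 2 * (hlf r).coeff g := by rw [← two_coeff, e1]
        have e4 : q.coeff g = 2 * (hlf q).coeff g := by rw [← two_coeff, e2]
        omega
      · have e3 : r.coeff g = 2 * (hlf r).coeff g := by rw [← two_coeff, e1]
        have e4 : q.coeff g = 2 * (hlf q).coeff g := by rw [← two_coeff, e2]
        omega
    · exact ⟨q, hq, r, hr, h5, he⟩

end SQ.U
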