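import Pool.Agent.SQ.U.CM
import Pool.Agent.SQ.U.Coef

/-!
# Reduction modulo powers of 2 of crossed series
-/

set_option autoImplicit false
set_option linter.unusedSectionVars false

noncomputable section

namespace SQ.U

/-! ### the quotients -/

section quot
variable (R : Type) [Ring R]

/-- the multiples of `2 ^ (k + 1)` -/
def I2 (k : ℕ) : Ideal R where
  carrier := {x | ∃ y, x = 2 ^ (k + 1) * y}
  add_mem' := by
    rintro a b ⟨y, rfl⟩ ⟨z, rfl⟩
    exact ⟨y + z, (mul_add _ _ _).symm⟩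
  zero_mem' := ⟨0, (mul_zero _).symm⟩
  smul_mem' := by
    rintro c x ⟨y, rfl⟩
    exact ⟨c * y, pow_two_comm _ _ _⟩

instance (k : ℕ) : (I2 R k).IsTwoSided := ⟨by
  rintro a b ⟨y, rfl⟩
  exact ⟨y * b, mul_assoc _ _ _⟩⟩

/-- `R` modulo `2 ^ (k + 1)` -/
abbrev Rk (k : ℕ) : Type := R ⧸ I2 R k

variable {R}

/-- the quotient map -/
def qm (k : ℕ) : R →+* Rk R k := Ideal.Quotient.mk (I2 R k)

theorem qm_surj (k : ℕ) : Function.Surjective (qm k : R → Rk R k) := Ideal.Quotient.mk_surjective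

theorem qm_eq_zero {k : ℕ} {x : R} : qm k x = 0 ↔ ∃ y, x = 2 ^ (k + 1) * y := Ideal.Quotient.eq_zero_iff_mem

theorem qm_two_pow (k : ℕ) (x : R) : qm k (2 ^ (k + 1) * x) = 0 := qm_eq_zero.2 ⟨x, rfl⟩

/-- reduction -/
def rd (k : ℕ) : Rk R (k + 1) →+* Rk R k := Ideal.Quotient.lift (I2 R (k + 1)) (qm k) (by
  rintro a ⟨y, rfl⟩
  rw [pow_succ, mul_assoc]
  exact qm_two_pow k _)

theorem rd_qm (k : ℕ) (x : R) : rd k (qm (k + 1) x) = qm k x := rfl

/-- reduction modulo 2 -/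
def r0 (k : ℕ) : Rk R k →+* Rk R 0 := Ideal.Quotient.lift (I2 R k) (qm 0) (by
  rintro a ⟨y, rfl⟩
  refine qm_eq_zero.2 ⟨2 ^ k * y, ?_⟩
  rw [zero_add, pow_one, ← mul_assoc, pow_succ'])

theorem r0_qm (k : ℕ) (x : R) : r0 k (qm k x) = qm 0 x := rfl

theorem r0_rd (k : ℕ) (a : Rk R (k + 1)) : r0 k (rd k a) = r0 (k + 1) a := by
  obtain ⟨x, rfl⟩ := qm_surj (k + 1) a
  rfl

theorem r0_zero (a : Rk R 0) : r0 0 a = a := by
  obtain ⟨x, rfl⟩ := qm_surj 0 a
  rfl

theorem r0_eq_zero {k : ℕ} {a : Rk R k} (h : r0 k a = 0) : ∃ x : R, a = qm k (2 * x) := by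
  obtain ⟨x, rfl⟩ := qm_surj k a
  rw [r0_qm, qm_eq_zero] at h
  obtain ⟨y, hy⟩ := h
  rw [zero_add, pow_one] at hy
  exact ⟨y, by rw [hy]⟩

end quot

/-! ### the crossed systems -/

section crs
variable {G R : Type} [Group G] [Ring R]

/-- the reduction of a crossed system -/
def Crs.q (C : Crs G R) (k : ℕ) : Crs G (Rk R k) where
  σ g := Ideal.Quotient.lift (I2 R k) ((qm k).comp (C.σ g)) (by
    rintro a ⟨y, rfl⟩
    rw [RingHom.comp_apply, map_mul, map_pow, map_ofNat]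
    exact qm_two_pow k _)
  α g h := Units.map (qm k : R →+* Rk R k) (C.α g h)
  σ_one r := by
    obtain ⟨x, rfl⟩ := qm_surj k r
    show qm k (C.σ 1 x) = qm k x
    rw [C.σ_one]
  α_one_left g := by rw [C.α_one_left, map_one]
  α_one_right g := by rw [C.α_one_right, map_one]
  h1 a b r := by
    obtain ⟨x, rfl⟩ := qm_surj k r
    show qm k (C.σ a (C.σ b x)) * qm k (C.α a b : R) = qm k (C.α a b : R) * qm k (C.σ (a * b) x)
    rw [← map_mul, ← map_mul, C.h1]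
  h2 a b c := by
    show qm k (C.σ a (C.α b c : R)) * qm k (C.α a (b * c) : R) = qm k (C.α a b : R) * qm k (C.α (a * b) c : R)
    rw [← map_mul, ← map_mul, C.h2]

theorem Crs.q_σ (C : Crs G R) (k : ℕ) (g : G) (x : R) : (C.q k).σ g (qm k x) = qm k (C.σ g x) := rfl

theorem Crs.q_α (C : Crs G R) (k : ℕ) (g h : G) : ((C.q k).α g h : Rk R k) = qm k (C.α g h : R) := rfl

end crs

/-! ### functoriality of the series -/

section map
variable {G R R' : Type} [Group G] [LinearOrder G] [MulLeftMono G] [MulRightMono G] [Ring R] [Ring R']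

/-- compatible crossed systems -/
structure Cmp (C : Crs G R) (C' : Crs G R') (f : R →+* R') : Prop where
  σ : ∀ g r, f (C.σ g r) = C'.σ g (f r)
  α : ∀ g h, f (C.α g h : R) = (C'.α g h : R')

variable {C : Crs G R} {C' : Crs G R'} {f : R →+* R'}

/-- the map of the series -/
def CM.map (h : Cmp C C' f) : CM C →+* CM C' where
  toFun x := ⟨fun g => f (x.c g), x.pwo.mono fun g hg h0 => hg (by
    show f (x.c g) = 0
    rw [h0, map_zero])⟩
  map_zero' := CM.ext (funext fun g => map_zero f)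
  map_one' := CM.ext (funext fun g => by
    show f ((1 : CM C).c g) = (1 : CM C').c g
    rw [CM.one_c, CM.one_c]
    split_ifs
    · exact map_one f
    · exact map_zero f)
  map_add' x y := CM.ext (funext fun g => map_add f _ _)
  map_mul' x y := CM.ext (funext fun g => by
    show f ((x * y).c g) = ∑ᶠ a, f (x.c a) * C'.σ a (f (y.c (a⁻¹ * g))) * (C'.α a (a⁻¹ * g) : R')
    rw [CM.mul_c, map_finsum f (CM.supp_fin x y g)]
    refine finsum_congr fun a => ?_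
    show f (x.c a * C.σ a (y.c (a⁻¹ * g)) * (C.α a (a⁻¹ * g) : R)) = f (x.c a) * C'.σ a (f (y.c (a⁻¹ * g))) * (C'.α a (a⁻¹ * g) : R')
    rw [map_mul, map_mul, h.σ, h.α])

theorem CM.map_c (h : Cmp C C' f) (x : CM C) (g : G) : (CM.map h x).c g = f (x.c g) := rfl

theorem CM.map_sg (h : Cmp C C' f) (g : G) (r : R) : CM.map h (CM.sg g r) = CM.sg g (f r) := CM.ext (funext fun k => by
  rw [CM.map_c, CM.sg_c, CM.sg_c]
  split_ifs
  · rfl
  · exact map_zero f)

end map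

section cmp
variable {G R : Type} [Group G] [LinearOrder G] [MulLeftMono G] [MulRightMono G] [Ring R] (C : Crs G R)

theorem cmp_qm (k : ℕ) : Cmp C (C.q k) (qm k) := ⟨fun _ _ => rfl, fun _ _ => rfl⟩

theorem cmp_rd (k : ℕ) : Cmp (C.q (k + 1)) (C.q k) (rd k) := ⟨fun g r => by
  obtain ⟨x, rfl⟩ := qm_surj (k + 1) r
  rfl, fun _ _ => rfl⟩

theorem cmp_r0 (k : ℕ) : Cmp (C.q k) (C.q 0) (r0 k) := ⟨fun g r => by
  obtain ⟨x, rfl⟩ := qm_surj k r
  rfl, fun _ _ => rfl⟩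

end cmp

/-! ### graded families -/

section grd
variable {G R : Type} [Group G] [Ring R]

/-- a graded family of coefficients -/
structure Grd (C : Crs G R) where
  A : G → AddSubgroup R
  one : (1 : R) ∈ A 1
  mul : ∀ (b c : G) (r s : R), r ∈ A b → s ∈ A c → r * C.σ b s * (C.α b c : R) ∈ A (b * c)
  inv : ∀ (b : G) (r : Rˣ), (r : R) ∈ A b →
    (((Units.map (C.σ b⁻¹ : R →* R) r * C.α b⁻¹ b)⁻¹ : Rˣ) : R) ∈ A b⁻¹

namespace Grd
variable {C : Crs G R}

/-- the reduction of a graded family -/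
def q (half : ∀ x : R, IsUnit x ∨ ∃ y, x = 2 * y) (one : ∀ y : R, (1 : R) ≠ 2 * y) (𝒜 : Grd C) (k : ℕ) : Grd (C.q k) where
  A b := (𝒜.A b).map (qm k : R →+* Rk R k).toAddMonoidHom
  one := ⟨1, 𝒜.one, map_one (qm k)⟩
  mul := by
    rintro b c _ _ ⟨r, hr, rfl⟩ ⟨s, hs, rfl⟩
    exact ⟨_, 𝒜.mul b c r s hr hs, rfl⟩
  inv := by
    rintro b r' ⟨r, hr, hr'⟩
    rcases half r with ⟨u, hu⟩ | ⟨y, hy⟩
    · refine ⟨_, 𝒜.inv b u (by rw [hu]; exact hr), ?_⟩
      have h1 : r' = Units.map (qm k : R →+* Rk R k) u := Units.ext (by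
        rw [← hr', ← hu]
        rfl)
      rw [h1]
      rfl
    · exfalso
      have h1 : qm k r = (r' : Rk R k) := hr'
      obtain ⟨z, hz⟩ := qm_surj k ((r'⁻¹ : (Rk R k)ˣ) : Rk R k)
      have h2 : qm k (r * z - 1) = 0 := by
        rw [map_sub, map_mul, h1, hz, Units.mul_inv, map_one, sub_self]
      obtain ⟨w, hw⟩ := qm_eq_zero.1 h2
      apply one (y * z - 2 ^ k * w)
      rw [mul_sub, ← mul_assoc, ← hy, ← mul_assoc, ← pow_succ', ← hw, sub_sub_cancel]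

theorem mem_q {half : ∀ x : R, IsUnit x ∨ ∃ y, x = 2 * y} {one : ∀ y : R, (1 : R) ≠ 2 * y} {𝒜 : Grd C} {k : ℕ} {b : G}
    {a : Rk R k} : a ∈ (𝒜.q half one k).A b ↔ ∃ r ∈ 𝒜.A b, qm k r = a := Iff.rfl

section ord
variable [LinearOrder G] [MulLeftMono G] [MulRightMono G]

/-- the series with coefficients in a graded family -/
def sub (𝒜 : Grd C) : Subring (CM C) where
  carrier := {x | ∀ b, x.c b ∈ 𝒜.A b}
  zero_mem' b := zero_mem _
  one_mem' b := by
    rw [CM.one_c]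
    split_ifs with h
    · rw [h]
      exact 𝒜.one
    · exact zero_mem _
  add_mem' hx hy b := add_mem (hx b) (hy b)
  neg_mem' hx b := neg_mem (hx b)
  mul_mem' {x y} hx hy b := by
    rw [CM.mul_c]
    refine finsum_induction (fun r => r ∈ 𝒜.A b) (zero_mem _) (fun _ _ h1 h2 => add_mem h1 h2) fun a => ?_
    have h1 := 𝒜.mul a (a⁻¹ * b) _ _ (hx a) (hy (a⁻¹ * b))
    rwa [mul_inv_cancel_left] at h1

theorem mem_sub {𝒜 : Grd C} {x : CM C} : x ∈ 𝒜.sub ↔ ∀ b, x.c b ∈ 𝒜.A b := Iff.rfl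

end ord

end Grd

end grd

end SQ.U
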