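import Pool.Agent.SQ.U.Seq
import Pool.Agent.SQ.U.PairLoc

/-!
# SQ/U: Theorem H from a sequence of lifts
-/

set_option autoImplicit false

noncomputable section

namespace SQ.U

open Filter SQ.Ultra SQ.T3 SQ.BO Singer Pool.Agent.Helper18.SQ

/-! ### subgroups -/

section comap
variable {K K' : Type} [Group K] [Group K']

/-- the independence for the preimage of a subgroup -/
theorem ind_comap {E : Type} [DivisionRing E] {ρ : K →* Eˣ} (e : K' →* K) {N : Subgroup K} {s : K'} (h : BO.Ind ρ N (e s)) :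
    BO.Ind (ρ.comp e) (N.comap e) s := by
  intro c hc h0
  refine h c (fun u => ?_) ?_
  · have h1 : cl (ρ.comp e) (N.comap e) ≤ cl ρ N := by
      refine (Subfield.closure_le).2 ?_
      rintro _ ⟨g, hg, rfl⟩
      exact Subfield.subset_closure ⟨e g, hg, rfl⟩
    exact h1 (hc u)
  · exact h0

theorem SeqD.loc_comap (A : SeqD K) (e : K' →* K) (he : Function.Injective e) (S : Subgroup K') (hS : S.FG) (hne : S ≠ ⊥) :
    ∃ (N : Subgroup K') (t : K'), ZP S N t ∧
      ∀ᶠ c in atTop, BO.Ind (((Units.map (A.red c : A.L c →* A.D c)).comp (A.lam c)).comp e) N t ∧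
        BO.Ind (((Units.map (A.inc c : A.L c →* A.F c)).comp (A.lam c)).comp e) N t := by
  have hfg : (S.map e).FG := by
    classical
    obtain ⟨s, hs⟩ := hS
    exact ⟨s.image e, by rw [Finset.coe_image, ← MonoidHom.map_closure, hs]⟩
  obtain ⟨N, t, hz, h⟩ := A.loc (S.map e) hfg (fun h0 => hne ((Subgroup.map_eq_bot_iff_of_injective S he).1 h0))
  obtain ⟨s, hs, rfl⟩ := hz.mem
  refine ⟨N.comap e, s, ⟨?_, hs, fun g hg x hx => ?_, fun g hg => ?_, fun n hn => ?_⟩, h.mono fun c hc =>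
    ⟨ind_comap e hc.1, ind_comap e hc.2⟩⟩
  · intro x hx
    obtain ⟨y, hy, hyx⟩ := hz.le hx
    rwa [← he hyx]
  · show e (g * x * g⁻¹) ∈ N
    rw [map_mul, map_mul, map_inv]
    exact hz.conj _ ⟨g, hg, rfl⟩ _ hx
  · obtain ⟨n, hn⟩ := hz.gen _ ⟨g, hg, rfl⟩
    refine ⟨n, ?_⟩
    show e (g * s ^ (-n)) ∈ N
    rw [map_mul, map_zpow]
    exact hn
  · refine hz.inf n ?_
    rw [← map_zpow]
    exact hn

/-- a sequence of lifts of a subgroup -/
def SeqD.comap (A : SeqD K) (e : K' →* K) (he : Function.Injective e) : SeqD K' where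
  L := A.L
  D := A.D
  F := A.F
  rL := A.rL
  dD := A.dD
  aD := A.aD
  dF := A.dF
  zF := A.zF
  red := A.red
  surj := A.surj
  unit := A.unit
  inc := A.inc
  lam c := (A.lam c).comp e
  loc := A.loc_comap e he

end comap

/-! ### Theorem H -/

/-- **Theorem H for one lift** -/
theorem vanE_sub_of_lift {Γ : Type} [Group Γ] {n : ℕ} (hn : IsPD n Γ) (K : Subgroup Γ) {L D F : Type} [Ring L] [DivisionRing D]
    [Algebra (ZMod 2) D] [DivisionRing F] [CharZero F] (red : L →+* D) (hs : Function.Surjective red)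
    (hu : ∀ x, red x ≠ 0 → IsUnit x) (inc : L →+* F) (lam : K →* Lˣ) (σ : K →* Dˣ) (ρ : K →* Fˣ)
    (hσ : ∀ g, red (lam g : Lˣ) = ((σ g : Dˣ) : D)) (hρ : ∀ g, inc (lam g : Lˣ) = ((ρ g : Fˣ) : F)) (h : T5.Loc σ ρ)
    (R : FinRes K) (i : ℕ) (hi : n < 2 * i) : R.VanE i := by
  have h2 : T5.Loc ρ ρ := loc_right h
  refine vanE_sub_of_ind hn K (fun S hS hne => ?_) σ (AllCos.allInd (allCos_of_loc (loc_left h))) R i (fun h5 => ?_) hi
  · obtain ⟨N, t, hz, -, -⟩ := h S hS hne
    exact ⟨N, t, hz⟩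
  · exact vanE_of_fam R i red hu hs inc lam σ ρ ρ hσ hρ (allCos_of_loc h2 ⊥ ⊤ bot_le) (fun X hX hX' => fam_of_loc h2 hX hX') h5

/-- **Theorem H for a sequence of lifts** -/
theorem vanE_sub_of_seq {Γ : Type} [Group Γ] {n : ℕ} (hn : IsPD n Γ) (K : Subgroup Γ) (A : SeqD K) (R : FinRes K) (i : ℕ)
    (hi : n < 2 * i) : R.VanE i := by
  refine vanE_sub_of_lift hn K (L := UR T2.U0 A.L) (D := UD T2.U0 A.D) (F := UD T2.U0 A.F) (mapR A.red)
    (mapR_surj A.red A.surj) (mapR_unit A.red A.unit) (mapR A.inc) (homR A.lam)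
    (hom fun c => (Units.map (A.red c : A.L c →* A.D c)).comp (A.lam c))
    (hom fun c => (Units.map (A.inc c : A.L c →* A.F c)).comp (A.lam c)) (fun _ => rfl) (fun _ => rfl) A.loc_ultra R i hi

/-- **the same for a subgroup with a subgroup of finite index which has a sequence of lifts** -/
theorem vanE_sub_virtual_of_seq {Γ : Type} [Group Γ] {n : ℕ} (hn : IsPD n Γ) (K : Subgroup Γ) (H : Subgroup K)
    [hf : H.FiniteIndex] (hA : Countable H → Nonempty (SeqD H)) (R : FinRes K) (i : ℕ) (hi : n < 2 * i) : R.VanE i := by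
  let e : H ≃* H.map K.subtype := H.equivMapOfInjective K.subtype K.subtype_injective
  have hr : (H.subtype.comp e.symm.toMonoidHom).range = H := by
    rw [MonoidHom.range_comp, MonoidHom.range_eq_top.2 e.symm.surjective, ← MonoidHom.range_eq_map, H.range_subtype]
  refine FinRes.vanE_of_hom (H.subtype.comp e.symm.toMonoidHom) (H.subtype_injective.comp e.symm.injective)
    (by rw [hr]; exact hf) (fun R' => ?_) R
  have hc : Countable (H.map K.subtype) := T2.countable_of_finRes R'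
  obtain ⟨A⟩ := hA (e.symm.surjective.countable)
  exact vanE_sub_of_seq hn (H.map K.subtype) (A.comap e.symm.toMonoidHom e.symm.injective) R' i hi

end SQ.U
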