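import Pool.Agent.SQ.U.BarH
import Pool.Agent.SQ.U.WDef

/-!
# SQ/U, stage 7, row H1: no 2-torsion in `R₁ ⊗ R₂` over the group ring, for W-data
-/

set_option autoImplicit false

open scoped TensorProduct

noncomputable section

namespace SQ.U

open SQ.BO

variable {K : Type} [Group K]

/-- the ring is torsion-free -/
theorem WD.smul_zero (W : WD K) : ∀ (m : ℕ) (n : ℤ), n.natAbs ≤ m → n ≠ 0 → ∀ x : W.R, n • x = 0 → x = 0 := by
  intro m
  induction m with
  | zero =>
    intro n hn h0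
    exact absurd (Int.natAbs_eq_zero.1 (Nat.le_zero.1 hn)) h0
  | succ m ih =>
    intro n hn h0 x hx
    rcases Int.even_or_odd' n with ⟨k, rfl | rfl⟩
    · have hk : k ≠ 0 := by
        rintro rfl
        exact h0 rfl
      refine ih k ?_ hk x (W.tf _ ?_)
      · rw [Int.natAbs_mul] at hn
        have h1 : (2 : ℤ).natAbs = 2 := rfl
        rw [h1] at hn
        have h2 : k.natAbs ≠ 0 := Int.natAbs_ne_zero.2 hk
        omega
      · rw [mul_smul] at hx
        rw [two_mul, ← two_zsmul]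
        exact hx
    · have h1 : W.red (((2 * k + 1 : ℤ)) : W.R) = 1 := by
        have h2 : W.red ((k : W.R) + (k : W.R)) = 0 := (W.ker _).2 ⟨(k : W.R), by rw [two_mul]⟩
        rw [Int.cast_add, Int.cast_mul, Int.cast_one, map_add, Int.cast_ofNat, two_mul, h2, map_one, zero_add]
      have h2 : IsUnit ((((2 * k + 1 : ℤ)) : W.R)) := W.unit _ (by rw [h1]; exact one_ne_zero)
      rw [zsmul_eq_mul] at hx
      exact (h2.mul_right_eq_zero).1 hx

/-- the ring is flat over the integers -/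
theorem WD.flat (W : WD K) : Module.Flat ℤ W.R := by
  rw [Module.Flat.flat_iff_torsion_eq_bot_of_isBezout, Submodule.eq_bot_iff]
  intro x hx
  obtain ⟨⟨a, ha⟩, hax⟩ := (Submodule.mem_torsion_iff x).1 hx
  exact W.smul_zero a.natAbs a le_rfl (nonZeroDivisors.ne_zero ha) x hax

/-- the tensor product over the integers has no 2-torsion -/
theorem WD.tensor_tf (W₁ W₂ : WD K) (z : W₁.R ⊗[ℤ] W₂.R) (hz : 2 • z = 0) : z = 0 := by
  have := W₂.flat
  have h1 : Function.Injective ((2 : ℤ) • (LinearMap.id : W₁.R →ₗ[ℤ] W₁.R)) := by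
    rw [← LinearMap.ker_eq_bot, LinearMap.ker_eq_bot']
    intro x hx
    exact W₁.smul_zero 2 2 le_rfl two_ne_zero x hx
  have h2 := Module.Flat.rTensor_preserves_injective_linearMap (M := W₂.R) _ h1
  apply h2
  rw [map_zero, LinearMap.rTensor_smul, LinearMap.rTensor_id, LinearMap.smul_apply, LinearMap.id_apply, ← hz, two_zsmul,
    two_nsmul]

/-- **no 2-torsion** -/
theorem tf_wd (hLI : ∀ S : Subgroup K, S.FG → S ≠ ⊥ → ∃ (N : Subgroup K) (t : K), ZP S N t) (W₁ W₂ : WD K) :
    TF W₁.l W₂.l :=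
  Bar.tf_of W₁.l W₂.l W₁.surj W₂.surj (fun x h => (W₁.ker x).1 h) (fun x h => (W₂.ker x).1 h) (WD.tensor_tf W₁ W₂)
    (loc_of_allInd hLI W₁.cos.allInd W₂.cos.allInd)

end SQ.U
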